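import Pool.Agent.Lib.MP_7cad78_nt.NF.Model

/-! An integral quartic for an arbitrary twisting element. -/

namespace Pool.Agent.Lib.MP_7cad78_nt.R2

open NumberField IsDedekindDomain WithZero NF NF.Q4

variable {F : Type*} [Field F] [NumberField F]

lemma r2_sqf (I : Ideal (𝓞 F)) (hI : I ≠ ⊥) : ∃ a b : Ideal (𝓞 F), I = a * (b * b) ∧
    ∀ 𝔭 : HeightOneSpectrum (𝓞 F), ¬ a ≤ 𝔭.asIdeal ^ 2 := by
  induction hn : Ideal.absNorm I using Nat.strong_induction_on generalizing I with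
  | _ n ih =>
    by_cases h : ∀ 𝔭 : HeightOneSpectrum (𝓞 F), ¬ I ≤ 𝔭.asIdeal ^ 2
    · exact ⟨I, 1, by simp, h⟩
    push Not at h
    obtain ⟨𝔭, h⟩ := h
    obtain ⟨J, hJ⟩ := Ideal.dvd_iff_le.2 h
    have hJ0 : J ≠ ⊥ := by rintro rfl; exact hI (by simpa using hJ)
    have h1 : 1 < Ideal.absNorm 𝔭.asIdeal := by
      have a0 : Ideal.absNorm 𝔭.asIdeal ≠ 0 := by
        rw [Ne, Ideal.absNorm_eq_zero_iff]; exact 𝔭.ne_bot
      have a1 : Ideal.absNorm 𝔭.asIdeal ≠ 1 := by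
        rw [Ne, Ideal.absNorm_eq_one_iff]; exact 𝔭.isPrime.ne_top
      omega
    have h2 : 0 < Ideal.absNorm J := Nat.pos_of_ne_zero (by rwa [Ne, Ideal.absNorm_eq_zero_iff])
    obtain ⟨a, b, hab, ha⟩ := ih (Ideal.absNorm J) (by
      rw [← hn, hJ, map_mul, map_pow]
      exact lt_mul_of_one_lt_left h2 (one_lt_pow₀ h1 two_ne_zero)) J hJ0 rfl
    exact ⟨a, 𝔭.asIdeal * b, by rw [hJ, hab]; ring, ha⟩

lemma r2_half (d : 𝓞 F) (hd : d ≠ 0) : ∃ α β : 𝓞 F, (α ≠ 0 ∨ β ≠ 0) ∧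
    ∀ 𝔭 : HeightOneSpectrum (𝓞 F), ∃ g : F, 𝔭.valuation F g = max (𝔭.valuation F α) (𝔭.valuation F β) ∧
      𝔭.valuation F d ≤ 𝔭.valuation F g ^ 2 ∧ exp (-1) * 𝔭.valuation F g ^ 2 ≤ 𝔭.valuation F d := by
  obtain ⟨a, b, hab, ha⟩ := r2_sqf (Ideal.span {d}) (by simpa using hd)
  have hb : b ≠ ⊥ := by rintro rfl; exact hd (by simpa using hab)
  obtain ⟨α, hα, hα0⟩ := Submodule.exists_mem_ne_zero_of_ne_bot hb
  obtain ⟨β, rfl⟩ := IsDedekindDomain.exists_eq_span_pair hα hα0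
  refine ⟨α, β, Or.inl hα0, fun 𝔭 => ?_⟩
  obtain ⟨g, hg, hv⟩ : ∃ g ∈ Ideal.span {α, β}, 𝔭.valuation F g =
      max (𝔭.valuation F α) (𝔭.valuation F β) := by
    rcases max_choice (𝔭.valuation F α) (𝔭.valuation F β) with h | h
    · exact ⟨α, Ideal.subset_span (by simp), h.symm⟩
    · exact ⟨β, Ideal.subset_span (by simp), h.symm⟩
  have k : ∀ u ∈ Ideal.span {α, β}, 𝔭.valuation F u ≤ 𝔭.valuation F g := fun u hu => by
    obtain ⟨s, t, rfl⟩ := Ideal.mem_span_pair.1 hu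
    rw [hv]
    change 𝔭.valuation F (algebraMap (𝓞 F) F _) ≤ _
    rw [map_add, map_mul, map_mul]
    refine Valuation.map_add_le _ ?_ ?_ <;> rw [map_mul]
    · exact (mul_le_of_le_one_left' (𝔭.valuation_le_one s)).trans (le_max_left _ _)
    · exact (mul_le_of_le_one_left' (𝔭.valuation_le_one t)).trans (le_max_right _ _)
  refine ⟨g, hv, ?_, ?_⟩
  · have : d ∈ Ideal.span {α, β} * Ideal.span {α, β} :=
      (Ideal.mul_le_right : a * _ ≤ _) (by rw [← hab]; exact Ideal.mem_span_singleton_self d)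
    refine Submodule.mul_induction_on this (fun u hu w hw => ?_) fun u w hu hw => ?_
    · change 𝔭.valuation F (algebraMap (𝓞 F) F _) ≤ _
      rw [map_mul, map_mul, sq]
      exact mul_le_mul' (k u hu) (k w hw)
    · change 𝔭.valuation F (algebraMap (𝓞 F) F _) ≤ _
      rw [map_add]
      exact Valuation.map_add_le _ hu hw
  · obtain ⟨u, hu, hu'⟩ := SetLike.not_le_iff_exists.1 (ha 𝔭)
    have h1 : u * (g * g) ∈ Ideal.span {d} := by
      rw [hab]; exact Ideal.mul_mem_mul hu (Ideal.mul_mem_mul hg hg)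
    obtain ⟨t, ht⟩ := Ideal.mem_span_singleton'.1 h1
    have h2 : exp (-1) ≤ 𝔭.valuation F u := by
      rw [← HeightOneSpectrum.intValuation_le_pow_iff_mem, not_le,
        ← HeightOneSpectrum.valuation_of_algebraMap (K := F)] at hu'
      have h0 : 𝔭.valuation F u ≠ 0 := (zero_le.trans_lt hu').ne'
      change _ < 𝔭.valuation F u at hu'
      rw [← exp_log h0, exp_lt_exp] at hu'
      rw [← exp_log h0, exp_le_exp]
      omega
    have h3 := congrArg (fun z : 𝓞 F => 𝔭.valuation F (algebraMap (𝓞 F) F z)) ht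
    simp only [map_mul] at h3
    calc _ ≤ 𝔭.valuation F u * 𝔭.valuation F g ^ 2 := mul_le_mul_left h2 _
      _ = _ := by rw [sq]; exact h3.symm
      _ ≤ _ := mul_le_of_le_one_left' (𝔭.valuation_le_one t)

variable (F) in
/-- a square class has a representative which is squarefree up to a bounded factor -/
lemma r2_rep : ∃ m : ℕ, m ≠ 0 ∧ ∀ d : F, d ≠ 0 → ∃ (e : F) (d0 : 𝓞 F), e ≠ 0 ∧ d * e ^ 2 = d0 ∧
    ∀ 𝔭 : HeightOneSpectrum (𝓞 F), ∃ c : F, 𝔭.valuation F m ≤ 𝔭.valuation F c ∧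
      𝔭.valuation F c ≤ 1 ∧ (𝔭.valuation F d0 = 𝔭.valuation F c ^ 2 ∨
        𝔭.valuation F d0 = exp (-1) * 𝔭.valuation F c ^ 2) := by
  obtain ⟨m, hm, hc⟩ := content F
  refine ⟨m, hm, fun d hd => ?_⟩
  have hm' : (m : F) ≠ 0 := by exact_mod_cast hm
  obtain ⟨n1, n2, hn2, hn⟩ := IsFractionRing.div_surjective (A := 𝓞 F) d
  have hn2' : n2 ≠ 0 := nonZeroDivisors.ne_zero hn2
  have hn2'' : (n2 : F) ≠ 0 := by exact_mod_cast hn2'
  have hn1 : n1 ≠ 0 := by rintro rfl; exact hd (by simpa using hn.symm)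
  obtain ⟨α, β, hαβ, h⟩ := r2_half (n1 * n2) (mul_ne_zero hn1 hn2')
  obtain ⟨t, α', β', γ, δ, η, -, hα, hβ, hdet, htη⟩ := hc α β hαβ
  have ht : t ≠ 0 := by rintro rfl; exact hm' (by simpa using htη.symm)
  have e0 : d * (n2 * t) ^ 2 = ((n1 * n2 : 𝓞 F) : F) * t ^ 2 := by
    rw [← hn]
    change (n1 : F) / n2 * _ = algebraMap (𝓞 F) F _ * _
    rw [map_mul]
    change _ = (n1 : F) * n2 * _
    field_simp
  have key : ∀ 𝔭 : HeightOneSpectrum (𝓞 F), ∃ c : F, 𝔭.valuation F m ≤ 𝔭.valuation F c ∧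
      𝔭.valuation F c ≤ 1 ∧ (𝔭.valuation F (d * (n2 * t) ^ 2) = 𝔭.valuation F c ^ 2 ∨
        𝔭.valuation F (d * (n2 * t) ^ 2) = exp (-1) * 𝔭.valuation F c ^ 2) := fun 𝔭 => by
    obtain ⟨g, hg, h1, h2⟩ := h 𝔭
    have hv : 𝔭.valuation F (t * g) = max (𝔭.valuation F α') (𝔭.valuation F β') := by
      rw [map_mul, hg, hα, hβ, map_mul, map_mul, mul_max]
    refine ⟨t * g, ?_, ?_, ?_⟩
    · have e : (m : F) = α' * δ - γ * β' := by
        exact_mod_cast congrArg (fun z : 𝓞 F => (z : F)) hdet.symm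
      rw [e, hv]
      refine Valuation.map_sub_le _ ?_ ?_ <;> rw [map_mul]
      · exact (mul_le_of_le_one_right' (𝔭.valuation_le_one δ)).trans (le_max_left _ _)
      · exact (mul_le_of_le_one_left' (𝔭.valuation_le_one γ)).trans (le_max_right _ _)
    · rw [hv]; exact max_le (𝔭.valuation_le_one _) (𝔭.valuation_le_one _)
    · rw [e0, map_mul, map_pow, map_mul, mul_pow]
      have h0 : 𝔭.valuation F ((n1 * n2 : 𝓞 F) : F) ≠ 0 :=
        (Valuation.ne_zero_iff _).2 (by exact_mod_cast mul_ne_zero hn1 hn2')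
      have g0 : 𝔭.valuation F g ≠ 0 := fun h => h0 (by simpa [h] using h1)
      generalize 𝔭.valuation F ((n1 * n2 : 𝓞 F) : F) = D at *
      rw [← exp_log h0, ← exp_log g0, ← exp_nsmul] at h1 h2
      rw [← exp_add, exp_le_exp] at h2
      rw [exp_le_exp] at h1
      rcases (by omega : log D = 2 • log (𝔭.valuation F g) ∨
        log D = -1 + 2 • log (𝔭.valuation F g)) with h | h
      · left; rw [← exp_log h0, h, exp_nsmul, exp_log g0, mul_comm]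
      · right; rw [← exp_log h0, h, exp_add, exp_nsmul, exp_log g0, mul_assoc, mul_comm (_ ^ 2)]
  obtain ⟨d0, hd0⟩ := HeightOneSpectrum.mem_integers_of_valuation_le_one F (d * (n2 * t) ^ 2)
    fun 𝔭 => by
      obtain ⟨c, -, h1, h2 | h2⟩ := key 𝔭
      · rw [h2]; exact pow_le_one' h1 2
      · rw [h2]
        exact mul_le_one' (by rw [← exp_zero, exp_le_exp]; omega) (pow_le_one' h1 2)
  refine ⟨n2 * t, d0, mul_ne_zero hn2'' ht, hd0.symm, fun 𝔭 => ?_⟩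
  have : (d0 : F) = d * (n2 * t) ^ 2 := hd0
  rw [this]
  exact key 𝔭

lemma r2_scale {K : Type*} [Field K] {A d x y s κ m c : K} (hc : c ≠ 0) (hd : d ≠ 0) (hs : s ≠ 0) :
    ((gq A (d / c ^ 2) x (c * y)).act (c * s) (c * κ) 0 1).smul (m ^ 2 / (c * s) ^ 2) =
      ((gq A d x y).act s κ 0 1).smul (m ^ 2 / s ^ 2) := by
  ext <;> simp only [Q4.smul, Q4.act, gq] <;> field_simp <;> ring

lemma r2_int {K : Type*} [Field K] {v : Valuation K ℤᵐ⁰} {A d x y s κ m t : K} (hA : v A ≤ 1)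
    (hx : v x ≤ 1) (hy : v y ≤ 1) (hd : v d ≤ 1) (hd0 : d ≠ 0) (ht : v t ≤ v d) (hκ : v κ ≤ 1)
    (hs0 : s ≠ 0) (hs : v s ≤ 1) (hm : v m ≤ v s) :
    Int4 v (((gq A d x y).act s κ 0 1).smul ((m * t) ^ 2 / s ^ 2)) := by
  have hA' : A ∈ v.integer := hA
  have hx' : x ∈ v.integer := hx
  have hy' : y ∈ v.integer := hy
  have hd1 : d ∈ v.integer := hd
  have ht1 : t ∈ v.integer := ht.trans hd
  have hd' : t / d ∈ v.integer := by
    show v _ ≤ 1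
    rwa [map_div₀, div_le_one₀ ((Valuation.pos_iff v).2 hd0)]
  have k0 : Int4 v ⟨t * d, 0, -6 * x * t, -8 * y * t, -(3 * x ^ 2 + 4 * A) * (t / d)⟩ :=
    ⟨mul_mem ht1 hd1, zero_mem _, mul_mem (mul_mem (neg_mem (ofNat_mem _ 6)) hx') ht1,
      mul_mem (mul_mem (neg_mem (ofNat_mem _ 8)) hy') ht1,
      mul_mem (neg_mem (add_mem (mul_mem (ofNat_mem _ 3) (pow_mem hx' 2))
        (mul_mem (ofNat_mem _ 4) hA'))) hd'⟩
  have k1 : m / s ∈ v.integer := by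
    show v _ ≤ 1
    rwa [map_div₀, div_le_one₀ ((Valuation.pos_iff v).2 hs0)]
  convert (k0.act hs hκ (zero_mem _) (one_mem _)).smul (mul_mem ht1 (pow_mem k1 2)) using 1
  ext <;> simp only [Q4.smul, Q4.act, gq] <;> ring

variable (F) in
lemma r2_model0 (m0 M : ℕ) (hm0 : m0 ≠ 0) (hM : M ≠ 0) : ∃ m : ℕ, m ≠ 0 ∧ ∀ (A B d : 𝓞 F) (x y : F), d ≠ 0 →
    d * y ^ 2 = x ^ 3 + A * x + B →
    (∀ 𝔭 : HeightOneSpectrum (𝓞 F), ∃ c : F, 𝔭.valuation F m0 ≤ 𝔭.valuation F c ∧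
      𝔭.valuation F c ≤ 1 ∧ (𝔭.valuation F d = 𝔭.valuation F c ^ 2 ∨
      (𝔭.valuation F d = exp (-1) * 𝔭.valuation F c ^ 2 ∧
        (1 < 𝔭.valuation F x ∨ 𝔭.valuation F M < 1)))) →
    ∃ (f : Q4 (𝓞 F)) (s κ : F), s ≠ 0 ∧
      f.map (algebraMap (𝓞 F) F) = ((gq (A : F) d x y).act s κ 0 1).smul (m ^ 2 / s ^ 2) ∧
      ∀ 𝔭 : HeightOneSpectrum (𝓞 F), 𝔭.valuation F m = 1 →
        (1 < 𝔭.valuation F x → 𝔭.valuation F f.a < 1) ∧
        (𝔭.valuation F x ≤ 1 → 𝔭.valuation F d = 1 ∧ 𝔭.valuation F s = 1 ∧ 𝔭.valuation F κ ≤ 1 ∧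
          𝔭.valuation F y ≤ 1) := by
  obtain ⟨m, hm, hc⟩ := content F
  refine ⟨m0 * m * M, mul_ne_zero (mul_ne_zero hm0 hm) hM, fun A B d x y hd h hloc => ?_⟩
  have lN : ∀ (𝔭 : HeightOneSpectrum (𝓞 F)) (n : ℕ), 𝔭.valuation F n ≤ 1 := fun 𝔭 n => by
    simpa using 𝔭.valuation_le_one (K := F) (n : 𝓞 F)
  have hd' : (d : F) ≠ 0 := by exact_mod_cast hd
  have hm0' : (m0 : F) ≠ 0 := by exact_mod_cast hm0
  obtain ⟨β, b, hβ, c, hbc⟩ := coprime_den x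
  obtain ⟨n1, n2, hn2, hn⟩ := IsFractionRing.div_surjective (A := 𝓞 F) ((d : F) * (-y * β))
  have hn2' : n2 ≠ 0 := nonZeroDivisors.ne_zero hn2
  have hn2'' : (n2 : F) ≠ 0 := by exact_mod_cast hn2'
  obtain ⟨t, s, s', γ, δ, η, -, hs, hs', hdet, htη⟩ := hc n2 n1 (Or.inl hn2')
  have ht : t ≠ 0 := by
    rintro rfl
    exact hm (by exact_mod_cast (zero_mul (η : F)).symm.trans htη |>.symm)
  have hs0 : (s : F) ≠ 0 := by rw [hs]; exact mul_ne_zero ht hn2''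
  have hsz : (s : F) * (d * (-y * β)) = s' := by
    rw [← hn, hs, hs']
    show t * (n2 : F) * ((n1 : F) / n2) = _
    field_simp
  have hmv : ∀ 𝔭 : HeightOneSpectrum (𝓞 F), 𝔭.valuation F m ≤
      𝔭.valuation F s * max 1 (𝔭.valuation F (d * (-y * β))) := fun 𝔭 => by
    have e : (m : F) = s * δ - γ * (s * (d * (-y * β))) := by
      rw [hsz]; exact_mod_cast congrArg (fun z : 𝓞 F => (z : F)) hdet.symm
    rw [e]
    refine Valuation.map_sub_le _ ?_ ?_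
    · rw [map_mul]
      exact mul_le_mul_right ((𝔭.valuation_le_one δ).trans (le_max_left _ _)) _
    · rw [map_mul, map_mul]
      exact (mul_le_of_le_one_left' (𝔭.valuation_le_one γ)).trans
        (mul_le_mul_right (le_max_right _ _) _)
  choose g g1 g2 g3 using hloc
  have gv : ∀ 𝔭 : HeightOneSpectrum (𝓞 F), 0 < 𝔭.valuation F (g 𝔭) := fun 𝔭 =>
    ((Valuation.pos_iff _).2 hm0').trans_le (g1 𝔭)
  have g0 : ∀ 𝔭, g 𝔭 ≠ 0 := fun 𝔭 => (Valuation.pos_iff _).1 (gv 𝔭)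
  have g4 : ∀ 𝔭 : HeightOneSpectrum (𝓞 F), 𝔭.valuation F (d / g 𝔭 ^ 2) = 1 ∨
      (𝔭.valuation F (d / g 𝔭 ^ 2) = exp (-1) ∧
        (1 < 𝔭.valuation F x ∨ 𝔭.valuation F M < 1)) := fun 𝔭 => by
    rw [map_div₀, map_pow]
    refine (g3 𝔭).imp (fun k => ?_) fun k => ⟨?_, k.2⟩
    · rw [k, div_self (pow_pos (gv 𝔭) 2).ne']
    · rw [k.1, mul_div_cancel_right₀ _ (pow_pos (gv 𝔭) 2).ne']
  have g5 : ∀ 𝔭, d / g 𝔭 ^ 2 * (g 𝔭 * y) ^ 2 = x ^ 3 + A * x + B := fun 𝔭 => by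
    have := g0 𝔭
    rw [← h]; field_simp
  have g6 : ∀ 𝔭 : HeightOneSpectrum (𝓞 F), 𝔭.valuation F (g 𝔭 * s) ≤ 1 := fun 𝔭 => by
    rw [map_mul]; exact mul_le_one' (g2 𝔭) (𝔭.valuation_le_one s)
  have hnon : ∀ 𝔭 : HeightOneSpectrum (𝓞 F), 1 < 𝔭.valuation F x →
      Int4 (𝔭.valuation F) (((gq (A : F) d x y).act s (-y * β) 0 1).smul
        (((m0 * m * M : ℕ) : F) ^ 2 / s ^ 2)) ∧ 𝔭.valuation F (d * s ^ 2) < 1 := fun 𝔭 hx => by
    have hx0 : x ≠ 0 := by rintro rfl; simp at hx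
    have hg := g0 𝔭
    have e1 : (d : F) * s ^ 2 = d / g 𝔭 ^ 2 * (g 𝔭 * s) ^ 2 := by field_simp
    rw [← r2_scale hg hd' hs0, e1]
    refine model_non (b := b) (𝔭.valuation_le_one A) (𝔭.valuation_le_one B) hx (g5 𝔭) ?_ ?_ ?_
      (by rw [hbc]; exact 𝔭.valuation_le_one c) (mul_ne_zero hg hs0) (g6 𝔭) ?_ ?_
    · rcases g4 𝔭 with h1 | h1
      · exact h1.le
      · rw [h1.1, ← exp_zero, exp_le_exp]; omega
    · rcases g4 𝔭 with h1 | h1
      · rw [h1, one_mul]; exact hx.le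
      · have h0 : 𝔭.valuation F x ≠ 0 := (zero_lt_one.trans hx).ne'
        rw [← exp_log h0, ← exp_zero, exp_lt_exp] at hx
        rw [h1.1, ← exp_log h0, ← exp_add, ← exp_zero, exp_le_exp]
        omega
    · field_simp
      linear_combination (-y) * hβ
    · have : g 𝔭 * s * (d / g 𝔭 ^ 2 * (g 𝔭 * (-y * β))) = s' := by rw [← hsz]; field_simp
      rw [this]; exact 𝔭.valuation_le_one s'
    · rw [Nat.cast_mul, map_mul]
      refine (mul_le_of_le_one_right' (lN 𝔭 M)).trans ?_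
      rw [Nat.cast_mul, map_mul, map_mul, mul_assoc]
      refine mul_le_mul' (g1 𝔭) ((hmv 𝔭).trans (mul_le_mul_right (max_le_max le_rfl ?_) _))
      have : (d : F) * (-y * β) = g 𝔭 * (d / g 𝔭 ^ 2 * (g 𝔭 * (-y * β))) := by field_simp
      rw [this, map_mul]
      exact mul_le_of_le_one_left' (g2 𝔭)
  have hint : ∀ 𝔭 : HeightOneSpectrum (𝓞 F), 𝔭.valuation F x ≤ 1 →
      (𝔭.valuation F (d / g 𝔭 ^ 2) ≤ 1 ∧ 𝔭.valuation F M ≤ 𝔭.valuation F (d / g 𝔭 ^ 2)) ∧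
        𝔭.valuation F (g 𝔭 * y) ≤ 1 ∧
        𝔭.valuation F (g 𝔭 * (-y * β)) ≤ 1 ∧ 𝔭.valuation F m ≤ 𝔭.valuation F s := fun 𝔭 hx => by
    have h0 : exp (-1) ≤ 𝔭.valuation F (d / g 𝔭 ^ 2) := by
      rcases g4 𝔭 with k | k
      · rw [k, ← exp_zero, exp_le_exp]; omega
      · exact k.1.ge
    have h1 : 𝔭.valuation F (d / g 𝔭 ^ 2) ≤ 1 ∧
        𝔭.valuation F M ≤ 𝔭.valuation F (d / g 𝔭 ^ 2) := by
      rcases g4 𝔭 with k | k
      · rw [k]; exact ⟨le_rfl, lN 𝔭 M⟩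
      · have k2 := k.2.resolve_left hx.not_gt
        have M0 : 𝔭.valuation F M ≠ 0 := (Valuation.ne_zero_iff _).2 (by exact_mod_cast hM)
        rw [← exp_log M0, ← exp_zero, exp_lt_exp] at k2
        rw [k.1, ← exp_log M0, ← exp_zero, exp_le_exp, exp_le_exp]
        omega
    have h2 : 𝔭.valuation F (g 𝔭 * y) ≤ 1 := by
      have hx' : x ∈ (𝔭.valuation F).integer := hx
      have hA' : (A : F) ∈ (𝔭.valuation F).integer := 𝔭.valuation_le_one A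
      have hB' : (B : F) ∈ (𝔭.valuation F).integer := 𝔭.valuation_le_one B
      have h3 : 𝔭.valuation F (d / g 𝔭 ^ 2 * (g 𝔭 * y) ^ 2) ≤ 1 := by
        rw [g5]
        exact add_mem (add_mem (pow_mem hx' 3) (mul_mem hA' hx')) hB'
      rw [map_mul, map_pow] at h3
      replace h3 := (mul_le_mul_left h0 _).trans h3
      by_contra hc
      have y0 : 𝔭.valuation F (g 𝔭 * y) ≠ 0 := (zero_lt_one.trans (not_le.1 hc)).ne'
      rw [← exp_log y0, ← exp_zero, exp_le_exp] at hc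
      rw [← exp_log y0, ← exp_nsmul, ← exp_add, ← exp_zero, exp_le_exp, nsmul_eq_mul] at h3
      push_cast at h3
      omega
    have h3 : 𝔭.valuation F (g 𝔭 * (-y * β)) ≤ 1 := by
      rw [show g 𝔭 * (-y * β) = -(g 𝔭 * y * β) by ring, Valuation.map_neg, map_mul]
      exact mul_le_one' h2 (𝔭.valuation_le_one β)
    refine ⟨h1, h2, h3, ?_⟩
    have := hmv 𝔭
    rwa [max_eq_left, mul_one] at this
    have hg := g0 𝔭
    have : (d : F) * (-y * β) = g 𝔭 * (d / g 𝔭 ^ 2 * (g 𝔭 * (-y * β))) := by field_simp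
    rw [this, map_mul, map_mul]
    exact mul_le_one' (g2 𝔭) (mul_le_one' h1.1 h3)
  have hall : ∀ 𝔭 : HeightOneSpectrum (𝓞 F),
      Int4 (𝔭.valuation F) (((gq (A : F) d x y).act s (-y * β) 0 1).smul
        (((m0 * m * M : ℕ) : F) ^ 2 / s ^ 2)) :=
    fun 𝔭 => by
      rcases lt_or_ge 1 (𝔭.valuation F x) with hx | hx
      · exact (hnon 𝔭 hx).1
      · obtain ⟨h1, h2, h3, h4⟩ := hint 𝔭 hx
        rw [← r2_scale (g0 𝔭) hd' hs0, Nat.cast_mul]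
        refine r2_int (𝔭.valuation_le_one A) hx h2 h1.1 (div_ne_zero hd' (pow_ne_zero 2 (g0 𝔭)))
          h1.2 h3 (mul_ne_zero (g0 𝔭) hs0) (g6 𝔭) ?_
        rw [Nat.cast_mul, map_mul, map_mul]
        exact mul_le_mul' (g1 𝔭) h4
  obtain ⟨fa, ha⟩ := HeightOneSpectrum.mem_integers_of_valuation_le_one F _ fun 𝔭 => (hall 𝔭).1
  obtain ⟨fb, hb⟩ := HeightOneSpectrum.mem_integers_of_valuation_le_one F _ fun 𝔭 => (hall 𝔭).2.1
  obtain ⟨fc, hc⟩ := HeightOneSpectrum.mem_integers_of_valuation_le_one F _ fun 𝔭 => (hall 𝔭).2.2.1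
  obtain ⟨fd, hd2⟩ := HeightOneSpectrum.mem_integers_of_valuation_le_one F _
    fun 𝔭 => (hall 𝔭).2.2.2.1
  obtain ⟨fe, he⟩ := HeightOneSpectrum.mem_integers_of_valuation_le_one F _
    fun 𝔭 => (hall 𝔭).2.2.2.2
  refine ⟨⟨fa, fb, fc, fd, fe⟩, s, -y * β, hs0, Q4.ext ha hb hc hd2 he, fun 𝔭 hm1 =>
    ⟨fun hx => ?_, fun hx => ?_⟩⟩
  · have e : algebraMap (𝓞 F) F fa = ((m0 * m * M : ℕ) : F) ^ 2 * (d * s ^ 2) := by
      rw [ha]; simp only [Q4.smul, Q4.act, gq]; field_simp; ring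
    show 𝔭.valuation F (algebraMap (𝓞 F) F fa) < 1
    rw [e, map_mul, map_pow, hm1, one_pow, one_mul]
    exact (hnon 𝔭 hx).2
  · obtain ⟨⟨h0, h1⟩, h2, h3, h4⟩ := hint 𝔭 hx
    rw [Nat.cast_mul, Nat.cast_mul, map_mul, map_mul] at hm1
    have l2 := hm1.ge.trans (mul_le_of_le_one_right' (lN 𝔭 M))
    have k0 : 𝔭.valuation F (g 𝔭) = 1 :=
      le_antisymm (g2 𝔭) ((l2.trans (mul_le_of_le_one_right' (lN 𝔭 m))).trans (g1 𝔭))
    rw [map_mul, k0, one_mul] at h2 h3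
    rw [map_div₀, map_pow, k0, one_pow, div_one] at h0 h1
    exact ⟨le_antisymm h0 ((hm1.ge.trans (mul_le_of_le_one_left'
      (mul_le_one' (lN 𝔭 m0) (lN 𝔭 m)))).trans h1), le_antisymm (𝔭.valuation_le_one s)
      ((l2.trans (mul_le_of_le_one_left' (lN 𝔭 m0))).trans h4), h3, h2⟩

variable (F) in
/-- integral model for an arbitrary twisting element of even order wherever `x` is integral -/
theorem r2_model (M : ℕ) (hM : M ≠ 0) : ∃ m : ℕ, m ≠ 0 ∧ ∀ (A B : 𝓞 F) (d x y : F), d ≠ 0 →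
    d * y ^ 2 = x ^ 3 + A * x + B →
    (∀ 𝔭 : HeightOneSpectrum (𝓞 F), (M : 𝓞 F) ∉ 𝔭.asIdeal → 𝔭.valuation F x ≤ 1 →
      Even (log (𝔭.valuation F d))) →
    ∃ (f : Q4 (𝓞 F)) (s κ : F), s ≠ 0 ∧
      f.map (algebraMap (𝓞 F) F) = ((gq (A : F) d x y).act s κ 0 1).smul (m ^ 2 / s ^ 2) ∧
      ∀ 𝔭 : HeightOneSpectrum (𝓞 F), 𝔭.valuation F m = 1 →
        (1 < 𝔭.valuation F x → 𝔭.valuation F f.a < 1) ∧
        (𝔭.valuation F x ≤ 1 → 𝔭.valuation F (d * s ^ 2) = 1 ∧ 𝔭.valuation F (κ / s) ≤ 1 ∧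
          𝔭.valuation F (y / s) ≤ 1) := by
  obtain ⟨m0, hm0, hrep⟩ := r2_rep F
  obtain ⟨m, hm, hmod⟩ := r2_model0 F m0 M hm0 hM
  refine ⟨m, hm, fun A B d x y hd h hev => ?_⟩
  obtain ⟨e, d0, he, hde, hloc⟩ := hrep d hd
  have hd0 : (d0 : F) ≠ 0 := hde ▸ mul_ne_zero hd (pow_ne_zero 2 he)
  obtain ⟨f, s, κ, hs, hf, hl⟩ := hmod A B d0 x (y / e) (by exact_mod_cast hd0)
    (by rw [← hde, ← h]; field_simp) fun 𝔭 => by
      obtain ⟨c, c1, c2, c3⟩ := hloc 𝔭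
      refine ⟨c, c1, c2, c3.imp_right fun k => ⟨k, ?_⟩⟩
      by_contra hc
      push Not at hc
      obtain ⟨t, ht⟩ := hev 𝔭 (fun hp => hc.2.not_gt (by
        simpa using (HeightOneSpectrum.valuation_lt_one_iff_mem (K := F) 𝔭 (M : 𝓞 F)).2 hp)) hc.1
      have c0 : 𝔭.valuation F c ≠ 0 :=
        (((Valuation.pos_iff _).2 (by exact_mod_cast hm0)).trans_le c1).ne'
      have t0 : 𝔭.valuation F d ≠ 0 := (Valuation.ne_zero_iff _).2 hd
      have e0 : 𝔭.valuation F e ≠ 0 := (Valuation.ne_zero_iff _).2 he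
      rw [← hde, map_mul, map_pow, ← exp_log c0, ← exp_log t0, ← exp_log e0, ht] at k
      generalize log (𝔭.valuation F c) = a1, log (𝔭.valuation F e) = a3 at k
      rw [← exp_nsmul, ← exp_nsmul, ← exp_add, ← exp_add, exp_inj] at k
      simp only [nsmul_eq_mul, Nat.cast_ofNat] at k
      omega
  refine ⟨f, e * s, e * κ, mul_ne_zero he hs, ?_, fun 𝔭 hp => ⟨(hl 𝔭 hp).1, fun hx => ?_⟩⟩
  · rw [hf, ← r2_scale he hd0 hs, ← hde, mul_div_cancel_right₀ _ (pow_ne_zero 2 he),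
      mul_div_cancel₀ _ he]
  · obtain ⟨h1, h2, h3, h4⟩ := (hl 𝔭 hp).2 hx
    refine ⟨?_, ?_, ?_⟩
    · rw [mul_pow, ← mul_assoc, hde, map_mul, map_pow, h1, h2, one_pow, one_mul]
    · rw [mul_div_mul_left _ _ he, map_div₀, h2, div_one]; exact h3
    · rw [← div_div, map_div₀, h2, div_one]; exact h4

end Pool.Agent.Lib.MP_7cad78_nt.R2
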