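import Pool.Agent.Lib.MP_7cad78_nt.R2.Defs
import Pool.Agent.Lib.MP_7cad78_nt.R2.Mod

/-! A point gives a rational root of its quartic or an exceptional quartic. -/

namespace Pool.Agent.Lib.MP_7cad78_nt.R2

open NumberField NumberField.mixedEmbedding IsDedekindDomain WithZero Finset NF NF.Q4 Filter
open scoped Classical

section fin

variable {k : Type*} [Field k]

/-- the cubic has the single root `e`, with square derivative -/
def NiceZ (A B e : k) : Prop :=
  cub A B e = 0 ∧ (∃ w, w ≠ 0 ∧ 3 * e ^ 2 + A = w ^ 2) ∧ ¬ IsSquare (-3 * e ^ 2 - 4 * A)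

lemma qt_sq_or [Finite k] {a b : k} (h : ¬ IsSquare (a * b)) : IsSquare a ∨ IsSquare b := by
  have := Fintype.ofFinite k
  by_contra hc
  push Not at hc
  have hq := quadraticChar_neg_one_iff_not_isSquare.2 h
  rw [map_mul, quadraticChar_neg_one_iff_not_isSquare.2 hc.1,
    quadraticChar_neg_one_iff_not_isSquare.2 hc.2] at hq
  norm_num at hq

lemma qt_nsq {a c : k} (hc : c ≠ 0) (h : ¬ IsSquare a) : ¬ IsSquare (c ^ 2 * a) := by
  rintro ⟨t, ht⟩
  exact h ⟨t / c, by field_simp; linear_combination ht⟩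

lemma qt_gq {A d x y l : k} (hd : d ≠ 0) (h : (pt (d ^ 2 * A) (d * x) (d ^ 2 * y)).ev l 1 = 0) :
    (gq A d x y).Root := by
  refine ⟨l / d, 1, by simp, ?_⟩
  simp only [ev, pt] at h
  simp only [ev, gq]
  field_simp
  linear_combination h

lemma NiceZ.root_eq {A B e x : k} (h : NiceZ A B e) (hx : cub A B x = 0) : x = e := by
  by_contra hne
  have h1 : x ^ 2 + e * x + e ^ 2 + A = 0 := by
    apply mul_left_cancel₀ (sub_ne_zero.2 hne)
    have := h.1
    simp only [cub] at this hx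
    linear_combination hx - this
  exact h.2.2 ⟨2 * x + e, by linear_combination (-4) * h1⟩

lemma NiceZ.root [Finite k] {A B e d x y : k} (h : NiceZ A B e) (hd : d ≠ 0)
    (hxy : d * y ^ 2 = cub A B x) (hx : x = e ∨ IsSquare (cub A B x * (x - e))) :
    (gq A d x y).Root := by
  by_cases hxe : x = e
  · subst hxe
    obtain ⟨h0, ⟨w, -, hw⟩, hn⟩ := h
    have hy : y = 0 := by simpa [h0, hd] using hxy
    have : (d * (3 * x + 2 * w)) * (d * (3 * x - 2 * w)) = d ^ 2 * (-3 * x ^ 2 - 4 * A) := by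
      linear_combination (4 * d ^ 2) * hw
    rcases qt_sq_or (this ▸ qt_nsq hd hn) with ⟨l, hl⟩ | ⟨l, hl⟩
    · refine qt_gq (l := l) hd ?_
      simp only [ev, pt, hy]
      linear_combination (-(l ^ 2 - 3 * d * x + 2 * d * w)) * hl - 4 * d ^ 2 * hw
    · refine qt_gq (l := l) hd ?_
      simp only [ev, pt, hy]
      linear_combination (-(l ^ 2 - 3 * d * x - 2 * d * w)) * hl - 4 * d ^ 2 * hw
  have hy : y ≠ 0 := by
    rintro rfl
    exact hxe (h.root_eq (by simpa using hxy.symm))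
  obtain ⟨t, ht⟩ := hx.resolve_left hxe
  obtain ⟨r, hr⟩ : ∃ r, d * (x - e) = r ^ 2 :=
    ⟨t / y, by field_simp; rw [← hxy] at ht; linear_combination ht⟩
  have r0 : r ≠ 0 := by
    rintro rfl
    exact mul_ne_zero hd (sub_ne_zero.2 hxe) (by simpa using hr)
  obtain ⟨n, hn⟩ : ∃ n, d ^ 2 * y = r * n := ⟨d ^ 2 * y / r, by field_simp⟩
  have h0 := h.1
  simp only [cub] at h0 hxy
  have hn2 : n ^ 2 = d ^ 2 * (x ^ 2 + e * x + e ^ 2 + A) := by
    apply mul_left_cancel₀ (pow_ne_zero 2 r0)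
    linear_combination (-(d ^ 2 * y + r * n)) * hn + d ^ 3 * hxy + d ^ 3 * h0 +
      d ^ 2 * (x ^ 2 + e * x + e ^ 2 + A) * hr
  have : (d * (2 * x + e) + 2 * n) * (d * (2 * x + e) - 2 * n) = d ^ 2 * (-3 * e ^ 2 - 4 * A) := by
    linear_combination (-4) * hn2
  rcases qt_sq_or (this ▸ qt_nsq hd h.2.2) with ⟨w, hw⟩ | ⟨w, hw⟩
  · refine qt_gq (l := r + w) hd ?_
    simp only [ev, pt, hn]
    linear_combination (-((2 * r + w) ^ 2 - (d * (2 * x + e) - 2 * n))) * hw + 4 * hn2 +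
      (-r ^ 2 - 4 * r * w - 2 * w ^ 2 - 3 * d * x - 3 * d * e) * hr
  · refine qt_gq (l := -r + w) hd ?_
    simp only [ev, pt, hn]
    linear_combination (-((-2 * r + w) ^ 2 - (d * (2 * x + e) + 2 * n))) * hw + 4 * hn2 +
      (-r ^ 2 + 4 * r * w - 2 * w ^ 2 - 3 * d * x - 3 * d * e) * hr

end fin

lemma qt_loc_sq {K : Type*} [Field K] {p : ℕ} [Fact p.Prime] (L : Loc K p) (z : L.v.integer) :
    (∃ t, L.v (z - t ^ 2) < 1) ↔ IsSquare (L.res z) := by
  constructor
  · rintro ⟨t, ht⟩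
    have h1 : L.v t ≤ 1 := by
      have : L.v (t ^ 2) ≤ 1 := by
        rw [show t ^ 2 = z - (z - t ^ 2) by ring]
        exact L.v.map_sub_le z.2 ht.le
      rw [map_pow] at this
      exact (pow_le_one_iff two_ne_zero).1 this
    have := (L.ker (z - ⟨t, h1⟩ ^ 2)).2 ht
    rw [map_sub, map_pow, sub_eq_zero, sq] at this
    exact ⟨_, this⟩
  · rintro ⟨w, hw⟩
    obtain ⟨n, rfl⟩ := ZMod.natCast_zmod_surjective w
    refine ⟨n, ?_⟩
    have := (L.ker (z - (n : L.v.integer) ^ 2)).1 (by rw [map_sub, map_pow, map_natCast, hw, sq, sub_self])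
    simpa using this

variable {F : Type} [Field F] [NumberField F]

lemma nice_iff {p : ℕ} [Fact p.Prime] (S : Split F p) (σ : Emb F) (A B e : 𝓞 F) :
    Nice ((S.P σ).valuation F) (A : F) B e ↔ NiceZ (S.r σ A) (S.r σ B) (S.r σ e) := by
  have e1 : (S.P σ).valuation F (cub (A : F) B e) < 1 ↔ cub (S.r σ A) (S.r σ B) (S.r σ e) = 0 := by
    have := S.v_lt σ (cub A B e)
    simpa [cub] using this
  have e2 := qt_loc_sq (S.loc σ) (S.up σ (3 * e ^ 2 + A))
  have e3 := qt_loc_sq (S.loc σ) (S.up σ (-3 * e ^ 2 - 4 * A))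
  have e4 := S.v_lt σ (3 * e ^ 2 + A)
  have c2 : ((3 * e ^ 2 + A : 𝓞 F) : F) = 3 * (e : F) ^ 2 + A := by
    change algebraMap (𝓞 F) F _ = _
    simp [map_ofNat]
  have c3 : ((-3 * e ^ 2 - 4 * A : 𝓞 F) : F) = -3 * (e : F) ^ 2 - 4 * A := by
    change algebraMap (𝓞 F) F _ = _
    simp [map_ofNat]
  rw [Split.res_up, Split.coe_up] at e2 e3
  rw [c2] at e2 e4
  rw [c3] at e3
  simp only [map_add, map_sub, map_mul, map_pow, map_neg, map_ofNat] at e2 e3 e4
  have le1 : (S.P σ).valuation F (3 * (e : F) ^ 2 + A) ≤ 1 := c2 ▸ (S.P σ).valuation_le_one _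
  constructor
  · rintro ⟨h1, ⟨t, ht, h2⟩, h3⟩
    obtain ⟨w, hw⟩ := e2.1 ⟨t, h2⟩
    refine ⟨e1.1 h1, ⟨w, ?_, by rw [hw, sq]⟩, fun h => ?_⟩
    · rintro rfl
      have := ((S.P σ).valuation F).map_sub_lt (e4.2 (by simpa using hw)) h2
      rw [sub_sub_cancel, map_pow, ht, one_pow] at this
      exact lt_irrefl _ this
    · obtain ⟨t, ht⟩ := e3.2 h
      exact h3 t ht
  · rintro ⟨h1, ⟨w, w0, hw⟩, h3⟩
    obtain ⟨t, ht⟩ := e2.2 ⟨w, by rw [hw, sq]⟩
    refine ⟨e1.2 h1, ⟨t, ?_, ht⟩, fun t ht => h3 (e3.1 ⟨t, ht⟩)⟩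
    have k1 : (S.P σ).valuation F (3 * (e : F) ^ 2 + A) = 1 :=
      le_antisymm le1 (not_lt.1 fun h => pow_ne_zero 2 w0 (hw ▸ e4.1 h))
    have k2 : (S.P σ).valuation F (t ^ 2) = 1 := by
      rw [← k1]
      apply Valuation.map_eq_of_sub_lt
      rw [Valuation.map_sub_swap, k1]
      exact ht
    rw [map_pow] at k2
    exact le_antisymm ((pow_le_one_iff two_ne_zero).1 k2.le) ((one_le_pow_iff two_ne_zero).1 k2.ge)

theorem quart (F : Type) [Field F] [NumberField F] (M : ℕ) (hM : M ≠ 0) : ∃ m : ℕ, m ≠ 0 ∧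
    ∀ (A B : 𝓞 F) (d x y : F), d ≠ 0 → d * y ^ 2 = cub (A : F) B x →
    (∀ 𝔭 : Pr F, (M : 𝓞 F) ∉ 𝔭.asIdeal → 𝔭.valuation F x ≤ 1 → Even (log (𝔭.valuation F d))) →
    (∀ w, 0 < (emb F A).1 w) → ∀ (κ : Type) (Y : Sys F κ) (σ0 : Emb F),
    (∀ i, (m : ZMod (Y.p i)) ≠ 0) →
    (∀ i (e : 𝓞 F), Nice (((Y.S i).P σ0).valuation F) (A : F) B e →
      ((Y.S i).P σ0).valuation F x ≤ 1 → ((Y.S i).P σ0).valuation F (x - e) < 1 ∨
        ∃ t, ((Y.S i).P σ0).valuation F (cub (A : F) B x * (x - e) - t ^ 2) < 1) →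
    (Q4.pt (d ^ 2 * A) (d * x) (d ^ 2 * y)).Root ∨ Exc m Y σ0 A B := by
  obtain ⟨m, hm, hmod⟩ := r2_model F M hM
  refine ⟨m, hm, fun A B d x y hd hxy hev hpos κ Y σ0 hmp hbit => ?_⟩
  refine or_iff_not_imp_left.2 fun hno => ?_
  have hm' : (m : F) ≠ 0 := by exact_mod_cast hm
  obtain ⟨f, s, τ, hs, hf, hloc⟩ := hmod A B d x y hd hxy hev
  have hid : (f.map (algebraMap (𝓞 F) F)).smul (s ^ 2 * d ^ 3) =
      ((pt (d ^ 2 * A) (d * x) (d ^ 2 * y)).act (d * s) (d * τ) 0 1).smul ((m : F) ^ 2) := by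
    rw [hf]
    ext <;> simp only [Q4.smul, Q4.act, gq, pt] <;> field_simp
  have hc : (d ^ 2 * y) ^ 2 = (d * x) ^ 3 + d ^ 2 * A * (d * x) + d ^ 3 * B := by
    simp only [cub] at hxy
    linear_combination d ^ 3 * hxy
  refine ⟨f, ?_, ?_, fun hr => hno ?_, fun w => ?_, fun i e hN => ?_⟩
  · apply RingOfIntegers.coe_injective
    have := congrArg Q4.I hid
    rw [I_smul, I_smul, I_act, pt_I, map_I] at this
    apply mul_left_cancel₀ (pow_ne_zero 2 (mul_ne_zero (pow_ne_zero 2 hs) (pow_ne_zero 3 hd)))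
    rw [this]
    simp only [map_mul, map_neg, map_pow, map_natCast, map_ofNat]
    change _ = _ * (_ * (A : F))
    ring
  · apply RingOfIntegers.coe_injective
    have := congrArg Q4.J hid
    rw [J_smul, J_smul, J_act, pt_J hc, map_J] at this
    apply mul_left_cancel₀ (pow_ne_zero 3 (mul_ne_zero (pow_ne_zero 2 hs) (pow_ne_zero 3 hd)))
    rw [this]
    simp only [map_mul, map_neg, map_pow, map_natCast, map_ofNat]
    change _ = _ * (_ * (B : F))
    ring
  · have := hr.smul (s ^ 2 * d ^ 3)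
    rw [hid] at this
    exact (this.of_smul (pow_ne_zero 2 hm')).of_act (by simp [hd, hs])
  · let g : F →+* ℝ := (cR w).comp (mixedEmbedding F)
    refine root_ident ((map_ne_zero g).2 hd) ((map_ne_zero g).2 hs) (map_ident g hid)
      (real_root ?_)
    exact mul_pos (sq_pos_of_ne_zero ((map_ne_zero g).2 hd)) (hpos w)
  · have hvm : (Y.loc i σ0).v m = 1 := by
      have := (Y.loc i σ0).v_eq_one (z := m) (by rw [map_natCast]; exact hmp i)
      simpa using this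
    obtain ⟨k1, k2⟩ := hloc ((Y.S i).P σ0) hvm
    rcases lt_or_ge 1 ((Y.loc i σ0).v x) with hx | hx
    · exact ⟨1, 0, by simp, by simpa [ev, Q4.map] using ((Y.S i).v_lt σ0 _).1 (k1 hx)⟩
    obtain ⟨l1, l2, l3⟩ := k2 hx
    let L := Y.loc i σ0
    let X : L.v.integer := ⟨x, hx⟩
    let Z : L.v.integer := ⟨y / s, l3⟩
    let D : L.v.integer := ⟨d * s ^ 2, l1.le⟩
    let D' : L.v.integer := ⟨(d * s ^ 2)⁻¹, by
      show L.v _ ≤ 1
      rw [map_inv₀]; exact (inv_eq_one.2 l1).le⟩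
    let Kp : L.v.integer := ⟨τ / s, l2⟩
    let a := (Y.S i).up σ0 A
    let f' : Q4 L.v.integer := ⟨(Y.S i).up σ0 f.a, (Y.S i).up σ0 f.b, (Y.S i).up σ0 f.c,
      (Y.S i).up σ0 f.d, (Y.S i).up σ0 f.e⟩
    have hid' : f' = ((⟨D, 0, -6 * X, -8 * Z, -(3 * X ^ 2 + 4 * a) * D'⟩ : Q4 L.v.integer).act
        1 Kp 0 1).smul ((m : L.v.integer) ^ 2) := by
      apply map_inj (g := L.v.integer.subtype) Subtype.val_injective
      rw [map_smul', map_act]
      refine hf.trans ?_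
      simp only [Q4.map, map_mul, map_pow, map_natCast, map_zero, map_one, map_neg, map_add,
        map_ofNat, Subring.subtype_apply, X, Z, D, D', Kp, a, Split.coe_up]
      ext <;> simp only [Q4.smul, Q4.act, gq] <;> field_simp <;> ring
    have hf' : f'.map L.res = f.map ((Y.S i).r σ0) := by
      ext <;> exact (Y.S i).res_up σ0 _
    have hD : L.res D ≠ 0 := L.res_ne (z := D) l1
    have hD' : L.res D' = (L.res D)⁻¹ := by
      apply eq_inv_of_mul_eq_one_left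
      rw [← map_mul, show D' * D = 1 from Subtype.ext (inv_mul_cancel₀
        (mul_ne_zero hd (pow_ne_zero 2 hs))), map_one]
    have ha : L.res a = (Y.S i).r σ0 A := (Y.S i).res_up σ0 A
    have hcub : L.res (cub a ((Y.S i).up σ0 B) X) =
        cub ((Y.S i).r σ0 A) ((Y.S i).r σ0 B) (L.res X) := by
      simp only [cub, map_add, map_mul, map_pow, ha, L, Split.res_up]
    have hcv : L.res D * L.res Z ^ 2 = cub ((Y.S i).r σ0 A) ((Y.S i).r σ0 B) (L.res X) := by
      rw [← hcub, ← map_pow, ← map_mul]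
      congr 1
      apply Subtype.ext
      change d * s ^ 2 * (y / s) ^ 2 = cub (A : F) B x
      rw [← hxy]; field_simp
    have hr := ((nice_iff _ σ0 A B e).1 hN).root hD hcv (by
      refine (hbit i e hN hx).imp (fun h => ?_) fun h => ?_
      · have := (L.ker (X - (Y.S i).up σ0 e)).2 h
        rwa [map_sub, sub_eq_zero, Split.res_up] at this
      · have := (qt_loc_sq L (cub a ((Y.S i).up σ0 B) X * (X - (Y.S i).up σ0 e))).1 h
        rwa [map_mul, hcub, map_sub, Split.res_up] at this)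
    rw [← hf', hid', map_smul', map_act]
    refine Root.smul _ (Root.act (by simp) ?_)
    convert hr using 1
    simp only [Q4.map, gq, map_mul, map_pow, map_zero, map_neg, map_add, map_ofNat, hD', ha,
      div_eq_mul_inv]

end Pool.Agent.Lib.MP_7cad78_nt.R2
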