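import Pool.Agent.Lib.MP_7cad78_nt.R2.Psi

/-! The curve with the marked point has rank one. -/

namespace Pool.Agent.Lib.MP_7cad78_nt.R2

open NumberField WithZero NF Function WeierstrassCurve WeierstrassCurve.Affine Height

set_option linter.unusedSectionVars false

lemma rank_grp {G : Type} [AddCommGroup G] [AddGroup.FG G]
    (h1 : (nsmulAddMonoidHom (α := G) 2).range.index = 2) (h2 : ∀ x : G, 2 • x = 0 → x = 0) :
    Module.rank ℤ G = 1 := by
  obtain ⟨n, ι, _, p, hp, e, ⟨f⟩⟩ := AddCommGroup.equiv_free_prod_directSum_zmod G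
  have : ∀ i, NeZero (p i ^ e i) := fun i => ⟨pow_ne_zero _ (hp i).ne_zero⟩
  have hfin : Finite (DirectSum ι fun i => ZMod (p i ^ e i)) :=
    Finite.of_equiv _ (DirectSum.addEquivProd _).symm.toEquiv
  obtain ⟨D, _, _, f⟩ : ∃ (D : Type) (_ : AddCommGroup D) (_ : Finite D),
    Nonempty (G ≃+ (Fin n →₀ ℤ) × D) := ⟨_, _, hfin, ⟨f⟩⟩
  obtain ⟨f⟩ := f
  have e1 : (nsmulAddMonoidHom (α := G) 2).range = ((nsmulAddMonoidHom (α := Fin n →₀ ℤ) 2).range.prod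
      (nsmulAddMonoidHom (α := D) 2).range).comap f.toAddMonoidHom := by
    ext x
    simp only [AddMonoidHom.mem_range, nsmulAddMonoidHom_apply, AddSubgroup.mem_comap,
      AddSubgroup.mem_prod]
    constructor
    · rintro ⟨y, rfl⟩
      exact ⟨⟨(f y).1, by simp⟩, ⟨(f y).2, by simp⟩⟩
    · rintro ⟨⟨a, ha⟩, ⟨b, hb⟩⟩
      exact ⟨f.symm (a, b), f.injective (by rw [map_nsmul, f.apply_symm_apply]; exact Prod.ext ha hb)⟩
  have e2 : (nsmulAddMonoidHom (α := D) 2).ker = ⊥ := by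
    refine eq_bot_iff.2 fun d hd => ?_
    have := h2 (f.symm (0, d)) (f.injective (by
      rw [map_nsmul, f.apply_symm_apply, map_zero]; exact Prod.ext (by simp) hd))
    exact congrArg Prod.snd ((f.symm.map_eq_zero_iff).1 this)
  rw [e1, AddSubgroup.index_comap_of_surjective _ f.surjective, AddSubgroup.index_prod,
    AddSubgroup.index_range_nsmul, AddSubgroup.index_range, Module.finrank_finsupp_self,
    Fintype.card_fin, e2, AddSubgroup.card_bot, mul_one] at h1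
  obtain rfl : n = 1 := Nat.pow_right_injective le_rfl (h1.trans (pow_one 2).symm)
  have : Finite (LinearMap.fst ℤ (Fin 1 →₀ ℤ) D).ker :=
    Finite.of_injective (fun x => x.1.2) fun x y h => Subtype.ext (Prod.ext (x.2.trans y.2.symm) h)
  have k5 : Module.rank ℤ (LinearMap.fst ℤ (Fin 1 →₀ ℤ) D).ker = 0 := rank_eq_zero_iff.2 fun x =>
    ⟨addOrderOf x, by exact_mod_cast (addOrderOf_pos x).ne', by simp⟩
  rw [f.toIntLinearEquiv.rank_eq, ← (LinearMap.fst ℤ (Fin 1 →₀ ℤ) D).rank_range_add_rank_ker, k5,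
    add_zero, LinearMap.range_eq_top.2 Prod.fst_surjective, rank_top]
  simp

variable {F : Type} [Field F] [NumberField F] [DecidableEq F] {W : Affine F}

/-- a short Weierstrass equation -/
structure Sh (W : Affine F) : Prop where
  a1 : W.a₁ = 0
  a2 : W.a₂ = 0
  a3 : W.a₃ = 0
  ne : 4 * W.a₄ ^ 3 + 27 * W.a₆ ^ 2 ≠ 0

lemma Sh.eqn (H : Sh W) {x y : F} : W.Equation x y ↔ y ^ 2 = x ^ 3 + W.a₄ * x + W.a₆ := by
  rw [equation_iff, H.a1, H.a2, H.a3]
  constructor <;> intro h <;> linear_combination h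

lemma Sh.negY (H : Sh W) (x y : F) : W.negY x y = -y := by
  simp [Affine.negY, H.a1, H.a3]

lemma Sh.ell (H : Sh W) : W.IsElliptic := ⟨by
  have : W.Δ = -16 * (4 * W.a₄ ^ 3 + 27 * W.a₆ ^ 2) := by
    simp only [Δ, b₂, b₄, b₆, b₈, H.a1, H.a2, H.a3]
    ring
  rw [this, isUnit_iff_ne_zero]
  exact mul_ne_zero (by norm_num) H.ne⟩

lemma Sh.addSub (H : Sh W) (P Q : W.Point) : ∃ c : F,
    (fun i => (addSubMap W i).eval (P.sym2x Q)) = c • (P + Q).sym2x (P - Q) := by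
  have dbl : ∀ P : W.Point, ∃ c : F,
      (fun i => (addSubMap W i).eval (P.sym2x P)) = c • (P + P).sym2x 0 := by
    rintro (_ | ⟨x, y, h⟩)
    · refine ⟨1, ?_⟩
      ext i
      fin_cases i <;> simp [← Point.zero_def, addSubMap]
    have hf := (equation_iff ..).1 h.1
    rw [H.a1, H.a3] at hf
    by_cases hy : y = W.negY x y
    · refine ⟨(addSubMap W 0).eval ![x * x, x + x, 1], ?_⟩
      rw [Point.add_self_of_Y_eq hy]
      rw [H.negY] at hy
      obtain rfl : y = 0 := by linear_combination hy / 2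
      ext i
      fin_cases i
      · simp
      · simp [addSubMap, b₂, b₄, b₆, H.a1, H.a3]
        linear_combination -4 * hf
      · simp [addSubMap]
        ring
    · refine ⟨4 * y ^ 2, ?_⟩
      rw [Point.add_self_of_Y_ne hy]
      have y0 : y - -y ≠ 0 := sub_ne_zero.2 (H.negY x y ▸ hy)
      have hs : W.slope x x y y * (2 * y) = 3 * x ^ 2 + 2 * W.a₂ * x + W.a₄ := by
        rw [slope_of_Y_ne rfl hy, H.negY, H.a1, div_mul_eq_mul_div, div_eq_iff y0]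
        ring
      ext i
      fin_cases i
      · simp [addSubMap, b₄, b₆, b₈, H.a1, H.a3, -slope_of_Y_ne']
        linear_combination (-(W.slope x x y y * (2 * y)) - (3 * x ^ 2 + 2 * W.a₂ * x + W.a₄)) * hs +
          4 * (W.a₂ + 2 * x) * hf
      · simp [addSubMap, b₂, b₄, b₆, H.a1, H.a3]
        linear_combination -4 * hf
      · simp [addSubMap]
        ring
  rcases P with _ | ⟨x₁, y₁, h₁⟩
  · refine ⟨1, ?_⟩
    rw [← Point.zero_def, zero_add, zero_sub, Point.sym2x_neg_right]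
    ext i
    cases Q <;> fin_cases i <;> simp [← Point.zero_def, addSubMap, sq, two_mul]
  rcases Q with _ | ⟨x₂, y₂, h₂⟩
  · refine ⟨1, ?_⟩
    rw [← Point.zero_def, add_zero, sub_zero]
    ext i
    fin_cases i <;> simp [addSubMap, sq, two_mul]
  by_cases hx : x₁ = x₂
  · rcases (Point.X_eq_iff (h₁ := h₁) (h₂ := h₂)).1 hx with h | h
    · rw [h, sub_self]
      exact dbl _
    · rw [h, neg_add_cancel, sub_eq_add_neg, Point.sym2x_comm 0, ← Point.sym2x_neg_right]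
      exact dbl _
  have f1 := (equation_iff ..).1 h₁.1
  have f2 := (equation_iff ..).1 h₂.1
  rw [H.a1, H.a3] at f1 f2
  have x0 := sub_ne_zero.2 hx
  refine ⟨(x₁ - x₂) ^ 2, ?_⟩
  rw [sub_eq_add_neg (Point.some ..), Point.neg_some, Point.add_of_X_ne hx, Point.add_of_X_ne hx]
  simp only [Point.sym2x_some_some, addX, slope_of_X_ne hx, H.negY, H.a1]
  obtain ⟨l, hl⟩ : ∃ l, l = (y₁ - y₂) / (x₁ - x₂) := ⟨_, rfl⟩
  obtain ⟨m, hm⟩ : ∃ m, m = (y₁ - -y₂) / (x₁ - x₂) := ⟨_, rfl⟩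
  rw [← hl, ← hm]
  rw [eq_div_iff x0] at hl hm
  have k1 : l * m * (x₁ - x₂) = x₁ ^ 2 + x₁ * x₂ + x₂ ^ 2 + W.a₂ * (x₁ + x₂) + W.a₄ :=
    mul_left_cancel₀ x0 (by linear_combination (m * (x₁ - x₂)) * hl + (y₁ - y₂) * hm + f1 - f2)
  have k2 : (l ^ 2 + m ^ 2) * (x₁ - x₂) ^ 2 = 2 * (x₁ ^ 3 + W.a₂ * x₁ ^ 2 + W.a₄ * x₁ + W.a₆ +
      (x₂ ^ 3 + W.a₂ * x₂ ^ 2 + W.a₄ * x₂ + W.a₆)) := by
    linear_combination (l * (x₁ - x₂) + (y₁ - y₂)) * hl + (m * (x₁ - x₂) + (y₁ + y₂)) * hm +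
      2 * f1 + 2 * f2
  ext i
  fin_cases i
  · simp [addSubMap, b₄, b₆, b₈, H.a1, H.a3]
    linear_combination (-(l * m * (x₁ - x₂)) -
      (x₁ ^ 2 + x₁ * x₂ + x₂ ^ 2 + W.a₂ * (x₁ + x₂) + W.a₄)) * k1 + (W.a₂ + x₁ + x₂) * k2
  · simp [addSubMap, b₂, b₄, b₆, H.a1, H.a3]
    linear_combination -k2
  · simp [addSubMap]
    ring

theorem Sh.fg (H : Sh W) (h : (nsmulAddMonoidHom (α := W.Point) 2).range.FiniteIndex) :
    AddGroup.FG W.Point := by
  have := H.ell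
  obtain ⟨C1, h1⟩ := abs_logHeight_addSubMap_sub_two_mul_logHeight_le W
  obtain ⟨C2, h2⟩ := abs_logHeight_sym2_sub_le F
  have h3 : ∀ P Q : W.Point, |logHeight (P.sym2x Q) - (logHeight P.xRep + logHeight Q.xRep)| ≤ C2 := by
    intro P Q
    have a : ∀ P : W.Point, P.xRep = ![P.xRep 0, P.xRep 1] := fun P => by
      ext i; fin_cases i <;> rfl
    have := h2 (a := P.xRep 0) (b := P.xRep 1) (c := Q.xRep 0) (d := Q.xRep 1)
      (a P ▸ P.xRep_ne_zero) (a Q ▸ Q.xRep_ne_zero)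
    rwa [← a, ← a] at this
  have : Northcott fun P : W.Point => logHeight P.xRep := ⟨fun b => by
    refine Set.Finite.of_finite_fibers Point.xRep ?_ ?_
    · refine (((NumberField.finite_setOfPred_logHeight₁_le F b).image fun x => ![x, 1]).insert
        ![1, 0]).subset ?_
      rintro _ ⟨_ | ⟨x, y, h⟩, hP, rfl⟩
      · exact Or.inl rfl
      · exact Or.inr ⟨x, by simpa [logHeight₁_eq_logHeight] using hP, rfl⟩
    · rintro _ ⟨P, -, rfl⟩
      exact (Set.toFinite {P, -P}).subset fun Q hQ => Point.eq_or_eq_neg_of_xRep_eq_xRep hQ.2⟩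
  refine AddCommGroup.fg_of_descent' (h := fun P : W.Point => logHeight P.xRep)
    (C := C1 + 3 * C2) h (fun _ => logHeight_nonneg _) fun P Q => ?_
  obtain ⟨c, hc⟩ := H.addSub P Q
  have c0 : c ≠ 0 := fun h0 => addSubMap_ne_zero W (P.sym2x_ne_zero Q) (by rw [hc, h0, zero_smul])
  have a1 := h1 (P.sym2x Q)
  rw [hc, logHeight_smul_eq_logHeight _ c0] at a1
  have a2 := h3 P Q
  have a3 := h3 (P + Q) (P - Q)
  rw [abs_le] at *
  constructor <;> linarith [a1.1, a1.2, a2.1, a2.2, a3.1, a3.2]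

lemma Sh.dblX (H : Sh W) {x y : F} (hy : y ≠ W.negY x y) (h : W.Equation x y) :
    W.addX x x (W.slope x x y y) * (4 * (x ^ 3 + W.a₄ * x + W.a₆)) =
      x ^ 4 - 2 * W.a₄ * x ^ 2 - 8 * W.a₆ * x + W.a₄ ^ 2 := by
  have y0 : y - -y ≠ 0 := sub_ne_zero.2 (H.negY x y ▸ hy)
  have hs : W.slope x x y y * (2 * y) = 3 * x ^ 2 + W.a₄ := by
    rw [slope_of_Y_ne rfl hy, H.negY, H.a1, H.a2, div_mul_eq_mul_div, div_eq_iff y0]
    ring
  rw [addX, H.a1, H.a2]
  linear_combination (W.slope x x y y * (2 * y) + (3 * x ^ 2 + W.a₄)) * hs -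
    4 * W.slope x x y y ^ 2 * H.eqn.1 h

lemma Sh.half (H : Sh W) (nr : ∀ x, x ^ 3 + W.a₄ * x + W.a₆ ≠ 0) {x y y' l : F}
    (h : W.Nonsingular x y) (h' : y' ^ 2 = y ^ 2) (hl : (Q4.pt W.a₄ x y').ev l 1 = 0) :
    ∃ Q, 2 • Q = Point.some x y h := by
  obtain ⟨x1, y1, k1, k2⟩ := half_of_root two_ne_zero (h'.trans (H.eqn.1 h.1)) hl
  have := H.ell
  have n1 : W.Nonsingular x1 y1 := equation_iff_nonsingular.1 (H.eqn.2 k1)
  have hy : y1 ≠ W.negY x1 y1 := by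
    rw [H.negY]
    intro h0
    exact nr x1 (by rw [← k1]; linear_combination y1 / 2 * h0)
  have hx : W.addX x1 x1 (W.slope x1 x1 y1 y1) = x :=
    mul_right_cancel₀ (mul_ne_zero (by norm_num) (nr x1)) ((H.dblX hy n1.1).trans k2.symm)
  have h2 := (Point.X_eq_iff (h₁ := nonsingular_add n1 n1 fun hxy => hy hxy.right) (h₂ := h)).1 hx
  rw [← Point.add_self_of_Y_ne (h₁ := n1) hy] at h2
  rcases h2 with h2 | h2
  · exact ⟨_, (two_nsmul _).trans h2⟩
  · exact ⟨-Point.some _ _ n1, by rw [two_nsmul, ← neg_add, h2, neg_neg]⟩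

lemma no_root {v : Valuation F ℤᵐ⁰} {s u c Z : F} (vs : v s ≤ 1) (vu : v u = exp (-1))
    (vc : v c = 1) : Z ^ 4 - 6 * s * u * Z ^ 2 - 8 * u ^ 2 * Z - u ^ 2 * c ≠ 0 := by
  intro h
  have i6 : v 6 ≤ 1 := by exact_mod_cast v_nat (v := v) 6
  have i8 : v 8 ≤ 1 := by exact_mod_cast v_nat (v := v) 8
  have b1 : v (6 * s * u * Z ^ 2) ≤ v u * v Z ^ 2 := by
    simp only [map_mul, map_pow]
    exact mul_le_mul_left (mul_le_of_le_one_left' (mul_le_one' i6 vs)) _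
  have b2 : v (8 * u ^ 2 * Z) ≤ v u ^ 2 * v Z := by
    simp only [map_mul, map_pow]
    exact mul_le_mul_left (mul_le_of_le_one_left' i8) _
  have b3 : v (u ^ 2 * c) = v u ^ 2 := by rw [map_mul, map_pow, vc, mul_one]
  have b4 := map_pow v Z 4
  rw [vu] at b1 b2 b3
  by_cases h0 : v Z = 0
  · rw [(Valuation.zero_iff v).1 h0] at h
    rw [show u ^ 2 * c = 0 by linear_combination -h, map_zero] at b3
    exact pow_ne_zero 2 exp_ne_zero b3.symm
  rw [← exp_log h0] at b1 b2 b4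
  simp only [← exp_nsmul, ← exp_add, nsmul_eq_mul] at b1 b2 b3 b4
  rcases le_or_gt 0 (log (v Z)) with k | k
  · refine (lt_irrefl (v (Z ^ 4))) ?_
    conv_lhs => rw [show Z ^ 4 = 6 * s * u * Z ^ 2 + 8 * u ^ 2 * Z + u ^ 2 * c by linear_combination h]
    rw [b4]
    refine v.map_add_lt (v.map_add_lt (b1.trans_lt ?_) (b2.trans_lt ?_)) (b3.trans_lt ?_) <;>
      rw [exp_lt_exp] <;> push_cast <;> omega
  · refine (lt_irrefl (v (u ^ 2 * c))) ?_
    conv_lhs => rw [show u ^ 2 * c = Z ^ 4 - 6 * s * u * Z ^ 2 - 8 * u ^ 2 * Z by linear_combination -h]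
    rw [b3]
    refine v.map_sub_lt (v.map_sub_lt (b4.trans_lt ?_) (b1.trans_lt ?_)) (b2.trans_lt ?_) <;>
      rw [exp_lt_exp] <;> push_cast <;> omega

lemma v_next {v : Valuation F ℤᵐ⁰} {s u a Z Y : F} (vs : v s ≤ 1) (vu : v u < 1) (va : v a ≤ 1)
    (hZ : 1 ≤ v Z) (h : Y ^ 2 = Z ^ 3 + a * Z ^ 2 + 3 * s * u * Z + u ^ 2) :
    v (u * (3 * s * Z + 2 * u - 2 * Y) / Z ^ 2) < 1 := by
  have i2 : v 2 ≤ 1 := by exact_mod_cast v_nat (v := v) 2
  have i3 : v 3 ≤ 1 := by exact_mod_cast v_nat (v := v) 3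
  have p : ∀ {m n : ℕ}, m ≤ n → v Z ^ m ≤ v Z ^ n := fun k => pow_le_pow_right₀ hZ k
  have hY : v Y ≤ v Z ^ 2 := by
    rw [← pow_le_pow_iff_left₀ zero_le zero_le two_ne_zero, ← map_pow, h, ← pow_mul]
    refine v.map_add_le (v.map_add_le (v.map_add_le ?_ ?_) ?_) ?_
    · rw [map_pow]; exact p (by norm_num)
    · rw [map_mul, map_pow]; exact (mul_le_of_le_one_left' va).trans (p (by norm_num))
    · simp only [map_mul]
      exact (mul_le_of_le_one_left' (mul_le_one' (mul_le_one' i3 vs) vu.le)).trans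
        ((pow_one _).ge.trans (p (by norm_num)))
    · rw [map_pow]; exact (pow_le_one' vu.le 2).trans (one_le_pow₀ hZ)
  have z0 : 0 < v Z ^ 2 := pow_pos (zero_lt_one.trans_le hZ) 2
  rw [mul_div_assoc]
  refine (v_mul_le ?_).trans_lt vu
  rw [map_div₀, map_pow, div_le_one₀ z0]
  refine v.map_sub_le (v.map_add_le ?_ ?_) ?_ <;> simp only [map_mul]
  · exact (mul_le_of_le_one_left' (mul_le_one' i3 vs)).trans ((pow_one _).ge.trans (p (by norm_num)))
  · exact (mul_le_one' i2 vu.le).trans (one_le_pow₀ hZ)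
  · exact (mul_le_of_le_one_left' i2).trans hY

lemma root_move {A B s X u Z Y l : F} (hX : 3 * X = 3 * s ^ 2 + A) (hu : u = cub A B s) (u0 : u ≠ 0)
    (Z0 : Z ≠ 0) (h : Y ^ 2 = Z ^ 3 + 3 * X * Z ^ 2 + 3 * s * u * Z + u ^ 2)
    (hl : (Q4.pt ((u / Z) ^ 2 * A) (u / Z * (s + u / Z)) ((u / Z) ^ 2 * (Y / Z))).ev l 1 = 0) :
    ∃ m, (Q4.pt (3 * (s * u - X ^ 2)) (((Y - u) / Z) ^ 2 - 2 * X - Z)
      (-(u + (Y - u) / Z * (((Y - u) / Z) ^ 2 - 3 * X - Z)))).ev m 1 = 0 := by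
  obtain ⟨d, rfl⟩ : ∃ d, u = d * Z := ⟨u / Z, by field_simp⟩
  obtain ⟨y, rfl⟩ : ∃ y, Y = y * Z := ⟨Y / Z, by field_simp⟩
  have d0 : d ≠ 0 := left_ne_zero_of_mul u0
  rw [mul_div_cancel_right₀ _ Z0, mul_div_cancel_right₀ _ Z0] at hl
  rw [← sub_mul, mul_div_cancel_right₀ _ Z0]
  obtain ⟨e, he⟩ : ∃ e, l ^ 2 = d * (2 * e + 3 * (s + d)) :=
    ⟨(l ^ 2 / d - 3 * (s + d)) / 2, by field_simp; ring⟩
  have h1 : Z = y ^ 2 - 3 * X - 3 * s * d - d ^ 2 :=
    mul_left_cancel₀ (pow_ne_zero 2 Z0) (by linear_combination -h)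
  have h2 : A = e ^ 2 - 3 * (s + d) ^ 2 - 2 * y * l := by
    simp only [Q4.ev, Q4.pt] at hl
    refine mul_left_cancel₀ (mul_ne_zero (by norm_num : (4 : F) ≠ 0) (pow_ne_zero 2 d0)) ?_
    linear_combination -hl + (l ^ 2 + d * (2 * e + 3 * (s + d)) - 6 * d * (s + d)) * he
  have h3 : X = (3 * s ^ 2 + A) / 3 := by linear_combination hX / 3
  have h4 : s = (l ^ 2 / d - 2 * e) / 3 - d := by field_simp; linear_combination -he
  refine ⟨e - l, ?_⟩
  simp only [Q4.ev, Q4.pt]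
  rw [h1, h3, h2, h4]
  field_simp
  ring

omit [DecidableEq F] in
theorem rank_one [DecidableEq F] (v : Valuation F ℤᵐ⁰) (A B s X u : F) (hX : 3 * X = 3 * s ^ 2 + A)
    (hu : u = cub A B s) (vA : v A ≤ 1) (vs : v s ≤ 1) (vu : v u = exp (-1))
    (v3 : v (3 * s ^ 2 + 4 * A) = 1) (nr : ∀ x, cub A B x ≠ 0) (hΔ : 4 * A ^ 3 + 27 * B ^ 2 ≠ 0)
    (H : ∀ x y : F, x ≠ s → (x - s) * y ^ 2 = cub A B x → 1 ≤ v (x - s) →
      (Q4.pt ((x - s) ^ 2 * A) ((x - s) * x) ((x - s) ^ 2 * y)).Root) :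
    Module.rank ℤ (⟨0, 0, 0, 3 * (s * u - X ^ 2), u ^ 2 - 3 * s * u * X + 2 * X ^ 3⟩ :
      WeierstrassCurve F).toAffine.Point = 1 := by
  obtain ⟨W, hW⟩ : ∃ W : Affine F,
    W = ⟨0, 0, 0, 3 * (s * u - X ^ 2), u ^ 2 - 3 * s * u * X + 2 * X ^ 3⟩ := ⟨_, rfl⟩
  change Module.rank ℤ (Affine.Point (⟨0, 0, 0, _, _⟩ : Affine F)) = 1
  rw [← hW]
  have u0 : u ≠ 0 := hu ▸ nr s
  have a4 : W.a₄ = 3 * (s * u - X ^ 2) := by rw [hW]
  have a6 : W.a₆ = u ^ 2 - 3 * s * u * X + 2 * X ^ 3 := by rw [hW]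
  have hA : A = 3 * X - 3 * s ^ 2 := by linear_combination -hX
  have hB : B = u - s ^ 3 - A * s := by rw [hu, cub]; ring
  have S : Sh W := ⟨by rw [hW], by rw [hW], by rw [hW], by
    rw [a4, a6, show 4 * (3 * (s * u - X ^ 2)) ^ 3 + 27 * (u ^ 2 - 3 * s * u * X + 2 * X ^ 3) ^ 2 =
      u ^ 2 * (4 * A ^ 3 + 27 * B ^ 2) by rw [hB, hA]; ring]
    exact mul_ne_zero (pow_ne_zero 2 u0) hΔ⟩
  have := S.ell
  have lg : ∀ Z, (Z + X) ^ 3 + W.a₄ * (Z + X) + W.a₆ =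
      Z ^ 3 + 3 * X * Z ^ 2 + 3 * s * u * Z + u ^ 2 := fun Z => by rw [a4, a6]; ring
  have cb : ∀ Z, Z ≠ 0 → cub A B (s + u / Z) =
      u / Z * ((Z ^ 3 + 3 * X * Z ^ 2 + 3 * s * u * Z + u ^ 2) / Z ^ 2) := fun Z Z0 => by
    rw [cub, hB, hA]; field_simp; ring
  have nr' : ∀ x, x ^ 3 + W.a₄ * x + W.a₆ ≠ 0 := fun x k => by
    obtain ⟨Z, rfl⟩ : ∃ Z, x = Z + X := ⟨x - X, by ring⟩
    rw [lg] at k
    rcases eq_or_ne Z 0 with rfl | Z0
    · exact pow_ne_zero 2 u0 (by simpa using k)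
    · exact nr _ (by rw [cb Z Z0, k, zero_div, mul_zero])
  have n0 : W.Nonsingular X u := equation_iff_nonsingular.1 (S.eqn.2 (by
    have := lg 0
    rw [zero_add] at this
    rw [this]; ring))
  let G := (nsmulAddMonoidHom (α := W.Point) 2).range
  let P0 := Point.some X u n0
  have v1 : v u < 1 := by rw [vu, ← exp_zero, exp_lt_exp]; norm_num
  have ny : ∀ {x y : F}, W.Nonsingular x y → y ≠ W.negY x y := fun {x y} h k => by
    rw [S.negY] at k
    exact nr' x (by rw [← S.eqn.1 h.1]; linear_combination y / 2 * k)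
  have dbl : ∀ Q : W.Point, Q + Q ∈ G := fun Q => ⟨Q, two_nsmul Q⟩
  have ax : ∀ {Z Y : F}, Z ≠ 0 → W.addX (Z + X) X (W.slope (Z + X) X Y u) =
      ((Y - u) / Z) ^ 2 - 2 * X - Z := fun {Z Y} Z0 => by
    rw [slope_of_X_ne (by simpa using Z0), addX, S.a1, S.a2, add_sub_cancel_right]; ring
  have k1 : ∀ x Y (h : W.Nonsingular x Y), v (x - X) < 1 → Point.some x Y h + P0 ∈ G := by
    intro x Y h hv
    obtain ⟨Z, rfl⟩ : ∃ Z, x = Z + X := ⟨x - X, by ring⟩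
    rw [add_sub_cancel_right] at hv
    rcases eq_or_ne Z 0 with rfl | Z0
    · rcases (Point.X_eq_iff (h₁ := h) (h₂ := n0)).1 (zero_add X) with k | k <;> rw [k]
      · exact dbl _
      · rw [neg_add_cancel]; exact G.zero_mem
    have e1 := (S.eqn.1 h.1).trans (lg Z)
    have r := H (s + u / Z) (Y / Z) (by simp [u0, Z0])
      (by rw [add_sub_cancel_left, cb Z Z0, ← e1, div_pow]) (by
        have z0 := (Valuation.ne_zero_iff v).2 Z0
        rw [add_sub_cancel_left, map_div₀, one_le_div₀ (zero_lt_iff.2 z0), vu]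
        rw [← exp_log z0, ← exp_zero, exp_lt_exp] at hv
        rw [← exp_log z0, exp_le_exp]
        omega)
    rw [add_sub_cancel_left] at r
    obtain ⟨l, hl⟩ := pt_root r
    obtain ⟨m, hm⟩ := root_move hX hu u0 Z0 e1 hl
    have hx : Z + X ≠ X := by simpa using Z0
    rw [Point.add_of_X_ne hx]
    refine S.half nr' _ (y' := -(u + (Y - u) / Z * (((Y - u) / Z) ^ 2 - 3 * X - Z))) (l := m) ?_
      (by rwa [ax Z0, a4])
    rw [addY, S.negY, negAddY, ax Z0, slope_of_X_ne hx, add_sub_cancel_right]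
    field_simp
    ring
  have k2 : ∀ Q : W.Point, Q + P0 ∈ G ∨ Q ∈ G := by
    rintro (_ | ⟨x, Y, h⟩)
    · exact Or.inr G.zero_mem
    rcases lt_or_ge (v (x - X)) 1 with hv | hv
    · exact Or.inl (k1 x Y h hv)
    right
    obtain ⟨Z, rfl⟩ : ∃ Z, x = Z + X := ⟨x - X, by ring⟩
    rw [add_sub_cancel_right] at hv
    have Z0 : Z ≠ 0 := by rintro rfl; simp at hv
    have hx : Z + X ≠ X := by simpa using Z0
    have e1 := (S.eqn.1 h.1).trans (lg Z)
    have k3 : Point.some _ Y h + P0 + P0 ∈ G := by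
      rw [Point.add_of_X_ne hx]
      refine k1 _ _ _ ?_
      have i3 : v 3 ≤ 1 := by exact_mod_cast v_nat (v := v) 3
      have := v_next (a := 3 * X) vs v1 (by
        rw [hX]
        refine v.map_add_le ?_ vA
        rw [map_mul, map_pow]
        exact mul_le_one' i3 (pow_le_one' vs 2)) hv e1
      rwa [ax Z0, show ((Y - u) / Z) ^ 2 - 2 * X - Z - X = u * (3 * s * Z + 2 * u - 2 * Y) / Z ^ 2 by
        field_simp; linear_combination e1]
    rw [add_assoc] at k3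
    exact (G.add_mem_cancel_right (dbl P0)).1 k3
  have k4 : P0 ∉ G := by
    rintro ⟨_ | ⟨x, y, h⟩, k⟩
    · exact Point.some_ne_zero n0 (k.symm.trans (nsmul_zero 2))
    rw [nsmulAddMonoidHom_apply, two_nsmul, Point.add_self_of_Y_ne (ny h)] at k
    have e1 := S.dblX (ny h) h.1
    rw [(Point.some.inj k).1, a4, a6] at e1
    exact no_root (Z := x - X) vs vu v3 (by rw [hA]; linear_combination -e1)
  have ix : G.index = 2 := AddSubgroup.index_eq_two_iff.2 ⟨P0, fun Q => by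
    rcases k2 Q with k | k
    · exact Or.inl ⟨k, fun l => k4 ((G.add_mem_cancel_left l).1 k)⟩
    · exact Or.inr ⟨k, fun l => k4 ((G.add_mem_cancel_left k).1 l)⟩⟩
  have := S.fg ⟨by rw [ix]; norm_num⟩
  refine rank_grp ix ?_
  rintro (_ | ⟨x, y, h⟩) k
  · rfl
  · rw [two_nsmul, Point.add_self_of_Y_ne (ny h)] at k
    exact absurd k (Point.some_ne_zero _)

end Pool.Agent.Lib.MP_7cad78_nt.R2
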