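import Pool.Agent.Lib.MP_7cad78_nt.R2.RhoB

/-! Local symbols with the product formula exist over every number field. -/

namespace Pool.Agent.Lib.MP_7cad78_nt.R2

open NumberField IsDedekindDomain WithZero Finset NF HeightOneSpectrum
open scoped Classical

lemma Smb.sq {K : Type*} [Field K] {ρ : K → K → ℤˣ} (h : Smb ρ) {t b : K} (ht : t ≠ 0)
    (hb : b ≠ 0) : ρ (t ^ 2) b = 1 := by
  rw [pow_two, h.mul_l _ _ _ ht ht hb, Int.units_mul_self]

lemma Smb.swap {K : Type*} [Field K] {ρ : K → K → ℤˣ} (h : Smb ρ) {a b : K} (ha : a ≠ 0)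
    (hb : b ≠ 0) : ρ a b = ρ b a := by
  have k : ∀ c : K, c ≠ 0 → ρ (-c) c = 1 := fun c hc => by
    simpa using h.nrm 0 1 c hc (by simpa using hc)
  have e := k _ (mul_ne_zero ha hb)
  rw [h.mul_r _ _ _ (neg_ne_zero.2 (mul_ne_zero ha hb)) ha hb] at e
  nth_rw 1 [← neg_mul] at e
  rw [← mul_neg, h.mul_l _ _ _ (neg_ne_zero.2 ha) hb ha, h.mul_l _ _ _ ha (neg_ne_zero.2 hb) hb,
    k a ha, k b hb, one_mul, mul_one] at e
  rw [← one_mul (ρ a b), ← Int.units_mul_self (ρ b a), mul_assoc, e, mul_one]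

variable {F : Type} [Field F] [NumberField F] {N M : ℕ} {a b c : F} {p : Pr F}

lemma sy_smb (p : Pr F) : Smb (sy p) where
  mul_l a c b ha hc hb := by
    obtain ⟨N, h, hp⟩ := exists_good' hb p one_ne_zero
    obtain ⟨x, hx⟩ := exists_ap h.ne hp (sing_ne (p := p) ha)
    obtain ⟨y, hy⟩ := exists_ap h.ne hp (sing_ne (p := p) hc)
    rw [sy_eq h hp ha hx, sy_eq h hp hc hy, ← Jp_mul _ hx.ne hy.ne,
      sy_eq h hp (mul_ne_zero ha hc) (by rw [Pi.mulSingle_mul]; exact hx.mul hy)]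
  mul_r a b c ha hb hc := by
    obtain ⟨N1, h1⟩ := exists_good hb
    obtain ⟨N2, h2⟩ := exists_good hc
    obtain ⟨N, h, hp⟩ := exists_good' (mul_ne_zero hb hc) p (mul_ne_zero h1.ne h2.ne)
    have n0 := right_ne_zero_of_mul h.ne
    have g1 := (h1.mul h2.ne).mul n0
    have g2 := (h2.mul' h1.ne).mul n0
    obtain ⟨x, hx⟩ := exists_ap h.ne hp (sing_ne (p := p) ha)
    rw [sy_eq h hp ha hx, sy_eq g1 hp ha hx, sy_eq g2 hp ha hx, ← Jp_mul' _ _ hx.ne]
    refine Jp_congr fun l _ => ?_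
    simp only [cut, Pi.mul_apply]
    split_ifs with hl
    · rfl
    · exact chi_mul l (g1.unit l hl).2 (g2.unit l hl).2
  nrm x y b hb h0 := by
    obtain ⟨N, h, hp⟩ := exists_good' hb p one_ne_zero
    generalize 1 * N = N at h hp
    let t : Pr F → F := Pi.mulSingle p (x ^ 2 - b * y ^ 2)
    let u : Pr F → F := Pi.mulSingle p x
    let w : Pr F → F := Pi.single p y
    have e : ∀ l, t l = u l ^ 2 - b * w l ^ 2 := fun l => by
      simp only [t, u, w, Pi.mulSingle_apply, Pi.single_apply]; split_ifs <;> simp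
    have g0 : ∀ l : Pr F, l.valuation F (t l * N) ≠ 0 := fun l =>
      (Valuation.ne_zero_iff _).2 (mul_ne_zero (sing_ne h0 l) (by exact_mod_cast h.ne))
    have b0 : ∀ l : Pr F, 0 < l.valuation F b := fun l => (Valuation.pos_iff _).2 hb
    choose δ d0 hδ using fun l : Pr F => sq_cont (l.valuation F) (u l) (g0 l)
    choose η e0 hη using fun l : Pr F =>
      sq_cont (l.valuation F) (w l) (div_ne_zero (g0 l) (b0 l).ne')
    obtain ⟨Y, hY, -⟩ := approx h.ne w η e0 0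
    obtain ⟨X, hX, hX'⟩ := approx h.ne u δ d0 fun σ => |σ (b * Y ^ 2)| + 1
    have ap : Ap N t (X ^ 2 - b * Y ^ 2) := ap_of hp (sing_ne h0) (fun σ => by
      have h1 := hX' σ
      have h2 := le_abs_self (σ (b * Y ^ 2))
      have h3 := abs_nonneg (σ (b * Y ^ 2))
      rw [map_sub, map_pow]
      nlinarith) fun l hl => by
      nth_rw 1 [e]
      rw [show X ^ 2 - b * Y ^ 2 - (u l ^ 2 - b * w l ^ 2) =
        (X ^ 2 - u l ^ 2) - (Y ^ 2 - w l ^ 2) * b by ring]
      refine Valuation.map_sub_le _ (hδ l X (hX l hl)) ?_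
      rw [map_mul, ← le_div_iff₀ (b0 l)]
      exact hη l Y (hY l hl)
    rw [sy_eq h hp h0 ap]
    refine Jp_one fun l => ?_
    rw [cut, chi]
    split_ifs with h1 h2
    · exact .inl rfl
    · exact .inl rfl
    · have := aniso (l.valuation F) (d := 1) (map_one _) (h.unit l h1).2
        (fun s hs => h2 ⟨s, by rwa [one_mul] at hs⟩) X Y
      rw [one_mul] at this
      rw [this]
      rcases max_choice (l.valuation F X ^ 2) (l.valuation F Y ^ 2) with k | k <;>
        exact .inr ⟨_, by rw [k, log_pow, two_nsmul]⟩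

lemma v4_le (p : Pr F) : p.valuation F 4 ≤ 1 := by simpa using vle_nat p 4

lemma sy_loc (hb : b ≠ 0) (h : p.valuation F (a - 1) < p.valuation F 4) : sy p a b = 1 := by
  have ha : a ≠ 0 := by
    rintro rfl
    exact (h.trans_le (v4_le p)).ne (by simp)
  obtain ⟨N, g, hp⟩ := exists_good' hb p one_ne_zero
  obtain ⟨t, t0, ht⟩ := newton (γ := p.valuation F (1 * N : ℕ))
    ((Valuation.ne_zero_iff _).2 (by exact_mod_cast g.ne)) h
  have t2 := pow_ne_zero 2 t0
  have ap : Ap (1 * N) (Pi.mulSingle p (t ^ 2 / a)) (1 : F) := ⟨fun l _ => by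
    rw [Pi.mulSingle_apply]
    split_ifs with k
    · rwa [k, one_div_div]
    · simp, fun σ => by simp, one_ne_zero⟩
  have e := (sy_smb p).mul_l _ _ _ (div_ne_zero t2 ha) ha hb
  rw [div_mul_cancel₀ _ ha, (sy_smb p).sq t0 hb, sy_eq g hp (div_ne_zero t2 ha) ap,
    g.one 1 (ap_one _), one_mul] at e
  exact e.symm

lemma sy_close (h2 : p.valuation F 2 = 1) (hb : b ≠ 0) (hc : p.valuation F c = 1)
    (h : p.valuation F (a - c) < 1) : sy p a b = sy p c b := by
  have c0 : c ≠ 0 := by rintro rfl; simp at hc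
  have a0 : a ≠ 0 := by rintro rfl; simp [hc] at h
  rw [← div_mul_cancel₀ a c0, (sy_smb p).mul_l _ _ _ (div_ne_zero a0 c0) c0 hb, sy_loc hb, one_mul]
  rwa [div_sub_one c0, map_div₀, hc, div_one, show (4 : F) = 2 * 2 by norm_num, map_mul, h2, one_mul]

lemma two_not_mem (h2 : p.valuation F 2 = 1) : (2 : 𝓞 F) ∉ p.asIdeal := by
  exact_mod_cast (veq_nat p 2).1 (by simpa using h2)

open Polynomial in
lemma sy_unit (h2 : p.valuation F 2 = 1) (ha : p.valuation F a = 1) (hb : p.valuation F b = 1) :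
    sy p a b = 1 := by
  have b0 : b ≠ 0 := by rintro rfl; simp at hb
  obtain ⟨x, hx⟩ := exists_int p ha.le
  obtain ⟨y, hy⟩ := exists_int p hb.le
  have := MP_a009d0_nt.W.frob_finite p.isMaximal
  have := p.isPrime
  have := Fintype.ofFinite (𝓞 F ⧸ p.asIdeal)
  have ny := not_mem_of_close p hb hy
  obtain ⟨m, hm, -⟩ := qart_euler p.isMaximal (two_not_mem h2) ny
  obtain ⟨r, s, e⟩ := FiniteField.exists_root_sum_quadratic (R := 𝓞 F ⧸ p.asIdeal)
    (f := X ^ 2 - C (Ideal.Quotient.mk _ x)) (g := C (-Ideal.Quotient.mk _ y) * X ^ 2)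
    (degree_X_pow_sub_C two_pos _)
    (degree_C_mul_X_pow 2 (neg_ne_zero.2 (mt Ideal.Quotient.eq_zero_iff_mem.1 ny)))
    (by rw [← Nat.card_eq_fintype_card, ← MP_a009d0_nt.W.frob_card, hm]; omega)
  obtain ⟨r, rfl⟩ := Ideal.Quotient.mk_surjective r
  obtain ⟨s, rfl⟩ := Ideal.Quotient.mk_surjective s
  have h3 : p.valuation F (x - (r * r - (s * s) * y) : 𝓞 F) < 1 := by
    rw [vlt, ← Ideal.Quotient.eq_zero_iff_mem]
    simp only [eval_sub, eval_pow, eval_X, eval_C, eval_mul] at e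
    simp only [map_sub, map_mul]
    linear_combination -e
  have h4 : p.valuation F (a - (r ^ 2 - b * s ^ 2)) < 1 := by
    have : a - (r ^ 2 - b * s ^ 2) =
        (x - (r * r - (s * s) * y) : 𝓞 F) - (x - a) - (y - b) * (s * s : 𝓞 F) := by
      simp only [map_sub, map_mul]; ring
    rw [this]
    refine Valuation.map_sub_lt _ (Valuation.map_sub_lt _ h3 hx) ?_
    rw [map_mul]
    exact mul_lt_one_of_lt_of_le hy (vle p _)
  have h5 : p.valuation F ((r : F) ^ 2 - b * s ^ 2) = 1 :=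
    (Valuation.map_eq_of_sub_lt _ (by rwa [ha, Valuation.map_sub_swap])).trans ha
  rw [sy_close h2 b0 h5 h4, (sy_smb p).nrm _ _ _ b0 fun h => by simp [h] at h5]

lemma Jp_prod {ι : Type*} (e : Pr F → ℤˣ) (S : Finset ι) {x : ι → F} (h : ∀ i ∈ S, x i ≠ 0) :
    Jp e (∏ i ∈ S, x i) = ∏ i ∈ S, Jp e (x i) := by
  induction S using Finset.induction_on with
  | empty => exact Jp_one fun l => .inr (by simp)
  | insert i S hi ih =>
    have h' := fun j hj => h j (mem_insert_of_mem hj)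
    rw [prod_insert hi, prod_insert hi, Jp_mul _ (h i (mem_insert_self _ _))
      (prod_ne_zero_iff.2 h'), ih h']

lemma sy_prod (ha : a ≠ 0) (hb : b ≠ 0) (pos : ∀ σ : F →+* ℝ, 0 < σ a) (S : Finset (Pr F))
    (hS : ∀ p ∉ S, p.valuation F 2 = 1 ∧ p.valuation F a = 1 ∧ p.valuation F b = 1) :
    ∏ p ∈ S, sy p a b = 1 := by
  obtain ⟨N0, g0⟩ := exists_good hb
  have g := g0.mul (M := ∏ p ∈ S, nm p) (prod_ne_zero_iff.2 fun p _ => nm_ne p)
  have sub : S ⊆ prs F (N0 * ∏ p ∈ S, nm p) := fun p hp => (mem_prs g.ne).2 (mem_mul.2 (.inr (by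
    rw [← mul_prod_erase _ _ hp]; exact mem_mul.2 (.inl (nm_mem p)))))
  generalize N0 * ∏ p ∈ S, nm p = N at g sub
  rw [prod_subset sub fun p _ hp => sy_unit (hS p hp).1 (hS p hp).2.1 (hS p hp).2.2]
  have : ∀ p : Pr F, ∃ x, p ∈ prs F N → Ap N (Pi.mulSingle p a) x := fun p => by
    by_cases hp : p ∈ prs F N
    · exact (exists_ap g.ne ((mem_prs g.ne).1 hp) (sing_ne (p := p) ha)).imp fun _ h _ => h
    · exact ⟨0, fun h => absurd h hp⟩
  choose x hx using this
  have h1 := ((Ap.prod _ hx).div (s := fun _ => a) ⟨fun l _ => by simp [ha], pos, ha⟩).congr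
    (s := 1) fun l hl => by
      rw [Pi.div_apply, prod_apply, prod_pi_mulSingle l (fun _ => a), if_pos ((mem_prs g.ne).2 hl),
        div_self ha, Pi.one_apply]
  rw [prod_congr rfl fun p hp => sy_eq g ((mem_prs g.ne).1 hp) ha (hx p hp),
    ← Jp_prod _ _ fun p hp => (hx p hp).ne, ← div_mul_cancel₀ (∏ p ∈ prs F N, x p) ha,
    Jp_mul _ h1.ne ha, g.one _ h1, one_mul]
  refine Jp_one fun l => ?_
  by_cases hl : l ∈ S
  · exact .inl (if_pos ((mem_prs g.ne).1 (sub hl)))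
  · exact .inr (by simp [(hS l hl).2.1])

lemma norm_cong {m : ℕ} {c : 𝓞 F} (h : (m : 𝓞 F) ∣ c - 1) :
    ((Algebra.norm ℤ c : ℤ) : ZMod m) = 1 := by
  obtain ⟨y, hy⟩ := h
  rw [sub_eq_iff_eq_add.1 hy, Algebra.norm_eq_matrix_det (RingOfIntegers.basis F),
    ← eq_intCast (Int.castRingHom (ZMod m)), RingHom.map_det, map_add, map_add, map_one, map_one,
    map_mul, map_mul, map_natCast, map_natCast, ← nsmul_eq_mul, ← Nat.cast_smul_eq_nsmul (ZMod m),
    ZMod.natCast_self, zero_smul, zero_add, Matrix.det_one]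

lemma chi_jac {m : ℕ} (h2 : p.valuation F 2 = 1) (hm : (m : 𝓞 F) ∉ p.asIdeal) :
    Odd (nm p) ∧ (chi (m : F) p : ℤ) = jacobiSym m (nm p) := by
  have := p.isMaximal
  obtain ⟨k, hk, k1, k2⟩ := qart_euler p.isMaximal (two_not_mem h2) hm
  refine ⟨⟨k, hk⟩, ?_⟩
  obtain ⟨q, f, -, hl, hq, e⟩ := Ideal.exists_prime_and_absNorm_eq_pow p.asIdeal
  have := Fact.mk hq
  obtain ⟨h, rfl⟩ := hq.odd_of_ne_two (by rintro rfl; exact two_not_mem h2 (by exact_mod_cast hl))
  obtain ⟨g, hg, hg'⟩ := half_pow h f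
  obtain rfl : k = h * g := by omega
  rw [nm, e, jacobiSym.pow_right, ← jacobiSym.legendreSym.to_jacobiSym]
  have h1 := legendreSym.eq_pow (2 * h + 1) m
  rw [show (2 * h + 1) / 2 = h by omega, ← Int.cast_pow, ZMod.intCast_eq_intCast_iff_dvd_sub] at h1
  have h0 : ((m : ℤ) : ZMod (2 * h + 1)) ≠ 0 := by
    rw [Int.cast_natCast, Ne, ZMod.natCast_eq_zero_iff]
    rintro ⟨r, rfl⟩
    exact hm (mem_mul.2 (.inl hl))
  have h3 : (m : 𝓞 F) ^ (h * g) - ((legendreSym (2 * h + 1) m ^ g : ℤ) : 𝓞 F) ∈ p.asIdeal := by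
    obtain ⟨r, hr⟩ := h1.trans (sub_dvd_pow_sub_pow _ _ g)
    have := congrArg (Int.cast : ℤ → 𝓞 F) hr
    rw [Int.cast_sub, Int.cast_mul, Int.cast_natCast, ← pow_mul, Int.cast_pow, Int.cast_natCast]
      at this
    rw [this]; exact Ideal.mul_mem_right _ _ hl
  have h4 : legendreSym (2 * h + 1) m ^ f = legendreSym (2 * h + 1) m ^ g := by
    rcases legendreSym.eq_one_or_neg_one _ h0 with k | k <;> rw [k]
    · simp
    · rw [neg_one_pow_eq_pow_mod_two, ← hg', ← neg_one_pow_eq_pow_mod_two]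
  have h5 : legendreSym (2 * h + 1) m ^ g = 1 ∨ legendreSym (2 * h + 1) m ^ g = -1 := by
    rcases legendreSym.eq_one_or_neg_one _ h0 with k | k <;> rw [k]
    · simp
    · exact neg_one_pow_eq_or _ _
  rw [h4, chi, chi_sq p (c := m) (by simp)]
  split_ifs with hs
  · refine (h5.resolve_right fun k => two_not_mem h2 ?_).symm
    rw [k] at h3
    convert sub_mem h3 (k1 hs) using 1; push_cast; ring
  · refine (h5.resolve_left fun k => two_not_mem h2 ?_).symm
    rw [k] at h3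
    convert sub_mem (k2 hs) h3 using 1; push_cast; ring

lemma sy_neg (hp : (nm p).Prime) (h2 : p.valuation F 2 = 1) (ha : p.valuation F a = exp (-1))
    (hb : p.valuation F b = 1) (hn : ∀ t, ¬ p.valuation F (b - t ^ 2) < 1) : sy p a b = -1 := by
  have a0 : a ≠ 0 := by rintro rfl; rw [map_zero] at ha; exact exp_ne_zero ha.symm
  have b0 : b ≠ 0 := by rintro rfl; simp at hb
  have := Fact.mk hp
  have p2 : nm p ≠ 2 := fun h => two_not_mem h2 (by exact_mod_cast h ▸ nm_mem p)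
  obtain ⟨r, hr⟩ := FiniteField.exists_nonsquare (F := ZMod (nm p)) (by rwa [ZMod.ringChar_zmod_n])
  obtain ⟨m, m1, m2⟩ := Nat.chineseRemainder (n := nm p) (m := 4)
    (((Nat.coprime_primes hp Nat.prime_two).2 p2).pow_right 2) r.val 1
  have m3 : (m : ZMod (nm p)) = r := by
    rw [(ZMod.natCast_eq_natCast_iff _ _ _).2 m1, ZMod.natCast_zmod_val]
  have m4 : m % 4 = 1 := m2
  have m0 : m ≠ 0 := by omega
  have m0' : (m : F) ≠ 0 := by exact_mod_cast m0
  have m5 : (m : 𝓞 F) ∉ p.asIdeal := fun h => by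
    have : (nm p).Coprime m := hp.coprime_iff_not_dvd.2 fun h => hr (by
      rw [← m3, (ZMod.natCast_eq_zero_iff _ _).2 h]; exact IsSquare.zero)
    obtain ⟨u, w, e⟩ : IsCoprime (nm p : 𝓞 F) m := this.cast
    exact p.isPrime.ne_top ((Ideal.eq_top_iff_one _).2
      (e ▸ add_mem (Ideal.mul_mem_left _ _ (nm_mem p)) (Ideal.mul_mem_left _ _ h)))
  have m6 : chi (m : F) p = -1 := Units.ext (by
    rw [(chi_jac h2 m5).2, ← jacobiSym.legendreSym.to_jacobiSym]
    exact (legendreSym.eq_neg_one_iff' _).2 (m3 ▸ hr))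
  have vm := (veq_nat p m).2 m5
  have e1 : sy p a b * sy p a m = 1 := by
    have c1 := chi_mul p hb vm
    rw [m6, show chi b p = -1 from if_neg (not_exists.2 hn), Int.units_mul_self, chi] at c1
    obtain ⟨t, ht⟩ : ∃ t, p.valuation F (b * m - t ^ 2) < 1 := by
      by_contra k
      rw [if_neg k] at c1
      exact absurd c1 (by decide)
    have vb : p.valuation F (b * m) = 1 := by simp [hb, vm]
    have vt : p.valuation F (t ^ 2) = 1 :=
      (Valuation.map_eq_of_sub_lt _ (by rwa [vb, Valuation.map_sub_swap])).trans vb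
    rw [← (sy_smb p).mul_r _ _ _ a0 b0 m0', (sy_smb p).swap a0 (mul_ne_zero b0 m0'),
      sy_close h2 a0 vt ht, (sy_smb p).sq (by rintro rfl; simp at vt) a0]
  obtain ⟨N, g, hN⟩ := exists_good' m0' p m0
  obtain ⟨x, hx⟩ := exists_ap g.ne hN (sing_ne (p := p) a0)
  obtain ⟨c, hc, -⟩ := hx.int g.ne fun l _ => by
    rw [Pi.mulSingle_apply]
    split_ifs with k
    · rw [k, ha, ← exp_zero, exp_le_exp]; omega
    · simp
  have c1 : (m : 𝓞 F) ∣ c - 1 := dvd_of_val m0 fun l hl => by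
    simpa [Pi.mulSingle_eq_of_ne (show l ≠ p by rintro rfl; exact m5 hl)] using hc.mono.cg l hl
  let φ : Ideal (𝓞 F) →* ℤ := ⟨⟨fun I => jacobiSym (Ideal.absNorm I) m, by
    simp [jacobiSym.one_left]⟩, fun I J => by simp [jacobiSym.mul_left]⟩
  have k1 : ∀ l : Pr F, l.valuation F 2 = 1 → (m : 𝓞 F) ∉ l.asIdeal → φ l.asIdeal = chi (m : F) l :=
    fun l h1 h3 => by
      rw [(chi_jac h1 h3).2]
      exact (jacobiSym.quadratic_reciprocity_one_mod_four m4 (chi_jac h1 h3).1).symm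
  have k2 := Jp_fac φ (Pi.mulSingle p (-1) * cut (m * N) (m : F)) (a := c)
    (by exact_mod_cast hc.ne) fun l hl => by
      rw [Pi.mul_apply, Int.cast_id, cut]
      rcases eq_or_ne l p with rfl | k
      · rw [k1 l h2 m5, m6, if_pos hN, Pi.mulSingle_eq_same, mul_one]
      · have : ((m * N : ℕ) : 𝓞 F) ∉ l.asIdeal := fun h => (veq l c).1 (by
          simpa [Pi.mulSingle_eq_of_ne k] using hc.val h) hl
        rw [if_neg this, Pi.mulSingle_eq_of_ne k, one_mul,
          k1 l (g.unit l this).1 fun h => this (mem_mul.2 (.inl h))]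
  have k3 : φ (Ideal.span {c}) = 1 := by
    have n1 : jacobiSym (Algebra.norm ℤ c) m = 1 := by
      rw [jacobiSym.mod_left' (a₂ := 1), jacobiSym.one_left]
      exact (ZMod.intCast_eq_intCast_iff _ _ _).1 (by rw [norm_cong c1, Int.cast_one])
    change jacobiSym (Ideal.absNorm _) m = 1
    rw [Ideal.absNorm_span_singleton]
    rcases Int.natAbs_eq (Algebra.norm ℤ c) with k | k
    · rwa [← k]
    · rwa [k, jacobiSym.neg _ (Nat.odd_iff.2 (by omega)), ZMod.χ₄_nat_one_mod_four m4, one_mul] at n1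
  have k4 : Jp (Pi.mulSingle p (-1)) (c : F) = -1 := by
    rw [Jp, finprod_eq_single _ p fun l hl => by rw [Pi.mulSingle_eq_of_ne hl, one_zpow],
      hc.val hN, Pi.mulSingle_eq_same, Pi.mulSingle_eq_same, ha, log_exp]
    rfl
  rw [k3, Jp_mul' _ _ hc.ne, k4, ← sy_eq g hN a0 hc, Int.cast_id, eq_comm, Units.val_eq_one,
    neg_one_mul, neg_eq_iff_eq_neg] at k2
  rwa [k2, mul_neg_one, neg_eq_iff_eq_neg] at e1

theorem exists_rec (F : Type) [Field F] [NumberField F] : ∃ ρ : Pr F → F → F → ℤˣ, Rec ρ :=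
  ⟨sy, sy_smb, fun _ _ _ => sy_loc, fun _ _ _ => sy_unit, fun _ _ => sy_prod,
    fun _ hp h2 _ _ => sy_neg hp h2⟩

end Pool.Agent.Lib.MP_7cad78_nt.R2
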