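import Pool.Agent.Lib.MP_7cad78_nt.R2.Defs2
import Pool.Agent.Lib.MP_7cad78_nt.R2.Rho
import Pool.Agent.Lib.MP_7cad78_nt.R2.Rank1
import Pool.Agent.Lib.MP_7cad78_nt.R2.Quart

/-! For one set of nodes all curves with a marked point have rank one. -/

namespace Pool.Agent.Lib.MP_7cad78_nt.R2

open NumberField NumberField.mixedEmbedding IsDedekindDomain WithZero Finset NF Filter
open scoped Classical

variable {F : Type} [Field F] [NumberField F]

omit [NumberField F] in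
lemma alg_cast (A B s : 𝓞 F) : ((cub A B s : 𝓞 F) : F) = cub (A : F) B s := by
  simp only [cub, map_add, map_mul, map_pow]

lemma alg_hensel (P : Pr F) {A B e : 𝓞 F} (h : Nice (P.valuation F) (A : F) B e) (n : ℕ) :
    ∃ s, s - e ∈ P.asIdeal ∧ cub A B s ∈ P.asIdeal ^ (n + 1) := by
  induction n with
  | zero => exact ⟨e, by simp, by rw [zero_add, pow_one, ← vlt, alg_cast]; exact h.root⟩
  | succ n ih =>
    obtain ⟨s, h1, h2⟩ := ih
    have h3 : 3 * s ^ 2 + A ∉ P.asIdeal := fun k => by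
      obtain ⟨t, t1, ht⟩ := h.sq
      have k2 : 3 * e ^ 2 + A ∈ P.asIdeal := by
        convert sub_mem k (P.asIdeal.mul_mem_right (3 * (s + e)) h1) using 1; ring
      rw [← vlt] at k2
      simp only [map_add, map_mul, map_pow, map_ofNat] at k2
      have := Valuation.map_sub_lt _ k2 ht
      rw [sub_sub_cancel, map_pow, t1, one_pow] at this
      exact this.false
    obtain ⟨w, c, hc, hw⟩ := P.isMaximal.exists_inv h3
    have h4 : cub A B s ∈ P.asIdeal := Ideal.pow_le_self n.succ_ne_zero h2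
    refine ⟨s - w * cub A B s, ?_, ?_⟩
    · convert sub_mem h1 (P.asIdeal.mul_mem_left w h4) using 1; ring
    · have : cub A B (s - w * cub A B s) =
          cub A B s * (c + w ^ 2 * (3 * s - w * cub A B s) * cub A B s) := by
        have e : ∀ z, cub A B (s - z) = cub A B s - z * (3 * s ^ 2 + A) + z ^ 2 * (3 * s - z) :=
          fun z => by simp only [cub]; ring
        rw [e]
        linear_combination (-cub A B s) * hw
      rw [this, pow_succ]
      exact Ideal.mul_mem_mul h2 (add_mem hc (P.asIdeal.mul_mem_left _ h4))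

lemma alg_cop {P : Pr F} {δ z : 𝓞 F} {k : ℕ} (h : Ideal.span {δ} = P.asIdeal ^ k)
    (hz : z ∉ P.asIdeal) : IsCoprime δ z := by
  rw [← Ideal.isCoprime_span_singleton_iff, h]
  exact IsCoprime.pow_left (Ideal.isCoprime_iff_sup_eq.2 (P.isMaximal.out.2 _
    (left_lt_sup.2 fun h => hz ((Ideal.span_singleton_le_iff_mem _).1 h))))

lemma alg_mem {P l : Pr F} {δ : 𝓞 F} {k : ℕ} (hk : 0 < k) (h : Ideal.span {δ} = P.asIdeal ^ k) :
    δ ∈ l.asIdeal ↔ l = P := by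
  rw [← Ideal.dvd_span_singleton, h]
  constructor
  · exact fun h => (HeightOneSpectrum.ext (P.isMaximal.eq_of_le l.isPrime.ne_top
      (Ideal.le_of_dvd (l.prime.dvd_of_dvd_pow h)))).symm
  · rintro rfl; exact dvd_pow_self _ hk.ne'

lemma alg_prod {ι : Type} {P : ι → Pr F} {δ : ι → 𝓞 F}
    (h : ∀ i, ∃ k, 0 < k ∧ Ideal.span {δ i} = (P i).asIdeal ^ k) (U : Finset ι) (l : Pr F) :
    (∏ i ∈ U, δ i) ^ 3 ∈ l.asIdeal ↔ ∃ i ∈ U, l = P i := by
  have := l.isPrime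
  rw [l.isPrime.pow_mem_iff_mem 3 three_pos, Ideal.IsPrime.prod_mem_iff]
  refine exists_congr fun i => and_congr_right fun _ => ?_
  obtain ⟨k, hk, e⟩ := h i
  exact alg_mem hk e

lemma alg_exists {ι : Type} {P : ι → Pr F} (hP : Function.Injective P) {δ e : ι → 𝓞 F}
    {A B : 𝓞 F} {M : ℕ} (h : ∀ i, ∃ k, 0 < k ∧ Ideal.span {δ i} = (P i).asIdeal ^ k)
    (hM : ∀ i, (M : 𝓞 F) ∉ (P i).asIdeal) (hn : ∀ i, Nice ((P i).valuation F) (A : F) B (e i))
    (U : Finset ι) : ∃ s : 𝓞 F, (∏ i ∈ U, δ i) ^ 3 ∣ cub A B s ∧ (M : 𝓞 F) ^ 7 ∣ s := by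
  have sub : ∀ x y : 𝓞 F, x - y ∣ cub A B x - cub A B y := fun x y =>
    ⟨x ^ 2 + x * y + y ^ 2 + A, by simp only [cub]; ring⟩
  induction U using Finset.induction_on with
  | empty => exact ⟨0, by simp, dvd_zero _⟩
  | insert i U hi ih =>
    obtain ⟨s, h1, h2⟩ := ih
    obtain ⟨k, hk, ek⟩ := h i
    obtain ⟨t, -, ht⟩ := alg_hensel (P i) (hn i) (k * 3)
    have h3 : δ i ^ 3 ∣ cub A B t := by
      rw [← Ideal.mem_span_singleton, ← Ideal.span_singleton_pow, ek, ← pow_mul]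
      exact Ideal.pow_le_pow_right (Nat.le_succ _) ht
    have c1 : IsCoprime (δ i ^ 3) ((∏ i ∈ U, δ i) ^ 3) := (alg_cop ek fun k => by
      obtain ⟨j, hj, e⟩ := (alg_prod h U _).1 k
      exact hi (hP e ▸ hj)).pow_left
    have c2 : IsCoprime (δ i ^ 3) ((M : 𝓞 F) ^ 7) := (alg_cop ek (hM i)).pow
    obtain ⟨a, b, hab⟩ := c1.mul_right c2
    have d1 : (∏ i ∈ U, δ i) ^ 3 * (M : 𝓞 F) ^ 7 ∣
        s + (t - s) * b * ((∏ i ∈ U, δ i) ^ 3 * (M : 𝓞 F) ^ 7) - s := ⟨(t - s) * b, by ring⟩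
    have d2 : δ i ^ 3 ∣ s + (t - s) * b * ((∏ i ∈ U, δ i) ^ 3 * (M : 𝓞 F) ^ 7) - t :=
      ⟨(s - t) * a, by linear_combination (t - s) * hab⟩
    generalize s + (t - s) * b * ((∏ i ∈ U, δ i) ^ 3 * (M : 𝓞 F) ^ 7) = r at d1 d2
    refine ⟨r, ?_, by simpa using dvd_add ((dvd_mul_left _ _).trans d1) h2⟩
    rw [prod_insert hi, mul_pow]
    exact c1.mul_dvd (by simpa using dvd_add (d2.trans (sub r t)) h3)
      (by simpa using dvd_add (((dvd_mul_right _ _).trans d1).trans (sub r s)) h1)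

variable {M : ℕ} {A B d s y : 𝓞 F} {q : Pr F}

lemma Ok.le (h : Ok M A B d s y q) {l : Pr F} (hl : l ≠ q) (hd : d ∉ l.asIdeal) :
    l.valuation F M ≤ l.valuation F (cub (A : F) B s) := by
  obtain ⟨𝔠, h1, h2⟩ := h.gen
  obtain ⟨π, p1, p2⟩ := SetLike.not_le_iff_exists.1 fun k : q.asIdeal ≤ l.asIdeal =>
    hl (HeightOneSpectrum.ext (q.isMaximal.eq_of_le l.isPrime.ne_top k)).symm
  obtain ⟨z, hz⟩ := Ideal.mem_span_singleton.1 (h2 ▸ Ideal.mul_mem_mul h1 p1)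
  have := congrArg (fun x : 𝓞 F => l.valuation F x) hz
  simp only [map_mul, map_natCast, (veq l π).2 p2, mul_one] at this
  rw [← alg_cast, h.eq, this]
  simp only [map_mul, (veq l d).2 hd, one_mul]
  exact mul_le_of_le_one_right' (vle l z)

lemma Ok.unit (h : Ok M A B d s y q) {l : Pr F} (hl : l ≠ q) (hd : d ∉ l.asIdeal)
    (hM : (M : 𝓞 F) ∉ l.asIdeal) : l.valuation F (cub (A : F) B s) = 1 :=
  le_antisymm (alg_cast A B s ▸ vle l _) (((veq_nat l M).2 hM).symm.trans_le (h.le hl hd))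

lemma Ok.val (h : Ok M A B d s y q) (hd : d ∉ q.asIdeal) :
    q.valuation F (cub (A : F) B s) = exp (-1) := by
  obtain ⟨𝔠, h1, h2⟩ := h.gen
  have k : ∀ n : ℕ, q.valuation F y ≤ exp (-(n : ℤ)) ↔ q.asIdeal ^ n ∣ 𝔠 * q.asIdeal := fun n => by
    rw [← h2, Ideal.dvd_span_singleton, ← q.intValuation_le_pow_iff_mem,
      ← q.valuation_of_algebraMap (K := F)]
  have k1 := (k 1).2 (by rw [pow_one]; exact dvd_mul_left _ _)
  have k2 := not_le.1 (mt (k 2).1 fun e => h.qM (Ideal.le_of_dvd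
    ((mul_dvd_mul_iff_right q.prime.ne_zero).1 (sq q.asIdeal ▸ e)) h1))
  have k0 := (zero_le.trans_lt k2).ne'
  rw [← alg_cast, h.eq]
  simp only [map_mul, (veq q d).2 hd, one_mul]
  rw [← exp_log k0, exp_le_exp] at k1
  rw [← exp_log k0, exp_lt_exp] at k2
  rw [← exp_log k0, exp_inj]
  omega

theorem alg (F : Type) [Field F] [NumberField F] [DecidableEq F] (M : ℕ) (hM : M ≠ 0) (h6 : 6 ∣ M) :
    ∃ m : ℕ, m ≠ 0 ∧ ∀ (K : ℕ) (Y : Sys F (Fin K)) (σ0 : Emb F) (δ : Fin K → 𝓞 F),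
    (∀ i, (m : ZMod (Y.p i)) ≠ 0 ∧ (M : 𝓞 F) ∉ ((Y.S i).P σ0).asIdeal ∧
      ∃ k, 0 < k ∧ Ideal.span {δ i} = ((Y.S i).P σ0).asIdeal ^ k) → ∀ a B : 𝓞 F,
    (∀ 𝔭 : Pr F, (M : 𝓞 F) ∉ 𝔭.asIdeal → 4 * (3 * a) ^ 3 + 27 * B ^ 2 ∉ 𝔭.asIdeal ^ 2) →
    (∀ w, 0 < (emb F (3 * a)).1 w) → (∀ x : F, cub ((3 * a : 𝓞 F) : F) B x ≠ 0) →
    ¬ Exc m Y σ0 (3 * a) B → ∃ U : Finset (Fin K),
      (∃ s : 𝓞 F, (∏ i ∈ U, δ i) ^ 3 ∣ cub (3 * a) B s ∧ (M : 𝓞 F) ^ 7 ∣ s) ∧
      ∀ (s y : 𝓞 F) (q : Pr F), (∀ i, q ≠ (Y.S i).P σ0) → Ok M (3 * a) B ((∏ i ∈ U, δ i) ^ 3) s y q →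
        Module.rank ℤ (curve F (mk a B s)).Point = 1 := by
  obtain ⟨m, m0, hq⟩ := quart F M hM
  obtain ⟨ρ, hρ⟩ := exists_rec F
  refine ⟨m, m0, fun K Y σ0 δ hY a B sf pos nr hE => ?_⟩
  have hA : ((3 * a : 𝓞 F) : F) = 3 * a := by simp only [map_mul, map_ofNat]
  have hmk : ∀ s, mk a B s = (3 * (s * cub (3 * a) B s - (s ^ 2 + a) ^ 2), cub (3 * a) B s ^ 2 -
      3 * s * cub (3 * a) B s * (s ^ 2 + a) + 2 * (s ^ 2 + a) ^ 3) := fun _ => rfl
  generalize 3 * a = A at sf pos nr hE hA hmk ⊢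
  let ι := {i : Fin K // ∃ e : 𝓞 F, Nice (((Y.S i).P σ0).valuation F) (A : F) B e}
  let P : ι → Pr F := fun i => (Y.S i.1).P σ0
  choose e he using fun i : ι => i.2
  have hP : Function.Injective P := fun i j h => Subtype.ext (by
    by_contra k
    have h1 : (Y.p j.1 : 𝓞 F) ∈ (P j).asIdeal := by
      change (Y.S j.1).r σ0 _ = 0
      simp
    rw [← h] at h1
    exact Y.p_ne k (by simpa using (show (Y.S i.1).r σ0 _ = 0 from h1)))
  have two : ∀ l : Pr F, (M : 𝓞 F) ∉ l.asIdeal → l.valuation F 2 = 1 := fun l hl => by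
    obtain ⟨k, rfl⟩ := (show 2 ∣ 6 by norm_num).trans h6
    simpa using (veq_nat l 2).2 fun h => hl (mem_mul.2 (.inl h))
  have hp : ∀ i, (nm (P i)).Prime ∧ (M : 𝓞 F) ∉ (P i).asIdeal ∧
      Nice ((P i).valuation F) (A : F) B (e i) := fun i => ⟨by
    have : nm (P i) = Y.p i.1 := by
      rw [nm, Ideal.absNorm_apply, Submodule.cardQuot_apply]
      exact (Nat.card_congr (RingHom.quotientKerEquivOfSurjective
        (ZMod.ringHom_surjective ((Y.S i.1).r σ0))).toEquiv).trans (Nat.card_zmod _)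
    rw [this]; exact Y.prime _, (hY i).2.1, he i⟩
  obtain ⟨U, hU⟩ := comb (Pt := fun U : Finset ι => {z : 𝓞 F × F × F //
    Adm M A B 0 P U z.1 z.2.1 z.2.2})
    (fun U z i => bit ((P i).valuation F) (i ∈ U) (A : F) B (e i) z.1.1 z.1.2.1) fun U V z z' => by
      convert orth hρ hM ((show 2 ∣ 6 by norm_num).trans h6) P hP e hp sf (fun σ => by
        obtain ⟨w, rfl⟩ := exists_place σ
        exact pos w) nr z.2 z'.2
  have hδ := fun i : ι => (hY i).2.2
  refine ⟨U.map (Function.Embedding.subtype _), ?_, fun s y q hqP ok => ?_⟩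
  · rw [prod_map]
    exact alg_exists hP hδ (fun i => (hp i).2.1) he U
  rw [prod_map] at ok
  have hd := alg_prod (P := P) hδ U
  change Ok M A B ((∏ i ∈ U, δ i.1) ^ 3) s y q at ok
  generalize (∏ i ∈ U, δ i.1) ^ 3 = d at ok hd
  have nod : ∀ i, i ∈ U ↔ (P i).valuation F (cub (A : F) B s) < 1 := fun i => ⟨fun h => by
    rw [← alg_cast, vlt, ok.eq]
    exact Ideal.mul_mem_right _ _ ((hd _).2 ⟨i, h, rfl⟩), fun h => by
    by_contra k
    refine h.ne (ok.unit (hqP i).symm (fun h => ?_) (hp i).2.1)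
    obtain ⟨j, hj, e⟩ := (hd _).1 h
    exact k (hP e ▸ hj)⟩
  have root : ∀ i (x : F), (P i).valuation F x ≤ 1 →
      ((P i).valuation F (cub (A : F) B x) < 1 ↔ (P i).valuation F (x - e i) < 1) := fun i x =>
    (he i).root_iff (two _ (hp i).2.1) (vle _ A) (vle _ _)
  have key := rank_one (q.valuation F) (A : F) B s (s ^ 2 + a) _ (by rw [hA]; ring) rfl (vle q A)
    (vle q s) (ok.val fun h => by obtain ⟨i, -, h⟩ := (hd q).1 h; exact hqP i h)
    (by simpa only [map_add, map_mul, map_pow, map_ofNat] using (veq q _).2 ok.q3) nr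
    (fun h => sf q ok.qM (by
      rw [show 4 * A ^ 3 + 27 * B ^ 2 = 0 from RingOfIntegers.ext (by
        simpa only [map_add, map_mul, map_pow, map_ofNat, map_zero] using h)]
      exact zero_mem _)) fun x y' hx h1 h2 => ?_
  · have : curve F (mk a B s) = ⟨0, 0, 0, 3 * (s * cub (A : F) B s - (s ^ 2 + a) ^ 2),
        cub (A : F) B s ^ 2 - 3 * s * cub (A : F) B s * (s ^ 2 + a) + 2 * (s ^ 2 + a) ^ 3⟩ := by
      simp only [curve, hmk, ← alg_cast, map_add, map_sub, map_mul, map_pow, map_ofNat]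
    rw [this]
    exact key
  have gen : ∀ l : Pr F, (M : 𝓞 F) ∉ l.asIdeal → (∀ i ∈ U, l ≠ P i) →
      1 ≤ l.valuation F (x - s) ∨ l.valuation F (cub (A : F) B s) = 1 := fun l h3 h4 => by
    rcases eq_or_ne l q with rfl | k
    · exact .inl h2
    · exact .inr (ok.unit k (fun h => by obtain ⟨i, hi, h⟩ := (hd l).1 h; exact h4 i hi h) h3)
  have nb := hU ⟨(s, x, y'), hx, h1, by simpa using ok.cong, fun l hl => ok.le
    (by rintro rfl; exact ok.qM hl) fun h => by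
      obtain ⟨i, -, rfl⟩ := (hd l).1 h
      exact (hp i).2.1 hl, nod, gen⟩
  simp only [bit] at nb
  refine (hq A B (x - s) x y' (sub_ne_zero.2 hx) h1 (fun l h3 h4 => ?_) pos _ Y σ0
    (fun i => (hY i).1) fun i e' n' h4 => ?_).resolve_right hE
  · rcases (Valuation.map_sub_le _ h4 (vle l s)).eq_or_lt with k | k
    · simp [k]
    by_cases h5 : ∃ i ∈ U, l = P i
    · obtain ⟨i, hi, rfl⟩ := h5
      refine Int.not_odd_iff_even.1 fun h => nb i ⟨h4, .inl ⟨hi, ?_, h⟩⟩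
      simpa using Valuation.map_add_lt _ k ((root i s (vle _ s)).1 ((nod i).1 hi))
    · have h6 := (gen l h3 fun i hi h => h5 ⟨i, hi, h⟩).resolve_left k.not_ge
      have h7 : l.valuation F (cub (A : F) B x) = 1 := (Valuation.map_eq_of_sub_lt _
        (((v_cub_sub (vle l A) h4 (vle l s)).trans_lt k).trans_eq h6.symm)).trans h6
      rw [← h1, map_mul, map_pow] at h7
      have h8 := congrArg log h7
      rw [log_mul (left_ne_zero_of_mul_eq_one h7) (right_ne_zero_of_mul_eq_one h7), log_pow,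
        log_one, two_nsmul] at h8
      exact ⟨-log (l.valuation F y'), by omega⟩
  · let j : ι := ⟨i, e', n'⟩
    have e1 : (P j).valuation F (e' - e j) < 1 := (root j e' (vle _ _)).1 n'.root
    have f1 : (P j).valuation F (cub (A : F) B x) ≤ 1 := v_cub (vle _ A) (vle _ B) h4
    have tr : ∀ z t : F, (P j).valuation F (z - e j) < 1 →
        (P j).valuation F (cub (A : F) B x * (x - z) - t ^ 2) < 1 →
        (P j).valuation F (cub (A : F) B x * (x - e') - t ^ 2) < 1 := fun z t h5 h6 => by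
      rw [show cub (A : F) B x * (x - e') - t ^ 2 = cub (A : F) B x * (x - z) - t ^ 2 +
        ((z - e j) - (e' - e j)) * cub (A : F) B x by ring]
      refine Valuation.map_add_lt _ h6 ?_
      rw [map_mul]
      exact mul_lt_one_of_lt_of_le (Valuation.map_sub_lt _ h5 e1) f1
    by_cases hj : j ∈ U
    · refine .inr ⟨(x - s) * y', tr s _ ((root j s (vle _ s)).1 ((nod j).1 hj)) ?_⟩
      rw [← h1, show (x - s) * y' ^ 2 * (x - s) - ((x - s) * y') ^ 2 = 0 by ring, map_zero]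
      exact zero_lt_one
    · by_cases h5 : (P j).valuation F (x - e j) < 1
      · exact .inl (by simpa using Valuation.map_sub_lt _ h5 e1)
      · by_contra k
        exact nb j ⟨h4, .inr ⟨hj, h5, fun t ht => k (.inr ⟨t, tr _ t (by simp) ht⟩)⟩⟩

end Pool.Agent.Lib.MP_7cad78_nt.R2
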