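import Pool.Agent.Lib.MP_7cad78_nt.R2.Defs

/-! Cubes in the coordinates of an integral basis. -/

namespace Pool.Agent.Lib.MP_7cad78_nt.R2

open NumberField NumberField.mixedEmbedding IsDedekindDomain Finset NF
open scoped Classical

variable {F : Type} [Field F] [NumberField F]

lemma card_Ix : Fintype.card (Ix F) = dg F := by
  rw [← Module.finrank_eq_card_chooseBasisIndex, RingOfIntegers.rank]

lemma repr_sum (j : Ix F → ℤ) (k : Ix F) :
    (RingOfIntegers.basis F).repr (∑ i, (j i : 𝓞 F) * RingOfIntegers.basis F i) k = j k := by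
  have : ∑ i, (j i : 𝓞 F) * RingOfIntegers.basis F i = ∑ i, j i • RingOfIntegers.basis F i := by
    simp only [zsmul_eq_mul]
  rw [this, Module.Basis.repr_sum_self]

lemma sum_repr (y : 𝓞 F) :
    ∑ i, ((RingOfIntegers.basis F).repr y i : 𝓞 F) * RingOfIntegers.basis F i = y := by
  simpa only [zsmul_eq_mul] using (RingOfIntegers.basis F).sum_repr y

lemma mem_cb {a y : 𝓞 F} {L : ℕ} : y ∈ cb a L ↔
    ∀ i, 0 ≤ (RingOfIntegers.basis F).repr (y - a) i ∧ (RingOfIntegers.basis F).repr (y - a) i < L := by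
  simp only [cb, mem_image, Fintype.mem_piFinset, mem_range]
  constructor
  · rintro ⟨j, hj, rfl⟩ i
    have := repr_sum (F := F) (fun i => (j i : ℤ)) i
    simp only [Int.cast_natCast] at this
    rw [add_sub_cancel_left, this]
    exact ⟨by positivity, by exact_mod_cast hj i⟩
  · intro h
    refine ⟨fun i => ((RingOfIntegers.basis F).repr (y - a) i).toNat, fun i => by
      have := h i; beta_reduce; omega, ?_⟩
    rw [← eq_sub_iff_add_eq', ← sum_repr (y - a)]
    refine sum_congr rfl fun i _ => ?_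
    rw [sum_repr, ← Int.cast_natCast, Int.toNat_of_nonneg (h i).1]

lemma cb_inj (a : 𝓞 F) : Function.Injective
    fun j : Ix F → ℕ => a + ∑ i, (j i : 𝓞 F) * RingOfIntegers.basis F i := fun j j' h => by
  funext k
  have h1 := repr_sum (F := F) (fun i => (j i : ℤ)) k
  have h2 := repr_sum (F := F) (fun i => (j' i : ℤ)) k
  simp only [Int.cast_natCast] at h1 h2
  rw [add_left_cancel h, h2] at h1
  exact_mod_cast h1.symm

lemma card_cb (a : 𝓞 F) (L : ℕ) : #(cb a L) = L ^ dg F := by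
  rw [cb, card_image_of_injective _ (cb_inj a), Fintype.card_piFinset]
  simp [card_Ix]

lemma dvd_iff_repr {L : ℕ} {y : 𝓞 F} :
    (L : 𝓞 F) ∣ y ↔ ∀ i, (L : ℤ) ∣ (RingOfIntegers.basis F).repr y i := by
  constructor
  · rintro ⟨z, rfl⟩ i
    rw [← nsmul_eq_mul, map_nsmul]
    simp
  · intro h
    rw [← sum_repr y]
    refine dvd_sum fun i _ => Dvd.dvd.mul_right ?_ _
    obtain ⟨c, hc⟩ := h i
    exact ⟨c, by rw [hc]; simp⟩

lemma cb_eq {L : ℕ} {a t t' : 𝓞 F} (h : t ∈ cb a L) (h' : t' ∈ cb a L) (hd : (L : 𝓞 F) ∣ t - t') :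
    t = t' := by
  apply (RingOfIntegers.basis F).repr.injective
  ext i
  have h1 := mem_cb.1 h i
  have h2 := mem_cb.1 h' i
  have h3 := dvd_iff_repr.1 hd i
  simp only [map_sub, Finsupp.sub_apply] at h1 h2 h3
  have := Int.eq_zero_of_abs_lt_dvd h3 (abs_lt.2 ⟨by omega, by omega⟩)
  omega

lemma cb_ex {L : ℕ} (hL : L ≠ 0) (a y : 𝓞 F) : ∃ t, t ∈ cb a L ∧ (L : 𝓞 F) ∣ y - t := by
  refine ⟨a + ∑ i, (((RingOfIntegers.basis F).repr (y - a) i % L : ℤ) : 𝓞 F) *
    RingOfIntegers.basis F i, mem_cb.2 fun i => ?_, dvd_iff_repr.2 fun i => ?_⟩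
  · rw [add_sub_cancel_left, repr_sum]
    exact ⟨Int.emod_nonneg _ (by omega), Int.emod_lt_of_pos _ (by omega)⟩
  · rw [← sub_sub, map_sub, Finsupp.sub_apply, repr_sum]
    exact Int.dvd_self_sub_emod

lemma cb_rep {L : ℕ} (hL : L ≠ 0) (a y : 𝓞 F) : ∃! t, t ∈ cb a L ∧ (L : 𝓞 F) ∣ y - t := by
  obtain ⟨t, h1, h2⟩ := cb_ex hL a y
  refine ⟨t, ⟨h1, h2⟩, fun t' h => cb_eq h.1 h1 ?_⟩
  simpa using dvd_sub h2 h.2

/-- every integer lies in a cube whose corner is a multiple of the side -/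
lemma cb_corner {L : ℕ} (hL : L ≠ 0) (y : 𝓞 F) : ∃ a, (L : 𝓞 F) ∣ a ∧ y ∈ cb a L := by
  obtain ⟨t, h1, h2⟩ := cb_ex hL 0 y
  exact ⟨y - t, h2, mem_cb.2 fun i => by simpa using mem_cb.1 h1 i⟩

lemma basis_le (F : Type) [Field F] [NumberField F] : ∃ C : ℝ, 1 ≤ C ∧
    (∀ (a y : 𝓞 F) (L : ℕ), y ∈ cb a L → ‖emb F (y - a)‖ ≤ C * L) ∧
    (∀ i, ‖emb F (RingOfIntegers.basis F i)‖ ≤ C) ∧
    ∀ (y : 𝓞 F) (i : Ix F), |((RingOfIntegers.basis F).repr y i : ℝ)| ≤ C * ‖emb F y‖ := by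
  set b := RingOfIntegers.basis F
  set D := ∑ i, ‖emb F (b i)‖
  set E := ∑ i : Ix F, ‖LinearMap.toContinuousLinearMap ((latticeBasis F).coord i)‖
  have D0 : 0 ≤ D := by positivity
  have E0 : 0 ≤ E := by positivity
  refine ⟨1 + D + E, by linarith, fun a y L h => ?_, fun i => ?_, fun y i => ?_⟩
  · rw [← sum_repr (y - a), map_sum]
    refine (norm_sum_le _ _).trans (le_trans (sum_le_sum (g := fun i => ‖emb F (b i)‖ * L)
      fun i _ => ?_) ?_)
    · obtain ⟨h1, h2⟩ := mem_cb.1 h i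
      rw [← Int.toNat_of_nonneg h1, Int.cast_natCast, map_mul, map_natCast, norm_natCast_mul,
        mul_comm]
      gcongr
      omega
    · rw [← sum_mul]
      gcongr
      linarith
  · have := single_le_sum (f := fun i => ‖emb F (b i)‖) (fun _ _ => norm_nonneg _) (mem_univ i)
    linarith
  · have h1 : ((b.repr y i : ℤ) : ℝ) = (latticeBasis F).repr (emb F y) i := by
      have := latticeBasis_repr_apply F (y : F) i
      rw [integralBasis_repr_apply] at this
      exact ((this.trans (by simp [b])).symm)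
    have h2 := (LinearMap.toContinuousLinearMap ((latticeBasis F).coord i)).le_opNorm (emb F y)
    have h3 := single_le_sum
      (f := fun i : Ix F => ‖LinearMap.toContinuousLinearMap ((latticeBasis F).coord i)‖)
      (fun _ _ => norm_nonneg _) (mem_univ i)
    rw [h1, ← Real.norm_eq_abs]
    refine le_trans h2 ?_
    gcongr
    linarith

end Pool.Agent.Lib.MP_7cad78_nt.R2
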