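import Pool.Agent.Lib.MP_7cad78_nt.NF.Fin

/-! Definitions for the count of curves of rank one. -/

namespace Pool.Agent.Lib.MP_7cad78_nt.R2

open NumberField IsDedekindDomain WithZero Finset NF
open scoped Classical

/-- the cubic -/
def cub {R : Type*} [CommRing R] (A B x : R) : R := x ^ 3 + A * x + B

/-- a bimultiplicative sign that is trivial on norms -/
structure Smb {K : Type*} [Field K] (ρ : K → K → ℤˣ) : Prop where
  mul_l : ∀ a a' b, a ≠ 0 → a' ≠ 0 → b ≠ 0 → ρ (a * a') b = ρ a b * ρ a' b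
  mul_r : ∀ a b b', a ≠ 0 → b ≠ 0 → b' ≠ 0 → ρ a (b * b') = ρ a b * ρ a b'
  nrm : ∀ x y b, b ≠ 0 → x ^ 2 - b * y ^ 2 ≠ 0 → ρ (x ^ 2 - b * y ^ 2) b = 1

section val

variable {K : Type*} [Field K] (v : Valuation K ℤᵐ⁰)

/-- the cubic has the single root `e` modulo `v`, with square derivative -/
structure Nice (A B e : K) : Prop where
  root : v (cub A B e) < 1
  sq : ∃ t, v t = 1 ∧ v (3 * e ^ 2 + A - t ^ 2) < 1
  nsq : ∀ t, ¬ v (-3 * e ^ 2 - 4 * A - t ^ 2) < 1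

/-- the local class of the point with abscissa `x` on `w^2 = f(x)(x-s)` is not trivial -/
def bit (nod : Prop) (A B e s x : K) : Prop :=
  v x ≤ 1 ∧ ((nod ∧ v (x - e) < 1 ∧ Odd (log (v (x - s)))) ∨
    (¬ nod ∧ ¬ v (x - e) < 1 ∧ ∀ t, ¬ v (cub A B x * (x - e) - t ^ 2) < 1))

end val

variable {F : Type} [Field F] [NumberField F]

/-- primes of `F` -/
abbrev Pr (F : Type) [Field F] := HeightOneSpectrum (𝓞 F)

/-- local symbols with the product formula -/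
structure Rec (ρ : Pr F → F → F → ℤˣ) : Prop where
  smb : ∀ 𝔭, Smb (ρ 𝔭)
  loc : ∀ (𝔭 : Pr F) (a b : F), b ≠ 0 → 𝔭.valuation F (a - 1) < 𝔭.valuation F 4 → ρ 𝔭 a b = 1
  unit : ∀ (𝔭 : Pr F) (a b : F), 𝔭.valuation F 2 = 1 → 𝔭.valuation F a = 1 →
    𝔭.valuation F b = 1 → ρ 𝔭 a b = 1
  prod : ∀ a b : F, a ≠ 0 → b ≠ 0 → (∀ σ : F →+* ℝ, 0 < σ a) → ∀ S : Finset (Pr F),
    (∀ 𝔭 ∉ S, 𝔭.valuation F 2 = 1 ∧ 𝔭.valuation F a = 1 ∧ 𝔭.valuation F b = 1) →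
    ∏ 𝔭 ∈ S, ρ 𝔭 a b = 1
  neg : ∀ 𝔭 : Pr F, (Ideal.absNorm 𝔭.asIdeal).Prime → 𝔭.valuation F 2 = 1 → ∀ a b : F,
    𝔭.valuation F a = exp (-1) → 𝔭.valuation F b = 1 →
    (∀ t, ¬ 𝔭.valuation F (b - t ^ 2) < 1) → ρ 𝔭 a b = -1

/-- a point of `w^2 = f(x)(x-s)` that is unramified outside `M` and the primes `P i`, `i ∈ U` -/
structure Adm (M : ℕ) (A B s0 : 𝓞 F) {ι : Type} (P : ι → Pr F) (U : Finset ι) (s : 𝓞 F)
    (x y : F) : Prop where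
  ne : x ≠ s
  eq : (x - s) * y ^ 2 = cub (A : F) B x
  cong : (M : 𝓞 F) ^ 7 ∣ s - s0
  bad : ∀ 𝔭 : Pr F, (M : 𝓞 F) ∈ 𝔭.asIdeal →
    𝔭.valuation F M ≤ 𝔭.valuation F (cub (A : F) B s)
  nod : ∀ i, i ∈ U ↔ (P i).valuation F (cub (A : F) B s) < 1
  gen : ∀ 𝔭 : Pr F, (M : 𝓞 F) ∉ 𝔭.asIdeal → (∀ i ∈ U, 𝔭 ≠ P i) →
    1 ≤ 𝔭.valuation F (x - s) ∨ 𝔭.valuation F (cub (A : F) B s) = 1

/-- an integral quartic with the invariants of the curve, no rational root, real roots, and a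
root modulo every prime of the pool at which the cubic is nice -/
def Exc (m : ℕ) {κ : Type} (Y : Sys F κ) (σ0 : Emb F) (A B : 𝓞 F) : Prop :=
  ∃ f : Q4 (𝓞 F), f.I = -48 * m ^ 4 * A ∧ f.J = -1728 * m ^ 6 * B ∧
    ¬ (f.map (algebraMap (𝓞 F) F)).Root ∧ (∀ w, (f.map ((cR w).comp (emb F))).Root) ∧
    ∀ i (e : 𝓞 F), Nice (((Y.S i).P σ0).valuation F) (A : F) B e → (f.map ((Y.S i).r σ0)).Root

/-- norm of a prime -/
noncomputable abbrev nm (𝔭 : Pr F) : ℕ := Ideal.absNorm 𝔭.asIdeal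

/-- norm of an integer -/
noncomputable abbrev nz (a : 𝓞 F) : ℕ := Ideal.absNorm (Ideal.span {a})

lemma prs_finite {W : ℕ} (h : W ≠ 0) : {𝔭 : Pr F | (W : 𝓞 F) ∈ 𝔭.asIdeal}.Finite := by
  have h0 : Ideal.span {(W : 𝓞 F)} ≠ 0 := by simpa using h
  refine (Ideal.finite_factors h0).subset fun 𝔭 hp => ?_
  exact Ideal.dvd_span_singleton.2 hp

variable (F) in
/-- the primes dividing `W` -/
noncomputable def prs (W : ℕ) : Finset (Pr F) :=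
  if h : W = 0 then ∅ else (prs_finite h).toFinset

lemma mem_prs {W : ℕ} (h : W ≠ 0) {𝔭 : Pr F} : 𝔭 ∈ prs F W ↔ (W : 𝓞 F) ∈ 𝔭.asIdeal := by
  simp [prs, h]

variable (F) in
/-- the product of `1 + 1 / N 𝔭` over the primes dividing `W` -/
noncomputable def Pw (W : ℕ) : ℝ := ∏ 𝔭 ∈ prs F W, (1 + 1 / (nm 𝔭 : ℝ))

lemma one_le_Pw (W : ℕ) : 1 ≤ Pw F W :=
  Finset.prod_induction _ (1 ≤ ·) (fun _ _ => one_le_mul_of_one_le_of_one_le) le_rfl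
    fun _ _ => le_add_of_nonneg_right (by positivity)

/-- `Y` misses a residue class modulo every prime of norm at most `Z` that does not divide `W` -/
def Sift (W : ℕ) (Z : ℝ) (Y : Finset (𝓞 F)) : Prop :=
  ∀ 𝔭 : Pr F, (W : 𝓞 F) ∉ 𝔭.asIdeal → (nm 𝔭 : ℝ) ≤ Z → ∃ c, ∀ y ∈ Y, y - c ∉ 𝔭.asIdeal

/-- index set of an integral basis -/
abbrev Ix (F : Type) [Field F] [NumberField F] := Module.Free.ChooseBasisIndex ℤ (𝓞 F)

/-- the cube of side `L` with corner `a` in the coordinates of an integral basis -/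
noncomputable def cb (a : 𝓞 F) (L : ℕ) : Finset (𝓞 F) :=
  (Fintype.piFinset fun _ : Ix F => range L).image
    fun j => a + ∑ i, (j i : 𝓞 F) * RingOfIntegers.basis F i

/-- the share of the points `u - W z`, `z` in the ball of radius `r`, that lie in `Y` -/
noncomputable def rho (W : ℕ) (r : ℝ) (Y : Finset (𝓞 F)) (u : 𝓞 F) : ℝ :=
  (#{z ∈ bl (F := F) 0 r | u - W * z ∈ Y} : ℝ) / #(bl (F := F) 0 r)

/-- indicator minus its local average -/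
noncomputable def Fl (W : ℕ) (r : ℝ) (Y : Finset (𝓞 F)) (u : 𝓞 F) : ℝ :=
  (if u ∈ Y then 1 else 0) - rho W r Y u

variable (F) in
/-- the additive characters that are trivial on the multiples of `N` -/
noncomputable def Xi (N : ℕ) [NeZero N] : Finset (AddChar (𝓞 F) ℂ) :=
  haveI : Finite (𝓞 F ⧸ Ideal.span {(N : 𝓞 F)}) :=
    Ideal.finiteQuotientOfFreeOfNeBot _ (by simpa using NeZero.ne N)
  haveI := Fintype.ofFinite (AddChar (𝓞 F ⧸ Ideal.span {(N : 𝓞 F)}) ℂ)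
  univ.image fun χ : AddChar (𝓞 F ⧸ Ideal.span {(N : 𝓞 F)}) ℂ =>
    χ.compAddMonoidHom (Ideal.Quotient.mk (Ideal.span {(N : 𝓞 F)})).toAddMonoidHom

/-- major arcs -/
def Arc (R δ : ℝ) (χ : AddChar (𝓞 F) ℂ) : Prop :=
  ∃ r : ℕ, 1 ≤ r ∧ (r : ℝ) ≤ R ∧ ∀ y : 𝓞 F, ‖χ (r * y) - 1‖ ≤ δ * ‖emb F y‖

/-- `(f(s + d M t) - f(s)) / d` -/
def gp (M : ℕ) (d s A t : 𝓞 F) : 𝓞 F :=
  M * A * t + (3 * s ^ 2 * M * t + 3 * s * d * M ^ 2 * t ^ 2 + d ^ 2 * M ^ 3 * t ^ 3)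

omit [NumberField F] in
lemma cub_gp (M : ℕ) (d s A B t : 𝓞 F) :
    cub A B (s + d * M * t) = cub A B s + d * gp M d s A t := by
  simp only [cub, gp]; ring

/-- the `t` with `(s + δ^3 M t) / δ` in the ball of radius `3 T^2` -/
noncomputable def Sset (M : ℕ) (δ s : 𝓞 F) (T : ℝ) : Finset (𝓞 F) :=
  {t ∈ bl (F := F) 0 (3 * T ^ 2 + ‖emb F s‖) |
    ‖mixedEmbedding F (((s + δ ^ 3 * M * t : 𝓞 F) : F) / δ)‖ ≤ 3 * T ^ 2}

/-- number of `t` modulo `W` with `f(s + M t) = y` modulo `M W` -/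
noncomputable def nu (M W : ℕ) (A B s y : 𝓞 F) : ℕ :=
  #{t ∈ cb (F := F) 0 W | ((M * W : ℕ) : 𝓞 F) ∣ cub A B (s + M * t) - y}

/-- a set of generators of `𝔠 𝔮`, `𝔠` dividing `M0`, one for each large prime `𝔮` -/
structure Gen (M0 : ℕ) (c T : ℝ) (Y : Finset (𝓞 F)) (q : 𝓞 F → Pr F) : Prop where
  size : ∀ y ∈ Y, ‖emb F y‖ ≤ T ^ 6
  big : ∀ y ∈ Y, c * (T ^ 6) ^ dg F ≤ nm (q y)
  gen : ∀ y ∈ Y, ∃ 𝔠 : Ideal (𝓞 F), (M0 : 𝓞 F) ∈ 𝔠 ∧ Ideal.span {y} = 𝔠 * (q y).asIdeal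
  inj : Set.InjOn q Y

end Pool.Agent.Lib.MP_7cad78_nt.R2
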