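import Pool.Agent.Lib.MP_7cad78_nt.R2.Lat

/-! The curves with a marked point. -/

namespace Pool.Agent.Lib.MP_7cad78_nt.R2

open NumberField IsDedekindDomain NF

variable {F : Type} [Field F] [NumberField F]

/-- the short model of the curve attached to `x^3 + 3 a x + B` and `s` -/
def mk (a B s : 𝓞 F) : 𝓞 F × 𝓞 F :=
  (3 * (s * cub (3 * a) B s - (s ^ 2 + a) ^ 2),
    cub (3 * a) B s ^ 2 - 3 * s * cub (3 * a) B s * (s ^ 2 + a) + 2 * (s ^ 2 + a) ^ 3)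

omit [NumberField F] in
lemma mk_disc (a B s : 𝓞 F) : 4 * (mk a B s).1 ^ 3 + 27 * (mk a B s).2 ^ 2 =
    cub (3 * a) B s ^ 2 * (4 * (3 * a) ^ 3 + 27 * B ^ 2) := by
  simp only [mk, cub]; ring

/-- `f(s) = d y` where `y` generates `𝔠 q`, `𝔠` divides `M`, and `q` is a good prime -/
structure Ok (M : ℕ) (A B d s y : 𝓞 F) (q : Pr F) : Prop where
  cong : (M : 𝓞 F) ^ 7 ∣ s
  eq : cub A B s = d * y
  gen : ∃ 𝔠 : Ideal (𝓞 F), (M : 𝓞 F) ∈ 𝔠 ∧ Ideal.span {y} = 𝔠 * q.asIdeal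
  qM : (M : 𝓞 F) ∉ q.asIdeal
  q3 : 3 * s ^ 2 + 4 * A ∉ q.asIdeal

end Pool.Agent.Lib.MP_7cad78_nt.R2
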