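import Pool.Agent.Lib.MP_7cad78_nt.R2.Quart

/-! The curves with an exceptional quartic have small density. -/

namespace Pool.Agent.Lib.MP_7cad78_nt.R2

open NumberField NumberField.mixedEmbedding IsDedekindDomain WithZero Finset NF NF.Q4 Filter
open scoped Classical

lemma ex_fib {α β : Type*} [Fintype α] [Fintype β] (p : α → Prop) (r : α × β → Prop)
    {_ : DecidablePred p} {_ : DecidablePred r} {c c' : ℝ} (hc : 0 ≤ c') (h1 : c ≤ #{a | p a}) (h2 : ∀ a, p a → c' ≤ #{b | r (a, b)}) :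
    c * c' ≤ #{z | r z} := by
  have e : #{z | r z} = ∑ a, #{b | r (a, b)} := by
    simp only [card_filter, Fintype.sum_prod_type]
  rw [e, Nat.cast_sum]
  calc c * c' ≤ ∑ a with p a, c' := by
        rw [sum_const, nsmul_eq_mul]; exact mul_le_mul_of_nonneg_right h1 hc
    _ ≤ ∑ a with p a, (#{b | r (a, b)} : ℝ) := sum_le_sum fun a ha => h2 a (mem_filter.1 ha).2
    _ ≤ _ := sum_le_sum_of_subset_of_nonneg (filter_subset _ _) fun _ _ _ => by positivity

section fin

variable {k : Type*} [Field k]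

lemma ex_noroot {A B e d x y : k} (h2 : (2 : k) ≠ 0) (h : NiceZ A B e) (hd : d ≠ 0)
    (hxy : d * y ^ 2 = cub A B x) (hy : y ≠ 0)
    (hx : ¬ IsSquare ((2 * x + e) ^ 2 - (-3 * e ^ 2 - 4 * A))) : ¬ (gq A d x y).Root := by
  obtain ⟨h0, ⟨w, w0, hw⟩, -⟩ := h
  simp only [cub] at h0 hxy
  rintro ⟨u, v, huv, hr⟩
  have hv : v ≠ 0 := by
    rintro rfl
    simp only [ev, gq] at hr
    exact mul_ne_zero hd (pow_ne_zero 4 (by simpa using huv)) (by linear_combination hr)
  obtain ⟨l, rfl⟩ : ∃ l, u = l * v := ⟨u / v, by field_simp⟩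
  have h1 : d ^ 2 * l ^ 4 - 6 * d * x * l ^ 2 - 8 * d * y * l - (3 * x ^ 2 + 4 * A) = 0 := by
    simp only [ev, gq] at hr
    field_simp at hr
    apply mul_left_cancel₀ (pow_ne_zero 4 hv)
    linear_combination hr
  have hg : d * y ^ 2 = (x - e) * (x ^ 2 + e * x + e ^ 2 + A) := by linear_combination hxy + h0
  have hxe : x - e ≠ 0 := fun h => mul_ne_zero hd (pow_ne_zero 2 hy) (by rw [hg, h, zero_mul])
  have h3 : (x - e) * (d * l ^ 2 - x - 2 * e) ^ 2 = d * (2 * ((x - e) * l + y)) ^ 2 := by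
    linear_combination (x - e) * h1 - 4 * hg
  by_cases hz : d * l ^ 2 - x - 2 * e = 0
  · have h4 : (x - e) * l + y = 0 := by
      rw [hz] at h3
      simpa [hd, h2] using h3.symm
    apply pow_ne_zero 2 w0
    apply mul_left_cancel₀ hxe
    linear_combination (-(x - e)) * hw - hg + (x - e) ^ 2 * hz - d * ((x - e) * l - y) * h4
  · apply hx
    have h5 : (x - e) * l + y ≠ 0 := fun h => by
      rw [h] at h3
      exact mul_ne_zero hxe (pow_ne_zero 2 hz) (by simpa using h3)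
    refine ⟨y * (d * l ^ 2 - x - 2 * e) / ((x - e) * l + y), ?_⟩
    rw [div_mul_div_comm, eq_div_iff (mul_ne_zero h5 h5)]
    apply mul_left_cancel₀ hd
    linear_combination (-(x ^ 2 + e * x + e ^ 2 + A)) * h3 - (d * l ^ 2 - x - 2 * e) ^ 2 * hg

lemma ex_gqI {A d x y : k} (hd : d ≠ 0) : (gq A d x y).I = -48 * A := by
  simp only [I, gq]
  field_simp
  ring

lemma ex_gqJ {A B d x y : k} (hd : d ≠ 0) (h : d * y ^ 2 = cub A B x) :
    (gq A d x y).J = -1728 * B := by
  simp only [J, gq, cub] at h ⊢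
  field_simp
  linear_combination (-1728 * d) * h

variable [Fintype k]

lemma ex_two (c : k) : #{x : k | x ^ 2 = c} ≤ 2 := by
  rcases ({x : k | x ^ 2 = c} : Finset k).eq_empty_or_nonempty with h | ⟨z, hz⟩
  · simp [h]
  refine (card_le_card (t := {z, -z}) fun x hx => ?_).trans card_le_two
  simpa using sq_eq_sq_iff_eq_or_eq_neg.1 ((mem_filter.1 hx).2.trans (mem_filter.1 hz).2.symm)

lemma ex_ns (h2 : (2 : k) ≠ 0) (hq : 8 ≤ Fintype.card k) {a b D : k} (ha : a ≠ 0) (hD : D ≠ 0) :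
    (Fintype.card k : ℝ) / 4 ≤ #{x | ¬ IsSquare ((a * x + b) ^ 2 - D)} := by
  let S : Finset k := {x | (a * x + b) ^ 2 ≠ D ∧ IsSquare ((a * x + b) ^ 2 - D)}
  have h1 : ∀ x ∈ S, ∃ z, z ≠ 0 ∧ (a * x + b) ^ 2 - D = z * z := fun x hx => by
    obtain ⟨k1, z, hz⟩ := (mem_filter.1 hx).2
    exact ⟨z, fun h => k1 (by rw [h] at hz; linear_combination hz), hz⟩
  choose! z z0 hz using h1
  have key : ∀ x y u w : k, (a * x + b) ^ 2 - D = u * u → (a * y + b) ^ 2 - D = w * w →
      a * x + b + u = a * y + b + w → x = y := fun x y u w k1 k2 k3 => by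
    have k4 : a * x + b + u ≠ 0 := fun h => hD (by linear_combination -k1 + (a * x + b - u) * h)
    apply mul_left_cancel₀ (mul_ne_zero (mul_ne_zero h2 ha) k4)
    linear_combination k1 - k2 + (a * x + b + u - (a * y + b - w)) * k3
  have h3 := card_le_card_of_injOn (s := S ×ˢ ({1, -1} : Finset k)) (t := univ)
    (fun p => a * p.1 + b + p.2 * z p.1) (fun _ _ => mem_univ _) fun p hp p' hp' h => by
      obtain ⟨x, s⟩ := p
      obtain ⟨y, s'⟩ := p'
      simp only [coe_product, Set.mem_prod, mem_coe, mem_insert, mem_singleton] at hp hp' h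
      have q1 : s * s = 1 := by rcases hp.2 with h | h <;> simp [h]
      have q2 : s' * s' = 1 := by rcases hp'.2 with h | h <;> simp [h]
      obtain rfl := key x y _ _ (by linear_combination hz x hp.1 - z x * z x * q1)
        (by linear_combination hz y hp'.1 - z y * z y * q2) h
      rw [mul_right_cancel₀ (z0 x hp.1) (add_left_cancel h)]
  rw [card_product, card_pair (fun h => h2 (by linear_combination h)), card_univ] at h3
  have h4 : #{x : k | (a * x + b) ^ 2 = D} ≤ 2 :=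
    (card_le_card_of_injOn (fun x => a * x + b) (fun x hx => by simpa using hx) fun x _ y _ h =>
      mul_left_cancel₀ ha (add_right_cancel h)).trans (ex_two D)
  have h5 : Fintype.card k ≤ #{x | ¬ IsSquare ((a * x + b) ^ 2 - D)} +
      (#S + #{x : k | (a * x + b) ^ 2 = D}) := by
    refine le_trans (card_le_card fun x _ => ?_)
      ((card_union_le _ _).trans (Nat.add_le_add_left (card_union_le _ _) _))
    simp only [S, mem_union, mem_filter, mem_univ, true_and]
    tauto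
  rw [div_le_iff₀ four_pos]
  norm_cast
  omega

/-- forms that have a root as soon as their invariants are nice -/
def TZ (M : k) : Set (Q4 k) :=
  {f | ∀ A B e, f.I = -48 * M ^ 4 * A → f.J = -1728 * M ^ 6 * B → NiceZ A B e → f.Root}

lemma ex_TZ (h2 : (2 : k) ≠ 0) (h3 : (3 : k) ≠ 0) (hq : 8 ≤ Fintype.card k) {M : k} (hM : M ≠ 0) :
    ((TZ M).ncard : ℝ) ≤ 127 / 128 * (Fintype.card k : ℝ) ^ 5 := by
  let r : k × k × k × k × k → Prop := fun z => z.1 ≠ 0 ∧
    ¬ IsSquare ((3 * z.2.1 + 0) ^ 2 - 4 * z.1 ^ 2) ∧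
    ¬ IsSquare ((2 * z.2.2.1 + z.2.1) ^ 2 - ((3 * z.2.1 + 0) ^ 2 - 4 * z.1 ^ 2)) ∧ z.2.2.2.1 ≠ 0
  have h4 : (4 : k) ≠ 0 := by rw [show (4 : k) = 2 * 2 by norm_num]; exact mul_ne_zero h2 h2
  have q8 : (8 : ℝ) ≤ Fintype.card k := by exact_mod_cast hq
  have hu : (Fintype.card k : ℝ) / 2 ≤ #{a : k | a ≠ 0} := by
    rw [filter_ne', card_erase_of_mem (mem_univ _), card_univ, Nat.cast_pred (by omega)]
    linarith
  have hP : (Fintype.card k : ℝ) / 2 * (Fintype.card k / 4 * (Fintype.card k / 4 *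
      (Fintype.card k / 2 * Fintype.card k))) ≤ #{z | r z} := by
    refine ex_fib _ r (by positivity) hu fun w w0 => ?_
    refine ex_fib _ _ (by positivity)
      (ex_ns h2 hq (b := 0) h3 (mul_ne_zero h4 (pow_ne_zero 2 w0))) fun e he => ?_
    refine ex_fib _ _ (by positivity) (ex_ns h2 hq (b := e) h2
      (D := (3 * e + 0) ^ 2 - 4 * w ^ 2) fun h => he (by rw [h]; exact IsSquare.zero))
      fun x hx => ?_
    refine ex_fib _ _ (by positivity) hu fun y y0 => ?_
    rw [filter_true_of_mem fun t _ => ⟨w0, he, hx, y0⟩, card_univ]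
  let A : k × k × k × k × k → k := fun z => z.1 ^ 2 - 3 * z.2.1 ^ 2
  let B : k × k × k × k × k → k := fun z => -(z.2.1 ^ 3 + A z * z.2.1)
  let d : k × k × k × k × k → k := fun z => cub (A z) (B z) z.2.2.1 / z.2.2.2.1 ^ 2
  let Φ : k × k × k × k × k → Q4 k := fun z =>
    ((gq (A z) (d z) z.2.2.1 z.2.2.2.1).act 1 z.2.2.2.2 0 1).smul (M ^ 2)
  have hN : ∀ z, r z → NiceZ (A z) (B z) z.2.1 := fun z hz =>
    ⟨by simp only [cub, B]; ring, ⟨z.1, hz.1, by simp only [A]; ring⟩, by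
      convert hz.2.1 using 2
      simp only [A]; ring⟩
  have hX : ∀ z, r z → ¬ IsSquare ((2 * z.2.2.1 + z.2.1) ^ 2 - (-3 * z.2.1 ^ 2 - 4 * A z)) :=
    fun z hz => by
      convert hz.2.2.1 using 3
      simp only [A]; ring
  have hd : ∀ z, r z → d z ≠ 0 := fun z hz => div_ne_zero (fun h => hX z hz ⟨2 * z.1, by
    rw [(hN z hz).root_eq h]; simp only [A]; ring⟩) (pow_ne_zero 2 hz.2.2.2)
  have hc : ∀ z, r z → d z * z.2.2.2.1 ^ 2 = cub (A z) (B z) z.2.2.1 := fun z hz =>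
    div_mul_cancel₀ _ (pow_ne_zero 2 hz.2.2.2)
  have hI : ∀ z, r z → (Φ z).I = -48 * M ^ 4 * A z := fun z hz => by
    simp only [Φ, I_smul, I_act, ex_gqI (hd z hz)]
    ring
  have hJ : ∀ z, r z → (Φ z).J = -1728 * M ^ 6 * B z := fun z hz => by
    simp only [Φ, J_smul, J_act, ex_gqJ (hd z hz) (hc z hz)]
    ring
  have : Fintype (Q4 k) := Fintype.ofFinite _
  have hF := card_le_mul_card_image_of_maps_to (s := {z | r z}) (t := {f | f ∉ TZ M}) (f := Φ)
    (fun z hz => by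
      have hz := (mem_filter.1 hz).2
      refine mem_filter.2 ⟨mem_univ _, fun h => ?_⟩
      exact ex_noroot h2 (hN z hz) (hd z hz) (hc z hz) hz.2.2.2 (hX z hz)
        (((h _ _ _ (hI z hz) (hJ z hz) (hN z hz)).of_smul (pow_ne_zero 2 hM)).of_act (by simp))) 2
    fun f _ => by
      rcases ({z ∈ ({z | r z} : Finset _) | Φ z = f}).eq_empty_or_nonempty with h | ⟨z, hz⟩
      · simp [h]
      refine (card_le_card (t := {z, (-z.1, z.2)}) fun z' hz' => ?_).trans card_le_two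
      have e := (mem_filter.1 hz').2.trans (mem_filter.1 hz).2.symm
      have r1 := (mem_filter.1 (mem_filter.1 hz).1).2
      have r2 := (mem_filter.1 (mem_filter.1 hz').1).2
      have eA : A z' = A z := by
        apply mul_left_cancel₀ (mul_ne_zero (mul_ne_zero h3 (pow_ne_zero 2 h4)) (pow_ne_zero 4 hM))
        linear_combination hI z' r2 - hI z r1 - congrArg Q4.I e
      have eB : B z' = B z := by
        apply mul_left_cancel₀
          (mul_ne_zero (pow_ne_zero 3 (mul_ne_zero h3 h4)) (pow_ne_zero 6 hM))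
        linear_combination hJ z' r2 - hJ z r1 - congrArg Q4.J e
      have ee : z'.2.1 = z.2.1 := (hN z r1).root_eq (by rw [← eA, ← eB]; exact (hN z' r2).1)
      have M2 := pow_ne_zero 2 hM
      have k1 := congrArg Q4.a e
      have k2 := congrArg Q4.b e
      have k3 := congrArg Q4.c e
      have k4 := congrArg Q4.d e
      simp only [Φ, Q4.smul, Q4.act, gq] at k1 k2 k3 k4
      have ed : d z' = d z := by
        apply mul_left_cancel₀ M2
        linear_combination k1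
      rw [ed] at k2 k3 k4
      have et : z'.2.2.2.2 = z.2.2.2.2 := by
        apply mul_left_cancel₀ (mul_ne_zero M2 (mul_ne_zero h4 (hd z r1)))
        linear_combination k2
      rw [et] at k3 k4
      have ex : z'.2.2.1 = z.2.2.1 := by
        apply mul_left_cancel₀ (mul_ne_zero M2 (mul_ne_zero h2 h3))
        linear_combination -k3
      rw [ex] at k4
      have ey : z'.2.2.2.1 = z.2.2.2.1 := by
        apply mul_left_cancel₀ (mul_ne_zero M2 (mul_ne_zero h2 h4))
        linear_combination -k4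
      have e2 : z'.2 = z.2 := Prod.ext ee (Prod.ext ex (Prod.ext ey et))
      have ew : z'.1 ^ 2 = z.1 ^ 2 := by
        simp only [A, ee] at eA
        linear_combination eA
      rcases sq_eq_sq_iff_eq_or_eq_neg.1 ew with h | h
      · exact mem_insert.2 (Or.inl (Prod.ext h e2))
      · exact mem_insert.2 (Or.inr (mem_singleton.2 (Prod.ext h e2)))
  have hs := card_filter_add_card_filter_not (s := (univ : Finset (Q4 k))) (· ∈ TZ M)
  rw [card_univ, Fintype.card_congr (Q4.equivFun k)] at hs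
  simp only [Fintype.card_prod] at hs
  have e : (TZ M).ncard = #{f | f ∈ TZ M} := by rw [← Set.ncard_coe_finset]; simp
  have hs' : (#{f | f ∈ TZ M} : ℝ) + #{f | f ∉ TZ M} = (Fintype.card k : ℝ) ^ 5 := by
    rw [← Nat.cast_add, hs]; push_cast; ring
  have hF' : (#{z | r z} : ℝ) ≤ 2 * #{f | f ∉ TZ M} := by exact_mod_cast hF
  rw [e]
  nlinarith

end fin

variable {F : Type} [Field F] [NumberField F]

lemma ex_prod {K : ℕ} (Y : Sys F (Fin K)) (σ0 : Emb F) {M : ℕ} (hM : ∀ i, (M : ZMod (Y.p i)) ≠ 0)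
    (h8 : ∀ i, 8 ≤ Y.p i) :
    ((∏ i, ∏ σ, (if σ = σ0 then TZ (M : ZMod (Y.p i)) else Set.univ).ncard : ℕ) : ℝ) ≤
      (127 / 128) ^ K * ((∏ i, Y.p i : ℕ) : ℝ) ^ (5 * dg F) := by
  have e : ((127 / 128) ^ K * ((∏ i, Y.p i : ℕ) : ℝ) ^ (5 * dg F) : ℝ) =
      ∏ i, ∏ σ : Emb F, (if σ = σ0 then 127 / 128 else 1) * (Y.p i : ℝ) ^ 5 := by
    simp only [prod_mul_distrib, prod_ite_eq', mem_univ, if_true, prod_const, card_univ,
      Fintype.card_fin, card_Emb, Nat.cast_prod, ← pow_mul, prod_pow]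
  rw [e]
  simp only [Nat.cast_prod]
  refine prod_le_prod (fun _ _ => by positivity) fun i _ =>
    prod_le_prod (fun _ _ => by positivity) fun σ _ => ?_
  split_ifs
  · simpa using ex_TZ (Y.two_ne i) (Y.three_ne i) (by simpa using h8 i) (hM i)
  · rw [Set.ncard_univ, Nat.card_congr (Q4.equivFun _)]
    simp only [Nat.card_prod, Nat.card_zmod]
    push_cast
    exact le_of_eq (by ring)

theorem exc_le (F : Type) [Field F] [NumberField F] (m : ℕ) (hm : m ≠ 0) {ε : ℝ} (hε : 0 < ε) :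
    ∃ K N : ℕ, ∀ (Y : Sys F (Fin K)) (σ0 : Emb F), (∀ i, N < Y.p i) → ∀ᶠ R : ℝ in atTop,
      ∀ G : Finset (𝓞 F × 𝓞 F), (∀ x ∈ G, ‖emb F x.1‖ ≤ R ^ 2 ∧ ‖emb F x.2‖ ≤ R ^ 3 ∧
        4 * x.1 ^ 3 + 27 * x.2 ^ 2 ≠ 0 ∧ Exc m Y σ0 x.1 x.2) → (#G : ℝ) ≤ ε * (R ^ 5) ^ dg F := by
  obtain ⟨m2, K, hm2, hK, hred⟩ := reduce F
  obtain ⟨C, hC, hcu⟩ := cusp F
  have hm' : (0 : ℝ) < m := by exact_mod_cast Nat.pos_of_ne_zero hm
  set C' := C * (K * (12 * m ^ 2)) ^ (5 * dg F) with hC'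
  have hC'0 : 0 < C' := by positivity
  obtain ⟨k, hk⟩ := exists_pow_lt_of_lt_one (show 0 < ε / (2 * C') by positivity)
    (by norm_num : (127 / 128 : ℝ) < 1)
  refine ⟨k, max 8 (m * m2), fun Y σ0 hY => ?_⟩
  have hM : ∀ i, ((m * m2 : ℕ) : ZMod (Y.p i)) ≠ 0 := fun i h => by
    have := Nat.le_of_dvd (Nat.pos_of_ne_zero (mul_ne_zero hm hm2))
      ((ZMod.natCast_eq_zero_iff _ _).1 h)
    have := hY i
    omega
  have hM2 : ∀ i, (m2 : ZMod (Y.p i)) ≠ 0 := fun i h => hM i (by rw [Nat.cast_mul, h, mul_zero])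
  have hP' : (0 : ℝ) < (∏ i, Y.p i : ℕ) := by
    exact_mod_cast Finset.prod_pos fun i _ => (Y.prime i).pos
  have hc2 := hcu _ Y (fun i σ => if σ = σ0 then TZ ((m * m2 : ℕ) : ZMod (Y.p i)) else Set.univ)
    (ε / (2 * C')) (by positivity)
  have htend : Tendsto (fun R : ℝ => K * (12 * m ^ 2 * R)) atTop atTop :=
    (tendsto_id.const_mul_atTop (by positivity)).const_mul_atTop hK
  filter_upwards [htend.eventually hc2, eventually_gt_atTop 0] with R hcnt hR G hG
  have hbad : ∀ x ∈ G, ∃ (φ : Q4 (𝓞 F)) (j : ℕ),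
      φ.I = -48 * (m * m2 : ℕ) ^ 4 * x.1 ∧ φ.J = -1728 * (m * m2 : ℕ) ^ 6 * x.2 ∧ φ.a ≠ 0 ∧
      (φ.map (emb F)).Sz (K * (12 * m ^ 2 * R)) (2 ^ j) ∧ ∀ i (e : 𝓞 F),
        Nice (((Y.S i).P σ0).valuation F) (x.1 : F) x.2 e → (φ.map ((Y.S i).r σ0)).Root := by
    intro x hx
    obtain ⟨h3, h4, h6, f, fI, fJ, f1, f2, f3⟩ := hG x hx
    obtain ⟨α, γ, β, δ, hdet, j, hj⟩ := hred f (12 * m ^ 2 * R) (by positivity) (by
      have : emb F f.I = -(((48 * m ^ 4 : ℕ) : mixedSpace F) * emb F x.1) := by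
        rw [fI]; simp [map_ofNat]
      rw [this, norm_neg, norm_natCast_mul]
      push_cast
      have : (0 : ℝ) ≤ m ^ 4 * R ^ 2 := by positivity
      nlinarith [mul_le_mul_of_nonneg_left h3 (by positivity : (0 : ℝ) ≤ 48 * m ^ 4)]) (by
      have : emb F f.J = -(((1728 * m ^ 6 : ℕ) : mixedSpace F) * emb F x.2) := by
        rw [fJ]; simp [map_ofNat]
      rw [this, norm_neg, norm_natCast_mul]
      push_cast
      nlinarith [mul_le_mul_of_nonneg_left h4 (by positivity : (0 : ℝ) ≤ 1728 * m ^ 6)]) (by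
      have : 4 * f.I ^ 3 - f.J ^ 2 = -(110592 * m ^ 12 * (4 * x.1 ^ 3 + 27 * x.2 ^ 2)) := by
        rw [fI, fJ]; ring
      rw [this, neg_ne_zero]
      exact mul_ne_zero (mul_ne_zero (by norm_num) (pow_ne_zero _ (by exact_mod_cast hm))) h6) f2
    refine ⟨_, j, ?_, ?_, ?_, hj, fun i e he => ?_⟩
    · rw [I_act, hdet, fI]; push_cast; ring
    · rw [J_act, hdet, fJ]; push_cast; ring
    · intro h0
      refine f1 ⟨algebraMap _ F α, algebraMap _ F β, ?_, ?_⟩
      · by_contra hc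
        simp only [ne_eq, map_eq_zero_iff _ RingOfIntegers.coe_injective, not_or, not_not] at hc
        rw [hc.1, hc.2] at hdet
        exact hm2 (by exact_mod_cast (by simpa using hdet.symm : (m2 : 𝓞 F) = 0))
      · rw [← map_ev, ← act_a f α γ β δ, h0, map_zero]
    · rw [map_act]
      refine (f3 i e he).act ?_
      rw [← map_mul, ← map_mul, ← map_sub, hdet, map_natCast]
      exact hM2 i
  have : Nonempty (Q4 (𝓞 F)) := ⟨⟨0, 0, 0, 0, 0⟩⟩
  choose! φ j hφ using hbad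
  have hM0 : ((m * m2 : ℕ) : 𝓞 F) ≠ 0 := by exact_mod_cast mul_ne_zero hm hm2
  have hB := hcnt G φ j (fun x hx => by
    obtain ⟨h1, h2, h3, h4, h5⟩ := hφ x hx
    refine ⟨h3, h4, fun i σ u => ?_⟩
    split_ifs with hσ
    swap
    · trivial
    subst hσ
    intro A B e k1 k2 k3
    rw [map_I, I_act, h1] at k1
    rw [map_J, J_act, h2] at k2
    simp only [map_mul, map_pow, map_neg, map_ofNat, map_natCast, mul_one, mul_zero, sub_zero,
      one_pow, one_mul] at k1 k2
    have t2 := Y.two_ne i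
    have t3 := Y.three_ne i
    obtain rfl : (Y.S i).r σ x.1 = A := by
      apply mul_left_cancel₀ (mul_ne_zero (mul_ne_zero t3 (pow_ne_zero 4 t2)) (pow_ne_zero 4 (hM i)))
      linear_combination -k1
    obtain rfl : (Y.S i).r σ x.2 = B := by
      apply mul_left_cancel₀ (mul_ne_zero (mul_ne_zero (pow_ne_zero 3 t3) (pow_ne_zero 6 t2))
        (pow_ne_zero 6 (hM i)))
      linear_combination -k2
    obtain ⟨n, rfl⟩ := ZMod.natCast_zmod_surjective e
    rw [map_act]
    exact (h5 i n ((nice_iff _ σ _ _ _).2 (by rwa [map_natCast]))).act (by simp))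
    fun x hx y hy h1 h2 => by
    rw [(hφ x hx).1, (hφ y hy).1] at h1
    rw [(hφ x hx).2.1, (hφ y hy).2.1] at h2
    exact Prod.ext (mul_left_cancel₀ (mul_ne_zero (by norm_num) (pow_ne_zero _ hM0)) h1)
      (mul_left_cancel₀ (mul_ne_zero (by norm_num) (pow_ne_zero _ hM0)) h2)
  have e1 := ((div_le_iff₀ (by positivity)).2
    (ex_prod Y σ0 hM fun i => ((le_max_left _ _).trans_lt (hY i)).le)).trans hk.le
  refine hB.trans ?_
  calc _ ≤ C * (ε / (2 * C') + ε / (2 * C')) * (K * (12 * m ^ 2 * R)) ^ (5 * dg F) := by gcongr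
    _ = C' * (ε / (2 * C') + ε / (2 * C')) * (R ^ 5) ^ dg F := by
        rw [hC', ← mul_assoc K, mul_pow, ← pow_mul R]; ring
    _ = _ := by field_simp; ring

end Pool.Agent.Lib.MP_7cad78_nt.R2
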