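import Pool.Agent.Lib.MP_7cad78_nt.R2.Defs2

/-! The curves with a marked point lie in the family, and few triples give the same curve. -/

namespace Pool.Agent.Lib.MP_7cad78_nt.R2

open NumberField NumberField.mixedEmbedding IsDedekindDomain WithZero Finset NF Filter
open scoped Classical

variable {F : Type} [Field F] [NumberField F]

theorem exists_X0 {M : ℕ} (hM : M ≠ 0) (a0 : 𝓞 F) : ∃ X0 : 𝓞 F, ∀ 𝔭 : Pr F,
    (M : 𝓞 F) ∈ 𝔭.asIdeal → (X0 ∈ 𝔭.asIdeal ↔ a0 ∉ 𝔭.asIdeal) := by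
  obtain ⟨y, hy⟩ := IsDedekindDomain.exists_forall_sub_mem_ideal (s := prs F M)
    (fun 𝔭 : Pr F => 𝔭.asIdeal) (fun _ => 1) (fun 𝔭 _ => 𝔭.prime)
    (fun 𝔭 _ 𝔮 _ h e => h (HeightOneSpectrum.ext e))
    (fun 𝔭 => if a0 ∈ 𝔭.1.asIdeal then 1 else 0)
  refine ⟨y, fun 𝔭 hp => ?_⟩
  have h := hy 𝔭 ((mem_prs hM).2 hp)
  rw [pow_one] at h
  by_cases ha : a0 ∈ 𝔭.asIdeal
  · simp only [ha, if_true] at h
    refine ⟨fun h1 => ?_, fun h1 => (h1 ha).elim⟩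
    have := 𝔭.asIdeal.sub_mem h1 h
    rw [sub_sub_cancel] at this
    exact (𝔭.isPrime.ne_top ((Ideal.eq_top_iff_one _).2 this)).elim
  · simp only [ha, if_false, sub_zero] at h
    exact ⟨fun _ => ha, fun _ => h⟩

lemma fm_prime {M : ℕ} (hM : M ≠ 0) : ∃ 𝔭 : Pr F, (M : 𝓞 F) ∉ 𝔭.asIdeal := by
  have h1 : Ideal.span {((M + 1 : ℕ) : 𝓞 F)} ≠ ⊤ := by
    intro h
    have := nz_nat (F := F) (M + 1)
    rw [nz, h, Ideal.absNorm_top] at this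
    have h2 := Nat.one_lt_pow (dg_pos F).ne' (show 1 < M + 1 by omega)
    omega
  obtain ⟨p, hp, hle⟩ := Ideal.exists_le_maximal _ h1
  have hm : ((M + 1 : ℕ) : 𝓞 F) ∈ p := hle (Ideal.mem_span_singleton_self _)
  refine ⟨⟨p, hp.isPrime, ?_⟩, fun h => hp.ne_top ((Ideal.eq_top_iff_one _).2 ?_)⟩
  · rintro rfl
    exact absurd (Ideal.mem_bot.1 hm) (by exact_mod_cast Nat.succ_ne_zero M)
  · have := p.sub_mem hm h
    rwa [Nat.cast_succ, add_sub_cancel_left] at this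

lemma fm_val (𝔭 : Pr F) {x : 𝓞 F} (h : x ∉ 𝔭.asIdeal ^ 2) : exp (-1 : ℤ) ≤ 𝔭.intValuation x := by
  rw [← HeightOneSpectrum.intValuation_le_pow_iff_mem, not_le] at h
  by_contra h1
  rw [not_le, show exp (-1 : ℤ) = exp (-((2 : ℕ) : ℤ)) * exp 1 by rw [← exp_add]; norm_num,
    lt_mul_exp_iff_le exp_ne_zero] at h1
  exact absurd h (not_lt.2 h1)

lemma fm_min {M : ℕ} (h6 : 6 ∣ M) {a B s : 𝓞 F} (hs : (M : 𝓞 F) ∣ s)
    (hb : ∀ 𝔭 : Pr F, (M : 𝓞 F) ∈ 𝔭.asIdeal → (a ∈ 𝔭.asIdeal ↔ B ∉ 𝔭.asIdeal))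
    (sf : ∀ 𝔭 : Pr F, (M : 𝓞 F) ∉ 𝔭.asIdeal → 4 * (3 * a) ^ 3 + 27 * B ^ 2 ∉ 𝔭.asIdeal ^ 2)
    (𝔭 : Pr F) (h4 : (mk a B s).1 ∈ 𝔭.asIdeal ^ 4) (h6' : (mk a B s).2 ∈ 𝔭.asIdeal ^ 6) : False := by
  have hp := 𝔭.isPrime
  have hA : (mk a B s).1 ∈ 𝔭.asIdeal := Ideal.pow_le_self (by norm_num) h4
  have hB : (mk a B s).2 ∈ 𝔭.asIdeal := Ideal.pow_le_self (by norm_num) h6'
  by_cases hM : (M : 𝓞 F) ∈ 𝔭.asIdeal
  · have s0 : s ∈ 𝔭.asIdeal := Ideal.mem_of_dvd _ hs hM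
    have hb' := hb 𝔭 hM
    rw [← Ideal.Quotient.eq_zero_iff_mem] at hA hB s0
    rw [← Ideal.Quotient.eq_zero_iff_mem, ← Ideal.Quotient.eq_zero_iff_mem] at hb'
    simp only [mk, cub, map_mul, map_sub, map_add, map_pow, map_ofNat, s0] at hA hB
    by_cases h0 : Ideal.Quotient.mk 𝔭.asIdeal B = 0
    · refine hb'.1 (pow_eq_zero_iff (n := 3) (by norm_num) |>.1 ?_) h0
      rw [h0] at hA hB
      linear_combination (-(Ideal.Quotient.mk 𝔭.asIdeal a)) * hA - hB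
    · refine h0 (pow_eq_zero_iff (n := 2) (by norm_num) |>.1 ?_)
      rw [hb'.2 h0] at hB
      linear_combination hB
  · have h3 : (3 : 𝓞 F) ∉ 𝔭.asIdeal := by
      obtain ⟨k, rfl⟩ := h6
      refine fun h => hM (Ideal.mem_of_dvd _ ⟨2 * k, ?_⟩ h)
      push_cast; ring
    by_cases hu : cub (3 * a) B s ∈ 𝔭.asIdeal ^ 2
    · have hu1 : cub (3 * a) B s ∈ 𝔭.asIdeal := Ideal.pow_le_self (by norm_num) hu
      have h1 := (hp.mem_or_mem hA).resolve_left h3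
      have h2 := 𝔭.asIdeal.sub_mem (𝔭.asIdeal.mul_mem_left s hu1) h1
      rw [sub_sub_cancel] at h2
      have hX := Ideal.pow_mem_pow (hp.mem_of_pow_mem _ h2) 2
      refine sf 𝔭 hM ?_
      have e : 4 * (3 * a) ^ 3 + 27 * B ^ 2 = 9 * (3 * s ^ 2 + 12 * a) * (s ^ 2 + a) ^ 2 +
          (27 * cub (3 * a) B s - 54 * (s ^ 3 + 3 * a * s)) * cub (3 * a) B s := by
        simp only [cub]; ring
      rw [e]
      exact Ideal.add_mem _ (Ideal.mul_mem_left _ _ hX) (Ideal.mul_mem_left _ _ hu)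
    · have h12 : 4 * (mk a B s).1 ^ 3 + 27 * (mk a B s).2 ^ 2 ∈ 𝔭.asIdeal ^ 12 := by
        refine Ideal.add_mem _ (Ideal.mul_mem_left _ _ ?_) (Ideal.mul_mem_left _ _ ?_)
        · simpa only [← pow_mul] using Ideal.pow_mem_pow h4 3
        · simpa only [← pow_mul] using Ideal.pow_mem_pow h6' 2
      rw [mk_disc, ← HeightOneSpectrum.intValuation_le_pow_iff_mem, map_mul, map_pow] at h12
      have h2 := (mul_le_mul' (pow_le_pow_left' (fm_val 𝔭 hu) 2) (fm_val 𝔭 (sf 𝔭 hM))).trans h12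
      rw [← exp_nsmul, ← exp_add, exp_le_exp] at h2
      norm_num at h2

lemma fm_nrm {a B s : ℂ} {R : ℝ} (h1 : ‖3 * a‖ ≤ R ^ 2) (h2 : ‖B‖ ≤ R ^ 3) (h3 : ‖s‖ ≤ R) :
    max (4 * ‖3 * (s * cub (3 * a) B s - (s ^ 2 + a) ^ 2)‖ ^ 3)
      (27 * ‖cub (3 * a) B s ^ 2 - 3 * s * cub (3 * a) B s * (s ^ 2 + a) + 2 * (s ^ 2 + a) ^ 3‖ ^ 2)
      ≤ 50000 * R ^ 12 := by
  have hR : 0 ≤ R := (norm_nonneg _).trans h3
  have hu : ‖cub (3 * a) B s‖ ≤ 3 * R ^ 3 := by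
    refine (norm_add₃_le).trans ?_
    have e1 : ‖s ^ 3‖ ≤ R ^ 3 := by rw [norm_pow]; gcongr
    have e2 : ‖3 * a * s‖ ≤ R ^ 2 * R := by rw [norm_mul]; gcongr
    linarith
  have hX : ‖s ^ 2 + a‖ ≤ 2 * R ^ 2 := by
    refine (norm_add_le _ _).trans ?_
    have e1 : ‖s ^ 2‖ ≤ R ^ 2 := by rw [norm_pow]; gcongr
    rw [norm_mul, Complex.norm_ofNat] at h1
    linarith [norm_nonneg a, sq_nonneg R]
  generalize cub (3 * a) B s = u at hu ⊢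
  generalize s ^ 2 + a = X at hX ⊢
  have hA : ‖3 * (s * u - X ^ 2)‖ ≤ 21 * R ^ 4 := by
    rw [norm_mul, Complex.norm_ofNat]
    have e1 : ‖s * u‖ ≤ R * (3 * R ^ 3) := by rw [norm_mul]; gcongr
    have e2 : ‖X ^ 2‖ ≤ (2 * R ^ 2) ^ 2 := by rw [norm_pow]; gcongr
    have := norm_sub_le (s * u) (X ^ 2)
    linarith
  have hB : ‖u ^ 2 - 3 * s * u * X + 2 * X ^ 3‖ ≤ 43 * R ^ 6 := by
    have e1 : ‖u ^ 2‖ ≤ (3 * R ^ 3) ^ 2 := by rw [norm_pow]; gcongr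
    have e2 : ‖3 * s * u * X‖ ≤ 3 * R * (3 * R ^ 3) * (2 * R ^ 2) := by
      rw [norm_mul, norm_mul, norm_mul, Complex.norm_ofNat]; gcongr
    have e3 : ‖2 * X ^ 3‖ ≤ 2 * (2 * R ^ 2) ^ 3 := by
      rw [norm_mul, norm_pow, Complex.norm_ofNat]; gcongr
    have e4 := norm_sub_le (u ^ 2) (3 * s * u * X)
    have e5 := norm_add_le (u ^ 2 - 3 * s * u * X) (2 * X ^ 3)
    linarith
  have p12 : 0 ≤ R ^ 12 := by positivity
  refine max_le ?_ ?_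
  · calc _ ≤ 4 * (21 * R ^ 4) ^ 3 := by gcongr
      _ ≤ _ := by linarith
  · calc _ ≤ 27 * (43 * R ^ 6) ^ 2 := by gcongr
      _ ≤ _ := by linarith

theorem mk_fam {M : ℕ} (hM : M ≠ 0) (h6 : 6 ∣ M) {a B s : 𝓞 F} {E T : ℝ} (hE : 1 ≤ E) (hT : 1 ≤ T)
    (h1 : ‖emb F (3 * a)‖ ≤ T ^ 4) (h2 : ‖emb F B‖ ≤ T ^ 6) (h3 : ‖emb F s‖ ≤ E * T ^ 2)
    (hs : (M : 𝓞 F) ∣ s) (hu : cub (3 * a) B s ≠ 0)
    (hb : ∀ 𝔭 : Pr F, (M : 𝓞 F) ∈ 𝔭.asIdeal → (a ∈ 𝔭.asIdeal ↔ B ∉ 𝔭.asIdeal))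
    (sf : ∀ 𝔭 : Pr F, (M : 𝓞 F) ∉ 𝔭.asIdeal → 4 * (3 * a) ^ 3 + 27 * B ^ 2 ∉ 𝔭.asIdeal ^ 2) :
    mk a B s ∈ fam F (50000 * E ^ 12 * T ^ 24) := by
  refine ⟨?_, fun p hp h0 h => fm_min h6 hs hb sf ⟨p, hp, h0⟩ h.1 h.2, fun σ => ?_⟩
  · rw [mk_disc]
    obtain ⟨𝔭, hp⟩ := fm_prime (F := F) hM
    exact mul_ne_zero (pow_ne_zero _ hu) fun h => sf 𝔭 hp (h ▸ Ideal.zero_mem _)
  · have g1 := norm_emb_le_iff.1 h1 σ
    have g2 := norm_emb_le_iff.1 h2 σ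
    have g3 := norm_emb_le_iff.1 h3 σ
    have t0 : 0 ≤ T := by linarith
    have := fm_nrm (a := σ a) (B := σ B) (s := σ s) (R := E * T ^ 2)
      (by
        refine le_trans (le_of_eq ?_) (g1.trans ?_)
        · simp [map_ofNat]
        · rw [mul_pow, ← pow_mul]
          exact le_mul_of_one_le_left (by positivity) (one_le_pow₀ hE))
      (g2.trans (by
        rw [mul_pow, ← pow_mul]
        exact le_mul_of_one_le_left (by positivity) (one_le_pow₀ hE))) g3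
    refine le_trans (le_of_eq ?_) (this.trans (le_of_eq (by ring)))
    simp [mk, cub, map_ofNat]

lemma fm_two {c T : ℝ} {M0 : ℕ} {Y : Finset (𝓞 F)} {q : 𝓞 F → Pr F} (hc : 0 < c)
    (g : Gen M0 c T Y q) {Δ : 𝓞 F} (h0 : Δ ≠ 0) (hX : (nz Δ : ℝ) < (c * (T ^ 6) ^ dg F) ^ 6) :
    #{y ∈ Y | Δ ∈ (q y).asIdeal ^ 2} ≤ 2 := by
  by_contra h
  obtain ⟨S, hS, h3⟩ := Finset.exists_subset_card_eq (show 3 ≤ _ from not_le.1 h)
  have hd : ∏ y ∈ S, (q y).asIdeal ^ 2 ∣ Ideal.span {Δ} := by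
    refine Finset.prod_dvd_of_coprime (fun y hy z hz ne => ?_) fun y hy =>
      Ideal.dvd_span_singleton.2 (mem_filter.1 (hS hy)).2
    exact HeightOneSpectrum.isCoprime_pow_of_ne _ _
      (fun e => ne (g.inj (mem_filter.1 (hS hy)).1 (mem_filter.1 (hS hz)).1 e)) 2 2
  have h1 := Nat.le_of_dvd (by exact_mod_cast nz_pos h0) (map_dvd Ideal.absNorm hd)
  rw [map_prod] at h1
  have h2 : ∏ y ∈ S, (c * (T ^ 6) ^ dg F) ^ 2 ≤ ∏ y ∈ S, (nm (q y) : ℝ) ^ 2 :=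
    Finset.prod_le_prod (fun _ _ => by positivity) fun y hy =>
      pow_le_pow_left₀ (by positivity) (g.big y (mem_filter.1 (hS hy)).1) 2
  rw [prod_const, h3, ← pow_mul] at h2
  have h4 : ∏ y ∈ S, (nm (q y) : ℝ) ^ 2 ≤ nz Δ := by
    simp only [map_pow] at h1
    exact_mod_cast h1
  exact absurd (h2.trans h4) (not_le.2 hX)

lemma fm_three (Z : Finset (𝓞 F × 𝓞 F × 𝓞 F)) (x : 𝓞 F × 𝓞 F) {u : 𝓞 F}
    (hx : 4 * x.1 ^ 3 + 27 * x.2 ^ 2 ≠ 0) :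
    #{z ∈ Z | mk z.1 z.2.1 z.2.2 = x ∧ cub (3 * z.1) z.2.1 z.2.2 = u} ≤ 3 := by
  refine le_trans (card_le_card_of_injOn (fun z => z.2.2 ^ 2 + z.1) ?_ ?_)
    (Cubic.card_roots_le (P := ⟨1, 0, x.1, x.2 - u ^ 2⟩))
  · intro z hz
    obtain ⟨-, rfl, rfl⟩ := mem_filter.1 (mem_coe.1 hz)
    rw [mem_coe, Multiset.mem_toFinset, Cubic.mem_roots_iff (Cubic.ne_zero_of_a_ne_zero one_ne_zero)]
    simp only [mk]; ring
  · rintro ⟨a, B, s⟩ hz ⟨a', B', s'⟩ hz' e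
    obtain ⟨-, e1, u1⟩ := mem_filter.1 (mem_coe.1 hz)
    obtain ⟨-, e2, u2⟩ := mem_filter.1 (mem_coe.1 hz')
    simp only at e e1 e2 u1 u2
    have u0 : u ≠ 0 := by
      rintro rfl
      rw [← e1, mk_disc, u1] at hx
      simp at hx
    have e3 := congrArg Prod.fst (e1.trans e2.symm)
    simp only [mk, u1, u2, e] at e3
    have hs : s = s' := mul_right_cancel₀ u0
      (mul_left_cancel₀ (by norm_num : (3 : 𝓞 F) ≠ 0) (by linear_combination e3))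
    subst hs
    have ha : a = a' := add_left_cancel e
    subst ha
    have hB : B = B' := by
      simp only [cub] at u1 u2
      linear_combination u1 - u2
    rw [hB]

theorem fibre (F : Type) [Field F] [NumberField F] {c E : ℝ} (hc : 0 < c) (hE : 1 ≤ E) :
    ∀ᶠ T : ℝ in atTop, ∀ (M0 : ℕ) (Y D : Finset (𝓞 F)) (q : 𝓞 F → Pr F)
      (Z : Finset (𝓞 F × 𝓞 F × 𝓞 F)), Gen M0 c T Y q →
      (∀ z ∈ Z, mk z.1 z.2.1 z.2.2 ∈ fam F (50000 * E ^ 12 * T ^ 24) ∧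
        ∃ d ∈ D, ∃ y ∈ Y, cub (3 * z.1) z.2.1 z.2.2 = d * y) →
      #Z ≤ 6 * #D * #(Z.image fun z => mk z.1 z.2.1 z.2.2) := by
  filter_upwards [eventually_ge_atTop (1 : ℝ),
    eventually_gt_atTop ((100000 * E ^ 12) ^ dg F / c ^ 6)] with T hT hT2 M0 Y D q Z g hZ
  refine card_le_mul_card_image _ _ fun x hx => ?_
  obtain ⟨z0, hz0, e0⟩ := mem_image.1 hx
  obtain ⟨h0, -, hn⟩ : x ∈ fam F (50000 * E ^ 12 * T ^ 24) := e0 ▸ (hZ z0 hz0).1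
  have t0 : 0 < T := by linarith
  have hN : ‖emb F (4 * x.1 ^ 3 + 27 * x.2 ^ 2)‖ ≤ 100000 * E ^ 12 * T ^ 24 := by
    refine norm_emb_le_iff.2 fun σ => ?_
    have := max_le_iff.1 (hn σ)
    have e : σ ((4 * x.1 ^ 3 + 27 * x.2 ^ 2 : 𝓞 F) : F) = 4 * σ x.1 ^ 3 + 27 * σ x.2 ^ 2 := by
      simp [map_ofNat]
    rw [e]
    refine (norm_add_le _ _).trans ?_
    rw [norm_mul, norm_mul, norm_pow, norm_pow, Complex.norm_ofNat, Complex.norm_ofNat]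
    linarith [this.1, this.2]
  have h2 := fm_two hc g h0 (by
    refine ((nz_le _).trans (pow_le_pow_left₀ (norm_nonneg _) hN _)).trans_lt ?_
    rw [div_lt_iff₀ (by positivity)] at hT2
    have t1 : T ≤ (T ^ 12) ^ dg F := by
      rw [← pow_mul]
      exact le_self_pow₀ hT (mul_ne_zero (by norm_num) (dg_pos F).ne')
    calc (100000 * E ^ 12 * T ^ 24) ^ dg F = (100000 * E ^ 12) ^ dg F * (T ^ 24) ^ dg F := mul_pow _ _ _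
      _ < T * c ^ 6 * (T ^ 24) ^ dg F := by gcongr
      _ ≤ (T ^ 12) ^ dg F * c ^ 6 * (T ^ 24) ^ dg F := by gcongr
      _ = _ := by ring)
  have hsub : {z ∈ Z | mk z.1 z.2.1 z.2.2 = x} ⊆
      (D ×ˢ {y ∈ Y | 4 * x.1 ^ 3 + 27 * x.2 ^ 2 ∈ (q y).asIdeal ^ 2}).biUnion fun p =>
        {z ∈ Z | mk z.1 z.2.1 z.2.2 = x ∧ cub (3 * z.1) z.2.1 z.2.2 = p.1 * p.2} := by
    intro z hz
    obtain ⟨hz, e⟩ := mem_filter.1 hz
    obtain ⟨d, hd, y, hy, hu⟩ := (hZ z hz).2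
    refine mem_biUnion.2 ⟨(d, y), mem_product.2 ⟨hd, mem_filter.2 ⟨hy, ?_⟩⟩,
      mem_filter.2 ⟨hz, e, hu⟩⟩
    obtain ⟨𝔠, -, hy2⟩ := g.gen y hy
    have hq : y ∈ (q y).asIdeal :=
      Ideal.mul_le_right (hy2 ▸ Ideal.mem_span_singleton_self y : y ∈ 𝔠 * (q y).asIdeal)
    rw [← e, mk_disc, hu]
    exact Ideal.mul_mem_right _ _ (Ideal.pow_mem_pow (Ideal.mul_mem_left _ _ hq) 2)
  refine (card_le_card hsub).trans ((card_biUnion_le_card_mul _ _ 3 fun p _ =>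
    fm_three Z x h0).trans ?_)
  rw [card_product]
  calc _ ≤ #D * 2 * 3 := by gcongr
    _ = _ := by ring

end Pool.Agent.Lib.MP_7cad78_nt.R2
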