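import Pool.Agent.Lib.MP_7cad78_nt.R2.Defs

/-! The tail of the squarefree sieve and the reducible cubics. -/

namespace Pool.Agent.Lib.MP_7cad78_nt.R2

open NumberField NumberField.mixedEmbedding IsDedekindDomain WithZero Finset NF Filter
open scoped Classical

variable {F : Type} [Field F] [NumberField F]

lemma tl_disc {A B : 𝓞 F} {R : ℝ} (R1 : 1 ≤ R) (n1 : ‖emb F A‖ ≤ R ^ 2) (n2 : ‖emb F B‖ ≤ R ^ 3) :
    ‖emb F (4 * A ^ 3 + 27 * B ^ 2)‖ ≤ (6 * R ^ 3) ^ 2 := by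
  have e : emb F (4 * A ^ 3 + 27 * B ^ 2) = (4 : ℕ) * emb F A ^ 3 + (27 : ℕ) * emb F B ^ 2 := by
    simp [map_ofNat]
  rw [e]
  refine (norm_add_le _ _).trans ?_
  rw [norm_natCast_mul, norm_natCast_mul]
  have n3 := (norm_pow_le' _ three_pos).trans (pow_le_pow_left₀ (norm_nonneg _) n1 3)
  have n4 := (norm_pow_le' _ two_pos).trans (pow_le_pow_left₀ (norm_nonneg _) n2 2)
  push_cast
  nlinarith [pow_pos (zero_lt_one.trans_le R1) 6]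

theorem tail (F : Type) [Field F] [NumberField F] : ∃ C : ℝ, 0 < C ∧ ∀ z M : ℕ, z ≠ 0 → M ≠ 0 →
    6 ∣ M → (∀ l : ℕ, l.Prime → l ≤ z → l ∣ M) → ∀ a b : 𝓞 F, ∀ᶠ R : ℝ in atTop,
      (#{y ∈ cls ((R ^ 2 / 2) • 1) (R ^ 2 / 4) M a ×ˢ cls 0 (R ^ 3 / 2) M b |
        ∃ 𝔭 : Pr F, (M : 𝓞 F) ∉ 𝔭.asIdeal ∧ 4 * y.1 ^ 3 + 27 * y.2 ^ 2 ∈ 𝔭.asIdeal ^ 2} : ℝ) ≤
        C / z * (R ^ 5 / M ^ 2) ^ dg F := by
  obtain ⟨κ, hκ⟩ : ∃ κ : ℝ, κ = dg F * 4 ^ dg F := ⟨_, rfl⟩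
  have n0 := dg_pos F
  have κ0 : 0 < κ := by rw [hκ]; positivity
  refine ⟨12 * κ + 1, by positivity, fun z M z0 hM h6 hz a b => ?_⟩
  have M0 : (0 : ℝ) < M := by positivity
  have z1 : (0 : ℝ) < z := by positivity
  obtain ⟨N0, hN0⟩ : ∃ N0 : ℕ, ∀ 𝔭 : Pr F, (M : 𝓞 F) ∉ 𝔭.asIdeal →
      ∃ 𝔮 : Pr F, (M : 𝓞 F) ∉ 𝔮.asIdeal ∧ nm 𝔮 ≤ N0 := by
    by_cases h : ∃ 𝔮 : Pr F, (M : 𝓞 F) ∉ 𝔮.asIdeal
    · obtain ⟨𝔮, h⟩ := h
      exact ⟨_, fun _ _ => ⟨𝔮, h, le_rfl⟩⟩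
    · exact ⟨0, fun 𝔭 hp => (h ⟨𝔭, hp⟩).elim⟩
  have t : Tendsto (fun R : ℝ => (6 * R ^ 3) ^ dg F) atTop atTop :=
    (tendsto_pow_atTop n0.ne').comp ((tendsto_pow_atTop three_ne_zero).const_mul_atTop (by norm_num))
  filter_upwards [t.eventually (pi_small (ε := 1 / z / (7 * κ * (6 * M) ^ dg F)) (by positivity)),
    eventually_ge_atTop (M : ℝ), t.eventually_ge_atTop N0] with R hπ RM hRN
  have M1 : (1 : ℝ) ≤ M := Nat.one_le_cast.2 (Nat.pos_of_ne_zero hM)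
  have R1 : 1 ≤ R := M1.trans RM
  have R2 : R ≤ R ^ 2 := le_self_pow₀ R1 two_ne_zero
  obtain ⟨u, hu⟩ : ∃ u, u = (R ^ 2 / M) ^ dg F := ⟨_, rfl⟩
  obtain ⟨v, hv⟩ : ∃ v, v = (R ^ 3 / M) ^ dg F := ⟨_, rfl⟩
  have u1 : 1 ≤ u := hu ▸ one_le_pow₀ ((one_le_div M0).2 (RM.trans R2))
  have v0 : 0 ≤ v := by rw [hv]; positivity
  have uv : v ≤ u ^ 2 := by
    rw [hu, hv, pow_right_comm]
    gcongr
    rw [div_pow, div_le_div_iff₀ M0 (by positivity)]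
    calc R ^ 3 * M ^ 2 = R ^ 3 * M * M := by ring
      _ ≤ R ^ 3 * R * M := by gcongr
      _ = _ := by ring
  rw [(by rw [hu, hv, ← mul_pow]; congr 1; ring : (R ^ 5 / M ^ 2) ^ dg F = u * v)]
  choose! T T1 T2 using fun l => over_le (F := F) (l := l)
  have l2 : (#{y ∈ cls ((R ^ 2 / 2) • 1) (R ^ 2 / 4) M a ×ˢ cls 0 (R ^ 3 / 2) M b |
      ∃ 𝔭 : Pr F, (M : 𝓞 F) ∉ 𝔭.asIdeal ∧ 4 * y.1 ^ 3 + 27 * y.2 ^ 2 ∈ 𝔭.asIdeal ^ 2} : ℝ) ≤
      ∑ l ∈ Nat.primesLE ⌊(6 * R ^ 3) ^ dg F⌋₊ with z < l, κ * (6 * (u * v) / l ^ 2 + 7 * u) := by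
    refine (Nat.cast_le.2 ((card_le_card
      (t := (Nat.primesLE ⌊(6 * R ^ 3) ^ dg F⌋₊ |>.filter (z < ·)).biUnion fun l =>
        ((T l).filter fun P => P.IsPrime ∧ (M : 𝓞 F) ∉ P ∧ l ≤ Ideal.absNorm P).biUnion fun P =>
        {y ∈ cls ((R ^ 2 / 2) • 1) (R ^ 2 / 4) M a ×ˢ cls 0 (R ^ 3 / 2) M b |
          4 * y.1 ^ 3 + 27 * y.2 ^ 2 ∈ P ^ 2}) fun y hy => ?_).trans card_biUnion_le)).trans ?_
    · obtain ⟨hy, Q, mQ, eQ⟩ := mem_filter.1 hy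
      obtain ⟨y1, y2⟩ := mem_product.1 hy
      rw [mem_cls] at y1 y2
      obtain ⟨P, mP, e, hP⟩ : ∃ P : Pr F, (M : 𝓞 F) ∉ P.asIdeal ∧
          4 * y.1 ^ 3 + 27 * y.2 ^ 2 ∈ P.asIdeal ^ 2 ∧ (nm P : ℝ) ≤ (6 * R ^ 3) ^ dg F := by
        by_cases d0 : 4 * y.1 ^ 3 + 27 * y.2 ^ 2 = 0
        · obtain ⟨P, h1, h2⟩ := hN0 Q mQ
          exact ⟨P, h1, d0 ▸ zero_mem _, (Nat.cast_le.2 h2).trans hRN⟩
        refine ⟨Q, mQ, eQ, ?_⟩
        have := absNorm_le eQ d0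
        rw [map_pow, Nat.cast_pow] at this
        refine (pow_le_pow_iff_left₀ (by positivity) (by positivity) two_ne_zero).1
          (this.trans ?_)
        rw [pow_right_comm]
        refine pow_le_pow_left₀ (norm_nonneg _) (tl_disc R1 ?_ ?_) _
        · exact (norm_le_norm_add_norm_sub' _ _).trans ((add_le_add
            ((norm_smul_le _ _).trans (mul_le_of_le_one_right (norm_nonneg _) norm_one_le))
            y1.1).trans (by rw [Real.norm_of_nonneg (by positivity)]; nlinarith))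
        · have := y2.1
          rw [sub_zero] at this
          nlinarith [pow_pos (zero_lt_one.trans_le R1) 3]
      have := P.isMaximal
      obtain ⟨l, k, k0, m, hl, N⟩ := Ideal.exists_prime_and_absNorm_eq_pow P.asIdeal
      have lN : l ≤ Ideal.absNorm P.asIdeal := N ▸ Nat.le_self_pow k0.ne' l
      exact mem_biUnion.2 ⟨l, mem_filter.2 ⟨Nat.mem_primesLE.2
        ⟨Nat.le_floor ((Nat.cast_le.2 lN).trans hP), hl⟩, lt_of_not_ge fun h =>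
        mP (P.asIdeal.mem_of_dvd (Nat.cast_dvd_cast (hz l hl h)) m)⟩,
        mem_biUnion.2 ⟨_, mem_filter.2 ⟨T2 l hl _ P.isPrime m, P.isPrime, mP, lN⟩,
          mem_filter.2 ⟨hy, e⟩⟩⟩
    rw [Nat.cast_sum]
    refine sum_le_sum fun l hl => (Nat.cast_le.2 card_biUnion_le).trans ?_
    have p := Nat.prime_of_mem_primesLE (mem_filter.1 hl).1
    rw [Nat.cast_sum, hκ, mul_assoc, ← nsmul_eq_mul]
    refine (sum_le_card_nsmul _ _ _ fun P hP => ?_).trans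
      (nsmul_le_nsmul_left (by positivity) ((card_filter_le _ _).trans (T1 l p)))
    obtain ⟨_, p1, p2⟩ := (mem_filter.1 hP).2
    refine bad_le hM h6 p1 (by positivity) (by positivity) ?_ (hv.trans (by congr 1; ring)).ge
      (Nat.one_le_cast.2 p.pos) (Nat.cast_le.2 p2) u1 uv
    rw [hu]
    gcongr
    nlinarith
  refine l2.trans ?_
  have s1 : ∑ l ∈ Nat.primesLE ⌊(6 * R ^ 3) ^ dg F⌋₊ with z < l, ((l : ℝ) ^ 2)⁻¹ ≤ 2 / z := by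
    refine ((sum_le_sum_of_subset_of_nonneg (fun l hl => mem_Ioo.2 ⟨(mem_filter.1 hl).2,
      Nat.lt_succ_of_le (Nat.le_of_mem_primesLE (mem_filter.1 hl).1)⟩)
      fun _ _ _ => by positivity).trans (sum_Ioo_inv_sq_le _ _)).trans ?_
    gcongr
    linarith
  have s2 : (#{l ∈ Nat.primesLE ⌊(6 * R ^ 3) ^ dg F⌋₊ | z < l} : ℝ) ≤ 1 / z / (7 * κ) * v :=
    (Nat.cast_le.2 (card_filter_le _ _)).trans (hπ.trans_eq (by
      rw [hv, div_pow, mul_pow, mul_pow]; field_simp))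
  simp only [mul_add, sum_add_distrib, sum_const, nsmul_eq_mul]
  simp only [div_eq_mul_inv _ ((_ : ℝ) ^ 2), ← mul_sum]
  calc _ ≤ κ * (6 * (u * v) * (2 / z)) + 1 / z / (7 * κ) * v * (κ * (7 * u)) := by gcongr
    _ = _ := by field_simp; ring

lemma tl_int {A B : 𝓞 F} {t : F} (h : cub (A : F) B t = 0) : ∃ e : 𝓞 F, (e : F) = t := by
  refine HeightOneSpectrum.mem_integers_of_valuation_le_one F t fun 𝔭 => not_lt.1 fun g => ?_
  have := nonint_eq (𝔭.valuation F) (d := 1) (y := 0) (𝔭.valuation_le_one A)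
    (𝔭.valuation_le_one B) g (by simpa [cub] using h.symm)
  rw [← this] at g
  simp at g

lemma tl_root {a b e : ℂ} {R : ℝ} (R0 : 0 < R) (ha : ‖a‖ ≤ R ^ 2) (hb : ‖b‖ ≤ R ^ 3)
    (h : e ^ 3 + a * e + b = 0) : ‖e‖ ≤ 2 * R := by
  by_contra hc
  push Not at hc
  have h1 : ‖e‖ ^ 3 ≤ R ^ 2 * ‖e‖ + R ^ 3 := by
    rw [← norm_pow, show e ^ 3 = -(a * e + b) by linear_combination h, norm_neg]
    refine (norm_add_le _ _).trans (add_le_add ?_ hb)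
    rw [norm_mul]
    gcongr
  have h2 : (2 * R) ^ 2 * ‖e‖ ≤ ‖e‖ ^ 3 := by
    rw [pow_succ ‖e‖ 2]
    gcongr
  have h3 : R ^ 2 * (2 * R) ≤ R ^ 2 * ‖e‖ := by gcongr
  nlinarith [pow_pos R0 3]

theorem red_le (F : Type) [Field F] [NumberField F] {ε : ℝ} (hε : 0 < ε) : ∀ᶠ R : ℝ in atTop,
    ∀ G : Finset (𝓞 F × 𝓞 F), (∀ x ∈ G, ‖emb F x.1‖ ≤ R ^ 2 ∧ ‖emb F x.2‖ ≤ R ^ 3 ∧
      ∃ t : F, cub (x.1 : F) x.2 t = 0) → (#G : ℝ) ≤ ε * (R ^ 5) ^ dg F := by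
  filter_upwards [eventually_ge_atTop 1, eventually_ge_atTop (15 ^ dg F / ε)] with R R1 hR G hG
  have R0 : 0 < R := zero_lt_one.trans_le R1
  have hb : ∀ r : ℝ, 1 ≤ r → ((bl (F := F) 0 r).card : ℝ) ≤ (3 * r) ^ dg F := fun r hr =>
    (card_le (bl 0 r) (x := 0) one_pos (by linarith) (fun u hu => mem_bl.1 hu)
      fun u _ w _ hne => one_le_norm (sub_ne_zero.2 hne)).trans
      (pow_le_pow_left₀ (by positivity) (by linarith) _)
  have h1 : ∀ x ∈ G, ∃ e : 𝓞 F, cub x.1 x.2 e = 0 ∧ ‖emb F e‖ ≤ 2 * R := fun x hx => by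
    obtain ⟨a1, a2, t, ht⟩ := hG x hx
    obtain ⟨e, rfl⟩ := tl_int ht
    refine ⟨e, RingOfIntegers.coe_injective (by simpa [cub] using ht),
      norm_emb_le_iff.2 fun σ => tl_root R0 (norm_emb_le_iff.1 a1 σ) (norm_emb_le_iff.1 a2 σ) ?_⟩
    simpa [cub] using congrArg σ ht
  choose! e he using h1
  have h2 := card_le_card_of_injOn (s := G) (t := bl (F := F) 0 (R ^ 2) ×ˢ bl (F := F) 0 (2 * R))
    (fun x => (x.1, e x)) (fun x hx => by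
      simp only [coe_product, Set.mem_prod, mem_coe, mem_bl, sub_zero]
      exact ⟨(hG x hx).1, (he x hx).2⟩) fun x hx y hy h => by
      simp only [Prod.mk.injEq] at h
      have k1 := (he x hx).1
      have k2 := (he y hy).1
      rw [← h.1, ← h.2] at k2
      simp only [cub] at k1 k2
      exact Prod.ext h.1 (by linear_combination k1 - k2)
  rw [card_product] at h2
  have h3 : ((bl (F := F) 0 (2 * R)).card : ℝ) ≤ (5 * R) ^ dg F :=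
    (card_le (bl 0 (2 * R)) (x := 0) one_pos (by linarith) (fun u hu => mem_bl.1 hu)
      fun u _ w _ hne => one_le_norm (sub_ne_zero.2 hne)).trans
      (pow_le_pow_left₀ (by positivity) (by linarith) _)
  have h4 : R ≤ (R ^ 2) ^ dg F :=
    (le_self_pow₀ R1 two_ne_zero).trans (le_self_pow₀ (one_le_pow₀ R1) (dg_pos F).ne')
  rw [div_le_iff₀ hε] at hR
  calc (#G : ℝ) ≤ (#(bl (F := F) 0 (R ^ 2)) : ℝ) * #(bl (F := F) 0 (2 * R)) := by exact_mod_cast h2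
    _ ≤ (3 * R ^ 2) ^ dg F * (5 * R) ^ dg F :=
        mul_le_mul (hb _ (one_le_pow₀ R1)) h3 (by positivity) (by positivity)
    _ = 15 ^ dg F * (R ^ 3) ^ dg F := by rw [← mul_pow, ← mul_pow]; congr 1; ring
    _ ≤ ((R ^ 2) ^ dg F * ε) * (R ^ 3) ^ dg F := by
        gcongr
        exact hR.trans (by gcongr)
    _ = _ := by rw [mul_comm _ ε, mul_assoc, ← mul_pow]; congr 2; ring

end Pool.Agent.Lib.MP_7cad78_nt.R2
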