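import Pool.Agent.Lib.MP_7cad78_nt.R2.P5
import Pool.Agent.Lib.MP_7cad78_nt.R2.Alg
import Pool.Agent.Lib.MP_7cad78_nt.R2.Fam
import Pool.Agent.Lib.MP_7cad78_nt.R2.Exc
import Pool.Agent.Lib.MP_7cad78_nt.R2.Tail

/-! Assembly. -/

namespace Pool.Agent.Lib.MP_7cad78_nt.R2

open NumberField NumberField.mixedEmbedding IsDedekindDomain WithZero Finset NF Filter
open scoped Classical

variable {F : Type} [Field F] [NumberField F]

lemma fin_finite (X : ℝ) : (fam F X).Finite := by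
  refine (Finset.finite_toSet (bl (F := F) 0 (max X 1) ×ˢ bl (F := F) 0 (max X 1))).subset ?_
  rintro x ⟨-, -, hx⟩
  simp only [Finset.coe_product, Set.mem_prod, Finset.mem_coe, mem_bl, sub_zero, norm_emb_le_iff]
  refine ⟨fun σ => ?_, fun σ => ?_⟩
  · have h1 := (le_max_left _ _).trans (hx σ)
    by_contra h
    rw [not_le, max_lt_iff] at h
    linarith [le_self_pow₀ h.2.le three_ne_zero]
  · have h1 := (le_max_right _ _).trans (hx σ)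
    by_contra h
    rw [not_le, max_lt_iff] at h
    linarith [le_self_pow₀ h.2.le two_ne_zero]

lemma fin_two (S : Finset (𝓞 F)) (A : 𝓞 F) : #S ≤ #{s ∈ S | 3 * s ^ 2 + 4 * A ≠ 0} + 2 := by
  rw [← card_filter_add_card_filter_not (s := S) fun s => 3 * s ^ 2 + 4 * A ≠ 0]
  gcongr
  rcases (S.filter fun s => ¬ 3 * s ^ 2 + 4 * A ≠ 0).eq_empty_or_nonempty with h | ⟨t, ht⟩
  · simp only [h, card_empty, zero_le]
  refine (card_le_card (t := {t, -t}) fun s hs => ?_).trans card_le_two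
  have h1 := not_not.1 (mem_filter.1 ht).2
  have h2 := not_not.1 (mem_filter.1 hs).2
  have : s ^ 2 = t ^ 2 := mul_left_cancel₀ (a := 3) (by norm_num) (by linear_combination h2 - h1)
  simpa using sq_eq_sq_iff_eq_or_eq_neg.1 this

lemma fin_nat {p : ℕ} [hp : Fact p.Prime] (S : Split F p) (σ : Emb F) {m : ℕ} (h0 : m ≠ 0)
    (h : m < p) : (m : ZMod p) ≠ 0 ∧ (m : 𝓞 F) ∉ (S.P σ).asIdeal := by
  have : (m : ZMod p) ≠ 0 := fun e =>
    (Nat.le_of_dvd (Nat.pos_of_ne_zero h0) ((ZMod.natCast_eq_zero_iff _ _).1 e)).not_gt h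
  exact ⟨this, fun e => this (by simpa using (RingHom.mem_ker.1 e : S.r σ m = 0))⟩

lemma fin_nm {p : ℕ} [hp : Fact p.Prime] (S : Split F p) (σ : Emb F) : p ≤ nm (S.P σ) := by
  by_contra h
  exact (fin_nat S σ (nm_ne _) (not_le.1 h)).2 (Ideal.absNorm_mem _)

lemma fin_prime {M : ℕ} (h : M ≠ 0) : ∃ 𝔭 : Pr F, (M : 𝓞 F) ∉ 𝔭.asIdeal := by
  obtain ⟨Y, hY⟩ := exists_sys F M 1
  obtain ⟨σ0⟩ : Nonempty (Emb F) := Fintype.card_pos_iff.1 (card_Emb F ▸ dg_pos F)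
  exact ⟨_, (fin_nat (Y.S 0) σ0 h (hY 0)).2⟩

lemma fin_box {R : ℝ} (hR : 0 < R) {M : ℕ} {a b : 𝓞 F} {x : 𝓞 F × 𝓞 F}
    (hx : x ∈ cls ((R ^ 2 / 2) • 1) (R ^ 2 / 4) M a ×ˢ cls 0 (R ^ 3 / 2) M b) :
    ‖emb F x.1‖ ≤ R ^ 2 ∧ ‖emb F x.2‖ ≤ R ^ 3 ∧ (∀ w, 0 < (emb F x.1).1 w) ∧
      (M : 𝓞 F) ∣ x.1 - a ∧ (M : 𝓞 F) ∣ x.2 - b := by
  obtain ⟨x1, x2⟩ := mem_product.1 hx
  rw [mem_cls] at x1 x2
  have R2 := pow_pos hR 2
  have R3 := pow_pos hR 3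
  refine ⟨(norm_le_norm_add_norm_sub' _ _).trans ((add_le_add ((norm_smul_le _ _).trans
    (mul_le_of_le_one_right (norm_nonneg _) norm_one_le)) x1.1).trans
      (by rw [Real.norm_of_nonneg (by positivity)]; linarith)), ?_, fun w => ?_, x1.2, x2.2⟩
  · have := x2.1
    rw [sub_zero] at this
    linarith
  · have := ((norm_le_pi_norm _ w).trans (norm_fst_le _)).trans x1.1
    simp only [Prod.fst_sub, Prod.smul_fst, Prod.fst_one, Pi.sub_apply, Pi.smul_apply,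
      Pi.one_apply, smul_eq_mul, mul_one, Real.norm_eq_abs, abs_le] at this
    linarith

lemma fin_z {c1 Ct Cp a : ℝ} (h1 : 0 < c1) (ht : 0 < Ct) (ha : 1 ≤ a) (f : ℕ → ℝ)
    (hf : ∀ z, z ≠ 0 → f z ^ 4 ≤ Cp * z) :
    ∃ z : ℕ, z ≠ 0 ∧ ∀ P, 1 ≤ P → P ≤ a * f z → Ct / z ≤ c1 / P ^ 2 / 4 := by
  obtain ⟨b, hb⟩ : ∃ b, b = 4 * Ct * a ^ 2 / c1 := ⟨_, rfl⟩
  have b0 : 0 < b := by rw [hb]; positivity
  obtain ⟨z, hz⟩ : ∃ z, z = ⌈b ^ 2 * Cp⌉₊ + 1 := ⟨_, rfl⟩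
  have z0 : z ≠ 0 := by omega
  have z1 : (0 : ℝ) < z := by positivity
  have z2 : b ^ 2 * Cp ≤ z := by rw [hz]; push_cast; linarith [Nat.le_ceil (b ^ 2 * Cp)]
  refine ⟨z, z0, fun P P1 hP => ?_⟩
  have k : b * f z ^ 2 ≤ z := by
    refine le_of_sq_le_sq ?_ z1.le
    calc _ = b ^ 2 * f z ^ 4 := by ring
      _ ≤ b ^ 2 * (Cp * z) := by gcongr; exact hf z z0
      _ = b ^ 2 * Cp * z := by ring
      _ ≤ z * z := by gcongr
      _ = _ := by ring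
  rw [div_div, div_le_div_iff₀ z1 (by positivity)]
  calc Ct * (P ^ 2 * 4) ≤ Ct * ((a * f z) ^ 2 * 4) := by gcongr
    _ = c1 * (b * f z ^ 2) := by rw [hb]; field_simp
    _ ≤ _ := by gcongr

lemma fin_q3 {A s : 𝓞 F} {E T : ℝ} (hE : 1 ≤ E) (hT : 1 ≤ T) (h1 : ‖emb F A‖ ≤ T ^ 4)
    (h2 : ‖emb F s‖ ≤ E * T ^ 2) : ‖emb F (3 * s ^ 2 + 4 * A)‖ ≤ 7 * E ^ 2 * T ^ 4 := by
  have e : emb F (3 * s ^ 2 + 4 * A) = (3 : ℕ) * emb F s ^ 2 + (4 : ℕ) * emb F A := by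
    simp [map_ofNat]
  rw [e]
  refine (norm_add_le _ _).trans ?_
  rw [norm_natCast_mul, norm_natCast_mul]
  have n1 := (norm_pow_le' _ two_pos).trans (pow_le_pow_left₀ (norm_nonneg _) h2 2)
  have n2 : T ^ 4 ≤ E ^ 2 * T ^ 4 := le_mul_of_one_le_left (by positivity) (one_le_pow₀ hE)
  push_cast
  linarith [mul_pow E (T ^ 2) 2, pow_mul T 2 2]

lemma fin_big {c : ℝ} (hc : 0 < c) (a : ℝ) :
    ∀ᶠ T : ℝ in atTop, (a * T ^ 4) ^ dg F < c * (T ^ 6) ^ dg F := by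
  filter_upwards [eventually_gt_atTop (|a| ^ dg F / c), eventually_ge_atTop 1] with T h T1
  rw [div_lt_iff₀' hc] at h
  have h2 : T ≤ (T ^ 2) ^ dg F := by
    rw [← pow_mul]; exact le_self_pow₀ T1 (by have := dg_pos F; omega)
  calc _ ≤ |a| ^ dg F * (T ^ 4) ^ dg F := by
        rw [mul_pow, ← abs_pow]
        exact mul_le_mul_of_nonneg_right (le_abs_self _) (by positivity)
    _ < c * T * (T ^ 4) ^ dg F := by gcongr
    _ ≤ c * (T ^ 2) ^ dg F * (T ^ 4) ^ dg F := by gcongr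
    _ = _ := by rw [mul_assoc, ← mul_pow]; congr 2; ring

lemma fin_log {c : ℝ} (hc : 0 < c) :
    ∀ᶠ T : ℝ in atTop, 4 ≤ c * (T ^ 2) ^ dg F / Real.log T := by
  filter_upwards [eventually_ge_atTop (4 / c), eventually_gt_atTop 1] with T h T1
  rw [div_le_iff₀' hc] at h
  rw [le_div_iff₀ (Real.log_pos T1)]
  have h1 := Real.log_le_self (zero_le_one.trans T1.le)
  calc 4 * Real.log T ≤ c * T * T := by gcongr; exact (Real.log_pos T1).le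
    _ = c * T ^ 2 := by ring
    _ ≤ _ := by gcongr; exact le_self_pow₀ (one_le_pow₀ T1.le) (dg_pos F).ne'

theorem good1 (F : Type) [Field F] [NumberField F] [DecidableEq F] : ∃ c E : ℝ, 0 < c ∧ 1 ≤ E ∧
    ∀ᶠ T : ℝ in atTop, c * (T ^ 12) ^ dg F / Real.log T ≤
      ({x ∈ fam F (50000 * E ^ 12 * T ^ 24) | Module.rank ℤ (curve F x).Point = 1}.ncard : ℝ) := by
  obtain ⟨M0, c1, c, hM0, c10, c0, h5⟩ := p5 F
  obtain ⟨Ct, Ct0, ht⟩ := tail F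
  obtain ⟨Cp, -, hp⟩ := Pw_le F 4
  obtain ⟨z, z0, hz⟩ := fin_z c10 Ct0 (one_le_Pw (F := F) (6 * M0)) _ hp
  obtain ⟨M, hM⟩ : ∃ M, M = 6 * M0 * z.factorial := ⟨_, rfl⟩
  have M1 : M ≠ 0 := by rw [hM]; positivity
  have M6 : 6 ∣ M := ⟨M0 * z.factorial, by rw [hM]; ring⟩
  have M2 : M0 ∣ M := ⟨6 * z.factorial, by rw [hM]; ring⟩
  have M7 : M ^ 7 ≠ 0 := pow_ne_zero _ M1
  have M8 : M ∣ M ^ 7 := dvd_pow_self _ (by norm_num)
  replace hz := hz (Pw F (M ^ 7)) (one_le_Pw _) (by rw [Pw_pow _ (by norm_num), hM]; exact Pw_mul _ _)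
  obtain ⟨g, hg⟩ : ∃ g : ℝ, g = c1 / Pw F (M ^ 7) ^ 2 / (((M ^ 7 : ℕ) : ℝ) ^ 2) ^ dg F := ⟨_, rfl⟩
  have g0 : 0 < g := by rw [hg]; have := one_le_Pw (F := F) (M ^ 7); positivity
  obtain ⟨m, m0, ha⟩ := alg F M M1 M6
  obtain ⟨K, N, he⟩ := exc_le F m m0 (ε := g / 4) (by positivity)
  obtain ⟨W, W0, h5⟩ := h5 (M ^ 7) (2 ^ K) M7 (((by norm_num : 2 ∣ 6).trans M6).trans M8)
    (M2.trans M8)
  obtain ⟨Ng, hgp⟩ := gen_pow F
  obtain ⟨Y, hY⟩ := exists_sys F (N + Ng + m + M + M ^ 7 * W) K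
  obtain ⟨σ0⟩ : Nonempty (Emb F) := Fintype.card_pos_iff.1 (card_Emb F ▸ dg_pos F)
  choose δ k k0 hδ δ1 δ2 using fun i => hgp ((Y.S i).P σ0) (M ^ 7 * W)
    (lt_of_lt_of_le (by have := hY i; omega) (fin_nm (Y.S i) σ0)) (mul_ne_zero M7 W0)
    (fin_nat (Y.S i) σ0 (mul_ne_zero M7 W0) (by have := hY i; omega)).2
  replace ha := ha K Y σ0 δ fun i => ⟨(fin_nat (Y.S i) σ0 m0 (by have := hY i; omega)).1,
    (fin_nat (Y.S i) σ0 M1 (by have := hY i; omega)).2, k i, k0 i, hδ i⟩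
  replace he := he Y σ0 fun i => by have := hY i; omega
  set D : Finset (𝓞 F) := univ.image fun U : Finset (Fin K) => ∏ i ∈ U, δ i with hD
  have Dc : #D ≤ 2 ^ K := card_image_le.trans (by simp)
  obtain ⟨c2, C, c20, C0, h5⟩ := h5 D Dc fun d hd => by
    obtain ⟨U, -, rfl⟩ := mem_image.1 hd
    refine ⟨fun w => ?_, Dvd.dvd.trans ?_ (sub_one_dvd_pow_sub_one _ 3)⟩
    · rw [show ((∏ i ∈ U, δ i : 𝓞 F) : F) = ∏ i ∈ U, (δ i : F) from
        map_prod (algebraMap (𝓞 F) F) _ _, map_prod]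
      exact prod_induction _ (1 ≤ ·) (fun _ _ => one_le_mul_of_one_le_of_one_le) le_rfl
        fun i _ => δ1 i w
    · refine prod_induction _ (fun x => ((M ^ 7 * W : ℕ) : 𝓞 F) ∣ x - 1) (fun a b h1 h2 => ?_)
        (by simp) fun i _ => δ2 i
      convert dvd_add (h1.mul_right b) h2 using 1
      ring
  choose X0 hX0 using exists_X0 (F := F) M1
  obtain ⟨𝔭0, h𝔭0⟩ := fin_prime (F := F) M1
  obtain ⟨E, hE⟩ : ∃ E, E = max C 1 := ⟨_, rfl⟩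
  have E1 : 1 ≤ E := hE ▸ le_max_right _ _
  have CE : C ≤ E := hE ▸ le_max_left _ _
  have t2 : Tendsto (fun T : ℝ => T ^ 2) atTop atTop := tendsto_pow_atTop two_ne_zero
  have t6 : Tendsto (fun T : ℝ => c * (T ^ 6) ^ dg F) atTop atTop :=
    ((tendsto_pow_atTop (dg_pos F).ne').comp (tendsto_pow_atTop (by norm_num))).const_mul_atTop c0
  replace ht := t2.eventually ((eventually_all_finset (cb (F := F) 0 (M ^ 7))).2 fun a0 _ =>
    ht z (M ^ 7) z0 M7 (M6.trans M8) (fun l hl h => ((hl.dvd_factorial.2 h).trans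
      ⟨6 * M0, by rw [hM]; ring⟩).trans M8) (3 * X0 a0) a0)
  refine ⟨g / 4 * (c2 / 2) / (6 * 2 ^ K), E, by positivity, E1, ?_⟩
  filter_upwards [h5, ht, t2.eventually he, t2.eventually (red_le F (ε := g / 4) (by positivity)),
    fibre F c0 E1, fin_big (F := F) c0 (7 * E ^ 2), fin_log (F := F) c20, eventually_gt_atTop 1,
    (eventually_all_finset (prs F M ∪ univ.image fun i => (Y.S i).P σ0)).2 fun 𝔭 _ =>
      t6.eventually_gt_atTop (nm 𝔭 : ℝ)]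
    with T ⟨Z, q, a0, ha0, hG, hZ, h5⟩ ht he hr hf hb hl T1 hq
  obtain ⟨G, G1, G2, G3⟩ := h5 (3 * X0 a0)
  replace ht := ht a0 ha0
  have T0 : 0 < T := by linarith
  have T2 : 0 < T ^ 2 := by positivity
  have e4 : (T ^ 2) ^ 2 = T ^ 4 := by ring
  have e6 : (T ^ 2) ^ 3 = T ^ 6 := by ring
  have box := fun x (hx : x ∈ G) => fin_box T2 (G1 hx)
  have mM : ∀ 𝔭 : Pr F, ((M ^ 7 : ℕ) : 𝓞 F) ∈ 𝔭.asIdeal ↔ (M : 𝓞 F) ∈ 𝔭.asIdeal := fun 𝔭 => by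
    rw [Nat.cast_pow]
    exact ⟨𝔭.isPrime.mem_of_pow_mem 7, fun h => Ideal.pow_mem_of_mem _ h 7 (by norm_num)⟩
  obtain ⟨M3, hM3⟩ : 3 ∣ M := (by norm_num : 3 ∣ 6).trans M6
  have hA : ∀ x ∈ G, ∃ a, x.1 = 3 * a ∧ (M : 𝓞 F) ∣ a - X0 a0 := fun x hx => by
    obtain ⟨t, ht⟩ := (box x hx).2.2.2.1
    refine ⟨X0 a0 + M * (M3 * M ^ 5 * t), ?_, by simp⟩
    have : (M : 𝓞 F) = 3 * M3 := by exact_mod_cast congrArg (Nat.cast (R := 𝓞 F)) hM3
    push_cast at ht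
    linear_combination ht + (M : 𝓞 F) ^ 6 * t * this
  choose! a a1 a2 using hA
  let sf : 𝓞 F × 𝓞 F → Prop := fun x =>
    ∀ 𝔭 : Pr F, (M : 𝓞 F) ∉ 𝔭.asIdeal → 4 * x.1 ^ 3 + 27 * x.2 ^ 2 ∉ 𝔭.asIdeal ^ 2
  let nr : 𝓞 F × 𝓞 F → Prop := fun x => ∀ t : F, cub (x.1 : F) x.2 t ≠ 0
  set G' := G.filter fun x => sf x ∧ nr x ∧ ¬ Exc m Y σ0 x.1 x.2 with hG'
  have Gc : g / 4 * ((T ^ 2) ^ 5) ^ dg F ≤ #G' := by
    have b1 : (#(G.filter fun x => ¬ sf x) : ℝ) ≤ g / 4 * ((T ^ 2) ^ 5) ^ dg F := by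
      refine le_trans (Nat.cast_le.2 (card_le_card fun x hx => ?_)) (ht.trans ?_)
      · obtain ⟨h1, h2⟩ := mem_filter.1 hx
        simp only [sf, not_forall, not_not] at h2
        obtain ⟨𝔭, h2, h3⟩ := h2
        exact mem_filter.2 ⟨G1 h1, 𝔭, mt (mM 𝔭).1 h2, h3⟩
      · refine (mul_le_mul_of_nonneg_right hz (by positivity)).trans_eq ?_
        rw [hg, div_pow]; ring
    have b2 := hr (G.filter fun x => ¬ nr x) fun x hx => by
      obtain ⟨h1, h2⟩ := mem_filter.1 hx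
      exact ⟨(box x h1).1, (box x h1).2.1, by simpa [nr] using h2⟩
    have b3 := he (G.filter fun x => sf x ∧ Exc m Y σ0 x.1 x.2) fun x hx => by
      obtain ⟨h1, h2, h3⟩ := mem_filter.1 hx
      exact ⟨(box x h1).1, (box x h1).2.1, fun e => h2 𝔭0 h𝔭0 (e ▸ zero_mem _), h3⟩
    have b4 : #G ≤ #G' + #(G.filter fun x => ¬ sf x) + #(G.filter fun x => ¬ nr x) +
        #(G.filter fun x => sf x ∧ Exc m Y σ0 x.1 x.2) := by
      refine (card_le_card fun x hx => ?_).trans ((card_union_le _ _).trans (Nat.add_le_add_right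
        ((card_union_le _ _).trans (Nat.add_le_add_right (card_union_le _ _) _)) _))
      simp only [hG', mem_union, mem_filter]
      tauto
    have b5 : g * ((T ^ 2) ^ 5) ^ dg F ≤ #G := le_of_eq_of_le (by rw [hg, div_pow]; ring) G2
    have b6 := (Nat.cast_le (α := ℝ)).2 b4
    push_cast at b6
    linarith
  have hU := fun x (hx : x ∈ G') => ha (a x) x.2 (a1 x (mem_filter.1 hx).1 ▸ (mem_filter.1 hx).2.1)
    (a1 x (mem_filter.1 hx).1 ▸ (box x (mem_filter.1 hx).1).2.2.1)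
    (a1 x (mem_filter.1 hx).1 ▸ (mem_filter.1 hx).2.2.1)
    (a1 x (mem_filter.1 hx).1 ▸ (mem_filter.1 hx).2.2.2)
  choose! U hU1 hU2 using hU
  choose! s1 s2 s3 using hU1
  let S : 𝓞 F × 𝓞 F → Finset (𝓞 F) := fun x => {s' ∈ {s' ∈ bl (F := F) 0 (C * T ^ 2) |
    (∏ i ∈ U x, δ i) ^ 3 * (M ^ 7 : ℕ) ∣ s' - s1 x ∧
      ∃ y ∈ Z, cub x.1 x.2 s' = (∏ i ∈ U x, δ i) ^ 3 * y} | 3 * s' ^ 2 + 4 * x.1 ≠ 0}
  have UD : ∀ x, ∏ i ∈ U x, δ i ∈ D := fun x => mem_image_of_mem _ (mem_univ _)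
  have Sc : ∀ x ∈ G', c2 / 2 * (T ^ 2) ^ dg F / Real.log T ≤ #(S x) := fun x hx => by
    have h1 := (G3 x (mem_filter.1 hx).1 _ (UD x) (s1 x)
      (by rw [a1 x (mem_filter.1 hx).1]; exact s2 x hx) (by rw [Nat.cast_pow]; exact s3 x hx)).trans
      (Nat.cast_le.2 (fin_two _ x.1))
    push_cast at h1
    have : c2 / 2 * (T ^ 2) ^ dg F / Real.log T = c2 * (T ^ 2) ^ dg F / Real.log T / 2 := by ring
    rw [this]
    simp only [S]
    push_cast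
    linarith
  have main : ∀ x ∈ G', ∀ s ∈ S x, mk (a x) x.2 s ∈ fam F (50000 * E ^ 12 * T ^ 24) ∧
      Module.rank ℤ (curve F (mk (a x) x.2 s)).Point = 1 ∧
      ∃ d ∈ D.image (· ^ 3), ∃ y ∈ Z, cub (3 * a x) x.2 s = d * y := fun x hx s hs => by
    obtain ⟨hs, n3⟩ := mem_filter.1 hs
    obtain ⟨hs, hs1, y, hy, hs2⟩ := mem_filter.1 hs
    obtain ⟨hx', k1, k2, -⟩ := mem_filter.1 hx
    obtain ⟨x1, x2, -, -, x3⟩ := box x hx'
    have ns : ‖emb F s‖ ≤ E * T ^ 2 := by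
      have := mem_bl.1 hs
      rw [sub_zero] at this
      exact this.trans (by gcongr)
    have ms : (M : 𝓞 F) ^ 7 ∣ s := by
      have := dvd_add ((dvd_mul_left _ _).trans hs1) (Nat.cast_pow (α := 𝓞 F) M 7 ▸ s3 x hx)
      simpa using this
    obtain ⟨𝔠, y1, y2⟩ := hG.gen y hy
    have qb := hG.big y hy
    rw [e4] at x1
    rw [e6] at x2
    have q3 : 3 * s ^ 2 + 4 * x.1 ∉ (q y).asIdeal := fun h =>
      (hb.trans_le qb).not_ge ((absNorm_le h n3).trans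
        (pow_le_pow_left₀ (norm_nonneg _) (fin_q3 E1 T1.le x1 ns) _))
    have k3 : cub x.1 x.2 s ≠ 0 := fun h => k2 s (by rw [← alg_cast, h]; rfl)
    simp only [sf] at k1
    rw [a1 x hx'] at x1 hs2 q3 k1 k3
    refine ⟨mk_fam M1 M6 E1 T1.le x1 x2 ns ((dvd_pow_self _ (by norm_num)).trans ms) k3
      (fun 𝔭 h => ?_) k1, hU2 x hx s y (q y) (fun i e => ?_) ⟨ms, hs2, ⟨𝔠, 𝔠.mem_of_dvd
        (Nat.cast_dvd_cast M2) y1, y2⟩, fun h => ?_, q3⟩, _, mem_image_of_mem _ (UD x), y, hy, hs2⟩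
    · have l1 := 𝔭.asIdeal.mem_of_dvd (a2 x hx') h
      have l2 := 𝔭.asIdeal.mem_of_dvd x3 ((mM 𝔭).2 h)
      rw [← (Submodule.sub_mem_iff_left _ l1 |>.symm.trans (by simp) :
          a x ∈ 𝔭.asIdeal ↔ X0 a0 ∈ 𝔭.asIdeal).symm, hX0 a0 𝔭 h]
      exact not_congr ⟨fun h' => by simpa using add_mem l2 h', fun h' => by simpa using sub_mem h' l2⟩
    · exact (hq _ (mem_union_right _ (mem_image_of_mem _ (mem_univ i)))).not_ge (e ▸ qb)
    · exact (hq _ (mem_union_left _ ((mem_prs M1).2 h))).not_ge qb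
  set Z3 := (G'.sigma S).image fun p => (a p.1, p.1.2, p.2) with hZ3
  have Z1 : ∀ z ∈ Z3, ∃ x ∈ G', ∃ s ∈ S x, z = (a x, x.2, s) := fun z hz => by
    obtain ⟨p, hp, rfl⟩ := mem_image.1 hz
    exact ⟨p.1, (mem_sigma.1 hp).1, p.2, (mem_sigma.1 hp).2, rfl⟩
  have f1 := hf M0 Z (D.image (· ^ 3)) q Z3 hG fun z hz => by
    obtain ⟨x, hx, s, hs, rfl⟩ := Z1 z hz
    exact ⟨(main x hx s hs).1, (main x hx s hs).2.2⟩
  have f2 : #(Z3.image fun z => mk z.1 z.2.1 z.2.2) ≤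
      {x ∈ fam F (50000 * E ^ 12 * T ^ 24) | Module.rank ℤ (curve F x).Point = 1}.ncard := by
    rw [← Set.ncard_coe_finset]
    refine Set.ncard_le_ncard (fun w hw => ?_) ((fin_finite _).subset fun _ h => h.1)
    obtain ⟨z, hz, rfl⟩ := mem_image.1 hw
    obtain ⟨x, hx, s, hs, rfl⟩ := Z1 z hz
    exact ⟨(main x hx s hs).1, (main x hx s hs).2.1⟩
  have f3 : #Z3 = ∑ x ∈ G', #(S x) := by
    rw [hZ3, card_image_of_injOn, card_sigma]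
    rintro ⟨x, s⟩ hx ⟨x', s'⟩ hx' e
    simp only [Prod.mk.injEq] at e
    obtain rfl : x = x' := Prod.ext (by rw [a1 x (mem_filter.1 (mem_sigma.1 hx).1).1,
      a1 x' (mem_filter.1 (mem_sigma.1 hx').1).1, e.1]) e.2.1
    rw [e.2.2]
  have f4 : #G' * (c2 / 2 * (T ^ 2) ^ dg F / Real.log T) ≤ #Z3 := by
    rw [f3, Nat.cast_sum, ← nsmul_eq_mul]
    exact card_nsmul_le_sum _ _ _ Sc
  have f5 := (Nat.cast_le (α := ℝ)).2 (f1.trans (Nat.mul_le_mul (Nat.mul_le_mul_left 6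
    (card_image_le.trans Dc)) f2))
  have l0 := Real.log_pos T1
  push_cast at f5
  rw [div_mul_eq_mul_div, div_right_comm, div_le_iff₀' (by positivity)]
  refine le_trans (le_trans (le_of_eq ?_) (mul_le_mul_of_nonneg_right Gc (by positivity)))
    (f4.trans f5)
  rw [show T ^ 12 = (T ^ 2) ^ 5 * T ^ 2 by ring, mul_pow]
  ring

theorem main1 (F : Type) [Field F] [NumberField F] [DecidableEq F] : ∃ c : ℝ, 0 < c ∧
    ∀ᶠ X : ℝ in atTop, c * X ^ ((Module.finrank ℚ F : ℝ) / 2) / Real.log X ≤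
      ({x ∈ fam F X | Module.rank ℤ (curve F x).Point = 1}.ncard : ℝ) := by
  obtain ⟨c, E, c0, E1, h⟩ := good1 F
  obtain ⟨Q, hQ⟩ : ∃ Q, Q = 50000 * E ^ 12 := ⟨_, rfl⟩
  have Q1 : 1 ≤ Q := by rw [hQ]; linarith [one_le_pow₀ (n := 12) E1]
  rw [← hQ] at h
  have t : Tendsto (fun X : ℝ => (X / Q) ^ ((24 : ℕ) : ℝ)⁻¹) atTop atTop :=
    (tendsto_rpow_atTop (by norm_num)).comp (tendsto_id.atTop_div_const (by linarith))
  refine ⟨c / Q ^ dg F, by positivity, ?_⟩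
  filter_upwards [t.eventually h, t.eventually_gt_atTop 1, eventually_ge_atTop 0] with X h T1 X0
  have e : ((X / Q) ^ ((24 : ℕ) : ℝ)⁻¹) ^ 24 = X / Q :=
    Real.rpow_inv_natCast_pow (by positivity) (by norm_num)
  generalize (X / Q) ^ ((24 : ℕ) : ℝ)⁻¹ = T at *
  obtain rfl : X = Q * T ^ 24 := by rw [e]; field_simp
  refine le_trans ?_ h
  have T0 : 0 < T := by linarith
  have h1 : (Q * T ^ 24) ^ ((Module.finrank ℚ F : ℝ) / 2) ≤ Q ^ dg F * (T ^ 12) ^ dg F := by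
    have h3 : Q * T ^ 24 ≤ (Q * T ^ 12) ^ (2 : ℝ) := by
      rw [Real.rpow_two, mul_pow, ← pow_mul]
      gcongr
      exact le_self_pow₀ Q1 two_ne_zero
    refine (Real.rpow_le_rpow X0 h3 (by positivity)).trans_eq ?_
    rw [← Real.rpow_mul (by positivity), ← mul_pow, ← Real.rpow_natCast (Q * T ^ 12)]
    congr 1
    ring
  have h2 : Real.log T ≤ Real.log (Q * T ^ 24) := Real.log_le_log T0
    ((le_self_pow₀ T1.le (by norm_num)).trans (le_mul_of_one_le_left (by positivity) Q1))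
  calc _ ≤ c / Q ^ dg F * (Q ^ dg F * (T ^ 12) ^ dg F) / Real.log T := by
        gcongr; exact Real.log_pos T1
    _ = _ := by field_simp

end Pool.Agent.Lib.MP_7cad78_nt.R2
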