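import Pool.Agent.Lib.MP_7cad78_nt.R2.Cube

/-! Additive characters with a large kernel lie on a major arc. -/

namespace Pool.Agent.Lib.MP_7cad78_nt.R2

open NumberField NumberField.mixedEmbedding IsDedekindDomain WithZero Finset NF Filter
open scoped Classical

variable {F : Type} [Field F] [NumberField F]

lemma chr_pow {ζ : ℂ} (h : ‖ζ‖ = 1) (t : ℕ) : ‖ζ ^ t - 1‖ ≤ t * ‖ζ - 1‖ := by
  induction t with
  | zero => simp
  | succ t ih =>
    rw [show ζ ^ (t + 1) - 1 = ζ * (ζ ^ t - 1) + (ζ - 1) by ring]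
    refine (norm_add_le _ _).trans ?_
    rw [norm_mul, h]
    push_cast
    linarith

lemma chr_low {ζ : ℂ} (h : ‖ζ‖ = 1) {t : ℕ} (ht : t * ‖ζ - 1‖ ≤ 1) :
    t * ‖ζ - 1‖ ≤ 2 * ‖ζ ^ t - 1‖ := by
  have key : ∀ t : ℕ, ‖ζ ^ t - 1 - t * (ζ - 1)‖ ≤ (t * ‖ζ - 1‖) ^ 2 / 2 := fun t => by
    induction t with
    | zero => simp
    | succ t ih =>
      rw [show ζ ^ (t + 1) - 1 - (t + 1 : ℕ) * (ζ - 1) =
        ζ ^ t - 1 - t * (ζ - 1) + (ζ ^ t - 1) * (ζ - 1) by push_cast; ring]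
      refine (norm_add_le _ _).trans ?_
      rw [norm_mul]
      have := mul_le_mul_of_nonneg_right (chr_pow h t) (norm_nonneg (ζ - 1))
      push_cast
      nlinarith [sq_nonneg ‖ζ - 1‖]
  have h1 := norm_sub_le (ζ ^ t - 1) (ζ ^ t - 1 - t * (ζ - 1))
  rw [sub_sub_cancel, norm_mul, Complex.norm_natCast] at h1
  have h2 := key t
  have h3 : 0 ≤ t * ‖ζ - 1‖ := by positivity
  nlinarith

section chr

variable {G : Type*} [AddCommGroup G] {χ : AddChar G ℂ}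

lemma chr_prod {ι : Type*} (χ : AddChar G ℂ) (s : Finset ι) (f : ι → G) :
    χ (∑ i ∈ s, f i) = ∏ i ∈ s, χ (f i) := by
  induction s using Finset.induction_on with
  | empty => simp
  | insert a s ha ih => rw [sum_insert ha, prod_insert ha, AddChar.map_add_eq_mul, ih]

lemma chr_add (h : ∀ y, ‖χ y‖ = 1) (x y : G) : ‖χ (x + y) - 1‖ ≤ ‖χ x - 1‖ + ‖χ y - 1‖ := by
  rw [AddChar.map_add_eq_mul, show χ x * χ y - 1 = (χ x - 1) + χ x * (χ y - 1) by ring]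
  refine (norm_add_le _ _).trans ?_
  rw [norm_mul, h, one_mul]

lemma chr_neg (h : ∀ y, ‖χ y‖ = 1) (x : G) : ‖χ (-x) - 1‖ = ‖χ x - 1‖ := by
  have : χ (-x) * χ x = 1 := by rw [← AddChar.map_add_eq_mul]; simp
  rw [← this, show χ (-x) - χ (-x) * χ x = χ (-x) * (1 - χ x) by ring, norm_mul, h, one_mul, this,
    norm_sub_rev]

lemma chr_sub (h : ∀ y, ‖χ y‖ = 1) (x y : G) : ‖χ (x - y) - 1‖ ≤ ‖χ x - 1‖ + ‖χ y - 1‖ := by
  rw [sub_eq_add_neg x, ← chr_neg h y]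
  exact chr_add h _ _

lemma chr_zsmul (h : ∀ y, ‖χ y‖ = 1) (n : ℤ) (x : G) : ‖χ (n • x) - 1‖ ≤ |(n : ℝ)| * ‖χ x - 1‖ := by
  obtain ⟨k, rfl | rfl⟩ := n.eq_nat_or_neg
  · simpa [AddChar.map_nsmul_eq_pow] using chr_pow (h x) k
  · rw [neg_zsmul, chr_neg h]
    simpa [AddChar.map_nsmul_eq_pow] using chr_pow (h x) k

lemma chr_sum (h : ∀ y, ‖χ y‖ = 1) {ι : Type*} (s : Finset ι) (f : ι → G) :
    ‖χ (∑ i ∈ s, f i) - 1‖ ≤ ∑ i ∈ s, ‖χ (f i) - 1‖ := by
  induction s using Finset.induction_on with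
  | empty => simp
  | insert a s ha ih =>
    rw [sum_insert ha, sum_insert ha]
    exact (chr_add h _ _).trans (by gcongr)

end chr

variable (F) in
lemma chr_all : ∃ C : ℝ, 1 ≤ C ∧ (∀ i, ‖emb F (RingOfIntegers.basis F i)‖ ≤ C) ∧
    ∀ (χ : AddChar (𝓞 F) ℂ) (a : 𝓞 F) (η : ℝ), (∀ y, ‖χ y‖ = 1) →
      (∀ i, ‖χ (a * RingOfIntegers.basis F i) - 1‖ ≤ η) →
      ∀ y, ‖χ (a * y) - 1‖ ≤ C * η * ‖emb F y‖ := by
  obtain ⟨C, C1, -, h1, h2⟩ := basis_le F
  have n1 : (1 : ℝ) ≤ dg F := by exact_mod_cast dg_pos F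
  refine ⟨dg F * C, one_le_mul_of_one_le_of_one_le n1 C1,
    fun i => (h1 i).trans (le_mul_of_one_le_left (by linarith) n1), fun χ a η h hb y => ?_⟩
  conv_lhs => rw [← (RingOfIntegers.basis F).sum_repr y, mul_sum]
  refine (chr_sum h _ _).trans ((sum_le_card_nsmul _ _ (C * ‖emb F y‖ * η) fun i _ => ?_).trans_eq ?_)
  · rw [mul_smul_comm]
    exact (chr_zsmul h _ _).trans (mul_le_mul (h2 y i) (hb i) (norm_nonneg _) (by positivity))
  · rw [card_univ, card_Ix, nsmul_eq_mul]; ring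

lemma ker_fac (χ : AddChar (𝓞 F) ℂ) (a : 𝓞 F) (L : ℕ) : ∑ A ∈ cb (F := F) 0 L, χ (a * A) =
    ∏ i, ∑ j ∈ range L, χ (a * RingOfIntegers.basis F i) ^ j := by
  rw [cb, sum_image (cb_inj 0).injOn, prod_univ_sum]
  refine sum_congr rfl fun j _ => ?_
  rw [zero_add, mul_sum, chr_prod]
  refine prod_congr rfl fun i _ => ?_
  rw [← AddChar.map_nsmul_eq_pow, nsmul_eq_mul, mul_left_comm]

lemma ker_near {χ : AddChar (𝓞 F) ℂ} (h : ∀ y, ‖χ y‖ = 1) {a : 𝓞 F} {L : ℕ} {Q : ℝ} (hL : 0 < L)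
    (hQ : 0 < Q) (hD : (L : ℝ) ^ dg F / Q ≤ ‖∑ A ∈ cb (F := F) 0 L, χ (a * A)‖) (i : Ix F) :
    ‖χ (a * RingOfIntegers.basis F i) - 1‖ ≤ 2 * Q / L := by
  rw [ker_fac, ← mul_prod_erase _ _ (mem_univ i), norm_mul, norm_prod] at hD
  have h1 : ∏ k ∈ univ.erase i, ‖∑ j ∈ range L, χ (a * RingOfIntegers.basis F k) ^ j‖ ≤
      (L : ℝ) ^ (dg F - 1) := by
    rw [← card_Ix, ← card_univ, ← card_erase_of_mem (mem_univ i), ← prod_const]
    refine prod_le_prod (fun _ _ => norm_nonneg _) fun k _ => (norm_sum_le _ _).trans ?_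
    simp [h]
  have h2 : ‖∑ j ∈ range L, χ (a * RingOfIntegers.basis F i) ^ j‖ *
      ‖χ (a * RingOfIntegers.basis F i) - 1‖ ≤ 2 := by
    rw [← norm_mul, geom_sum_mul]
    refine (norm_sub_le _ _).trans ?_
    simp [h, one_add_one_eq_two]
  have L0 : (0 : ℝ) < L := by exact_mod_cast hL
  have h3 := hD.trans (mul_le_mul_of_nonneg_left h1 (norm_nonneg _))
  rw [← Nat.sub_add_cancel (dg_pos F), pow_succ, Nat.add_sub_cancel, mul_div_assoc, mul_comm,
    mul_le_mul_iff_left₀ (by positivity), div_le_iff₀ hQ] at h3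
  rw [le_div_iff₀ L0]
  nlinarith [mul_le_mul_of_nonneg_left h3 (norm_nonneg (χ (a * RingOfIntegers.basis F i) - 1))]

lemma ker_one {s : Finset ℕ} {J : ℕ} {K : ℝ} (hs : s ⊆ range J) (hK : 1 ≤ K) (h1 : J ≤ K * #s)
    (h2 : 2 * K < J) : ∃ r t : ℕ, 1 ≤ r ∧ r ≤ 3 * K ∧ J ≤ 2 * K * t ∧ t ≤ J ∧
      (∃ a ∈ s, a + r ∈ s) ∧ ∃ a ∈ s, a + t ∈ s := by
  set k := ⌈2 * K⌉₊
  have k1 : 2 * K ≤ k := Nat.le_ceil _
  have k2 : (k : ℝ) ≤ 3 * K := by linarith [Nat.ceil_lt_add_one (show 0 ≤ 2 * K by linarith)]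
  have k0 : 0 < k := by exact_mod_cast (show (0 : ℝ) < k by linarith)
  have c1 : #(range (J / k + 1)) < #s := by
    rw [card_range]
    have a1 : ((J / k : ℕ) : ℝ) * k ≤ J := by exact_mod_cast Nat.div_mul_le_self J k
    have a2 : (0 : ℝ) ≤ (J / k : ℕ) := Nat.cast_nonneg _
    have : K * ((J / k : ℕ) + 1) < K * #s := by nlinarith
    exact_mod_cast lt_of_mul_lt_mul_left this (by linarith)
  obtain ⟨a, ha, b, hb, ne, e⟩ := exists_ne_map_eq_of_card_lt_of_maps_to c1 (f := (· / k))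
    fun j hj => mem_coe.2 (mem_range.2 (Nat.lt_succ_of_le (Nat.div_le_div_right
      (mem_range.1 (hs hj)).le)))
  have sn : s.Nonempty := ⟨a, ha⟩
  have m1 := s.min'_le_max' sn
  have c2 : #s ≤ s.max' sn - s.min' sn + 1 := by
    refine (card_le_card (t := Icc (s.min' sn) (s.max' sn))
      fun j hj => mem_Icc.2 ⟨s.min'_le j hj, s.le_max' j hj⟩).trans ?_
    rw [Nat.card_Icc]; omega
  have c3 : (#s : ℝ) ≤ (s.max' sn - s.min' sn : ℕ) + 1 := by exact_mod_cast c2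
  have key : ∀ a ∈ s, ∀ b ∈ s, a < b → a / k = b / k → ∃ r : ℕ, 1 ≤ r ∧ r ≤ 3 * K ∧
      ∃ a ∈ s, a + r ∈ s := fun a ha b hb lt e => by
    refine ⟨b - a, by omega, le_trans ?_ k2, a, ha, by rwa [Nat.add_sub_cancel' lt.le]⟩
    have := Nat.div_add_mod a k
    have := Nat.div_add_mod b k
    have := Nat.mod_lt b k0
    have : b - a ≤ k := by rw [e] at *; omega
    exact_mod_cast this
  obtain ⟨r, r1, r2, r3⟩ : ∃ r : ℕ, 1 ≤ r ∧ r ≤ 3 * K ∧ ∃ a ∈ s, a + r ∈ s :=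
    (lt_or_gt_of_ne ne).elim (fun l => key a ha b hb l e) fun l => key b hb a ha l e.symm
  refine ⟨r, s.max' sn - s.min' sn, r1, r2, by nlinarith, ?_, r3, _, s.min'_mem sn,
    by rw [Nat.add_sub_cancel' m1]; exact s.max'_mem sn⟩
  have := mem_range.1 (hs (s.max'_mem sn))
  omega

lemma bl_le (x : mixedSpace F) {r : ℝ} (hr : 0 ≤ r) (s : Finset (𝓞 F))
    (h : ∀ u ∈ s, ‖emb F u - x‖ ≤ r) : (#s : ℝ) ≤ (2 * r + 1) ^ dg F := by
  simpa using card_le s one_pos hr h fun u _ w _ ne => one_le_norm (sub_ne_zero.2 ne)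

theorem ker (F : Type) [Field F] [NumberField F] (m : ℕ) (hm : m ≠ 0) : ∃ C : ℝ, 1 ≤ C ∧
    ∀ (Q H : ℝ) (L : ℕ) (χ : AddChar (𝓞 F) ℂ), (∀ y, ‖χ y‖ = 1) → 1 ≤ Q → C * Q ^ 3 ≤ H →
      C * Q ^ 3 * H ≤ L →
      2 / Q * (L : ℝ) ^ dg F * #(bl (F := F) 0 (2 * H)) ≤
        ∑ h ∈ bl (F := F) 0 (2 * H), ‖∑ A ∈ cb (F := F) 0 L, χ (m * A * h)‖ →
      Arc (C * Q ^ 3) (C * Q ^ 3 / (H * L)) χ := by
  obtain ⟨C1, c1, hC1⟩ := le_card F
  obtain ⟨C2, c2, -, hC2⟩ := chr_all F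
  have m1 : (1 : ℝ) ≤ m := by exact_mod_cast Nat.pos_of_ne_zero hm
  set K0 := (9 * C1) ^ dg F with hK0
  have k1 : 9 * C1 ≤ K0 := le_self_pow₀ (by linarith) (dg_pos F).ne'
  have k2 : 1 ≤ K0 := by linarith
  have e1 : 1 ≤ m * C2 * K0 :=
    one_le_mul_of_one_le_of_one_le (one_le_mul_of_one_le_of_one_le m1 c2) k2
  refine ⟨48 * K0 * (m * C2 * K0), by nlinarith, fun Q H L χ h hQ h1 h2 h3 => ?_⟩
  have q3 : Q ≤ Q ^ 3 := le_self_pow₀ hQ three_ne_zero
  have e2 : 48 * (K0 * Q) ≤ 48 * K0 * (m * C2 * K0) * Q ^ 3 := by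
    rw [← mul_assoc]
    exact mul_le_mul (le_mul_of_one_le_right (by positivity) e1) q3 (by positivity) (by positivity)
  set K := K0 * Q with hK
  have K1 : K0 ≤ K := le_mul_of_one_le_right (by positivity) hQ
  have K2 : Q ≤ K := le_mul_of_one_le_left (by positivity) k2
  have H1 : 1 ≤ H := by linarith
  have L1 : 48 * K * H ≤ L := le_trans (by gcongr) h2
  have L0 : (0 : ℝ) < L := lt_of_lt_of_le (by positivity) L1
  set B := bl (F := F) 0 (2 * H)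
  set 𝓗 := {h ∈ B | (L : ℝ) ^ dg F / Q ≤ ‖∑ A ∈ cb (F := F) 0 L, χ (m * A * h)‖}
  have a1 : (#B : ℝ) ≤ Q * #𝓗 := by
    rw [← sum_filter_add_sum_filter_not B fun h =>
      (L : ℝ) ^ dg F / Q ≤ ‖∑ A ∈ cb (F := F) 0 L, χ (m * A * h)‖] at h3
    have b1 := sum_le_card_nsmul 𝓗 (fun h => ‖∑ A ∈ cb (F := F) 0 L, χ (m * A * h)‖)
      ((L : ℝ) ^ dg F) fun _ _ => (norm_sum_le _ _).trans (by simp [h, card_cb])
    have b2 := sum_le_card_nsmul {h ∈ B | ¬ (L : ℝ) ^ dg F / Q ≤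
      ‖∑ A ∈ cb (F := F) 0 L, χ (m * A * h)‖} (fun h => ‖∑ A ∈ cb (F := F) 0 L, χ (m * A * h)‖)
      ((L : ℝ) ^ dg F / Q) fun _ hx => (not_le.1 (mem_filter.1 hx).2).le
    rw [nsmul_eq_mul] at b1 b2
    have b3 := b2.trans (mul_le_mul_of_nonneg_right (Nat.cast_le.2 (card_filter_le _ _))
      (by positivity))
    have b4 : (L : ℝ) ^ dg F / Q * #B ≤ (L : ℝ) ^ dg F / Q * (Q * #𝓗) := by
      have : (L : ℝ) ^ dg F / Q * (Q * #𝓗) = #𝓗 * (L : ℝ) ^ dg F := by field_simp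
      have : 2 / Q * (L : ℝ) ^ dg F * #B = 2 * (#B * ((L : ℝ) ^ dg F / Q)) := by ring
      linarith
    exact le_of_mul_le_mul_left b4 (by positivity)
  set J := ⌈H⌉₊
  have J1 : H ≤ J := Nat.le_ceil _
  have J2 : (J : ℝ) ≤ 2 * H := by linarith [Nat.ceil_lt_add_one (show 0 ≤ H by linarith)]
  have a2 : (#(bl (F := F) 0 (4 * H)) : ℝ) ≤ K * #𝓗 := by
    refine (bl_le 0 (by positivity) _ fun u hu => mem_bl.1 hu).trans ?_
    have b1 := hC1 0 (2 * H) (by linarith)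
    calc _ ≤ (9 * C1 * (2 * H / (2 * C1))) ^ dg F := by
          gcongr
          field_simp
          linarith
      _ ≤ K0 * (Q * #𝓗) := by
          rw [mul_pow]
          exact mul_le_mul_of_nonneg_left (b1.trans a1) (by positivity)
      _ = _ := by rw [hK, mul_assoc]
  let 𝒥 : 𝓞 F → Finset ℕ := fun u => (range J).filter fun j : ℕ => u - (j : 𝓞 F) ∈ 𝓗
  obtain ⟨u, -, hu⟩ := exists_le_of_sum_le (s := bl (F := F) 0 (4 * H)) (f := fun _ => (J : ℝ))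
    (g := fun u => K * #(𝒥 u)) ⟨0, mem_bl.2 (by simp; linarith)⟩ (by
      rw [← mul_sum, sum_const, nsmul_eq_mul]
      refine (mul_le_mul_of_nonneg_right a2 (by positivity)).trans ?_
      rw [mul_assoc]
      gcongr
      rw [← Nat.cast_sum, ← Nat.cast_mul, Nat.cast_le]
      simp only [𝒥]
      rw [sum_congr rfl fun u _ => card_filter _ (range J), sum_comm]
      refine le_trans (by rw [card_range, smul_eq_mul, mul_comm])
        (card_nsmul_le_sum _ _ #𝓗 fun j hj => ?_)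
      rw [← card_filter]
      refine card_le_card_of_injOn (· + (j : 𝓞 F)) (fun y hy => ?_) fun _ _ _ _ e => add_right_cancel e
      simp only [coe_filter, Set.mem_ofPred_eq, add_sub_cancel_right]
      refine ⟨mem_bl.2 ?_, hy⟩
      have b1 := mem_bl.1 (mem_filter.1 hy).1
      have b2 : (j : ℝ) ≤ J := by exact_mod_cast (mem_range.1 hj).le
      rw [sub_zero] at b1 ⊢
      rw [map_add, map_natCast]
      linarith [norm_add_le (emb F y) j, norm_natCast_le (F := F) j])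
  obtain ⟨r, t, r1, r2, t1, t2, hr, ht⟩ := ker_one (filter_subset _ _) (by linarith) hu (by linarith)
  have a3 : ∀ d : ℕ, (∃ a ∈ 𝒥 u, a + d ∈ 𝒥 u) →
      ∀ i, ‖χ (m * d * RingOfIntegers.basis F i) - 1‖ ≤ 4 * Q / L := by
    rintro d ⟨a, ha, hd⟩ i
    have b : ∀ y ∈ 𝓗, ‖χ (m * y * RingOfIntegers.basis F i) - 1‖ ≤ 2 * Q / L := fun y hy =>
      ker_near h (by exact_mod_cast L0) (by linarith)
        (by simpa only [mul_right_comm] using (mem_filter.1 hy).2) i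
    have := chr_sub h (m * (u - a) * RingOfIntegers.basis F i)
      (m * (u - (a + d : ℕ)) * RingOfIntegers.basis F i)
    rw [show (m * (u - a) * RingOfIntegers.basis F i - m * (u - (a + d : ℕ)) *
      RingOfIntegers.basis F i : 𝓞 F) = m * d * RingOfIntegers.basis F i by push_cast; ring] at this
    refine this.trans ((add_le_add (b _ (mem_filter.1 ha).2) (b _ (mem_filter.1 hd).2)).trans_eq ?_)
    ring
  have t3 : (t : ℝ) ≤ 2 * H := le_trans (by exact_mod_cast t2) J2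
  refine ⟨m * r, Nat.mul_pos (Nat.pos_of_ne_zero hm) r1, ?_, fun y => ?_⟩
  · push_cast
    calc _ ≤ m * (3 * (K0 * Q)) := by gcongr
      _ ≤ m * (48 * (K0 * Q ^ 3)) * (C2 * K0) := by
          refine le_trans (by gcongr; norm_num) (le_mul_of_one_le_right (by positivity) ?_)
          exact one_le_mul_of_one_le_of_one_le c2 k2
      _ = _ := by ring
  refine (hC2 χ _ (48 * K ^ 2 * Q / (H * L)) h (fun i => ?_) y).trans ?_
  · have b1 := a3 r hr i
    have b2 := chr_low (h (m * r * RingOfIntegers.basis F i)) (t := t) (by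
      refine (mul_le_mul t3 b1 (norm_nonneg _) (by positivity)).trans ?_
      rw [← mul_div_assoc, div_le_one L0]
      nlinarith)
    have b3 := chr_pow (h (m * t * RingOfIntegers.basis F i)) r
    rw [← AddChar.map_nsmul_eq_pow, nsmul_eq_mul] at b2 b3
    rw [show (t * (m * r * RingOfIntegers.basis F i) : 𝓞 F) =
      r * (m * t * RingOfIntegers.basis F i) by ring] at b2
    have b4 := b3.trans (mul_le_mul r2 (a3 t ht i) (norm_nonneg _) (by positivity))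
    push_cast
    rw [← div_div, le_div_iff₀ L0, le_div_iff₀ (by positivity)]
    rw [← mul_div_assoc, le_div_iff₀ L0] at b4
    set η := ‖χ (m * r * RingOfIntegers.basis F i) - 1‖
    have η0 : 0 ≤ η := norm_nonneg _
    calc η * L * H ≤ η * L * (2 * K * t) := by gcongr; exact J1.trans t1
      _ = 2 * K * (t * η * L) := by ring
      _ ≤ 2 * K * (2 * (3 * K * (4 * Q))) := by
          refine mul_le_mul_of_nonneg_left ?_ (by positivity)
          nlinarith [mul_le_mul_of_nonneg_right b2 L0.le]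
      _ = _ := by ring
  · refine mul_le_mul_of_nonneg_right ?_ (norm_nonneg _)
    rw [← mul_div_assoc]
    refine div_le_div_of_nonneg_right ?_ (by positivity)
    calc C2 * (48 * K ^ 2 * Q) = 48 * K0 * (1 * C2 * K0) * Q ^ 3 := by rw [hK]; ring
      _ ≤ _ := by gcongr

end Pool.Agent.Lib.MP_7cad78_nt.R2
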