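import Pool.Agent.Lib.MP_7cad78_nt.R2.Lw
import Pool.Agent.Lib.MP_7cad78_nt.R2.Ker

/-! Finite Fourier analysis: Parseval, the mass of a sifted set on major arcs, an upper bound
sieve. -/

namespace Pool.Agent.Lib.MP_7cad78_nt.R2

open NumberField NumberField.mixedEmbedding IsDedekindDomain WithZero Finset NF Filter
open scoped Classical ComplexConjugate

variable {F : Type} [Field F] [NumberField F]

/-- the additive characters that are trivial on an ideal -/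
noncomputable def XI (I : Ideal (𝓞 F)) (h : I ≠ ⊥) : Finset (AddChar (𝓞 F) ℂ) :=
  haveI : Finite (𝓞 F ⧸ I) := Ideal.finiteQuotientOfFreeOfNeBot _ h
  haveI := Fintype.ofFinite (AddChar (𝓞 F ⧸ I) ℂ)
  univ.image fun χ : AddChar (𝓞 F ⧸ I) ℂ =>
    χ.compAddMonoidHom (Ideal.Quotient.mk I).toAddMonoidHom

lemma mem_XI {I : Ideal (𝓞 F)} {h : I ≠ ⊥} {χ : AddChar (𝓞 F) ℂ} :
    χ ∈ XI I h ↔ ∀ y ∈ I, χ y = 1 := by
  simp only [XI, mem_image, mem_univ, true_and]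
  constructor
  · rintro ⟨ψ, rfl⟩ y hy
    show ψ (Ideal.Quotient.mk I y) = 1
    rw [Ideal.Quotient.eq_zero_iff_mem.2 hy, AddChar.map_zero_eq_one]
  · intro H
    have key : ∀ a, χ (Ideal.Quotient.mk I a).out = χ a := fun a => by
      have := H _ (Ideal.Quotient.eq.1 (Ideal.Quotient.mk_out (Ideal.Quotient.mk I a)))
      rw [← sub_add_cancel (Ideal.Quotient.mk I a).out a, AddChar.map_add_eq_mul, this, one_mul]
    refine ⟨⟨fun q => χ q.out, by simpa using key 0, fun a b => ?_⟩, AddChar.ext _ _ key⟩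
    obtain ⟨a, rfl⟩ := Ideal.Quotient.mk_surjective a
    obtain ⟨b, rfl⟩ := Ideal.Quotient.mk_surjective b
    rw [← map_add, key, key, key, AddChar.map_add_eq_mul]

lemma XI_norm {I : Ideal (𝓞 F)} {h : I ≠ ⊥} {χ : AddChar (𝓞 F) ℂ} (hχ : χ ∈ XI I h) (y : 𝓞 F) :
    ‖χ y‖ = 1 := by
  have : Finite (𝓞 F ⧸ I) := Ideal.finiteQuotientOfFreeOfNeBot _ h
  obtain ⟨ψ, -, rfl⟩ := mem_image.1 hχ
  exact ψ.norm_apply _

lemma sum_XI (I : Ideal (𝓞 F)) (h : I ≠ ⊥) (y : 𝓞 F) :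
    ∑ χ ∈ XI I h, χ y = if y ∈ I then (Ideal.absNorm I : ℂ) else 0 := by
  have : Finite (𝓞 F ⧸ I) := Ideal.finiteQuotientOfFreeOfNeBot _ h
  have := Fintype.ofFinite (𝓞 F ⧸ I)
  rw [XI, sum_image fun a _ b _ e => AddChar.ext _ _ fun q => by
    obtain ⟨q, rfl⟩ := Ideal.Quotient.mk_surjective q
    exact DFunLike.congr_fun e q]
  have := AddChar.sum_apply_eq_ite (Ideal.Quotient.mk I y)
  simp only [Ideal.Quotient.eq_zero_iff_mem, ← Nat.card_eq_fintype_card] at this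
  rw [Ideal.absNorm_apply, Submodule.cardQuot_apply, ← this]
  exact sum_congr (by congr) fun _ _ => rfl

lemma card_XI (I : Ideal (𝓞 F)) (h : I ≠ ⊥) : #(XI I h) = Ideal.absNorm I := by
  simpa using sum_XI I h 0

variable {N : ℕ} [NeZero N]

lemma Xi_eq : Xi F N = XI (Ideal.span {(N : 𝓞 F)}) (by simpa using NeZero.ne N) := rfl

lemma mem_Xi {χ : AddChar (𝓞 F) ℂ} : χ ∈ Xi F N ↔ ∀ y, χ (N * y) = 1 := by
  rw [Xi_eq, mem_XI]
  exact ⟨fun h y => h _ (Ideal.mem_span_singleton.2 (dvd_mul_right _ _)),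
    fun h y hy => by obtain ⟨z, rfl⟩ := Ideal.mem_span_singleton.1 hy; exact h z⟩

lemma Xi_norm {χ : AddChar (𝓞 F) ℂ} (h : χ ∈ Xi F N) (y : 𝓞 F) : ‖χ y‖ = 1 :=
  XI_norm (Xi_eq (F := F) (N := N) ▸ h) y

lemma sum_Xi (y : 𝓞 F) :
    ∑ χ ∈ Xi F N, χ y = if (N : 𝓞 F) ∣ y then (N : ℂ) ^ dg F else 0 := by
  rw [Xi_eq, sum_XI, Ideal.absNorm_span_natCast, RingOfIntegers.rank]
  simp [Ideal.mem_span_singleton]

lemma pars {B : Finset (𝓞 F)} (hB : ∀ y ∈ B, ∀ y' ∈ B, (N : 𝓞 F) ∣ y - y' → y = y') (f : 𝓞 F → ℂ) :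
    ∑ χ ∈ Xi F N, ‖∑ y ∈ B, f y * χ y‖ ^ 2 = (N : ℝ) ^ dg F * ∑ y ∈ B, ‖f y‖ ^ 2 := by
  rw [← Complex.ofReal_inj]
  push_cast
  simp only [← Complex.mul_conj']
  calc _ = ∑ χ ∈ Xi F N, ∑ y ∈ B, ∑ y' ∈ B, f y * conj (f y') * χ (y - y') :=
        sum_congr rfl fun χ h => by
          rw [map_sum, sum_mul_sum]
          refine sum_congr rfl fun y _ => sum_congr rfl fun y' _ => ?_
          rw [map_mul, AddChar.map_sub_eq_div, div_eq_mul_inv, Complex.inv_eq_conj (Xi_norm h y')]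
          ring
    _ = _ := by
        rw [sum_comm, mul_sum]
        refine sum_congr rfl fun y hy => ?_
        rw [sum_comm, sum_eq_single_of_mem y hy fun y' h' ne => by
          rw [← mul_sum, sum_Xi, if_neg fun h => ne (hB y hy y' h' h).symm, mul_zero]]
        rw [← mul_sum, sum_Xi, sub_self, if_pos (dvd_zero _), mul_comm]

lemma pars_one {B : Finset (𝓞 F)} (hB : ∀ y ∈ B, ∀ y' ∈ B, (N : 𝓞 F) ∣ y - y' → y = y') :
    ∑ χ ∈ Xi F N, ‖∑ y ∈ B, χ y‖ ^ 2 = (N : ℝ) ^ dg F * #B := by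
  simpa using pars hB fun _ => 1

lemma pars_dual {B : Finset (𝓞 F)} (hB : ∀ y ∈ B, ∀ y' ∈ B, (N : 𝓞 F) ∣ y - y' → y = y')
    (c : AddChar (𝓞 F) ℂ → ℂ) : ∑ y ∈ B, ‖∑ χ ∈ Xi F N, c χ * χ y‖ ^ 2 ≤
      (N : ℝ) ^ dg F * ∑ χ ∈ Xi F N, ‖c χ‖ ^ 2 := by
  set G := fun y : 𝓞 F => ∑ χ ∈ Xi F N, c χ * χ y with hG
  set S := ∑ y ∈ B, ‖G y‖ ^ 2 with hS
  have S0 : 0 ≤ S := by positivity
  have h1 : (S : ℂ) = ∑ χ ∈ Xi F N, c χ * ∑ y ∈ B, conj (G y) * χ y := by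
    rw [hS]
    push_cast
    simp only [← Complex.mul_conj', mul_sum]
    rw [sum_comm]
    refine sum_congr rfl fun y _ => ?_
    conv_lhs => rw [hG]
    rw [sum_mul]
    exact sum_congr rfl fun _ _ => by ring
  have h2 : S ≤ ∑ χ ∈ Xi F N, ‖c χ‖ * ‖∑ y ∈ B, conj (G y) * χ y‖ := by
    rw [← Complex.norm_of_nonneg S0, h1]
    exact (norm_sum_le _ _).trans_eq (by simp only [norm_mul])
  have h3 := (pow_le_pow_left₀ S0 h2 2).trans (sum_mul_sq_le_sq_mul_sq _ _ _)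
  rw [pars hB] at h3
  simp only [Complex.norm_conj, ← hS] at h3
  rcases S0.eq_or_lt with h | h
  · rw [← h]; positivity
  · exact le_of_mul_le_mul_right (by nlinarith) h

lemma mass_sep {Q : Finset (Pr F)} {b b' : Q → AddChar (𝓞 F) ℂ} {a : 𝓞 F}
    (hb : ∀ 𝔭, ∀ y ∈ 𝔭.1.asIdeal, b 𝔭 y = 1) (hb' : ∀ 𝔭, ∀ y ∈ 𝔭.1.asIdeal, b' 𝔭 y = 1)
    (ha : ∀ 𝔭 ∈ Q, a ∉ 𝔭.asIdeal) (h : ∀ y, ∏ 𝔭, b 𝔭 (a * y) = ∏ 𝔭, b' 𝔭 (a * y)) : b = b' := by
  funext 𝔮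
  have : ∀ 𝔭 : Q, ∃ e, e ∉ 𝔮.1.asIdeal ∧ (𝔭 ≠ 𝔮 → e ∈ 𝔭.1.asIdeal) := fun 𝔭 => by
    by_cases e : 𝔭 = 𝔮
    · exact ⟨a, ha _ 𝔮.2, fun h => absurd e h⟩
    · by_contra! hc
      refine e (Subtype.ext (HeightOneSpectrum.ext (𝔭.1.isMaximal.eq_of_le 𝔮.1.isPrime.ne_top
        fun y hy => ?_)))
      by_contra h'
      exact (hc y h').2 hy
  choose e e1 e2 using this
  have h1 : a * ∏ 𝔭, e 𝔭 ∉ 𝔮.1.asIdeal := fun h' =>
    (𝔮.1.isPrime.mem_or_mem h').elim (ha _ 𝔮.2) fun h' => by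
      have := 𝔮.1.isPrime
      obtain ⟨𝔭, -, h'⟩ := Ideal.IsPrime.prod_mem_iff.1 h'
      exact e1 𝔭 h'
  obtain ⟨u, c, hc, e3⟩ := 𝔮.1.isMaximal.exists_inv h1
  refine AddChar.ext _ _ fun y => ?_
  have key : ∀ b : Q → AddChar (𝓞 F) ℂ, (∀ 𝔭, ∀ y ∈ 𝔭.1.asIdeal, b 𝔭 y = 1) →
      ∏ 𝔭, b 𝔭 (a * ((∏ 𝔭, e 𝔭) * (u * y))) = b 𝔮 y := fun b hb => by
    rw [Fintype.prod_eq_single 𝔮 fun 𝔭 ne => hb _ _ (Ideal.mul_mem_left _ _ (Ideal.mul_mem_right _ _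
      (Ideal.mem_of_dvd _ (dvd_prod_of_mem e (mem_univ 𝔭)) (e2 𝔭 ne))))]
    conv_rhs => rw [← one_mul y, ← e3, add_mul, AddChar.map_add_eq_mul,
      hb 𝔮 _ (Ideal.mul_mem_right _ _ hc), mul_one]
    congr 1
    ring
  rw [← key b hb, h, key b' hb']

theorem mass (F : Type) [Field F] [NumberField F] : ∃ c : ℝ, 0 < c ∧ ∀ (N W : ℕ) [NeZero N]
    (R δ Z : ℝ) (Y : Finset (𝓞 F)), W ≠ 0 → 2 ≤ Z → 0 ≤ δ → (∀ k : ℕ, k ≠ 0 → (k : ℝ) ≤ Z → k ∣ N) →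
    (∀ k : ℕ, k ≠ 0 → (k : ℝ) ≤ R → k ∣ W) → Sift W Z Y → R * δ * Z ^ 2 ≤ c →
    (∀ y ∈ Y, ∀ y' ∈ Y, (N : 𝓞 F) ∣ y - y' → y = y') →
    c * Real.log Z * ∑ χ ∈ Xi F N with Arc R δ χ, ‖∑ y ∈ Y, χ y‖ ^ 2 ≤
      Pw F W * (N : ℝ) ^ dg F * #Y := by
  obtain ⟨c1, c0, hc⟩ := L_low F
  obtain ⟨C, C1, hb, hC⟩ := chr_all F
  refine ⟨min c1 (1 / (2 * C)), by positivity, fun N W _ R δ Z Y hW hZ hδ hN hR hS hc' hY => ?_⟩
  set Q := {𝔭 ∈ prs F N | (W : 𝓞 F) ∉ 𝔭.asIdeal ∧ (nm 𝔭 : ℝ) ≤ Z}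
  have h1 := hc W Z Q hW hZ fun 𝔭 a b => mem_filter.2 ⟨(mem_prs (NeZero.ne N)).2
    (Ideal.mem_of_dvd _ (Nat.cast_dvd_cast (hN _ (by have := two_le_nm 𝔭; omega) b))
      (Ideal.absNorm_mem _)), a, b⟩
  set 𝒮 := {S ∈ Q.powerset | ∏ 𝔭 ∈ S, (nm 𝔭 : ℝ) ≤ Z}
  choose cc hcc using fun 𝔭 : Q => hS 𝔭 (mem_filter.1 𝔭.2).2.1 (mem_filter.1 𝔭.2).2.2
  let t : Finset (Pr F) → Q → Finset (AddChar (𝓞 F) ℂ) := fun S 𝔭 =>
    if 𝔭.1 ∈ S then (XI 𝔭.1.asIdeal 𝔭.1.ne_bot).erase 1 else {1}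
  have one : ∀ 𝔭 : Pr F, 1 ∈ XI 𝔭.asIdeal 𝔭.ne_bot := fun _ => mem_XI.2 fun _ _ => rfl
  have t1 : ∀ S, ∀ b ∈ Fintype.piFinset (t S), ∀ 𝔭, b 𝔭 ∈ XI 𝔭.1.asIdeal 𝔭.1.ne_bot ∧
      (𝔭.1 ∈ S ↔ b 𝔭 ≠ 1) := fun S b h 𝔭 => by
    have := Fintype.mem_piFinset.1 h 𝔭
    simp only [t] at this
    split_ifs at this with h'
    · exact ⟨(mem_erase.1 this).2, iff_of_true h' (mem_erase.1 this).1⟩
    · rw [mem_singleton.1 this]; exact ⟨one _, iff_of_false h' fun h => h rfl⟩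
  have t2 : ∀ S, ∀ b ∈ Fintype.piFinset (t S), ∀ y, ‖(∏ 𝔭, b 𝔭) y‖ = 1 := fun S b h y => by
    rw [AddChar.prod_apply, norm_prod]
    exact prod_eq_one fun 𝔭 _ => XI_norm (t1 S b h 𝔭).1 y
  have a1 : ∀ χ : AddChar (𝓞 F) ℂ, ∀ S ∈ 𝒮, (∏ 𝔭 ∈ S, 1 / ((nm 𝔭 : ℝ) - 1)) * ‖∑ y ∈ Y, χ y‖ ^ 2 ≤
      ∑ b ∈ Fintype.piFinset (t S), ‖∑ y ∈ Y, (χ * ∏ 𝔭, b 𝔭) y‖ ^ 2 := fun χ S hS => by
    have sQ := mem_powerset.1 (mem_filter.1 hS).1
    have b1 : ∀ y ∈ Y, ∑ b ∈ Fintype.piFinset (t S), ∏ 𝔭, b 𝔭 (y - cc 𝔭) =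
        ∏ 𝔭 : Q, if 𝔭.1 ∈ S then -1 else 1 := fun y hy => by
      rw [← prod_univ_sum (t S) fun 𝔭 β => β (y - cc 𝔭)]
      refine prod_congr rfl fun 𝔭 _ => ?_
      simp only [t]
      split_ifs
      · rw [sum_erase_eq_sub (one _), sum_XI, if_neg (hcc 𝔭 y hy)]; simp
      · simp
    have b2 : (∏ 𝔭 : Q, if 𝔭.1 ∈ S then (-1 : ℂ) else 1) * ∑ y ∈ Y, χ y =
        ∑ b ∈ Fintype.piFinset (t S), (∏ 𝔭, b 𝔭 (-cc 𝔭)) * ∑ y ∈ Y, (χ * ∏ 𝔭, b 𝔭) y := by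
      simp only [mul_sum]
      rw [sum_comm]
      refine sum_congr rfl fun y hy => ?_
      rw [← b1 y hy, sum_mul]
      refine sum_congr rfl fun b _ => ?_
      simp only [sub_eq_add_neg, AddChar.map_add_eq_mul, prod_mul_distrib, AddChar.mul_apply,
        AddChar.prod_apply]
      ring
    have b3 : ‖∑ y ∈ Y, χ y‖ ≤ ∑ b ∈ Fintype.piFinset (t S), ‖∑ y ∈ Y, (χ * ∏ 𝔭, b 𝔭) y‖ := by
      have := congrArg norm b2
      rw [norm_mul, norm_prod, prod_eq_one fun _ _ => by split_ifs <;> simp, one_mul] at this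
      refine this.trans_le ((norm_sum_le _ _).trans_eq (sum_congr rfl fun b h => ?_))
      rw [norm_mul, norm_prod, prod_eq_one fun 𝔭 _ => XI_norm (t1 S b h 𝔭).1 _, one_mul]
    have b4 : (#(Fintype.piFinset (t S)) : ℝ) = ∏ 𝔭 ∈ S, ((nm 𝔭 : ℝ) - 1) := by
      rw [Fintype.card_piFinset, Nat.cast_prod, ← inter_eq_right.2 sQ, ← prod_ite_mem,
        ← prod_coe_sort Q]
      refine prod_congr rfl fun 𝔭 _ => ?_
      simp only [t, inter_eq_right.2 sQ]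
      split_ifs
      · rw [card_erase_of_mem (one _), card_XI, Nat.cast_sub (one_le_two.trans (two_le_nm _))]; simp
      · simp
    have b5 := (pow_le_pow_left₀ (norm_nonneg _) b3 2).trans sq_sum_le_card_mul_sum_sq
    rw [b4] at b5
    rwa [prod_div_distrib, prod_const_one, one_div, inv_mul_le_iff₀ (prod_pos fun 𝔭 _ =>
      sub_pos.2 (by exact_mod_cast two_le_nm 𝔭))]
  set A := {χ ∈ Xi F N | Arc R δ χ}
  have a2 : Set.InjOn (fun z : AddChar (𝓞 F) ℂ × (Σ _ : Finset (Pr F), Q → AddChar (𝓞 F) ℂ) =>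
      z.1 * ∏ 𝔭, z.2.2 𝔭) ↑(A ×ˢ 𝒮.sigma fun S => Fintype.piFinset (t S)) := by
    rintro ⟨χ, S, b⟩ h ⟨χ', S', b'⟩ h' e
    simp only [coe_product, Set.mem_prod, mem_coe, mem_sigma, A, 𝒮, mem_filter, mem_powerset] at h h' e
    obtain ⟨⟨x1, r, r1, r2, r3⟩, ⟨s1, s2⟩, b1⟩ := h
    obtain ⟨⟨x1', r', r1', r2', r3'⟩, ⟨s1', s2'⟩, b1'⟩ := h'
    set γ := (∏ 𝔭, b 𝔭) * (∏ 𝔭, b' 𝔭)⁻¹ with hγ
    have g1 : γ = χ' * χ⁻¹ := by
      rw [hγ, mul_inv_eq_iff_eq_mul, mul_right_comm, ← e, mul_comm χ, mul_inv_cancel_right]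
    have g2 : ∀ y, ‖γ y‖ = 1 := fun y => by
      rw [g1, AddChar.mul_apply, AddChar.inv_apply, norm_mul, Xi_norm x1, Xi_norm x1', one_mul]
    set K := (∏ 𝔭 ∈ S, nm 𝔭) * ∏ 𝔭 ∈ S', nm 𝔭 with hK
    have K0 : 0 < K := Nat.mul_pos (prod_pos fun 𝔭 _ => two_pos.trans_le (two_le_nm 𝔭))
      (prod_pos fun 𝔭 _ => two_pos.trans_le (two_le_nm 𝔭))
    have K1 : (K : ℝ) ≤ Z ^ 2 := by
      rw [hK, sq]
      push_cast
      exact mul_le_mul s2 s2' (prod_nonneg fun _ _ => Nat.cast_nonneg _) (by linarith)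
    have g3 : ∀ S, ∀ b ∈ Fintype.piFinset (t S), (∏ 𝔭 ∈ S, nm 𝔭) ∣ K → ∀ y,
        (∏ 𝔭, b 𝔭) (K * y) = 1 := fun S b h d y => by
      rw [AddChar.prod_apply]
      refine prod_eq_one fun 𝔭 _ => ?_
      by_cases h' : 𝔭.1 ∈ S
      · exact mem_XI.1 (t1 S b h 𝔭).1 _ (Ideal.mul_mem_right _ _ (Ideal.mem_of_dvd _
          (Nat.cast_dvd_cast ((dvd_prod_of_mem _ h').trans d)) (Ideal.absNorm_mem _)))
      · rw [not_not.1 (mt (t1 S b h 𝔭).2.2 h')]; rfl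
    have g4 : ∀ i, ‖γ ((r * r' : ℕ) * RingOfIntegers.basis F i) - 1‖ ≤ 0 := fun i => by
      set w := RingOfIntegers.basis F i
      have q : ∀ r : ℕ, (r : ℝ) ≤ R → δ * ‖emb F (r * w)‖ ≤ δ * (R * C) := fun r h => by
        rw [map_mul, map_natCast, norm_natCast_mul]
        exact mul_le_mul_of_nonneg_left (mul_le_mul h (hb i) (norm_nonneg _)
          ((Nat.cast_nonneg r).trans h)) hδ
      have q1 : ‖γ ((r * r' : ℕ) * w) - 1‖ ≤ 2 * (δ * (R * C)) := by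
        have p1 := (r3' (r * w)).trans (q r r2)
        have p2 := (r3 (r' * w)).trans (q r' r2')
        rw [← chr_neg (Xi_norm x1)] at p2
        rw [g1, AddChar.mul_apply, AddChar.inv_apply, Nat.cast_mul]
        rw [← mul_assoc, mul_comm (r' : 𝓞 F)] at p1
        rw [← mul_assoc] at p2
        set u := χ' (r * r' * w)
        set v := χ (-(r * r' * w))
        rw [show u * v - 1 = (u - 1) + u * (v - 1) by ring]
        refine (norm_add_le _ _).trans ?_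
        rw [norm_mul, Xi_norm x1']
        linarith
      have q2 := chr_low (g2 ((r * r' : ℕ) * w)) (t := K) (by
        refine (mul_le_mul K1 q1 (norm_nonneg _) (sq_nonneg _)).trans ?_
        have := hc'.trans (min_le_right _ _)
        rw [le_div_iff₀ (by positivity)] at this
        linarith)
      have q3 : γ (K * ((r * r' : ℕ) * w)) = 1 := by
        rw [hγ, AddChar.mul_apply, AddChar.inv_apply, ← mul_neg, g3 S b b1 (dvd_mul_right _ _),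
          g3 S' b' b1' (dvd_mul_left _ _), one_mul]
      rw [← AddChar.map_nsmul_eq_pow, nsmul_eq_mul, q3, sub_self, norm_zero, mul_zero] at q2
      exact nonpos_of_mul_nonpos_right q2 (by exact_mod_cast K0)
    obtain rfl : b = b' := mass_sep (a := (r * r' : ℕ)) (fun 𝔭 => mem_XI.1 (t1 S b b1 𝔭).1)
      (fun 𝔭 => mem_XI.1 (t1 S' b' b1' 𝔭).1) (fun 𝔭 h h' => by
        rw [Nat.cast_mul] at h'
        exact (mem_filter.1 h).2.1 ((𝔭.isPrime.mem_or_mem h').elim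
          (Ideal.mem_of_dvd _ (Nat.cast_dvd_cast (hR r (by omega) r2)))
          (Ideal.mem_of_dvd _ (Nat.cast_dvd_cast (hR r' (by omega) r2'))))) fun y => by
        have := hC γ _ 0 g2 g4 y
        rw [mul_zero, zero_mul, norm_le_zero_iff, sub_eq_zero, hγ, AddChar.mul_apply,
          AddChar.inv_apply', mul_inv_eq_one₀ (norm_ne_zero_iff.1 (by rw [t2 S' b' b1']; simp))] at this
        simpa only [AddChar.prod_apply] using this
    obtain rfl : S = S' := by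
      ext 𝔭
      exact ⟨fun h => (t1 S' b b1' ⟨𝔭, s1 h⟩).2.2 ((t1 S b b1 ⟨𝔭, s1 h⟩).2.1 h),
        fun h => (t1 S b b1 ⟨𝔭, s1' h⟩).2.2 ((t1 S' b b1' ⟨𝔭, s1' h⟩).2.1 h)⟩
    rw [mul_right_cancel e]
  have a3 : (∑ S ∈ 𝒮, ∏ 𝔭 ∈ S, 1 / ((nm 𝔭 : ℝ) - 1)) * ∑ χ ∈ A, ‖∑ y ∈ Y, χ y‖ ^ 2 ≤
      (N : ℝ) ^ dg F * #Y := by
    rw [mul_sum, ← pars_one hY]
    refine (sum_le_sum fun χ _ => (sum_mul _ _ _).trans_le (sum_le_sum (a1 χ))).trans ?_
    rw [sum_congr rfl fun χ _ => sum_sigma' 𝒮 _ _, ← sum_product' A _ fun χ (z : Σ _ : Finset (Pr F), Q → AddChar (𝓞 F) ℂ) =>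
      ‖∑ y ∈ Y, (χ * ∏ 𝔭, z.2 𝔭) y‖ ^ 2, ← sum_image (f := fun χ : AddChar (𝓞 F) ℂ =>
      ‖∑ y ∈ Y, χ y‖ ^ 2) a2]
    refine sum_le_sum_of_subset_of_nonneg (fun ψ h => ?_) fun _ _ _ => sq_nonneg _
    obtain ⟨⟨χ, S, b⟩, h', rfl⟩ := mem_image.1 h
    obtain ⟨h1, h2⟩ := mem_product.1 h'
    refine mem_Xi.2 fun y => ?_
    rw [AddChar.mul_apply, mem_Xi.1 (mem_filter.1 h1).1, AddChar.prod_apply, one_mul]
    exact prod_eq_one fun 𝔭 _ => mem_XI.1 (t1 S b (mem_sigma.1 h2).2 𝔭).1 _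
      (Ideal.mul_mem_right _ _ ((mem_prs (NeZero.ne N)).1 (mem_filter.1 𝔭.2).1))
  have a4 : 0 ≤ ∑ χ ∈ A, ‖∑ y ∈ Y, χ y‖ ^ 2 := sum_nonneg fun _ _ => sq_nonneg _
  refine (mul_le_mul_of_nonneg_right ((mul_le_mul_of_nonneg_right (min_le_left _ _)
    (Real.log_nonneg (by linarith))).trans h1) a4).trans ?_
  rw [mul_assoc, mul_assoc]
  exact mul_le_mul_of_nonneg_left a3 (zero_le_one.trans (one_le_Pw W))

/-- the character with frequency `j / N` -/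
noncomputable def chj (N : ℕ) (j : Ix F → ℕ) : AddChar (𝓞 F) ℂ where
  toFun y := Complex.exp (2 * Real.pi * Complex.I / N) ^
    (∑ i, j i * (RingOfIntegers.basis F).repr y i : ℤ)
  map_zero_eq_one' := by simp
  map_add_eq_mul' x y := by simp [mul_add, sum_add_distrib, zpow_add₀ (Complex.exp_ne_zero _)]

omit [NeZero N] in
lemma chj_basis (j : Ix F → ℕ) (k : Ix F) :
    chj N j (RingOfIntegers.basis F k) = Complex.exp (2 * Real.pi * Complex.I / N) ^ j k := by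
  simp [chj, Finsupp.single_apply]

lemma chj_mem (j : Ix F → ℕ) : chj N j ∈ Xi F N := mem_Xi.2 fun y => by
  rw [← nsmul_eq_mul, AddChar.map_nsmul_eq_pow]
  show ((_ : ℂ) ^ (_ : ℤ)) ^ N = _
  rw [← zpow_natCast, ← zpow_mul, mul_comm _ (N : ℤ), zpow_mul, zpow_natCast,
    (Complex.isPrimitiveRoot_exp N (NeZero.ne N)).pow_eq_one, one_zpow]

lemma chj_near (j : Ix F → ℕ) (k : Ix F) :
    ‖chj N j (RingOfIntegers.basis F k) - 1‖ ≤ j k * (8 / N) := by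
  have N0 : (0 : ℝ) < N := by exact_mod_cast NeZero.pos N
  have e : 2 * Real.pi * Complex.I / N = Complex.I * (2 * Real.pi / N : ℝ) := by push_cast; ring
  rw [chj_basis, e]
  refine (chr_pow (Complex.norm_exp_I_mul_ofReal _) _).trans ?_
  gcongr
  refine Real.norm_exp_I_mul_ofReal_sub_one_le.trans ?_
  rw [Real.norm_of_nonneg (by positivity)]
  gcongr
  linarith [Real.pi_le_four]

lemma fac_dvd {t : ℝ} (k : ℕ) (h : k ≠ 0) (h' : (k : ℝ) ≤ t) : k ∣ ⌈t⌉₊.factorial :=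
  Nat.dvd_factorial (Nat.pos_of_ne_zero h) (by exact_mod_cast h'.trans (Nat.le_ceil t))

lemma le_fac (t : ℝ) : t ≤ ⌈t⌉₊.factorial :=
  (Nat.le_ceil t).trans (by exact_mod_cast Nat.self_le_factorial _)

omit [NeZero N] in
lemma sep_of_ball {x : mixedSpace F} {r : ℝ} (h : 2 * r < N) {y y' : 𝓞 F} (h1 : ‖emb F y - x‖ ≤ r)
    (h2 : ‖emb F y' - x‖ ≤ r) (d : (N : 𝓞 F) ∣ y - y') : y = y' := by
  by_contra ne
  have a := le_norm_of_dvd d (sub_ne_zero.2 ne)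
  have b := norm_sub_le_norm_sub_add_norm_sub (emb F y) x (emb F y')
  rw [norm_sub_rev x] at b
  rw [map_sub] at a
  linarith

lemma Sift.mono {W W' : ℕ} {Z Z' : ℝ} {Y Y' : Finset (𝓞 F)} (h : Sift W Z Y) (hW : W ∣ W')
    (hZ : Z' ≤ Z) (hY : Y' ⊆ Y) : Sift W' Z' Y' := fun 𝔭 a b => by
  obtain ⟨c, hc⟩ := h 𝔭 (fun h => a (Ideal.mem_of_dvd _ (Nat.cast_dvd_cast hW) h)) (b.trans hZ)
  exact ⟨c, fun y hy => hc y (hY hy)⟩

theorem bt8 (F : Type) [Field F] [NumberField F] : ∃ C : ℝ, 0 < C ∧ ∀ (W : ℕ) (N Z : ℝ)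
    (x : mixedSpace F) (Y : Finset (𝓞 F)), W ≠ 0 → 2 ≤ N → 0 ≤ Z → N ≤ Z ^ 8 →
    (∀ y ∈ Y, ‖emb F y - x‖ ≤ N) → Sift W Z Y → #Y * Real.log N ≤ C * Pw F W * N ^ dg F := by
  obtain ⟨c, c0, hc⟩ := mass F
  obtain ⟨C, C1, -, hC⟩ := chr_all F
  refine ⟨max (3 ^ dg F * (8 * max 2 (1 / c))) (32 / c * (64 * C) ^ dg F), by positivity,
    fun W N Z x Y hW hN hZ hNZ hY hS => ?_⟩
  obtain ⟨y, y0, rfl⟩ : ∃ y : ℝ, 0 ≤ y ∧ y ^ 8 = N :=
    ⟨_, by positivity, Real.rpow_inv_natCast_pow (by linarith) (by norm_num)⟩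
  have y1 : 1 ≤ y := (one_le_pow_iff_of_nonneg y0 (by norm_num : 8 ≠ 0)).1 (by linarith)
  have yZ : y ≤ Z := (pow_le_pow_iff_left₀ y0 hZ (by norm_num)).1 hNZ
  have P1 := one_le_Pw (F := F) W
  have l0 := Real.log_nonneg y1
  rw [Real.log_pow]
  set N := y ^ 8 with hN'
  rcases le_total y (max 2 (1 / c)) with h | h
  · calc _ ≤ (3 * N) ^ dg F * (8 * max 2 (1 / c)) := by
          gcongr
          · exact (bl_le x (by linarith) Y hY).trans (by gcongr; linarith)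
          · exact le_rfl
          · exact (Real.log_le_self y0).trans h
      _ = 3 ^ dg F * (8 * max 2 (1 / c)) * 1 * N ^ dg F := by rw [mul_pow]; ring
      _ ≤ _ := by gcongr; exact le_max_left _ _
  rcases Y.eq_empty_or_nonempty with rfl | ⟨u, hu⟩
  · simp only [card_empty, Nat.cast_zero, zero_mul]; positivity
  obtain ⟨y2, y3⟩ := max_le_iff.1 h
  set N' := ⌈64 * C * N⌉₊.factorial
  have : NeZero N' := ⟨Nat.factorial_ne_zero _⟩
  have n1 : 64 * C * N ≤ N' := le_fac _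
  have n2 : N ≤ C * N := le_mul_of_one_le_left (by linarith) C1
  have yN : y ≤ N := le_self_pow₀ y1 (by norm_num)
  have h1 := hc N' W 1 (1 / (4 * N)) y Y hW y2 (by positivity)
    (fun k a b => fac_dvd k a (by linarith))
    (fun k a b => by rw [show k = 1 from le_antisymm (by exact_mod_cast b) (Nat.pos_of_ne_zero a)]; simp)
    (hS.mono dvd_rfl yZ subset_rfl) (by
      rw [div_le_iff₀ c0] at y3
      rw [one_mul, one_div, inv_mul_le_iff₀ (by positivity)]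
      have : y ^ 3 ≤ N := pow_le_pow_right₀ y1 (by norm_num)
      nlinarith [mul_le_mul_of_nonneg_left y3 (sq_nonneg y), mul_le_mul_of_nonneg_right this c0.le])
    fun a ha b hb => sep_of_ball (by linarith) (hY a ha) (hY b hb)
  set J := ⌊N' / (32 * C * N)⌋₊
  have J1 : (J : ℝ) * (32 * C * N) ≤ N' :=
    (le_div_iff₀ (by positivity)).1 (Nat.floor_le (by positivity))
  have J2 : N' ≤ 64 * C * N * J := by
    have := (div_lt_iff₀ (by positivity)).1 (Nat.lt_floor_add_one (N' / (32 * C * N) : ℝ))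
    linarith
  have J3 : J ≤ N' := by
    exact_mod_cast (le_mul_of_one_le_right (Nat.cast_nonneg J) (by linarith)).trans J1
  have N0 : (0 : ℝ) < N' := by linarith
  have a1 : ∀ j ∈ Fintype.piFinset fun _ : Ix F => range J, ∀ z,
      ‖chj N' j (1 * z) - 1‖ ≤ 1 / (4 * N) * ‖emb F z‖ := fun j hj z => by
    refine (hC _ 1 (J * (8 / N')) (Xi_norm (chj_mem j)) (fun i => ?_) z).trans ?_
    · rw [one_mul]
      refine (chj_near j i).trans ?_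
      gcongr
      exact (mem_range.1 (Fintype.mem_piFinset.1 hj i)).le
    · gcongr
      rw [le_div_iff₀ (by positivity), ← mul_div_assoc, ← mul_div_assoc, div_mul_eq_mul_div,
        div_le_one N0]
      linarith
  have a2 : (J : ℝ) ^ dg F * (#Y / 2) ^ 2 ≤
      ∑ χ ∈ Xi F N' with Arc 1 (1 / (4 * N)) χ, ‖∑ y ∈ Y, χ y‖ ^ 2 := by
    refine le_trans ?_ (sum_le_sum_of_subset_of_nonneg
      (s := (Fintype.piFinset fun _ : Ix F => range J).image (chj N')) (fun χ h => ?_)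
      fun _ _ _ => sq_nonneg _)
    · rw [sum_image fun j hj j' hj' e => funext fun k =>
        (Complex.isPrimitiveRoot_exp N' (NeZero.ne _)).pow_inj
          ((mem_range.1 (Fintype.mem_piFinset.1 hj k)).trans_le J3)
          ((mem_range.1 (Fintype.mem_piFinset.1 hj' k)).trans_le J3)
          (by rw [← chj_basis, ← chj_basis, e])]
      refine le_trans (by simp [card_Ix]) (card_nsmul_le_sum _ _ ((#Y / 2 : ℝ) ^ 2) fun j hj => ?_)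
      refine pow_le_pow_left₀ (by positivity) ?_ 2
      have b1 : ‖∑ z ∈ Y, chj N' j z‖ = ‖∑ z ∈ Y, chj N' j (z - u)‖ := by
        simp only [sub_eq_add_neg, AddChar.map_add_eq_mul, ← sum_mul, norm_mul, Xi_norm (chj_mem j),
          mul_one]
      have b2 : ‖∑ z ∈ Y, (chj N' j (z - u) - 1)‖ ≤ #Y • (1 / 2 : ℝ) :=
        (norm_sum_le _ _).trans (sum_le_card_nsmul _ _ _ fun z hz => by
          have := a1 j hj (z - u)
          rw [one_mul, map_sub (emb F)] at this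
          have d := norm_sub_le_norm_sub_add_norm_sub (emb F z) x (emb F u)
          rw [norm_sub_rev x] at d
          refine this.trans ?_
          rw [one_div, inv_mul_le_iff₀ (by positivity)]
          linarith [hY z hz, hY u hu])
      have b3 := norm_sub_le (∑ z ∈ Y, chj N' j (z - u)) (∑ z ∈ Y, (chj N' j (z - u) - 1))
      rw [← sum_sub_distrib] at b3
      simp only [sub_sub_cancel, sum_const, nsmul_eq_mul, mul_one, Complex.norm_natCast] at b2 b3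
      linarith
    · obtain ⟨j, hj, rfl⟩ := mem_image.1 h
      exact mem_filter.2 ⟨chj_mem j, 1, le_rfl, by simp, by simpa only [Nat.cast_one] using a1 j hj⟩
  have Y0 : (0 : ℝ) < #Y := by exact_mod_cast card_pos.2 ⟨u, hu⟩
  have J0 : (0 : ℝ) < J := pos_of_mul_pos_right (N0.trans_le J2) (by positivity)
  have a3 := ((mul_le_mul_of_nonneg_left a2 (by positivity)).trans h1).trans
    (show _ ≤ Pw F W * (64 * C * N * J) ^ dg F * #Y by gcongr)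
  have a4 : c / 4 * (#Y * Real.log y) ≤ Pw F W * ((64 * C) ^ dg F * N ^ dg F) := by
    refine le_of_mul_le_mul_right ?_ (show 0 < (J : ℝ) ^ dg F * #Y by positivity)
    rw [mul_pow, mul_pow] at a3
    linarith
  calc _ = 32 / c * (c / 4 * (#Y * Real.log y)) := by field_simp; push_cast; ring
    _ ≤ 32 / c * (64 * C) ^ dg F * Pw F W * N ^ dg F :=
        (mul_le_mul_of_nonneg_left a4 (by positivity)).trans_eq (by ring)
    _ ≤ _ := by gcongr; exact le_max_right _ _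

theorem bt (F : Type) [Field F] [NumberField F] : ∃ C : ℝ, 0 < C ∧ ∀ (W : ℕ) (N Z : ℝ)
    (x : mixedSpace F) (Y : Finset (𝓞 F)), W ≠ 0 → 2 ≤ N → 0 ≤ Z → N ≤ Z ^ 4 →
    (∀ y ∈ Y, ‖emb F y - x‖ ≤ N) → Sift W Z Y → #Y * Real.log N ≤ C * Pw F W * N ^ dg F := by
  obtain ⟨C, C0, h⟩ := bt8 F
  refine ⟨C, C0, fun W N Z x Y a b c d => h W N Z x Y a b c (d.trans ?_)⟩
  rw [show Z ^ 8 = (Z ^ 4) ^ 2 by ring]
  exact le_self_pow₀ (by linarith) two_ne_zero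

end Pool.Agent.Lib.MP_7cad78_nt.R2
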