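import Pool.Agent.Lib.MP_7cad78_nt.R2.Cube

/-! Points of principal ideals in balls. -/

namespace Pool.Agent.Lib.MP_7cad78_nt.R2

open NumberField NumberField.mixedEmbedding IsDedekindDomain Finset NF
open scoped Classical

variable {F : Type} [Field F] [NumberField F]

lemma nz_pos {γ : 𝓞 F} (h : γ ≠ 0) : (0 : ℝ) < nz γ := by
  have : nz γ ≠ 0 := by simpa [nz] using h
  positivity

lemma nz_mul (a b : 𝓞 F) : nz (a * b) = nz a * nz b := by
  rw [nz, ← Ideal.span_singleton_mul_span_singleton, map_mul]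

lemma nz_pow (a : 𝓞 F) (k : ℕ) : nz (a ^ k) = nz a ^ k := by
  rw [nz, ← Ideal.span_singleton_pow, map_pow]

lemma nz_nat (m : ℕ) : nz (m : 𝓞 F) = m ^ dg F := by
  rw [nz, Ideal.absNorm_span_natCast, RingOfIntegers.rank]

lemma nz_le (γ : 𝓞 F) : (nz γ : ℝ) ≤ ‖emb F γ‖ ^ dg F := nm_emb γ ▸ nm_le _

lemma lat_up {γ : 𝓞 F} (hγ : γ ≠ 0) {L : ℕ} (hL : L ≠ 0) (s : Finset (𝓞 F)) {x : mixedSpace F}
    {r : ℝ} (hr : ‖emb F γ‖ * L ≤ r) (h : ∀ a ∈ s, (L : 𝓞 F) ∣ a ∧ ‖emb F (γ * a) - x‖ ≤ r) :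
    #s * (nz γ * (L : ℝ) ^ dg F) ≤ (3 * r) ^ dg F := by
  have n0 := (dg_pos F).ne'
  have hg : γ * (L : 𝓞 F) ≠ 0 := mul_ne_zero hγ (by exact_mod_cast hL)
  have N0 := nz_pos hg
  obtain ⟨ν, ν0, hν⟩ : ∃ ν : ℝ, 0 < ν ∧ ν ^ dg F = nz (γ * (L : 𝓞 F)) :=
    ⟨_, Real.rpow_pos_of_pos N0 _, Real.rpow_inv_natCast_pow N0.le n0⟩
  have νr : ν ≤ r := by
    refine le_trans ((pow_le_pow_iff_left₀ ν0.le (norm_nonneg _) n0).1 (hν.trans_le (nz_le _))) ?_
    rwa [map_mul, map_natCast, mul_comm, norm_natCast_mul, mul_comm]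
  have := card_le (s.image (γ * ·)) (x := x) ν0 (ν0.le.trans νr) (by
    intro u hu
    obtain ⟨a, ha, rfl⟩ := mem_image.1 hu
    exact (h a ha).2) (by
    intro u hu w hw ne
    obtain ⟨a, ha, rfl⟩ := mem_image.1 hu
    obtain ⟨b, hb, rfl⟩ := mem_image.1 hw
    refine (pow_le_pow_iff_left₀ ν0.le (norm_nonneg _) n0).1 (hν.trans_le
      (absNorm_le (Ideal.mem_span_singleton.2 ?_) (sub_ne_zero.2 ne)))
    rw [← mul_sub]
    exact mul_dvd_mul_left _ (dvd_sub (h a ha).1 (h b hb).1))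
  rw [card_image_of_injective _ (mul_right_injective₀ hγ)] at this
  have e : (nz γ : ℝ) * (L : ℝ) ^ dg F = ν ^ dg F := by
    rw [hν, nz_mul, nz_nat]; push_cast; ring
  rw [e]
  refine (mul_le_mul_of_nonneg_right this (by positivity)).trans ?_
  rw [← mul_pow]
  refine pow_le_pow_left₀ (by have := ν0.le.trans νr; positivity) ?_ _
  rw [add_mul, div_mul_cancel₀ _ ν0.ne']
  linarith

lemma nz_prod (γ : 𝓞 F) : (nz γ : ℝ) = ∏ w : InfinitePlace F, w (γ : F) ^ w.mult := by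
  rw [← nm_emb, mixedEmbedding.norm_apply]
  simp only [normAt_emb]

lemma lat_low (F : Type) [Field F] [NumberField F] : ∃ C : ℝ, 1 ≤ C ∧ ∀ (γ : 𝓞 F)
    (x : mixedSpace F) (r : ℝ), γ ≠ 0 → C * ‖emb F γ‖ ≤ r → ∃ s : Finset (𝓞 F),
      (r / C) ^ dg F ≤ #s * nz γ ∧ ∀ t ∈ s, ‖emb F (γ * t) - x‖ ≤ r := by
  obtain ⟨C0, h0, hb⟩ := balance F
  obtain ⟨C1, h1, hl⟩ := le_card F
  have n0 := (dg_pos F).ne'
  refine ⟨C0 * (2 * C1), by nlinarith, fun γ x r hγ hr => ?_⟩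
  have hγ' : (γ : F) ≠ 0 := by exact_mod_cast hγ
  obtain ⟨u, ν, ν0, hν, hu⟩ := hb (fun w => w (γ : F)) fun w => InfinitePlace.pos_iff.2 hγ'
  rw [← nz_prod] at hν
  have νr : ν ≤ ‖emb F γ‖ :=
    (pow_le_pow_iff_left₀ ν0.le (norm_nonneg _) n0).1 (hν.trans_le (nz_le _))
  have hg : ‖emb F (γ * u)‖ ≤ C0 * ν := norm_le_iff.2 fun w => by
    rw [normAt_emb]
    have := (hu w).2
    rw [← map_mul, mul_comm] at this
    simpa using this
  have g0 : ((γ * u : 𝓞 F) : F) ≠ 0 := by exact_mod_cast mul_ne_zero hγ u.ne_zero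
  have c0 : 0 < C0 * ν := by positivity
  refine ⟨(bl (mixedEmbedding F ((γ * u : 𝓞 F) : F)⁻¹ * x) (r / (C0 * ν))).image ((u : 𝓞 F) * ·),
    ?_, fun t ht => ?_⟩
  · rw [card_image_of_injective _ (mul_right_injective₀ u.ne_zero), ← hν]
    refine le_trans (le_of_eq ?_) (mul_le_mul_of_nonneg_right (hl _ _ ?_) (by positivity))
    · rw [← mul_pow]; congr 1; field_simp
    · rw [le_div_iff₀ c0]
      refine le_trans ?_ hr
      calc 2 * C1 * (C0 * ν) = C0 * (2 * C1) * ν := by ring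
        _ ≤ _ := by gcongr
  · obtain ⟨z, hz, rfl⟩ := mem_image.1 ht
    have e : emb F (γ * (u * z)) - x =
        emb F (γ * u) * (emb F z - mixedEmbedding F ((γ * u : 𝓞 F) : F)⁻¹ * x) := by
      have : emb F (γ * u) * mixedEmbedding F ((γ * u : 𝓞 F) : F)⁻¹ = 1 := by
        show mixedEmbedding F ((γ * u : 𝓞 F) : F) * _ = 1
        rw [← map_mul, mul_inv_cancel₀ g0, map_one]
      rw [mul_sub, ← mul_assoc (emb F _), this, ← mul_assoc, map_mul, one_mul]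
    rw [e]
    refine (norm_mul_le _ _).trans ((mul_le_mul hg (mem_bl.1 hz) (norm_nonneg _) c0.le).trans ?_)
    rw [mul_div_cancel₀ _ c0.ne']

lemma one_le_emb {δ : 𝓞 F} (h : ∀ w : InfinitePlace F, 1 ≤ w (δ : F)) : δ ≠ 0 := by
  rintro rfl
  obtain ⟨w⟩ : Nonempty (InfinitePlace F) := inferInstance
  have := h w
  simp at this
  linarith

lemma bl_up {x : mixedSpace F} {r : ℝ} (hr : 1 ≤ r) : (#(bl (F := F) x r) : ℝ) ≤ (3 * r) ^ dg F :=
  (card_le (bl x r) (x := x) one_pos (by linarith) (fun u hu => mem_bl.1 hu)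
    fun u _ w _ hne => one_le_norm (sub_ne_zero.2 hne)).trans
    (pow_le_pow_left₀ (by positivity) (by linarith) _)

end Pool.Agent.Lib.MP_7cad78_nt.R2
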