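import Pool.Agent.Lib.MP_7cad78_nt.R2.Cube

/-! Products over the primes dividing an integer, and the lower bound for the sieve sum. -/

namespace Pool.Agent.Lib.MP_7cad78_nt.R2

open NumberField NumberField.mixedEmbedding IsDedekindDomain WithZero Finset NF Filter
open scoped Classical

variable {F : Type} [Field F] [NumberField F]

lemma Pw_mul (a b : ℕ) : Pw F (a * b) ≤ Pw F a * Pw F b := by
  by_cases h : a * b = 0
  · rw [h]
    refine le_trans (by simp [Pw, prs]) (one_le_mul_of_one_le_of_one_le (one_le_Pw a) (one_le_Pw b))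
  have ha := left_ne_zero_of_mul h
  have hb := right_ne_zero_of_mul h
  have e : prs F (a * b) = prs F a ∪ prs F b := by
    ext 𝔭
    rw [mem_union, mem_prs h, mem_prs ha, mem_prs hb, Nat.cast_mul, 𝔭.isPrime.mul_mem_iff_mem_or_mem]
  unfold Pw
  rw [e, ← prod_union_inter]
  refine le_mul_of_one_le_right (by positivity) ?_
  exact Finset.prod_induction _ (1 ≤ ·) (fun _ _ => one_le_mul_of_one_le_of_one_le) le_rfl
    fun _ _ => le_add_of_nonneg_right (by positivity)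

lemma Pw_pow (a : ℕ) {k : ℕ} (hk : k ≠ 0) : Pw F (a ^ k) = Pw F a := by
  by_cases h : a = 0
  · rw [h, zero_pow hk]
  have e : prs F (a ^ k) = prs F a := by
    ext 𝔭
    rw [mem_prs h, mem_prs (pow_ne_zero k h), Nat.cast_pow,
      𝔭.isPrime.pow_mem_iff_mem k (Nat.pos_of_ne_zero hk)]
  unfold Pw
  rw [e]

lemma two_le_nm (𝔭 : Pr F) : 2 ≤ nm 𝔭 := by
  have h0 : nm 𝔭 ≠ 0 := by rw [Ne, Ideal.absNorm_eq_zero_iff]; exact 𝔭.ne_bot
  have h1 : nm 𝔭 ≠ 1 := by rw [Ne, Ideal.absNorm_eq_one_iff]; exact 𝔭.isPrime.ne_top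
  omega

lemma lw_prime (𝔭 : Pr F) {m : ℕ} (hm : m ≠ 0) (h : (m : 𝓞 F) ∈ 𝔭.asIdeal) :
    ∃ l : ℕ, l.Prime ∧ l ∣ m ∧ (l : 𝓞 F) ∈ 𝔭.asIdeal := by
  induction m using Nat.recOnMul with
  | zero => exact absurd rfl hm
  | one => exact absurd ((Ideal.eq_top_iff_one _).2 (by simpa using h)) 𝔭.isPrime.ne_top
  | prime p hp => exact ⟨p, hp, dvd_rfl, h⟩
  | mul a b ia ib =>
    rw [Nat.cast_mul, 𝔭.isPrime.mul_mem_iff_mem_or_mem] at h
    rcases h with h | h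
    · obtain ⟨l, h1, h2, h3⟩ := ia (left_ne_zero_of_mul hm) h
      exact ⟨l, h1, h2.mul_right _, h3⟩
    · obtain ⟨l, h1, h2, h3⟩ := ib (right_ne_zero_of_mul hm) h
      exact ⟨l, h1, h2.mul_left _, h3⟩

lemma lw_le_nm (𝔭 : Pr F) {l : ℕ} (hl : l.Prime) (h : (l : 𝓞 F) ∈ 𝔭.asIdeal) : l ≤ nm 𝔭 := by
  have h2 := two_le_nm 𝔭
  obtain ⟨q, h1, h3, h4⟩ := lw_prime 𝔭 (m := nm 𝔭) (by omega) (Ideal.absNorm_mem _)
  by_cases e : q = l
  · exact e ▸ Nat.le_of_dvd (by omega) h3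
  · exfalso
    obtain ⟨a, b, hab⟩ := Nat.Coprime.isCoprime ((Nat.coprime_primes h1 hl).2 e)
    have := congrArg (Int.cast : ℤ → 𝓞 F) hab
    push_cast at this
    exact 𝔭.isPrime.ne_top ((Ideal.eq_top_iff_one _).2
      (this ▸ add_mem (Ideal.mul_mem_left _ _ h4) (Ideal.mul_mem_left _ _ h)))

lemma lw_sum {K : ℝ} (hK : 0 < K) : ∃ c : ℝ, ∀ z : ℕ, z ≠ 0 →
    K * ∑ l ∈ Nat.primesLE z, 1 / (l : ℝ) ≤ c + Real.log z := by
  have l2 : 0 < Real.log 2 := Real.log_pos one_lt_two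
  obtain ⟨y, hy⟩ := eventually_atTop.1 (pi_small (ε := Real.log 2 / (3 * K)) (by positivity))
  obtain ⟨z0, h0⟩ := exists_nat_ge (max y 2)
  refine ⟨K * ∑ l ∈ Nat.primesLE z0, 1 / (l : ℝ), fun z => ?_⟩
  induction z using Nat.strong_induction_on with
  | _ z ih =>
    intro hz
    have z1 : (1 : ℝ) ≤ z := by exact_mod_cast Nat.pos_of_ne_zero hz
    rcases le_total z z0 with h | h
    · refine le_add_of_le_of_nonneg (mul_le_mul_of_nonneg_left (sum_le_sum_of_subset_of_nonneg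
        (Nat.primesLE_mono h) fun _ _ _ => by positivity) hK.le) (Real.log_nonneg z1)
    have h' : (z0 : ℝ) ≤ z := by exact_mod_cast h
    have z2 : 2 ≤ z := by exact_mod_cast (le_max_right y 2).trans (h0.trans h')
    have i1 := ih (z / 2) (by omega) (by omega)
    have i2 := hy z ((le_max_left y 2).trans (h0.trans h'))
    rw [Nat.floor_natCast] at i2
    set w := z / 2 with hw
    have w1 : (1 : ℝ) ≤ w := by exact_mod_cast (by omega : 1 ≤ w)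
    have w3 : (z : ℝ) ≤ 3 * w := by exact_mod_cast (by omega : z ≤ 3 * w)
    have w2 : 2 * (w : ℝ) ≤ z := by exact_mod_cast (by omega : 2 * w ≤ z)
    have e := sum_sdiff (f := fun l : ℕ => 1 / (l : ℝ)) (Nat.primesLE_mono (by omega : w ≤ z))
    have i3 : ∑ l ∈ Nat.primesLE z \ Nat.primesLE w, 1 / (l : ℝ) ≤ #(Nat.primesLE z) * (1 / w) := by
      refine (sum_le_card_nsmul _ _ (1 / (w : ℝ)) fun l hl => ?_).trans ?_
      · rw [Finset.mem_sdiff, Nat.mem_primesLE, Nat.mem_primesLE, not_and] at hl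
        have : w ≤ l := by by_contra hc; exact hl.2 (by omega) hl.1.2
        exact one_div_le_one_div_of_le (by linarith) (by exact_mod_cast this)
      · rw [nsmul_eq_mul]
        gcongr
        exact sdiff_subset
    have i4 : K * (#(Nat.primesLE z) * (1 / (w : ℝ))) ≤ Real.log 2 := by
      calc _ ≤ K * (Real.log 2 / (3 * K) * (3 * w) * (1 / (w : ℝ))) := by
            gcongr
            exact i2.trans (by gcongr)
        _ = _ := by field_simp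
    have i5 : Real.log w + Real.log 2 ≤ Real.log z := by
      rw [← Real.log_mul (by linarith) two_ne_zero]
      exact Real.log_le_log (by linarith) (by linarith)
    have := mul_le_mul_of_nonneg_left i3 hK.le
    rw [← e, mul_add]
    linarith

theorem Pw_le (F : Type) [Field F] [NumberField F] (k : ℕ) : ∃ C : ℝ, 0 < C ∧ ∀ z : ℕ, z ≠ 0 →
    Pw F z.factorial ^ k ≤ C * z := by
  obtain ⟨c, hc⟩ := lw_sum (K := k * dg F + 1) (by positivity)
  refine ⟨Real.exp c, Real.exp_pos c, fun z hz => ?_⟩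
  have z0 : (0 : ℝ) < z := by positivity
  have : ∀ 𝔭 : Pr F, ∃ l : ℕ, 𝔭 ∈ prs F z.factorial →
      l ∈ Nat.primesLE z ∧ (l : 𝓞 F) ∈ 𝔭.asIdeal := fun 𝔭 => by
    by_cases h : 𝔭 ∈ prs F z.factorial
    · obtain ⟨l, h1, h2, h3⟩ := lw_prime 𝔭 z.factorial_ne_zero ((mem_prs z.factorial_ne_zero).1 h)
      exact ⟨l, fun _ => ⟨Nat.mem_primesLE.2 ⟨h1.dvd_factorial.1 h2, h1⟩, h3⟩⟩
    · exact ⟨0, fun h' => absurd h' h⟩
  choose ℓ hℓ using this
  have h1 : ∑ 𝔭 ∈ prs F z.factorial, 1 / (nm 𝔭 : ℝ) ≤ dg F * ∑ l ∈ Nat.primesLE z, 1 / (l : ℝ) := by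
    rw [← sum_fiberwise_of_maps_to (fun 𝔭 h => (hℓ 𝔭 h).1), mul_sum]
    refine sum_le_sum fun l hl => ?_
    have lp := Nat.prime_of_mem_primesLE hl
    obtain ⟨T, t1, t2⟩ := over_le (F := F) lp
    refine (sum_le_card_nsmul _ _ (1 / (l : ℝ)) fun 𝔭 h => ?_).trans ?_
    · obtain ⟨a, rfl⟩ := mem_filter.1 h
      exact one_div_le_one_div_of_le (by exact_mod_cast lp.pos)
        (by exact_mod_cast lw_le_nm 𝔭 lp (hℓ 𝔭 a).2)
    · rw [nsmul_eq_mul]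
      gcongr
      refine le_trans (card_le_card_of_injOn (fun 𝔭 => 𝔭.asIdeal) (fun 𝔭 h => ?_)
        fun _ _ _ _ e => HeightOneSpectrum.ext e) t1
      obtain ⟨a, rfl⟩ := mem_filter.1 h
      exact t2 _ 𝔭.isPrime (hℓ 𝔭 a).2
  have h2 : Pw F z.factorial ≤ _ :=
    (Real.prod_one_add_le_exp_sum _ fun _ => by positivity).trans (Real.exp_le_exp.2 h1)
  have h3 : 0 ≤ ∑ l ∈ Nat.primesLE z, 1 / (l : ℝ) := by positivity
  refine (pow_le_pow_left₀ (zero_le_one.trans (one_le_Pw _)) h2 k).trans ?_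
  rw [← Real.exp_nat_mul, ← Real.exp_log z0, ← Real.exp_add, Real.exp_le_exp]
  have := hc z hz
  nlinarith

variable (F) in
/-- the nonzero ideals of bounded norm -/
noncomputable def lwI (t : ℕ) : Finset (Ideal (𝓞 F)) :=
  {I ∈ (Ideal.finite_setOfPred_absNorm_le (S := 𝓞 F) t).toFinset | I ≠ 0}

lemma mem_lwI {t : ℕ} {I : Ideal (𝓞 F)} : I ∈ lwI F t ↔ Ideal.absNorm I ≤ t ∧ I ≠ 0 := by
  simp [lwI]

variable (F) in
lemma lw_cnt : ∃ C : ℝ, 0 < C ∧ ∀ j : ℕ, (#(lwI F (2 ^ j)) : ℝ) ≤ C * 2 ^ j ∧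
    2 ^ j ≤ C * #(lwI F (2 ^ j)) := by
  have h := (Ideal.tendsto_norm_le_div_atTop₀ F).comp
    (tendsto_pow_atTop_atTop_of_one_lt (one_lt_two (α := ℝ)))
  have e : ∀ j : ℕ, Nat.card {I : (nonZeroDivisors (Ideal (𝓞 F))) //
      (Ideal.absNorm (I : Ideal (𝓞 F)) : ℝ) ≤ 2 ^ j} = #(lwI F (2 ^ j)) := fun j => by
    rw [← Nat.card_eq_finsetCard]
    refine Nat.card_congr ⟨fun I => ⟨I.1, mem_lwI.2 ⟨by exact_mod_cast I.2,
      nonZeroDivisors.coe_ne_zero _⟩⟩, fun I => ⟨⟨I.1, mem_nonZeroDivisors_of_ne_zero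
      (mem_lwI.1 I.2).2⟩, by exact_mod_cast (mem_lwI.1 I.2).1⟩, fun _ => rfl, fun _ => rfl⟩
  simp only [Function.comp_def, e] at h
  have p : ∀ j : ℕ, (0 : ℝ) < #(lwI F (2 ^ j)) := fun j => by
    exact_mod_cast card_pos.2 ⟨1, mem_lwI.2 ⟨by simpa using Nat.one_le_two_pow, one_ne_zero⟩⟩
  have k0 := (dedekindZeta_residue_pos F).ne'
  rw [dedekindZeta_residue_def] at k0
  obtain ⟨a, ha⟩ := h.bddAbove_range
  obtain ⟨b, hb⟩ := (h.inv₀ k0).bddAbove_range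
  refine ⟨max 1 (max a b), by positivity, fun j => ⟨?_, ?_⟩⟩
  · rw [← div_le_iff₀ (by positivity)]
    exact (ha ⟨j, rfl⟩).trans (by simp)
  · rw [← div_le_iff₀ (p j), ← inv_div]
    exact (hb ⟨j, rfl⟩).trans (by simp)

lemma lw_geo {m : ℝ} (hm : 0 < m) (n : ℕ) :
    ∑ j ∈ range n, (if m ≤ 2 ^ j then 1 / (2 : ℝ) ^ j else 0) ≤ max 0 (2 / m - 2 / 2 ^ n) := by
  induction n with
  | zero => simp
  | succ n ih =>
    rw [sum_range_succ]
    split_ifs with h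
    · have : 2 / (2 : ℝ) ^ n ≤ 2 / m := by gcongr
      rw [max_eq_right (by linarith)] at ih
      refine le_max_of_le_right ?_
      have : 2 / (2 : ℝ) ^ (n + 1) = 1 / 2 ^ n := by field_simp; ring
      have : 2 / (2 : ℝ) ^ n = 2 * (1 / 2 ^ n) := by ring
      linarith
    · have : 2 / m ≤ 2 / (2 : ℝ) ^ n := by gcongr; exact (not_le.1 h).le
      rw [max_eq_left (by linarith)] at ih
      exact le_max_of_le_left (by linarith)

lemma lw_geo2 {m : ℝ} (hm : 1 ≤ m) (n : ℕ) (h : m ≤ 2 ^ n) :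
    1 / m ^ 2 ≤ ∑ j ∈ range (n + 1), (if m ≤ 2 ^ j then 4 / (4 : ℝ) ^ j else 0) := by
  induction n with
  | zero =>
    simp only [pow_zero] at h
    rw [le_antisymm h hm]; norm_num
  | succ n ih =>
    rw [sum_range_succ, if_pos h]
    by_cases h' : m ≤ 2 ^ n
    · exact le_add_of_le_of_nonneg (ih h') (by positivity)
    · refine le_add_of_nonneg_of_le (sum_nonneg fun _ _ => by positivity) ?_
      have : 4 / (4 : ℝ) ^ (n + 1) = 1 / (2 ^ n) ^ 2 := by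
        rw [← pow_mul, mul_comm, pow_mul]; field_simp; norm_num; ring
      rw [this]
      gcongr
      exact (not_le.1 h').le

lemma lw_swap (n : ℕ) (g : ℕ → ℝ) : ∑ I ∈ lwI F (2 ^ n), ∑ j ∈ range (n + 1),
    (if (Ideal.absNorm I : ℝ) ≤ 2 ^ j then g j else 0) =
      ∑ j ∈ range (n + 1), #(lwI F (2 ^ j)) * g j := by
  rw [sum_comm]
  refine sum_congr rfl fun j hj => ?_
  rw [← sum_filter, sum_const, nsmul_eq_mul]
  congr 3
  ext I
  have : 2 ^ j ≤ 2 ^ n := Nat.pow_le_pow_right two_pos (by simpa [Nat.lt_succ_iff] using hj)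
  simp only [mem_filter, mem_lwI]
  constructor
  · rintro ⟨⟨-, a⟩, b⟩; exact ⟨by exact_mod_cast b, a⟩
  · rintro ⟨a, b⟩; exact ⟨⟨a.trans this, b⟩, by exact_mod_cast a⟩

lemma lw_pos {I : Ideal (𝓞 F)} (h : I ≠ 0) : (1 : ℝ) ≤ Ideal.absNorm I := by
  exact_mod_cast Nat.pos_of_ne_zero (by rwa [Ne, Ideal.absNorm_eq_zero_iff])

lemma lw_dec (I : Ideal (𝓞 F)) : I ≠ 0 → ∃ (S : Finset (Pr F)) (c : Ideal (𝓞 F)),
    I = (∏ 𝔭 ∈ S, 𝔭.asIdeal) * c ^ 2 := by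
  induction I using UniqueFactorizationMonoid.induction_on_prime with
  | h₁ => exact fun h => absurd rfl h
  | h₂ x hx => exact fun _ => ⟨∅, 1, by rw [one_pow]; simpa using Ideal.isUnit_iff.1 hx⟩
  | h₃ a p ha hp ih =>
    intro _
    obtain ⟨S, c, rfl⟩ := ih ha
    let 𝔮 : Pr F := ⟨p, Ideal.isPrime_of_prime hp, hp.ne_zero⟩
    by_cases h : 𝔮 ∈ S
    · exact ⟨S.erase 𝔮, p * c, by rw [← mul_prod_erase S _ h]; ring⟩
    · exact ⟨insert 𝔮 S, c, by rw [prod_insert h]; ring⟩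

theorem L_low (F : Type) [Field F] [NumberField F] : ∃ c : ℝ, 0 < c ∧ ∀ (W : ℕ) (Z : ℝ)
    (Q : Finset (Pr F)), W ≠ 0 → 2 ≤ Z →
    (∀ 𝔭 : Pr F, (W : 𝓞 F) ∉ 𝔭.asIdeal → (nm 𝔭 : ℝ) ≤ Z → 𝔭 ∈ Q) →
    c * Real.log Z ≤ Pw F W * ∑ S ∈ Q.powerset with ∏ 𝔭 ∈ S, (nm 𝔭 : ℝ) ≤ Z,
      ∏ 𝔭 ∈ S, 1 / ((nm 𝔭 : ℝ) - 1) := by
  obtain ⟨C, C0, hC⟩ := lw_cnt F
  refine ⟨1 / (16 * C ^ 2), by positivity, fun W Z Q hW hZ hQ => ?_⟩
  obtain ⟨n, n1, n2⟩ := exists_nat_pow_near (x := Z) (by linarith) (one_lt_two (α := ℝ))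
  have a1 : Real.log Z ≤ n + 1 := by
    refine (Real.log_le_log (by linarith) n2.le).trans ?_
    rw [Real.log_pow]
    have := Real.log_two_lt_d9
    push_cast
    exact mul_le_of_le_one_right (by positivity) (by linarith)
  have a2 : (n + 1 : ℝ) / C ≤ 2 * ∑ I ∈ lwI F (2 ^ n), 1 / (Ideal.absNorm I : ℝ) := by
    have := lw_swap (F := F) n fun j => 1 / 2 ^ j
    calc (n + 1 : ℝ) / C = ∑ j ∈ range (n + 1), 1 / C := by simp [div_eq_mul_inv]
      _ ≤ _ := sum_le_sum fun j _ => by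
          rw [mul_one_div, div_le_div_iff₀ C0 (by positivity)]
          linarith [(hC j).2]
      _ = _ := this.symm
      _ ≤ _ := by
          rw [mul_sum]
          refine sum_le_sum fun I hI => ?_
          have := lw_pos (mem_lwI.1 hI).2
          refine (lw_geo (by linarith) _).trans (max_le (by positivity) ?_)
          rw [mul_one_div]
          exact sub_le_self _ (by positivity)
  have a3 : ∑ I ∈ lwI F (2 ^ n), 1 / (Ideal.absNorm I : ℝ) ^ 2 ≤ 8 * C := by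
    have := lw_swap (F := F) n fun j => 4 / 4 ^ j
    calc _ ≤ _ := sum_le_sum fun I hI => lw_geo2 (lw_pos (mem_lwI.1 hI).2) n
          (by exact_mod_cast (mem_lwI.1 hI).1)
      _ = _ := this
      _ ≤ ∑ j ∈ range (n + 1), 4 * C * (1 / 2) ^ j := sum_le_sum fun j _ => by
          refine (mul_le_mul_of_nonneg_right (hC j).1 (by positivity)).trans_eq ?_
          rw [show (4 : ℝ) ^ j = 2 ^ j * 2 ^ j by rw [← mul_pow]; norm_num, one_div, inv_pow]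
          field_simp
      _ ≤ _ := by
          rw [← mul_sum]
          nlinarith [sum_geometric_two_le (n + 1)]
  set 𝒮 := {S ∈ Q.powerset | ∏ 𝔭 ∈ S, (nm 𝔭 : ℝ) ≤ Z}
  let φ : Finset (Pr F) × Finset (Pr F) × Ideal (𝓞 F) → Ideal (𝓞 F) := fun z =>
    (∏ 𝔭 ∈ z.1, 𝔭.asIdeal) * ((∏ 𝔭 ∈ z.2.1, 𝔭.asIdeal) * z.2.2 ^ 2)
  have nmp : ∀ S : Finset (Pr F), (1 : ℝ) ≤ ∏ 𝔭 ∈ S, (nm 𝔭 : ℝ) := fun S =>
    Finset.prod_induction _ (1 ≤ ·) (fun _ _ => one_le_mul_of_one_le_of_one_le) le_rfl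
      fun 𝔭 _ => lw_pos 𝔭.ne_bot
  have nφ : ∀ z, (Ideal.absNorm (φ z) : ℝ) =
      (∏ 𝔭 ∈ z.1, (nm 𝔭 : ℝ)) * ((∏ 𝔭 ∈ z.2.1, (nm 𝔭 : ℝ)) * (Ideal.absNorm z.2.2 : ℝ) ^ 2) :=
    fun z => by simp [φ, map_prod]
  have a4 : lwI F (2 ^ n) ⊆ ((prs F W).powerset ×ˢ 𝒮 ×ˢ lwI F (2 ^ n)).image φ := fun I hI => by
    obtain ⟨i1, i2⟩ := mem_lwI.1 hI
    obtain ⟨S, c, e⟩ := lw_dec I i2
    have e' : φ (S ∩ prs F W, S \ prs F W, c) = I := by
      simp only [φ]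
      rw [← mul_assoc, prod_inter_mul_prod_sdiff, ← e]
    have c0 : c ≠ 0 := by rintro rfl; simp [e] at i2
    have c1 := lw_pos c0
    have e2 := nφ (S ∩ prs F W, S \ prs F W, c)
    rw [e'] at e2
    simp only at e2
    have i3 : (Ideal.absNorm I : ℝ) ≤ 2 ^ n := by exact_mod_cast i1
    have p1 := nmp (S ∩ prs F W)
    have p2 := nmp (S \ prs F W)
    have p3 : (∏ 𝔭 ∈ S \ prs F W, (nm 𝔭 : ℝ)) * (Ideal.absNorm c : ℝ) ^ 2 ≤ 2 ^ n :=
      (le_mul_of_one_le_left (mul_nonneg (zero_le_one.trans p2) (sq_nonneg _)) p1).trans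
        (e2.symm.trans_le i3)
    have p4 : ∏ 𝔭 ∈ S \ prs F W, (nm 𝔭 : ℝ) ≤ Z :=
      ((le_mul_of_one_le_right (zero_le_one.trans p2) (one_le_pow₀ c1)).trans p3).trans n1
    refine mem_image.2 ⟨_, ?_, e'⟩
    simp only [mem_product, mem_powerset, 𝒮, mem_filter, mem_lwI]
    refine ⟨inter_subset_right, ⟨fun 𝔭 h => hQ 𝔭 (fun h' => (mem_sdiff.1 h).2 ((mem_prs hW).2 h'))
      (le_trans ?_ p4), p4⟩, ?_, c0⟩
    · rw [← mul_prod_erase _ _ h]
      exact le_mul_of_one_le_right (Nat.cast_nonneg _) (nmp _)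
    · have : (Ideal.absNorm c : ℝ) ≤ 2 ^ n :=
        ((le_self_pow₀ c1 two_ne_zero).trans (le_mul_of_one_le_left (sq_nonneg _) p2)).trans p3
      exact_mod_cast this
  have a5 : ∑ I ∈ lwI F (2 ^ n), 1 / (Ideal.absNorm I : ℝ) ≤
      Pw F W * ((∑ S ∈ 𝒮, ∏ 𝔭 ∈ S, 1 / ((nm 𝔭 : ℝ) - 1)) * (8 * C)) := by
    refine (sum_le_sum_of_subset_of_nonneg a4 fun _ _ _ => by positivity).trans
      ((sum_image_le_of_nonneg fun _ _ => by positivity).trans ?_)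
    simp only [nφ]
    rw [Pw, prod_one_add, sum_mul, sum_product]
    refine sum_le_sum fun S _ => ?_
    rw [sum_mul, mul_sum, sum_product]
    refine sum_le_sum fun S' _ => ?_
    simp only [← one_div_mul_one_div, ← mul_sum]
    rw [prod_div_distrib, prod_const_one]
    gcongr
    · exact prod_nonneg fun 𝔭 _ => one_div_nonneg.2 (sub_nonneg.2 (lw_pos 𝔭.ne_bot))
    · rw [one_div, ← prod_inv_distrib]
      refine prod_le_prod (fun _ _ => inv_nonneg.2 (Nat.cast_nonneg _)) fun 𝔭 _ => ?_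
      have : (2 : ℝ) ≤ nm 𝔭 := by exact_mod_cast two_le_nm 𝔭
      rw [← one_div]
      exact one_div_le_one_div_of_le (by linarith) (by linarith)
  rw [div_le_iff₀ C0] at a2
  rw [one_div, inv_mul_le_iff₀ (by positivity)]
  nlinarith [mul_le_mul_of_nonneg_right a5 C0.le]

end Pool.Agent.Lib.MP_7cad78_nt.R2
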