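import Pool.Agent.Lib.MP_7cad78_nt.R2.Four

/-! The variance of a sifted set along a family of curves. -/

namespace Pool.Agent.Lib.MP_7cad78_nt.R2

open NumberField NumberField.mixedEmbedding IsDedekindDomain WithZero Finset NF Filter
open scoped Classical ComplexConjugate

variable {F : Type} [Field F] [NumberField F]

/-- the Fourier transform of the averaging kernel -/
noncomputable def kh (W : ℕ) (r : ℝ) (χ : AddChar (𝓞 F) ℂ) : ℂ :=
  (∑ z ∈ bl (F := F) 0 r, χ (W * z)) / #(bl (F := F) 0 r)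

lemma var_pos {r : ℝ} (hr : 0 ≤ r) : 0 < #(bl (F := F) 0 r) :=
  card_pos.2 ⟨0, mem_bl.2 (by simpa using hr)⟩

lemma kh_le {W : ℕ} {r η : ℝ} {χ : AddChar (𝓞 F) ℂ} (hr : 0 ≤ r)
    (h : ∀ z ∈ bl (F := F) 0 r, ‖χ (W * z) - 1‖ ≤ η) : ‖1 - kh W r χ‖ ≤ η := by
  have p := var_pos (F := F) hr
  have p' : (#(bl (F := F) 0 r) : ℂ) ≠ 0 := by exact_mod_cast p.ne'
  rw [norm_sub_rev, kh, div_sub_one p', norm_div, Complex.norm_natCast,
    div_le_iff₀ (by exact_mod_cast p), mul_comm, ← nsmul_eq_mul]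
  refine le_trans (le_of_eq ?_) ((norm_sum_le _ _).trans (sum_le_card_nsmul _ _ _ h))
  simp [sum_sub_distrib]

lemma var_ind {N : ℕ} [NeZero N] {x : mixedSpace F} {ρ : ℝ} (hN : 2 * ρ < N) (Y : Finset (𝓞 F))
    {v : 𝓞 F} (hv : ‖emb F v - x‖ ≤ ρ) : (if v ∈ Y then 1 else 0) * (N : ℂ) ^ dg F =
      ∑ χ ∈ Xi F N, (∑ y ∈ Y with ‖emb F y - x‖ ≤ ρ, χ y) * χ (-v) := by
  simp only [sum_mul, ← AddChar.map_add_eq_mul]
  rw [sum_comm]
  simp only [sum_Xi, ← sub_eq_add_neg]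
  split_ifs with h
  · rw [sum_eq_single_of_mem v (mem_filter.2 ⟨h, hv⟩) fun y hy ne =>
      if_neg fun d => ne (sep_of_ball hN (mem_filter.1 hy).2 hv d)]
    simp
  · rw [zero_mul, sum_eq_zero fun y hy => if_neg fun d =>
      h (sep_of_ball hN (mem_filter.1 hy).2 hv d ▸ (mem_filter.1 hy).1)]

lemma var_Fl {N : ℕ} [NeZero N] {x : mixedSpace F} {ρ r : ℝ} {W : ℕ} (hN : 2 * (2 * ρ) < N)
    (hW : W * r ≤ ρ) (Y : Finset (𝓞 F)) {u : 𝓞 F} (hu : ‖emb F u - x‖ ≤ ρ) :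
    (Fl W r Y u : ℂ) * (N : ℂ) ^ dg F = ∑ χ ∈ Xi F N,
      (∑ y ∈ Y with ‖emb F y - x‖ ≤ 2 * ρ, χ y) * (1 - kh W r χ) * χ (-u) := by
  have ρ0 := (norm_nonneg _).trans hu
  have h1 := var_ind hN Y (hu.trans (by linarith))
  have h2 : (#{z ∈ bl (F := F) 0 r | u - W * z ∈ Y} : ℂ) * (N : ℂ) ^ dg F = ∑ χ ∈ Xi F N,
      (∑ y ∈ Y with ‖emb F y - x‖ ≤ 2 * ρ, χ y) * (∑ z ∈ bl (F := F) 0 r, χ (W * z)) * χ (-u) := by
    rw [card_filter, Nat.cast_sum, sum_mul]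
    simp only [Nat.cast_ite, Nat.cast_one, Nat.cast_zero]
    rw [sum_congr rfl fun z hz => var_ind hN Y (v := u - W * z) (by
      have a := mem_bl.1 hz
      rw [sub_zero] at a
      rw [map_sub, map_mul, map_natCast, sub_right_comm]
      refine (norm_sub_le _ _).trans ?_
      rw [norm_natCast_mul]
      linarith [mul_le_mul_of_nonneg_left a (Nat.cast_nonneg W)]), sum_comm]
    refine sum_congr rfl fun χ _ => ?_
    rw [mul_assoc, sum_mul (bl 0 r), mul_sum]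
    refine sum_congr rfl fun z _ => ?_
    rw [neg_sub, sub_eq_add_neg, AddChar.map_add_eq_mul]
  simp only [Fl, rho, kh]
  push_cast
  rw [sub_mul, div_mul_eq_mul_div, h2, apply_ite Complex.ofReal, Complex.ofReal_one,
    Complex.ofReal_zero, h1, sum_div, ← sum_sub_distrib]
  exact sum_congr rfl fun _ _ => by ring

lemma var_S {χ : AddChar (𝓞 F) ℂ} (h : ∀ y, ‖χ y‖ = 1) (m L : ℕ) {H : ℝ} {S : Finset (𝓞 F)}
    (a0 : 𝓞 F) {s0 : 𝓞 F} (p : 𝓞 F → 𝓞 F) (hS : ∀ s ∈ S, ‖emb F (s - s0)‖ ≤ H) :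
    ∑ A ∈ cb a0 L, ‖∑ s ∈ S, χ (-(m * A * s + p s))‖ ^ 2 ≤
      #S * ∑ h ∈ bl (F := F) 0 (2 * H), ‖∑ A ∈ cb (F := F) 0 L, χ (m * A * h)‖ := by
  have h1 : ((∑ A ∈ cb a0 L, ‖∑ s ∈ S, χ (-(m * A * s + p s))‖ ^ 2 : ℝ) : ℂ) =
      ∑ s ∈ S, ∑ s' ∈ S, χ (p s' - p s + m * a0 * (s' - s)) *
        ∑ A ∈ cb (F := F) 0 L, χ (m * A * (s' - s)) := by
    push_cast
    simp only [← Complex.mul_conj', map_sum, sum_mul_sum, ← Complex.inv_eq_conj (h _),
      ← AddChar.map_neg_eq_inv, ← AddChar.map_add_eq_mul]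
    rw [sum_comm]
    refine sum_congr rfl fun s _ => ?_
    rw [sum_comm]
    refine sum_congr rfl fun s' _ => ?_
    rw [cb, cb, sum_image (cb_inj _).injOn, sum_image (cb_inj _).injOn, mul_sum]
    refine sum_congr rfl fun j _ => ?_
    rw [← AddChar.map_add_eq_mul]
    congr 1
    ring
  rw [← Complex.norm_of_nonneg (sum_nonneg fun _ _ => sq_nonneg _), h1, ← nsmul_eq_mul #S]
  refine (norm_sum_le _ _).trans (sum_le_card_nsmul _ _ _ fun s hs => (norm_sum_le _ _).trans ?_)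
  simp only [norm_mul, h, one_mul]
  rw [← sum_image (f := fun h => ‖∑ A ∈ cb (F := F) 0 L, χ (m * A * h)‖) (g := (· - s))
    sub_left_injective.injOn]
  refine sum_le_sum_of_subset_of_nonneg (fun y hy => ?_) fun _ _ _ => norm_nonneg _
  obtain ⟨s', hs', rfl⟩ := mem_image.1 hy
  rw [mem_bl, sub_zero, ← sub_sub_sub_cancel_right s' s s0, map_sub]
  linarith [norm_sub_le (emb F (s' - s0)) (emb F (s - s0)), hS s hs, hS s' hs']

lemma var_main {N : ℕ} [NeZero N] {x : mixedSpace F} {ρ r H : ℝ} {W : ℕ} (m L : ℕ)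
    (hN : 2 * (2 * ρ) < N) (hr : 0 ≤ r) (hW : W * r ≤ ρ) (Y : Finset (𝓞 F)) {S : Finset (𝓞 F)}
    {X : Finset (𝓞 F × 𝓞 F)} {a0 s0 : 𝓞 F} {p : 𝓞 F → 𝓞 F} (hS : ∀ s ∈ S, ‖emb F (s - s0)‖ ≤ H)
    (hX : ∀ z ∈ X, z.1 ∈ cb a0 L ∧ ∀ s ∈ S, ‖emb F (z.2 + (m * z.1 * s + p s)) - x‖ ≤ ρ) :
    (N : ℝ) ^ dg F * ∑ z ∈ X, (∑ s ∈ S, Fl W r Y (z.2 + (m * z.1 * s + p s))) ^ 2 ≤
      #S * ∑ χ ∈ Xi F N, ‖∑ y ∈ Y with ‖emb F y - x‖ ≤ 2 * ρ, χ y‖ ^ 2 * (‖1 - kh W r χ‖ ^ 2 *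
        ∑ h ∈ bl (F := F) 0 (2 * H), ‖∑ A ∈ cb (F := F) 0 L, χ (m * A * h)‖) := by
  rcases S.eq_empty_or_nonempty with rfl | ⟨s1, hs1⟩
  · simp
  have N0 : (0 : ℝ) < (N : ℝ) ^ dg F := pow_pos (by exact_mod_cast NeZero.pos N) _
  have ρ0 : 0 ≤ ρ := le_trans (by positivity) hW
  set c := fun (A : 𝓞 F) (χ : AddChar (𝓞 F) ℂ) => (∑ y ∈ Y with ‖emb F y - x‖ ≤ 2 * ρ, χ y) *
    (1 - kh W r χ) * ∑ s ∈ S, χ (-(m * A * s + p s)) with hc
  have h1 : ∀ z ∈ X, ((N : ℝ) ^ dg F) ^ 2 * (∑ s ∈ S, Fl W r Y (z.2 + (m * z.1 * s + p s))) ^ 2 =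
      ‖∑ χ ∈ Xi F N, c z.1 χ * χ (-z.2)‖ ^ 2 := fun z hz => by
    have : ∑ χ ∈ Xi F N, c z.1 χ * χ (-z.2) =
        ((N : ℝ) ^ dg F * ∑ s ∈ S, Fl W r Y (z.2 + (m * z.1 * s + p s)) : ℝ) := by
      push_cast
      rw [mul_comm, sum_mul, sum_congr rfl fun s hs => var_Fl hN hW Y ((hX z hz).2 s hs), sum_comm]
      refine sum_congr rfl fun χ _ => ?_
      simp only [hc]
      rw [mul_assoc, sum_mul S, mul_sum]
      refine sum_congr rfl fun s _ => ?_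
      rw [neg_add z.2, AddChar.map_add_eq_mul, mul_comm (χ (-z.2))]
    rw [this, Complex.norm_real, Real.norm_eq_abs, sq_abs, mul_pow]
  refine le_of_mul_le_mul_left ?_ N0
  rw [← mul_assoc, ← sq, mul_sum, sum_congr rfl h1,
    ← sum_fiberwise_of_maps_to (g := Prod.fst) fun z hz => (hX z hz).1]
  calc _ ≤ ∑ A ∈ cb a0 L, (N : ℝ) ^ dg F * ∑ χ ∈ Xi F N, ‖c A χ‖ ^ 2 := sum_le_sum fun A _ => by
        refine le_trans (le_of_eq ?_) (pars_dual (B := {z ∈ X | z.1 = A}.image fun z => -z.2) ?_ _)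
        · rw [sum_image fun z hz z' hz' e => Prod.ext
            ((mem_filter.1 hz).2.trans (mem_filter.1 hz').2.symm) (neg_injective e)]
          exact sum_congr rfl fun z hz => by rw [(mem_filter.1 hz).2]
        · simp only [mem_image, mem_filter]
          rintro _ ⟨z, ⟨hz, e⟩, rfl⟩ _ ⟨z', ⟨hz', e'⟩, rfl⟩ d
          have a := (hX z hz).2 s1 hs1
          have a' := (hX z' hz').2 s1 hs1
          rw [e] at a
          rw [e'] at a'
          have := sep_of_ball (N := N) (by linarith) a' a (by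
            rwa [add_sub_add_right_eq_sub, ← neg_sub_neg])
          rw [add_right_cancel this]
    _ ≤ _ := by
        rw [← mul_sum, sum_comm, mul_sum (Xi F N)  _ (#S : ℝ)]
        refine mul_le_mul_of_nonneg_left (sum_le_sum fun χ h => ?_) N0.le
        simp only [hc, norm_mul, mul_pow]
        rw [← mul_sum]
        exact (mul_le_mul_of_nonneg_left (var_S (Xi_norm h) m L a0 p hS) (by positivity)).trans_eq
          (by ring)

lemma var_layer {e : ℝ} {u : ℕ → ℝ} {a : ℕ → Prop} (J : ℕ) (h : ∀ j ≤ J, u j ≤ e → a j) :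
    e < u J ∨ a 0 ∨ ∃ j < J, a (j + 1) ∧ e < u j := by
  induction J with
  | zero => exact (lt_or_ge e (u 0)).imp id fun h' => Or.inl (h 0 le_rfl h')
  | succ J ih =>
    rcases ih fun j hj => h j (by omega) with h1 | h1 | ⟨j, h1, h2⟩
    · exact (lt_or_ge e (u (J + 1))).imp id fun h' => Or.inr ⟨J, by omega, h _ le_rfl h', h1⟩
    · exact Or.inr (Or.inl h1)
    · exact Or.inr (Or.inr ⟨j, by omega, h2⟩)

lemma var_ev {κ : ℝ} (hκ : 0 < κ) : ∀ᶠ N : ℝ in atTop, ∃ y : ℝ, 2 ≤ y ∧ y ^ 4 = N ∧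
    1 ≤ Real.log N ∧ Real.log N ^ 6 ≤ κ * y := by
  have h := (tendsto_rpow_atTop (y := ((4 : ℕ) : ℝ)⁻¹) (by positivity)).eventually
    (((Real.isLittleO_pow_log_id_atTop (n := 6)).bound (c := κ / 4 ^ 6) (by positivity)).and
      (eventually_ge_atTop 2))
  filter_upwards [h, eventually_ge_atTop 0, Real.tendsto_log_atTop.eventually_ge_atTop 1]
    with N h1 h2 h3
  have e := Real.rpow_inv_natCast_pow h2 (n := 4) (by norm_num)
  refine ⟨_, h1.2, e, h3, ?_⟩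
  set y := N ^ ((4 : ℕ) : ℝ)⁻¹
  have := (le_abs_self _).trans h1.1
  rw [id, Real.norm_of_nonneg (by linarith [h1.2]), div_mul_eq_mul_div,
    le_div_iff₀ (by positivity)] at this
  rw [← e, Real.log_pow, mul_pow]
  push_cast
  linarith

lemma var_alg {ι : Type*} (s : Finset ι) (g : ι → ℝ) (a : ℕ → ι → ℝ) (u : ℕ → ℝ) (V θ v : ℝ)
    (J : ℕ) : ∑ i ∈ s, g i * (V * (θ * a 0 i + (∑ j ∈ range J, u j * a (j + 1) i) + v)) =
      V * (θ * (∑ i ∈ s, g i * a 0 i) + (∑ j ∈ range J, u j * ∑ i ∈ s, g i * a (j + 1) i) +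
        (∑ i ∈ s, g i) * v) := by
  simp only [mul_left_comm (g _) V]
  rw [← mul_sum]
  simp only [mul_add, sum_add_distrib, mul_sum, sum_mul]
  rw [sum_comm]
  simp only [mul_left_comm (g _)]

lemma var_e1 {P D t T c l : ℝ} (hc : c ≠ 0) (hl : l ≠ 0) :
    P * (D * t) * T = c * l * (4 * P * D / c / (4 * l) * T * t) := by field_simp

lemma var_e2 {q k : ℝ} (hq : q ≠ 0) (j : ℕ) :
    8 / (2 ^ j * q) ^ 2 * (k * (2 ^ (j + 1) * q)) = k * (16 / q) * (1 / 2) ^ j := by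
  rw [one_div, inv_pow]
  field_simp
  ring

lemma var_e3 {K ε l : ℝ} (hK : K ≠ 0) (hε : ε ≠ 0) (hl : l ≠ 0) :
    8 / (24 * K / ε * l) = ε / 3 / K / l := by
  field_simp
  norm_num

lemma var_e4 {θ K K' l T q ε : ℝ} (hK : K ≠ 0) :
    θ ^ 2 * (K' / l * T * q) + K' / l * T * (16 / q) * 2 + T * (ε / 3 / K / l) =
      T * ((K * K' * (θ ^ 2 * q) + K * K' * (32 / q) + ε / 3) / K / l) := by
  field_simp
  ring

lemma var_e5 {H L N N' C P l ε : ℝ} (n : ℕ) (hC : C ≠ 0) (hP : P ≠ 0) :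
    (3 * H) ^ n * (L ^ n * (5 * H) ^ n * (N' ^ n * (C * P * (2 * N) ^ n / l) *
      (ε / (30 ^ n * C * P) / l))) = N' ^ n * (ε * (L * H ^ 2 * N) ^ n / l ^ 2) := by
  rw [show (30 : ℝ) = 3 * 5 * 2 by norm_num, sq H]
  simp only [mul_pow]
  field_simp

theorem varV (F : Type) [Field F] [NumberField F] (m M : ℕ) (hm : m ≠ 0) (hM : M ≠ 0) {ε : ℝ}
    (hε : 0 < ε) : ∃ W0 : ℕ, W0 ≠ 0 ∧ ∀ l : ℝ, 0 < l → ∃ τ : ℝ, 0 < τ ∧ τ ≤ 1 ∧
    ∀ᶠ N : ℝ in atTop, ∀ (W L : ℕ) (H Z r : ℝ) (Y S : Finset (𝓞 F)) (X : Finset (𝓞 F × 𝓞 F))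
      (x : mixedSpace F) (a0 s0 : 𝓞 F) (p : 𝓞 F → 𝓞 F), W ≠ 0 → W0 ∣ W → 0 ≤ r →
      W * r ≤ τ * N → 0 ≤ Z → N ≤ Z ^ 4 → Sift M Z Y → 0 ≤ H → N ≤ H ^ 4 → H ^ 4 * N ≤ (L : ℝ) ^ 4 →
      l * N ≤ L * H → (∀ s ∈ S, ‖emb F (s - s0)‖ ≤ H) →
      (∀ z ∈ X, z.1 ∈ cb a0 L ∧ ∀ s ∈ S, ‖emb F (z.2 + (m * z.1 * s + p s)) - x‖ ≤ N) →
      ∑ z ∈ X, (∑ s ∈ S, Fl W r Y (z.2 + (m * z.1 * s + p s))) ^ 2 ≤
        ε * ((L : ℝ) * H ^ 2 * N) ^ dg F / Real.log N ^ 2 := by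
  obtain ⟨C, C1, hC⟩ := ker F m hm
  obtain ⟨c, c0, hc⟩ := mass F
  obtain ⟨Cb, b0, hb⟩ := bt8 F
  obtain ⟨Cp, p0, hp⟩ := Pw_le F 6
  have P1 := one_le_Pw (F := F) M
  obtain ⟨D, D1, hD⟩ : ∃ D : ℝ, 1 ≤ D ∧ ∀ t : ℝ, 1 ≤ t →
      Pw F ⌈C * (t ^ 2) ^ 3⌉₊.factorial ≤ D * t := by
    refine ⟨max 1 (2 * Cp * C), le_max_left _ _, fun t ht => ?_⟩
    have a : 1 ≤ C * (t ^ 2) ^ 3 :=
      one_le_mul_of_one_le_of_one_le C1 (one_le_pow₀ (one_le_pow₀ ht))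
    refine le_of_pow_le_pow_left₀ (n := 6) (by norm_num) (by positivity)
      ((hp _ (Nat.ceil_pos.2 (by linarith)).ne').trans ?_)
    calc _ ≤ Cp * (2 * (C * (t ^ 2) ^ 3)) := by
          gcongr
          linarith [Nat.ceil_lt_add_one (zero_le_one.trans a)]
      _ = 2 * Cp * C * t ^ 6 := by ring
      _ ≤ _ := by
          rw [mul_pow]
          gcongr
          exact (le_max_right _ _).trans (le_self_pow₀ (le_max_left _ _) (by norm_num))
  obtain ⟨K, K0, hK⟩ : ∃ K, 0 < K ∧ K = 30 ^ dg F * Cb * Pw F M := ⟨_, by positivity, rfl⟩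
  obtain ⟨K', K0', hK'⟩ : ∃ K', 0 < K' ∧ K' = 4 * Pw F M * D / c := ⟨_, by positivity, rfl⟩
  obtain ⟨q, q1, hq⟩ : ∃ q : ℝ, 1 ≤ q ∧ K * K' * (32 / q) ≤ ε / 3 :=
    ⟨max 1 (96 * (K * K') / ε), le_max_left _ _, by
      rw [← mul_div_assoc, div_le_iff₀ (by positivity)]
      have := le_max_right 1 (96 * (K * K') / ε)
      rw [div_le_iff₀ hε] at this
      linarith⟩
  obtain ⟨θ, θ0, hθ⟩ : ∃ θ : ℝ, 0 < θ ∧ K * K' * (θ ^ 2 * q) ≤ ε / 3 :=
    ⟨min 1 (ε / (3 * (K * K' * q))), by positivity, by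
      have a := min_le_right 1 (ε / (3 * (K * K' * q)))
      have b := pow_le_of_le_one (by positivity) (min_le_left 1 (ε / (3 * (K * K' * q)))) two_ne_zero
      have := b.trans a
      rw [le_div_iff₀ (by positivity)] at this
      linarith⟩
  refine ⟨⌈C * (q ^ 2) ^ 3⌉₊.factorial, Nat.factorial_ne_zero _, fun l hl =>
    ⟨min 1 (θ * l / (C * (q ^ 2) ^ 3)), by positivity, min_le_left _ _, ?_⟩⟩
  set a := 24 * K / ε with ha
  have a1 : 0 < a := by positivity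
  have q0 : 0 < q := one_pos.trans_le q1
  filter_upwards [var_ev (κ := min 1 (c * l) / (C * (2 * (q + a)) ^ 6)) (by positivity)]
  rintro N ⟨y, y2, hy, Λ1, hΛ⟩ W L H Z r Y S X x a0 s0 p hW hW0 hr hWr hZ hNZ hS hH hNH hHL hl' hSs hX
  have y1 : 1 ≤ y := one_le_two.trans y2
  have yN : y ≤ N := hy ▸ le_self_pow₀ y1 (by norm_num)
  have yZ : y ≤ Z := le_of_pow_le_pow_left₀ (n := 4) (by norm_num) hZ (hy ▸ hNZ)
  have yH : y ≤ H := le_of_pow_le_pow_left₀ (n := 4) (by norm_num) hH (hy ▸ hNH)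
  have yL : y * H ≤ L := le_of_pow_le_pow_left₀ (n := 4) (by norm_num) (Nat.cast_nonneg _)
    (by rwa [mul_pow, hy, mul_comm])
  have H0 : 0 < H := by linarith only [y2, yH]
  have N0 : 0 < N := by linarith only [y2, yN]
  have l0 : 0 < Real.log y := Real.log_pos (one_lt_two.trans_le y2)
  have L0 : (0 : ℝ) < L := lt_of_lt_of_le (by positivity) yL
  have ly : Real.log N = 4 * Real.log y := by rw [← hy, Real.log_pow]; norm_num
  set Λ := Real.log N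
  obtain ⟨n, n1, n2⟩ := exists_nat_pow_near (le_max_left 1 (a * Λ / q)) (one_lt_two (α := ℝ))
  have t1 : ∀ j : ℕ, 1 ≤ 2 ^ j * q := fun j =>
    one_le_mul_of_one_le_of_one_le (one_le_pow₀ one_le_two) q1
  set R := fun j : ℕ => C * ((2 ^ j * q) ^ 2) ^ 3 with hR
  have R0 : ∀ j, 0 ≤ R j := fun j => by simp only [hR]; positivity
  have R1 : ∀ j ≤ n + 1, R j ≤ min 1 (c * l) * y := fun j hj => by
    rw [div_mul_eq_mul_div, le_div_iff₀ (by positivity)] at hΛ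
    refine le_trans ?_ hΛ
    have u1 : 2 ^ n * q ≤ (q + a) * Λ := by
      rw [← le_div_iff₀ q0]
      refine n1.trans (max_le ?_ (by gcongr; exact le_add_of_nonneg_left q0.le))
      rw [one_le_div q0]
      exact (le_add_of_nonneg_right a1.le).trans (le_mul_of_one_le_right (by positivity) Λ1)
    have u2 : (2 : ℝ) ^ j * q ≤ 2 * (q + a) * Λ := by
      have : (2 : ℝ) ^ j ≤ 2 ^ (n + 1) := pow_le_pow_right₀ one_le_two hj
      rw [pow_succ] at this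
      linarith only [mul_le_mul_of_nonneg_right this q0.le, u1]
    calc R j = C * (2 ^ j * q) ^ 6 := by simp only [hR]; ring
      _ ≤ C * (2 * (q + a) * Λ) ^ 6 := by gcongr
      _ = _ := by ring
  have R2 : ∀ j ≤ n + 1, R j ≤ y := fun j hj =>
    (R1 j hj).trans (mul_le_of_le_one_left (zero_le_one.trans y1) (min_le_left _ _))
  set N' := ⌈5 * N⌉₊.factorial
  have : NeZero N' := ⟨Nat.factorial_ne_zero _⟩
  have n3 : 2 * (2 * N) < N' := lt_of_lt_of_le (by linarith only [N0]) (le_fac _)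
  have v1 := var_main (N := N') m L n3 hr
    (hWr.trans (mul_le_of_le_one_left N0.le (min_le_left _ _))) Y hSs hX
  set Y' := {y ∈ Y | ‖emb F y - x‖ ≤ 2 * N}
  have sep : ∀ u ∈ Y', ∀ u' ∈ Y', (N' : 𝓞 F) ∣ u - u' → u = u' := fun u h u' h' =>
    sep_of_ball n3 (mem_filter.1 h).2 (mem_filter.1 h').2
  have v2 : #Y' * Λ ≤ Cb * Pw F M * (2 * N) ^ dg F := by
    refine le_trans ?_ (hb M (2 * N) Z x Y' hM (by linarith only [y2, yN]) hZ ?_ (fun u h => (mem_filter.1 h).2)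
      (hS.mono dvd_rfl le_rfl (filter_subset _ _)))
    · exact mul_le_mul_of_nonneg_left (Real.log_le_log N0 (by linarith only [N0])) (Nat.cast_nonneg _)
    · rw [show Z ^ 8 = Z ^ 4 * Z ^ 4 by ring]
      exact mul_le_mul (y2.trans (yN.trans hNZ)) hNZ N0.le (by positivity)
  obtain ⟨T, hT⟩ : ∃ T, T = (N' : ℝ) ^ dg F * #Y' := ⟨_, rfl⟩
  have T0 : 0 ≤ T := hT ▸ mul_nonneg (pow_nonneg (Nat.cast_nonneg _) _) (Nat.cast_nonneg _)
  set μ := fun j : ℕ => ∑ χ ∈ Xi F N',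
    ‖∑ u ∈ Y', χ u‖ ^ 2 * if Arc (R j) (R j / (H * L)) χ then 1 else 0 with hμ
  have v3 : ∀ j ≤ n + 1, μ j ≤ K' / Λ * T * (2 ^ j * q) := fun j hj => by
    have u1 := hc N' (M * ⌈R j⌉₊.factorial) (R j) (R j / (H * L)) y Y'
      (mul_ne_zero hM (Nat.factorial_ne_zero _)) y2 (div_nonneg (R0 j) (by positivity))
      (fun k a b => fac_dvd k a (by linarith only [b, yN, N0])) (fun k a b => (fac_dvd k a b).mul_left _)
      (hS.mono (dvd_mul_right _ _) yZ (filter_subset _ _)) (by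
        rw [← mul_div_assoc, div_mul_eq_mul_div, div_le_iff₀ (by positivity)]
        calc _ ≤ y * (c * l * y) * y ^ 2 := by
              gcongr
              · exact R2 j hj
              · exact (R1 j hj).trans (by gcongr; exact min_le_right _ _)
          _ = c * (l * N) := by rw [← hy]; ring
          _ ≤ _ := mul_le_mul_of_nonneg_left (hl'.trans_eq (mul_comm _ _)) c0.le) sep
    have u2 : Pw F (M * ⌈R j⌉₊.factorial) ≤ Pw F M * (D * (2 ^ j * q)) :=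
      (Pw_mul _ _).trans (mul_le_mul_of_nonneg_left (hD _ (t1 j)) (zero_le_one.trans P1))
    have u3 := mul_le_mul_of_nonneg_right u2 T0
    simp only [hμ, mul_ite, mul_one, mul_zero, ← sum_filter]
    refine le_of_mul_le_mul_left ?_ (mul_pos c0 l0)
    rw [mul_assoc (Pw F _), ← hT] at u1
    refine u1.trans (u3.trans_eq ?_)
    rw [hK', ly]
    exact var_e1 c0.ne' l0.ne'
  set B := bl (F := F) 0 (2 * H)
  obtain ⟨V, hV⟩ : ∃ V, V = (L : ℝ) ^ dg F * #B := ⟨_, rfl⟩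
  have V0 : 0 ≤ V := hV ▸ mul_nonneg (pow_nonneg (Nat.cast_nonneg _) _) (Nat.cast_nonneg _)
  have v4 : ∀ χ ∈ Xi F N', ‖1 - kh W r χ‖ ^ 2 *
      ∑ h ∈ B, ‖∑ A ∈ cb (F := F) 0 L, χ (m * A * h)‖ ≤
      V * (θ ^ 2 * (if Arc (R 0) (R 0 / (H * L)) χ then 1 else 0) + (∑ j ∈ range (n + 1),
        8 / (2 ^ j * q) ^ 2 * if Arc (R (j + 1)) (R (j + 1) / (H * L)) χ then 1 else 0) +
        8 / (2 ^ (n + 1) * q) ^ 2) := fun χ hχ => by
    have h := Xi_norm hχ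
    set E := ∑ h ∈ B, ‖∑ A ∈ cb (F := F) 0 L, χ (m * A * h)‖
    have E0 : 0 ≤ E := sum_nonneg fun _ _ => norm_nonneg _
    have E1 : E ≤ V := (sum_le_card_nsmul _ _ ((L : ℝ) ^ dg F) fun _ _ =>
      (norm_sum_le _ _).trans (by simp [h, card_cb])).trans_eq (by rw [nsmul_eq_mul, mul_comm, hV])
    have k2 : ‖1 - kh W r χ‖ ^ 2 ≤ 2 ^ 2 := pow_le_pow_left₀ (norm_nonneg _)
      (kh_le hr fun z _ => (norm_sub_le _ _).trans (by simp [h, one_add_one_eq_two])) 2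
    have k3 : ∀ j : ℕ, E < 2 / (2 ^ j * q) ^ 2 * (L : ℝ) ^ dg F * #B →
        ‖1 - kh W r χ‖ ^ 2 * E ≤ V * (8 / (2 ^ j * q) ^ 2) := fun j hj =>
      (mul_le_mul k2 hj.le E0 (by positivity)).trans_eq (by rw [hV]; ring)
    have s0 : ∀ j ∈ range (n + 1), (0 : ℝ) ≤ 8 / (2 ^ j * q) ^ 2 *
        if Arc (R (j + 1)) (R (j + 1) / (H * L)) χ then 1 else 0 := fun j _ => by positivity
    have s1 := sum_nonneg s0
    have s2 : 0 ≤ θ ^ 2 * (if Arc (R 0) (R 0 / (H * L)) χ then 1 else 0) := by positivity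
    have s3 : 0 ≤ 8 / (2 ^ (n + 1) * q) ^ 2 := by positivity
    rcases var_layer (e := E) (u := fun j => 2 / (2 ^ j * q) ^ 2 * (L : ℝ) ^ dg F * #B)
      (a := fun j => Arc (R j) (R j / (H * L)) χ) (n + 1) fun j hj h' => hC _ H L χ h
        (one_le_pow₀ (t1 j)) ((R2 j hj).trans yH)
        ((mul_le_mul_of_nonneg_right (R2 j hj) hH).trans yL) h' with h1 | h1 | ⟨j, h1, h2, h3⟩
    · exact (k3 _ h1).trans (mul_le_mul_of_nonneg_left (by linarith only [s1, s2]) V0)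
    · rw [if_pos h1]
      obtain ⟨ρ, ρ1, ρ2, ρ3⟩ := h1
      have e : R 0 = C * (q ^ 2) ^ 3 := by simp [hR]
      rw [e] at ρ2 ρ3
      obtain ⟨w, rfl⟩ := (fac_dvd ρ (by omega) ρ2).trans hW0
      have k4 : ‖1 - kh (ρ * w) r χ‖ ≤ θ := kh_le hr fun z hz => by
        rw [Nat.cast_mul, mul_assoc]
        refine (ρ3 _).trans ?_
        have u1 := mem_bl.1 hz
        rw [sub_zero] at u1
        have u2 := hWr.trans (mul_le_mul_of_nonneg_right (min_le_right _ _) N0.le)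
        rw [map_mul, map_natCast, norm_natCast_mul, div_mul_eq_mul_div, div_le_iff₀ (by positivity)]
        rw [div_mul_eq_mul_div, le_div_iff₀ (by positivity)] at u2
        calc _ ≤ C * (q ^ 2) ^ 3 * ((ρ * w : ℕ) * r) := by
              gcongr
              exact Nat.le_mul_of_pos_left _ ρ1
          _ ≤ θ * (l * N) := by linarith only [u2]
          _ ≤ _ := mul_le_mul_of_nonneg_left (hl'.trans_eq (mul_comm _ _)) θ0.le
      refine (mul_le_mul (pow_le_pow_left₀ (norm_nonneg _) k4 2) E1 E0 (by positivity)).trans ?_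
      rw [mul_comm]
      exact mul_le_mul_of_nonneg_left (by linarith only [s1, s3]) V0
    · have := single_le_sum s0 (mem_range.2 h1)
      rw [if_pos h2, mul_one] at this
      exact (k3 _ h3).trans (mul_le_mul_of_nonneg_left (by linarith only [this, s2, s3]) V0)
  have v5 : ∑ χ ∈ Xi F N', ‖∑ u ∈ Y', χ u‖ ^ 2 * (‖1 - kh W r χ‖ ^ 2 *
      ∑ h ∈ B, ‖∑ A ∈ cb (F := F) 0 L, χ (m * A * h)‖) ≤ V * (T * (ε / K / Λ)) := by
    refine (sum_le_sum fun χ h => mul_le_mul_of_nonneg_left (v4 χ h) (sq_nonneg _)).trans ?_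
    rw [var_alg _ _ fun j χ => if Arc (R j) (R j / (H * L)) χ then 1 else 0, pars_one sep, ← hT]
    refine mul_le_mul_of_nonneg_left ?_ V0
    calc θ ^ 2 * μ 0 + (∑ j ∈ range (n + 1), 8 / (2 ^ j * q) ^ 2 * μ (j + 1)) +
          T * (8 / (2 ^ (n + 1) * q) ^ 2)
        ≤ θ ^ 2 * (K' / Λ * T * q) + (∑ j ∈ range (n + 1), K' / Λ * T * (16 / q) * (1 / 2) ^ j) +
          T * (ε / 3 / K / Λ) := by
          refine add_le_add (add_le_add (mul_le_mul_of_nonneg_left (by simpa using v3 0 (by omega))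
            (sq_nonneg _)) (sum_le_sum fun j hj => ?_)) (mul_le_mul_of_nonneg_left ?_ T0)
          · exact (mul_le_mul_of_nonneg_left (v3 (j + 1) (mem_range.1 hj))
              (by positivity)).trans_eq (var_e2 q0.ne' j)
          · have u1 := (le_max_right _ _).trans n2.le
            rw [div_le_iff₀ q0] at u1
            have u2 := u1.trans (le_self_pow₀ (t1 (n + 1)) two_ne_zero)
            exact (div_le_div_of_nonneg_left (by norm_num) (by positivity) u2).trans_eq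
              (var_e3 K0.ne' hε.ne' (one_pos.trans_le Λ1).ne')
      _ ≤ θ ^ 2 * (K' / Λ * T * q) + K' / Λ * T * (16 / q) * 2 + T * (ε / 3 / K / Λ) := by
          rw [← mul_sum]
          gcongr
          exact sum_geometric_two_le _
      _ = _ := var_e4 K0.ne'
      _ ≤ _ := by
          gcongr
          linarith only [hq, hθ]
  have v6 : (#S : ℝ) ≤ (3 * H) ^ dg F :=
    (bl_le (emb F s0) hH S fun u h => by rw [← map_sub]; exact hSs u h).trans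
      (by gcongr; linarith only [y1, yH])
  have v7 : (#B : ℝ) ≤ (5 * H) ^ dg F :=
    (bl_le 0 (by linarith only [H0]) B fun u h => mem_bl.1 h).trans
      (by gcongr; linarith only [y1, yH])
  have N1 : (0 : ℝ) < (N' : ℝ) ^ dg F := pow_pos (by linarith only [n3, N0]) _
  refine le_of_mul_le_mul_left (v1.trans ((mul_le_mul v6 v5
    (sum_nonneg fun _ _ => mul_nonneg (sq_nonneg _) (mul_nonneg (sq_nonneg _)
      (sum_nonneg fun _ _ => norm_nonneg _))) (by positivity)).trans ?_)) N1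
  rw [← le_div_iff₀ (one_pos.trans_le Λ1)] at v2
  calc _ ≤ (3 * H) ^ dg F * ((L : ℝ) ^ dg F * (5 * H) ^ dg F *
        ((N' : ℝ) ^ dg F * (Cb * Pw F M * (2 * N) ^ dg F / Λ) * (ε / K / Λ))) := by
        rw [hV, hT]
        exact mul_le_mul_of_nonneg_left (mul_le_mul (mul_le_mul_of_nonneg_left v7 (by positivity))
          (mul_le_mul_of_nonneg_right (mul_le_mul_of_nonneg_left v2 N1.le) (by positivity))
          (mul_nonneg (hT ▸ T0) (by positivity)) (by positivity)) (by positivity)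
    _ = _ := by
        rw [hK]
        exact var_e5 _ b0.ne' (one_pos.trans_le P1).ne'

end Pool.Agent.Lib.MP_7cad78_nt.R2
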