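import Pool.Agent.Lib.MP_7cad78_nt.R2.Lat
import Pool.Agent.Lib.MP_7cad78_nt.R2.Var

/-! The variance for one twist. -/

namespace Pool.Agent.Lib.MP_7cad78_nt.R2

open NumberField NumberField.mixedEmbedding IsDedekindDomain WithZero Finset NF Filter
open scoped Classical

variable {F : Type} [Field F] [NumberField F]

lemma p1_le_mul {δ : 𝓞 F} (h : ∀ w : InfinitePlace F, 1 ≤ w (δ : F)) (x : mixedSpace F) :
    ‖x‖ ≤ ‖emb F δ * x‖ := norm_le_iff.2 fun w => by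
  refine le_trans ?_ (normAt_le w _)
  rw [map_mul, normAt_emb]
  exact le_mul_of_one_le_left (normAtPlace_nonneg _ _) (h w)

lemma p1_div {δ : 𝓞 F} (h : ∀ w : InfinitePlace F, 1 ≤ w (δ : F)) (M : ℕ) (s t : 𝓞 F) :
    mixedEmbedding F (((s + δ ^ 3 * M * t : 𝓞 F) : F) / δ) =
      emb F (δ ^ 2 * M * t) - -mixedEmbedding F ((s : F) / δ) := by
  have h0 : (δ : F) ≠ 0 := by exact_mod_cast one_le_emb h
  have : ((s + δ ^ 3 * M * t : 𝓞 F) : F) / δ = ((δ ^ 2 * M * t : 𝓞 F) : F) + (s : F) / δ := by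
    push_cast; field_simp; ring
  rw [this, map_add, sub_neg_eq_add]; rfl

lemma p1_tile {α β : Type} [DecidableEq β] (X : Finset α) (c : α → β) (f : α → ℝ) {b : ℝ}
    (h : ∀ y ∈ X.image c, ∑ x ∈ X with c x = y, f x ≤ b) : ∑ x ∈ X, f x ≤ #(X.image c) * b := by
  rw [← sum_fiberwise_of_maps_to (g := c) (t := X.image c) fun x hx => mem_image_of_mem _ hx,
    ← nsmul_eq_mul]
  exact sum_le_card_nsmul _ _ _ h

lemma p1_var {M : ℕ} {d s A a b b0 t t0 : mixedSpace F} {T κ e : ℝ} (hT : 1 ≤ T) (hκ : 0 ≤ κ)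
    (h1 : ‖b - b0‖ ≤ e) (h2 : ‖A - a‖ ≤ κ * T ^ 4) (h3 : ‖t - t0‖ ≤ κ * T ^ 2)
    (h4 : ‖a‖ ≤ 2 * T ^ 4) (h5 : ‖t‖ ≤ 5 * T ^ 2) (h6 : ‖t0‖ ≤ 5 * T ^ 2) :
    ‖b + (M * A * t + (3 * s ^ 2 * M * t + 3 * s * d * M ^ 2 * t ^ 2 + d ^ 2 * M ^ 3 * t ^ 3)) -
      (b0 + (M * a * t0 + (3 * s ^ 2 * M * t0 + 3 * s * d * M ^ 2 * t0 ^ 2 + d ^ 2 * M ^ 3 * t0 ^ 3)))‖
      ≤ e + (7 * M + ‖3 * s ^ 2 * M‖ + 10 * ‖3 * s * d * M ^ 2‖ + 75 * ‖d ^ 2 * M ^ 3‖) * κ * T ^ 6 := by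
  generalize (3 * s ^ 2 * M : mixedSpace F) = c1
  generalize (3 * s * d * M ^ 2 : mixedSpace F) = c2
  generalize (d ^ 2 * M ^ 3 : mixedSpace F) = c3
  have e1 : b + (M * A * t + (c1 * t + c2 * t ^ 2 + c3 * t ^ 3)) -
      (b0 + (M * a * t0 + (c1 * t0 + c2 * t0 ^ 2 + c3 * t0 ^ 3))) =
      (b - b0) + (M * ((A - a) * t + a * (t - t0)) +
        (t - t0) * (c1 + c2 * (t + t0) + c3 * (t * t + t * t0 + t0 * t0))) := by ring
  rw [e1]
  have T2 : 1 ≤ T ^ 2 := one_le_pow₀ hT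
  have k1 : ‖(A - a) * t + a * (t - t0)‖ ≤ κ * T ^ 4 * (5 * T ^ 2) + 2 * T ^ 4 * (κ * T ^ 2) :=
    (norm_add_le _ _).trans (add_le_add ((norm_mul_le _ _).trans (by gcongr))
      ((norm_mul_le _ _).trans (by gcongr)))
  have k2 : ‖t * t + t * t0 + t0 * t0‖ ≤ 5 * T ^ 2 * (5 * T ^ 2) + 5 * T ^ 2 * (5 * T ^ 2) +
      5 * T ^ 2 * (5 * T ^ 2) :=
    (norm_add₃_le).trans (add_le_add_three ((norm_mul_le _ _).trans (by gcongr))
      ((norm_mul_le _ _).trans (by gcongr)) ((norm_mul_le _ _).trans (by gcongr)))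
  have k3 : ‖t + t0‖ ≤ 10 * T ^ 4 := (norm_add_le _ _).trans (by nlinarith)
  have k4 : ‖c1 + c2 * (t + t0) + c3 * (t * t + t * t0 + t0 * t0)‖ ≤
      ‖c1‖ * T ^ 4 + ‖c2‖ * (10 * T ^ 4) + ‖c3‖ * (75 * T ^ 4) :=
    (norm_add₃_le).trans (add_le_add_three
      (le_mul_of_one_le_right (norm_nonneg _) (one_le_pow₀ hT))
      ((norm_mul_le _ _).trans (by gcongr))
      ((norm_mul_le _ _).trans (mul_le_mul_of_nonneg_left (k2.trans_eq (by ring)) (norm_nonneg _))))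
  refine (norm_add_le _ _).trans (add_le_add h1 ((norm_add_le _ _).trans ?_))
  rw [norm_natCast_mul]
  refine (add_le_add (mul_le_mul_of_nonneg_left k1 (Nat.cast_nonneg _)) ((norm_mul_le _ _).trans
    (mul_le_mul h3 k4 (norm_nonneg _) (by positivity)))).trans_eq (by ring)

lemma p1_floor {x : ℝ} (h : 1 ≤ x) : ⌊x⌋₊ ≠ 0 ∧ (⌊x⌋₊ : ℝ) ≤ x ∧ x ≤ 2 * ⌊x⌋₊ := by
  have h1 := Nat.floor_pos.2 h
  have h2 := Nat.lt_floor_add_one x
  have h3 : (1 : ℝ) ≤ ⌊x⌋₊ := by exact_mod_cast h1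
  exact ⟨h1.ne', Nat.floor_le (by linarith), by linarith⟩

lemma p1_num {n : ℕ} {ε C T ν M H L B j1 j2 j3 N l l' : ℝ} (hε : 0 < ε) (hC : 1 ≤ C) (hT : 1 ≤ T)
    (hν : 0 < ν) (hM : 1 ≤ M) (hH : 0 < H) (hL : 0 < L) (hB : 0 < B) (z1 : 0 ≤ j1) (z2 : 0 ≤ j2)
    (z3 : 0 ≤ j3) (J1 : j1 * (ν ^ 2 * M ^ n * H ^ n) ≤ (3 * (4 * T ^ 2)) ^ n)
    (J2 : j2 * L ^ n ≤ (3 * (2 * T ^ 4)) ^ n) (J3 : j3 * (ν ^ 3 * B ^ n) ≤ (3 * (3 * T ^ 6)) ^ n)
    (N0 : 0 ≤ N) (hN : N ≤ 2 * B * (2 * C)) (hl : 0 < l) (hl' : l ≤ l') :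
    j1 * (j1 * (j2 * j3 * (ε / (144 * 6 * 9 * 4 * C ^ 3) ^ n * (L * (C * H) ^ 2 * N) ^ n / l' ^ 2)))
      ≤ ε * (T ^ 14) ^ n / ν ^ 7 / l ^ 2 := by
  have J1' : j1 * (ν ^ 2 * H ^ n) ≤ (3 * (4 * T ^ 2)) ^ n := by
    refine le_trans ?_ J1
    gcongr
    exact le_mul_of_one_le_right (by positivity) (one_le_pow₀ hM)
  calc _ ≤ j1 * (j1 * (j2 * j3 * (ε / (144 * 6 * 9 * 4 * C ^ 3) ^ n *
        (L * (C * H) ^ 2 * (2 * B * (2 * C))) ^ n / l ^ 2))) := by gcongr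
    _ = (j1 * (ν ^ 2 * H ^ n)) ^ 2 * (j2 * L ^ n) * (j3 * (ν ^ 3 * B ^ n)) *
        (ε / (144 * 6 * 9) ^ n / ν ^ 7 / l ^ 2) := by
      rw [show L * (C * H) ^ 2 * (2 * B * (2 * C)) = L * H * H * B * (4 * C ^ 3) by ring,
        show 144 * 6 * 9 * 4 * C ^ 3 = (144 * 6 * 9) * (4 * C ^ 3) by ring, mul_pow _ (4 * C ^ 3),
        mul_pow _ (4 * C ^ 3), mul_pow _ B, mul_pow _ H, mul_pow _ H]
      field_simp
    _ ≤ ((3 * (4 * T ^ 2)) ^ n) ^ 2 * (3 * (2 * T ^ 4)) ^ n * (3 * (3 * T ^ 6)) ^ n *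
        (ε / (144 * 6 * 9) ^ n / ν ^ 7 / l ^ 2) := by gcongr
    _ = _ := by
      rw [sq, ← mul_pow, ← mul_pow, ← mul_pow, show 3 * (4 * T ^ 2) * (3 * (4 * T ^ 2)) *
        (3 * (2 * T ^ 4)) * (3 * (3 * T ^ 6)) = (144 * 6 * 9) * T ^ 14 by ring, mul_pow]
      field_simp

theorem p1 (F : Type) [Field F] [NumberField F] (M : ℕ) (hM : M ≠ 0) {ε : ℝ} (hε : 0 < ε) :
    ∃ W0 : ℕ, W0 ≠ 0 ∧ ∀ δ s : 𝓞 F, (∀ w : InfinitePlace F, 1 ≤ w (δ : F)) →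
    ∃ τ : ℝ, 0 < τ ∧ τ ≤ 1 ∧ ∀ᶠ T : ℝ in atTop, ∀ (W : ℕ) (r : ℝ) (Y : Finset (𝓞 F))
      (X : Finset (𝓞 F × 𝓞 F)), W ≠ 0 → W0 ∣ W → 0 ≤ r → W * r ≤ τ * T ^ 6 → Sift M (T ^ 2) Y →
      (∀ z ∈ X, ‖emb F z.1‖ ≤ T ^ 4 ∧ ‖emb F (δ ^ 3 * z.2)‖ ≤ 2 * T ^ 6) →
      ∑ z ∈ X, (∑ t ∈ Sset M δ s T, Fl W r Y (z.2 + gp M (δ ^ 3) s z.1 t)) ^ 2 ≤
        ε * (T ^ 14) ^ dg F / (nz δ : ℝ) ^ 7 / Real.log T ^ 2 := by
  obtain ⟨C, hC, cbl, -, -⟩ := basis_le F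
  obtain ⟨W0, hW0, hv⟩ := varV F M M hM hM (ε := ε / (144 * 6 * 9 * 4 * C ^ 3) ^ dg F) (by positivity)
  refine ⟨W0, hW0, fun δ s hδ => ?_⟩
  have C0 : 0 < C := by linarith
  have δ0 := one_le_emb hδ
  have M0 : (M : 𝓞 F) ≠ 0 := by exact_mod_cast hM
  obtain ⟨D, hD⟩ : ∃ D : ℝ, D = 7 * M + ‖3 * emb F s ^ 2 * M‖ +
    10 * ‖3 * emb F s * emb F (δ ^ 3) * M ^ 2‖ + 75 * ‖emb F (δ ^ 3) ^ 2 * M ^ 3‖ := ⟨_, rfl⟩
  have D0 : 0 ≤ D := by rw [hD]; positivity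
  have d1 : 1 ≤ ‖emb F (δ ^ 3)‖ := one_le_norm (pow_ne_zero _ δ0)
  have g1 : 1 ≤ ‖emb F (δ ^ 2 * M)‖ := one_le_norm (mul_ne_zero (pow_ne_zero _ δ0) M0)
  generalize hd : ‖emb F (δ ^ 3)‖ = nd at d1
  generalize hg : ‖emb F (δ ^ 2 * M)‖ = ng at g1
  obtain ⟨κ, κ0, κ1, κ2⟩ : ∃ κ : ℝ, 0 < κ ∧ D * (C * κ) ≤ 1 / (2 * nd) ∧ ng * (C * κ) ≤ 1 / 2 := by
    refine ⟨1 / (2 * C * (D * nd + ng)), by positivity, ?_, ?_⟩
    · rw [show D * (C * (1 / (2 * C * (D * nd + ng)))) = D / (2 * (D * nd + ng)) by field_simp,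
        div_le_div_iff₀ (by positivity) (by positivity)]
      nlinarith
    · rw [show ng * (C * (1 / (2 * C * (D * nd + ng)))) = ng / (2 * (D * nd + ng)) by field_simp,
        div_le_div_iff₀ (by positivity) (by positivity)]
      nlinarith [mul_nonneg D0 (zero_le_one.trans d1)]
  have κ3 : C * κ ≤ 1 / 2 := le_trans (le_mul_of_one_le_left (by positivity) g1) κ2
  have κ4 : κ ≤ 1 / 2 := le_trans (le_mul_of_one_le_left κ0.le hC) κ3
  replace hv := hv (κ ^ 2 / 4) (by positivity)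
  obtain ⟨τ, τ0, τ1, hv⟩ := hv
  have tN : Tendsto (fun T : ℝ => T ^ 6 / nd) atTop atTop :=
    (tendsto_pow_atTop (by norm_num)).atTop_div_const (by positivity)
  refine ⟨τ / nd, by positivity, (div_le_self τ0.le d1).trans τ1, ?_⟩
  replace hv := tN.eventually hv
  filter_upwards [hv, eventually_ge_atTop 2, eventually_ge_atTop (2 * C * nd),
    eventually_ge_atTop (4 / κ ^ 2), eventually_ge_atTop (4 * C ^ 2), eventually_ge_atTop ‖emb F s‖]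
    with T hv T2 Tc Tk TC Ts W r Y X hW hW' hr hr' hY hX
  have T1 : 1 ≤ T := by linarith
  have T0 : 0 < T := by linarith
  have pw : ∀ a b : ℕ, a ≤ b → T ^ a ≤ T ^ b := fun a b h => pow_le_pow_right₀ T1 h
  have kT : 4 ≤ κ ^ 2 * T := by rwa [div_le_iff₀' (by positivity)] at Tk
  have kT1 : 1 ≤ κ * T := by
    linarith [mul_le_mul_of_nonneg_right κ4 (mul_pos κ0 T0).le]
  have TT : ∀ a : ℕ, a ≠ 0 → T ≤ T ^ a := fun a h => le_self_pow₀ T1 h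
  obtain ⟨H0, H1, H2⟩ := p1_floor (x := κ * T ^ 2) (kT1.trans (by gcongr; exact TT 2 (by norm_num)))
  obtain ⟨L0, L1, L2⟩ := p1_floor (x := κ * T ^ 4) (kT1.trans (by gcongr; exact TT 4 (by norm_num)))
  obtain ⟨B0, B1, B2⟩ := p1_floor (x := T ^ 6 / nd / (2 * C)) (by
    rw [div_div, one_le_div (by positivity)]
    linarith [TT 6 (by norm_num)])
  generalize ⌊κ * T ^ 2⌋₊ = H at H0 H1 H2
  generalize ⌊κ * T ^ 4⌋₊ = L at L0 L1 L2
  generalize ⌊T ^ 6 / nd / (2 * C)⌋₊ = B at B0 B1 B2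
  obtain ⟨N, hN⟩ : ∃ N, N = T ^ 6 / nd := ⟨_, rfl⟩
  rw [← hN] at hv B1 B2
  have N0 : 0 < N := by rw [hN]; positivity
  have N6 : N ≤ T ^ 6 := hN ▸ div_le_self (by positivity) d1
  have NN : nd * N = T ^ 6 := by rw [hN]; field_simp
  have TN : T ≤ N := by
    rw [hN, le_div_iff₀ (by positivity)]
    have : nd ≤ T := le_trans (le_mul_of_one_le_left (by positivity) (by linarith)) Tc
    linarith [pw 2 6 (by norm_num), mul_le_mul_of_nonneg_left this T0.le]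
  have CB : C * B ≤ N / 2 := by
    rw [le_div_iff₀ (by positivity)] at B1
    linarith
  have CH : C * H ≤ C * κ * T ^ 2 := by rw [mul_assoc]; gcongr
  have CL : C * L ≤ C * κ * T ^ 4 := by rw [mul_assoc]; gcongr
  choose ct ct1 ct2 using cb_corner (F := F) H0
  choose ca ca1 ca2 using cb_corner (F := F) L0
  choose cc cc1 cc2 using cb_corner (F := F) B0
  set S := Sset M δ s T with hS
  have S1 : ∀ t ∈ S, ‖emb F t‖ ≤ 4 * T ^ 2 ∧
      ‖emb F (δ ^ 2 * M * t) - -mixedEmbedding F ((s : F) / δ)‖ ≤ 3 * T ^ 2 := fun t ht => by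
    obtain ⟨h1, h2⟩ := mem_filter.1 ht
    rw [p1_div hδ] at h2
    have := mem_bl.1 h1
    rw [sub_zero] at this
    exact ⟨by linarith [TT 2 (by norm_num)], h2⟩
  have near : ∀ {u v : 𝓞 F} {a b : ℝ} (g : 𝓞 F) (x : mixedSpace F), ‖emb F (g * u) - x‖ ≤ a →
      ‖emb F (u - v)‖ ≤ b → ‖emb F (g * v) - x‖ ≤ a + ‖emb F g‖ * b := fun {u v a b} g x h1 h2 => by
    have : emb F (g * v) - x = emb F (g * u) - x - emb F g * emb F (u - v) := by
      simp only [map_mul, map_sub]; ring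
    rw [this]
    exact (norm_sub_le _ _).trans (add_le_add h1 ((norm_mul_le _ _).trans (by gcongr)))
  have one : ‖emb F 1‖ ≤ 1 := by rw [map_one]; exact norm_one_le
  have near1 : ∀ {u v : 𝓞 F} {a b : ℝ}, ‖emb F u‖ ≤ a → ‖emb F (u - v)‖ ≤ b →
      ‖emb F v‖ ≤ a + b := fun {u v a b} h1 h2 => by
    have : emb F v = emb F u - emb F (u - v) := by simp
    rw [this]
    exact (norm_sub_le _ _).trans (add_le_add h1 h2)
  have T20 : 0 < T ^ 2 := by positivity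
  have T40 : 0 < T ^ 4 := by positivity
  have J1 := lat_up (mul_ne_zero (pow_ne_zero 2 δ0) M0) H0 (S.image ct)
    (x := -mixedEmbedding F ((s : F) / δ)) (r := 4 * T ^ 2) (by
      rw [hg]
      calc ng * H ≤ ng * (C * κ * T ^ 2) := by
            gcongr; exact (le_mul_of_one_le_left (by positivity) hC).trans CH
        _ = ng * (C * κ) * T ^ 2 := by ring
        _ ≤ _ := by gcongr; linarith) fun a ha => by
    obtain ⟨t, ht, rfl⟩ := mem_image.1 ha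
    refine ⟨ct1 t, (near _ _ (S1 t ht).2 ((cbl _ _ _ (ct2 t)).trans CH)).trans ?_⟩
    rw [hg]
    linarith [mul_le_mul_of_nonneg_right κ2 T20.le]
  have aa : ∀ z ∈ X, ‖emb F (ca z.1)‖ ≤ 2 * T ^ 4 := fun z hz =>
    (near1 (hX z hz).1 ((cbl _ _ _ (ca2 _)).trans CL)).trans (by
      linarith [mul_le_mul_of_nonneg_right κ3 T40.le])
  have J2 := lat_up one_ne_zero L0 (X.image fun z => ca z.1) (x := 0) (r := 2 * T ^ 4) (by
      refine (mul_le_of_le_one_left (by positivity) one).trans (L1.trans ?_)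
      gcongr; linarith) fun a ha => by
    obtain ⟨z, hz, rfl⟩ := mem_image.1 ha
    exact ⟨ca1 _, by simpa using aa z hz⟩
  have J3 := lat_up (pow_ne_zero 3 δ0) B0 (X.image fun z => cc z.2) (x := 0) (r := 3 * T ^ 6) (by
      rw [hd]
      have : (B : ℝ) ≤ N := (le_mul_of_one_le_left (by positivity) hC).trans (by linarith)
      linarith [mul_le_mul_of_nonneg_left this (zero_le_one.trans d1), pow_pos T0 6]) fun a ha => by
    obtain ⟨z, hz, rfl⟩ := mem_image.1 ha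
    refine ⟨cc1 _, (near (a := 2 * T ^ 6) _ 0 (by simpa using (hX z hz).2)
      ((cbl _ _ _ (cc2 _)).trans CB)).trans ?_⟩
    rw [hd]
    linarith [pow_pos T0 6]
  set E := ε / (144 * 6 * 9 * 4 * C ^ 3) ^ dg F * ((L : ℝ) * (C * H) ^ 2 * N) ^ dg F / Real.log N ^ 2
    with hE
  have E0 : 0 ≤ E := by positivity
  have key : ∀ t0 ∈ S.image ct, ∑ z ∈ X, (∑ t ∈ S with ct t = t0,
      Fl W r Y (z.2 + gp M (δ ^ 3) s z.1 t)) ^ 2 ≤
      #(X.image fun z => ca z.1) * #(X.image fun z => cc z.2) * E := fun t0 ht0 => by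
    refine (p1_tile X (fun z => (ca z.1, cc z.2)) _ (b := E) fun y hy => ?_).trans ?_
    · obtain ⟨z0, hz0, rfl⟩ := mem_image.1 hy
      obtain ⟨t1, ht1, rfl⟩ := mem_image.1 ht0
      refine hv W L (C * H) (T ^ 2) r Y _ _ (emb F (cc z0.2 + gp M (δ ^ 3) s (ca z0.1) (ct t1)))
        (ca z0.1) (ct t1) (fun t => 3 * s ^ 2 * M * t + 3 * s * δ ^ 3 * M ^ 2 * t ^ 2 +
          (δ ^ 3) ^ 2 * M ^ 3 * t ^ 3) hW hW' hr (hr'.trans_eq (by rw [hN]; ring)) T20.le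
        (N6.trans (by rw [← pow_mul]; exact pw _ _ (by norm_num))) hY (by positivity) ?_ ?_ ?_
        (fun t ht => by
          have := cbl _ _ _ (ct2 t)
          rwa [(mem_filter.1 ht).2] at this) fun z hz => ?_
      · have h1 : κ * T ^ 2 / 2 ≤ C * H :=
          le_trans (by linarith) (le_mul_of_one_le_left (by positivity) hC)
        refine N6.trans (le_trans ?_ (pow_le_pow_left₀ (by positivity) h1 4))
        calc T ^ 6 ≤ 4 ^ 2 * (T ^ 6 / 16) := le_of_eq (by ring)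
          _ ≤ (κ ^ 2 * T) ^ 2 * (T ^ 6 / 16) := by gcongr
          _ = _ := by ring
      · have h1 : (C * H : ℝ) ≤ C * (κ * T ^ 2) := by gcongr
        have h2 : κ * T ^ 4 / 2 ≤ L := by linarith
        refine le_trans ?_ (pow_le_pow_left₀ (by positivity) h2 4)
        calc _ ≤ (C * (κ * T ^ 2)) ^ 4 * T ^ 6 := by gcongr
          _ = (4 * C ^ 2) ^ 2 * (κ ^ 4 * T ^ 14 / 16) := by ring
          _ ≤ T ^ 2 * (κ ^ 4 * T ^ 14 / 16) := by gcongr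
          _ = _ := by ring
      · calc _ ≤ κ ^ 2 / 4 * T ^ 6 := by gcongr
          _ = κ * T ^ 4 / 2 * (1 * (κ * T ^ 2 / 2)) := by ring
          _ ≤ _ := by gcongr <;> linarith
      · obtain ⟨hz, e⟩ := mem_filter.1 hz
        obtain ⟨e1, e2⟩ := Prod.mk.inj e
        refine ⟨e1 ▸ ca2 _, fun t ht => ?_⟩
        obtain ⟨ht, e3⟩ := mem_filter.1 ht
        have k3 := (cbl _ _ _ (ct2 t)).trans CH
        have := p1_var (M := M) (d := emb F (δ ^ 3)) (s := emb F s) (A := emb F z.1)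
          (a := emb F (ca z.1)) (b := emb F z.2) (b0 := emb F (cc z.2)) (t := emb F t)
          (t0 := emb F (ct t)) (κ := C * κ) (e := N / 2) T1 (by positivity)
          (by simpa using (cbl _ _ _ (cc2 z.2)).trans CB)
          (by simpa using (cbl _ _ _ (ca2 z.1)).trans CL) (by simpa using k3) (aa z hz)
          (by linarith [(S1 t ht).1]) ((near1 (S1 t ht).1 k3).trans (by
            linarith [mul_le_mul_of_nonneg_right κ3 T20.le]))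
        rw [← hD] at this
        rw [← e1, ← e2, ← e3]
        refine le_trans (le_of_eq ?_) (this.trans ?_)
        · simp only [gp, map_add, map_mul, map_pow, map_natCast, map_ofNat]
        · have : D * (C * κ) * T ^ 6 ≤ 1 / (2 * nd) * T ^ 6 := by gcongr
          rw [show 1 / (2 * nd) * T ^ 6 = N / 2 by rw [hN]; field_simp] at this
          linarith
    · rw [← Nat.cast_mul, ← card_product]
      gcongr
      intro y hy
      obtain ⟨z, hz, rfl⟩ := mem_image.1 hy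
      exact mem_product.2 ⟨mem_image_of_mem _ hz, mem_image_of_mem _ hz⟩
  have fin : ∑ z ∈ X, (∑ t ∈ S, Fl W r Y (z.2 + gp M (δ ^ 3) s z.1 t)) ^ 2 ≤ #(S.image ct) *
      (#(S.image ct) * (#(X.image fun z => ca z.1) * #(X.image fun z => cc z.2) * E)) := by
    refine (sum_le_sum (g := fun z => #(S.image ct) * ∑ t0 ∈ S.image ct, (∑ t ∈ S with ct t = t0,
        Fl W r Y (z.2 + gp M (δ ^ 3) s z.1 t)) ^ 2) fun z _ => by
      rw [← sum_fiberwise_of_maps_to (g := ct) (t := S.image ct) fun x hx => mem_image_of_mem _ hx]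
      exact sq_sum_le_card_mul_sum_sq).trans ?_
    rw [← mul_sum, sum_comm]
    refine mul_le_mul_of_nonneg_left ?_ (by positivity)
    rw [← nsmul_eq_mul]
    exact sum_le_card_nsmul _ _ _ key
  refine fin.trans ?_
  rw [hE]
  rw [nz_mul, nz_pow, nz_nat] at J1
  rw [nz_pow] at J3
  simp only [nz, Ideal.span_singleton_one, Ideal.absNorm_top, Nat.cast_one, one_mul] at J2
  push_cast at J1 J3
  exact p1_num hε hC T1 (nz_pos δ0) (Nat.one_le_cast.2 (Nat.pos_of_ne_zero hM))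
    (Nat.cast_pos.2 (Nat.pos_of_ne_zero H0)) (Nat.cast_pos.2 (Nat.pos_of_ne_zero L0))
    (Nat.cast_pos.2 (Nat.pos_of_ne_zero B0)) (Nat.cast_nonneg _) (Nat.cast_nonneg _)
    (Nat.cast_nonneg _) J1 J2 J3 N0.le (by rwa [div_le_iff₀ (by positivity)] at B2)
    (Real.log_pos (by linarith)) (Real.log_le_log T0 TN)

end Pool.Agent.Lib.MP_7cad78_nt.R2
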