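import Pool.Agent.Lib.MP_7cad78_nt.R2.Lat

/-! The main term. -/

namespace Pool.Agent.Lib.MP_7cad78_nt.R2

open NumberField NumberField.mixedEmbedding IsDedekindDomain WithZero Finset NF Filter
open scoped Classical

variable {F : Type} [Field F] [NumberField F]

lemma p2_bd {k : Type*} [NormedField k] {a b t : k} {S : ℝ} (hS : 0 < S) (ha : ‖a‖ ≤ S ^ 2)
    (hb : ‖b‖ ≤ 2 * S ^ 3) (h : t ^ 3 + a * t + b = 0) : ‖t‖ ≤ 2 * S := by
  by_contra n
  push Not at n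
  have e : ‖t‖ ^ 3 ≤ S ^ 2 * ‖t‖ + 2 * S ^ 3 := by
    rw [← norm_pow, show t ^ 3 = -(a * t + b) by linear_combination h, norm_neg]
    exact (norm_add_le _ _).trans (by rw [norm_mul]; gcongr)
  have e1 : (2 * S) ^ 2 < ‖t‖ ^ 2 := by gcongr
  have e2 : 2 * S * (3 * S ^ 2) < ‖t‖ * (‖t‖ ^ 2 - S ^ 2) :=
    mul_lt_mul'' n (by linarith) (by positivity) (by positivity)
  nlinarith [pow_pos hS 3]

lemma p2_real (a b : ℝ) : ∃ t, t ^ 3 + a * t + b = 0 := by
  obtain ⟨L, hL⟩ : ∃ L, L = 1 + |a| + |b| := ⟨_, rfl⟩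
  have h1 := abs_nonneg a
  have h2 := abs_nonneg b
  have a1 := le_abs_self a
  have a2 := neg_abs_le a
  have b1 := le_abs_self b
  have b2 := neg_abs_le b
  have l1 : 1 ≤ L := by linarith
  have l2 : L ≤ L ^ 2 := by nlinarith
  have l3 : |a| * L + |b| ≤ L ^ 3 := by nlinarith
  obtain ⟨t, -, ht⟩ := intermediate_value_Icc (f := fun t : ℝ => t ^ 3 + a * t + b)
    (show -L ≤ L by linarith) (by fun_prop) (show (0 : ℝ) ∈ _ from ⟨by nlinarith, by nlinarith⟩)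
  exact ⟨t, ht⟩

lemma p2_cplx (a b : ℂ) : ∃ t, t ^ 3 + a * t + b = 0 := by
  open Polynomial in
  obtain ⟨z, hz⟩ := IsAlgClosed.exists_root (X ^ 3 + C a * X + C b : ℂ[X]) (by
    have : (X ^ 3 + C a * X + C b : ℂ[X]).degree = 3 := by compute_degree!
    rw [this]; norm_num)
  exact ⟨z, by simpa using hz⟩

lemma p2_root {a b : mixedSpace F} {S : ℝ} (hS : 0 < S) (ha : ‖a‖ ≤ S ^ 2) (hb : ‖b‖ ≤ 2 * S ^ 3) :
    ∃ t, t ^ 3 + a * t + b = 0 ∧ ‖t‖ ≤ 2 * S := by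
  choose x hx using fun w => p2_real (cR w a) (cR w b)
  choose z hz using fun w => p2_cplx (cC w a) (cC w b)
  refine ⟨(x, z), ext_c (fun w => ?_) fun w => ?_, norm_le_of (fun w => ?_) fun w => ?_⟩
  · simp only [map_add, map_mul, map_pow, map_zero]; exact hx w
  · simp only [map_add, map_mul, map_pow, map_zero]; exact hz w
  · exact p2_bd hS ((cR_le w a).trans ha) ((cR_le w b).trans hb) (hx w)
  · exact p2_bd hS ((cC_le w a).trans ha) ((cC_le w b).trans hb) (hz w)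

lemma p2_div {δ : F} (h : ∀ w : InfinitePlace F, 1 ≤ w δ) (x : F) (k : ℕ) :
    ‖mixedEmbedding F (x / δ ^ k)‖ ≤ ‖mixedEmbedding F x‖ := norm_le_iff.2 fun w => by
  refine le_trans ?_ (normAt_le w _)
  rw [normAtPlace_apply, normAtPlace_apply, map_div₀, map_pow]
  exact div_le_self (apply_nonneg _ _) (one_le_pow₀ (h w))

theorem p2 (F : Type) [Field F] [NumberField F] : ∃ c : ℝ, 0 < c ∧ ∀ (M W : ℕ) (δ s s0 : 𝓞 F)
    (τ : ℝ), M ≠ 0 → W ≠ 0 → (∀ w : InfinitePlace F, 1 ≤ w (δ : F)) → (M : 𝓞 F) ∣ s - s0 →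
    ((M * W : ℕ) : 𝓞 F) ∣ δ ^ 3 - 1 → 0 < τ → τ ≤ 1 → ∀ᶠ T : ℝ in atTop,
    ∀ (Y : Finset (𝓞 F)) (A B b : 𝓞 F), (∀ y ∈ Y, ‖emb F y‖ ≤ T ^ 6) → ‖emb F A‖ ≤ T ^ 4 →
      ‖emb F B‖ ≤ T ^ 6 → cub A B s = δ ^ 3 * b →
      c * (∑ y ∈ Y, (nu M W A B s0 y : ℝ)) / ((T ^ 4) ^ dg F * (nz δ : ℝ) ^ 2) ≤
        ∑ t ∈ Sset M δ s T, rho (M * W) (τ * T ^ 6 / (M * W)) Y (b + gp M (δ ^ 3) s A t) := by
  obtain ⟨C, C1, hC⟩ := lat_low F
  refine ⟨(1 / (84 * C)) ^ dg F, by positivity, fun M W δ s s0 τ hM hW hδ hs hd τ0 τ1 => ?_⟩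
  obtain ⟨c, hc⟩ := hs
  have δ0 := one_le_emb hδ
  have d0 : (δ : F) ≠ 0 := by exact_mod_cast δ0
  have M0 : (M : 𝓞 F) ≠ 0 := by exact_mod_cast hM
  have W0 : (W : 𝓞 F) ≠ 0 := by exact_mod_cast hW
  have M1 : (1 : ℝ) ≤ M := by exact_mod_cast Nat.one_le_iff_ne_zero.2 hM
  have MW : (0 : ℝ) < M * W := by positivity
  have γ0 : δ ^ 2 * ((M * W : ℕ) : 𝓞 F) ≠ 0 :=
    mul_ne_zero (pow_ne_zero 2 δ0) (by exact_mod_cast mul_ne_zero hM hW)
  filter_upwards [eventually_gt_atTop 0,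
    (((tendsto_pow_atTop two_ne_zero).const_mul_atTop τ0).atTop_div_const
      (by norm_num : (0 : ℝ) < 28)).eventually_ge_atTop (C * ‖emb F (δ ^ 2 * ((M * W : ℕ) : 𝓞 F))‖),
    (((tendsto_pow_atTop (by norm_num : 6 ≠ 0)).const_mul_atTop τ0).atTop_div_const
      MW).eventually_ge_atTop 1] with T T0 hT1 hT2 Y A B b hY hA hB hb
  obtain ⟨v, hv⟩ : ∃ v : 𝓞 F → 𝓞 F, v = fun t => b + gp M (δ ^ 3) s A t := ⟨_, rfl⟩
  have v1 : ∀ t, δ ^ 3 * v t = cub A B (s + δ ^ 3 * M * t) := fun t => by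
    rw [cub_gp, hb, hv, mul_add]
  let P : 𝓞 F → 𝓞 F → Prop := fun t y =>
    ((M * W : ℕ) : 𝓞 F) ∣ v t - y ∧ ‖emb F (v t - y)‖ ≤ τ * T ^ 6
  have k1 : ∀ t, #{y ∈ Y | P t y} ≤
      #{z ∈ bl (F := F) 0 (τ * T ^ 6 / (M * W)) | v t - (M * W : ℕ) * z ∈ Y} := fun t => by
    refine card_le_card_of_surjOn (fun z => v t - (M * W : ℕ) * z) fun y hy => ?_
    obtain ⟨y1, ⟨z, hz⟩, y2⟩ := mem_filter.1 (mem_coe.1 hy)
    have e : v t - (M * W : ℕ) * z = y := by rw [← hz]; ring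
    refine ⟨z, mem_coe.2 (mem_filter.2 ⟨mem_bl.2 ?_, e ▸ y1⟩), e⟩
    rw [hz, map_mul, map_natCast, norm_natCast_mul, Nat.cast_mul] at y2
    rw [sub_zero, le_div_iff₀' MW]
    exact y2
  have k2 : ∀ y ∈ Y, nu M W A B s0 y * ((τ * T ^ 2 / 28 / C) ^ dg F /
      nz (δ ^ 2 * ((M * W : ℕ) : 𝓞 F))) ≤ (#{t ∈ Sset M δ s T | P t y} : ℝ) := fun y hy => by
    obtain ⟨r, r1, r2⟩ := p2_root (a := mixedEmbedding F (A / δ ^ 2))
      (b := mixedEmbedding F (B / δ ^ 3) - emb F y) (S := T ^ 2) (by positivity)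
      ((p2_div hδ _ _).trans (by rw [← pow_mul]; exact hA))
      ((norm_sub_le _ _).trans (by
        rw [← pow_mul, two_mul]; exact add_le_add ((p2_div hδ _ _).trans hB) (hY y hy)))
    have k3 : ∀ u ∈ {t ∈ cb (F := F) 0 W | ((M * W : ℕ) : 𝓞 F) ∣ cub A B (s0 + M * t) - y},
        (τ * T ^ 2 / 28 / C) ^ dg F / nz (δ ^ 2 * ((M * W : ℕ) : 𝓞 F)) ≤
          (#{t ∈ {t ∈ Sset M δ s T | P t y} | (W : 𝓞 F) ∣ t + c - u} : ℝ) := fun u hu => by
      obtain ⟨Z, z1, z2⟩ := hC _ (r - mixedEmbedding F (s / δ ^ 1) - emb F (δ ^ 2 * M * (u - c)))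
        _ γ0 hT1
      rw [div_le_iff₀ (nz_pos γ0)]
      refine z1.trans (mul_le_mul_of_nonneg_right (Nat.cast_le.2 ?_) (nz_pos γ0).le)
      refine card_le_card_of_injOn (fun z => u - c + W * z) (fun z hz => ?_)
        fun z _ z' _ h => mul_left_cancel₀ W0 (add_left_cancel h)
      obtain ⟨t, ht⟩ : ∃ t, t = u - c + W * z := ⟨_, rfl⟩
      obtain ⟨σ, hσ⟩ : ∃ σ, σ = mixedEmbedding F (((s + δ ^ 3 * M * t : 𝓞 F) : F) / δ) := ⟨_, rfl⟩
      have s1 : σ = mixedEmbedding F (s / δ ^ 1) + emb F (δ ^ 2 * M * t) := by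
        rw [hσ, emb, RingHom.comp_apply, ← map_add]
        congr 1
        simp only [map_add, map_mul, map_pow, map_natCast]
        change ((s : F) + (δ : F) ^ 3 * M * t) / δ = _ + (δ : F) ^ 2 * M * t
        field_simp
      have s2 : ‖σ - r‖ ≤ τ * T ^ 2 / 28 := by
        refine le_of_eq_of_le (congrArg _ ?_) (z2 z hz)
        rw [s1, ht]
        simp only [map_add, map_mul, map_sub, map_pow, map_natCast, Nat.cast_mul]
        ring
      have s3 : ‖σ‖ ≤ 3 * T ^ 2 := by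
        have := norm_le_norm_add_norm_sub' σ r
        nlinarith [pow_pos T0 2]
      have s4 : emb F (v t) = σ ^ 3 + mixedEmbedding F (A / δ ^ 2) * σ +
          mixedEmbedding F (B / δ ^ 3) := by
        rw [hσ, emb, RingHom.comp_apply, ← map_pow, ← map_mul, ← map_add, ← map_add]
        congr 1
        have := congrArg (algebraMap (𝓞 F) F) (v1 t)
        simp only [cub, map_add, map_mul, map_pow, map_natCast] at this ⊢
        change (δ : F) ^ 3 * _ = ((s : F) + (δ : F) ^ 3 * M * t) ^ 3 +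
          (A : F) * ((s : F) + (δ : F) ^ 3 * M * t) + (B : F) at this
        change _ = (((s : F) + (δ : F) ^ 3 * M * t) / δ) ^ 3 +
          _ * (((s : F) + (δ : F) ^ 3 * M * t) / δ) + _
        field_simp
        linear_combination this
      change u - c + W * z ∈ _
      rw [← ht]
      refine mem_coe.2 (mem_filter.2 ⟨mem_filter.2 ⟨mem_filter.2 ⟨mem_bl.2 ?_, hσ ▸ s3⟩, ?_, ?_⟩,
        z, by rw [ht]; ring⟩)
      · have e1 : ‖emb F t‖ ≤ ‖emb F (δ ^ 2 * M * t)‖ := norm_le_iff.2 fun w => by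
          refine le_trans ?_ (normAt_le w _)
          rw [normAt_emb, normAt_emb]
          simp only [map_mul, map_pow, map_natCast, InfinitePlace.map_natCast]
          exact le_mul_of_one_le_left (apply_nonneg _ _)
            (one_le_mul_of_one_le_of_one_le (one_le_pow₀ (hδ w)) M1)
        rw [sub_zero]
        refine e1.trans ?_
        rw [← sub_eq_iff_eq_add'.2 s1]
        exact (norm_sub_le _ _).trans (add_le_add s3 (p2_div hδ _ _))
      · obtain ⟨e, he⟩ := hd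
        have e1 : ((M * W : ℕ) : 𝓞 F) ∣ s + δ ^ 3 * M * t - (s0 + M * u) :=
          ⟨e * M * t + z, by
            rw [ht] at *
            push_cast at he ⊢
            linear_combination hc + M * (u - c + W * z) * he⟩
        have e2 : ((M * W : ℕ) : 𝓞 F) ∣ cub A B (s + δ ^ 3 * M * t) - cub A B (s0 + M * u) :=
          e1.trans ⟨(s + δ ^ 3 * M * t) ^ 2 + (s + δ ^ 3 * M * t) * (s0 + M * u) +
            (s0 + M * u) ^ 2 + A, by simp only [cub]; ring⟩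
        have e3 := dvd_sub (dvd_add e2 (mem_filter.1 hu).2) (Dvd.intro (e * v t) rfl)
        rwa [← v1, show δ ^ 3 * v t - cub A B (s0 + M * u) + (cub A B (s0 + M * u) - y) -
          (M * W : ℕ) * (e * v t) = v t - y by linear_combination v t * he] at e3
      · have nA : ‖mixedEmbedding F (A / δ ^ 2)‖ ≤ T ^ 4 := (p2_div hδ _ _).trans hA
        rw [map_sub, s4, show σ ^ 3 + mixedEmbedding F (A / δ ^ 2) * σ +
          mixedEmbedding F (B / δ ^ 3) - emb F y =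
            (σ - r) * (σ * σ + σ * r + r * r + mixedEmbedding F (A / δ ^ 2)) by
              linear_combination r1]
        have m3 : ∀ {x y : mixedSpace F}, ‖x‖ ≤ 3 * T ^ 2 → ‖y‖ ≤ 3 * T ^ 2 →
            ‖x * y‖ ≤ 3 * T ^ 2 * (3 * T ^ 2) := fun h1 h2 => (norm_mul_le _ _).trans (by gcongr)
        have r3 : ‖r‖ ≤ 3 * T ^ 2 := r2.trans (by gcongr; norm_num)
        refine (norm_mul_le _ _).trans ((mul_le_mul s2 ((norm_add_le _ _).trans (add_le_add
          (norm_add₃_le.trans (add_le_add (add_le_add (m3 s3 s3) (m3 s3 r3)) (m3 r3 r3))) nA))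
          (norm_nonneg _) (by positivity)).trans (le_of_eq (by ring)))
    rw [nu, ← nsmul_eq_mul]
    refine (card_nsmul_le_sum _ _ _ k3).trans ?_
    rw [← Nat.cast_sum, Nat.cast_le, ← card_biUnion]
    · exact card_le_card (biUnion_subset.2 fun u _ => filter_subset _ _)
    · intro u hu u' hu' ne
      refine disjoint_filter.2 fun t _ h h' => ne (cb_eq (mem_filter.1 (mem_coe.1 hu)).1
        (mem_filter.1 (mem_coe.1 hu')).1 ?_)
      simpa using dvd_sub h' h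
  have k4 : ∑ y ∈ Y, (#{t ∈ Sset M δ s T | P t y} : ℝ) =
      ∑ t ∈ Sset M δ s T, (#{y ∈ Y | P t y} : ℝ) := by
    simp only [card_filter, Nat.cast_sum]
    exact sum_comm
  have b0 : (0 : ℝ) < #(bl (F := F) 0 (τ * T ^ 6 / (M * W))) := by
    exact_mod_cast card_pos.2 ⟨0, mem_bl.2 (by simp; positivity)⟩
  calc _ = (∑ y ∈ Y, nu M W A B s0 y * ((τ * T ^ 2 / 28 / C) ^ dg F /
          nz (δ ^ 2 * ((M * W : ℕ) : 𝓞 F)))) / (3 * (τ * T ^ 6 / (M * W))) ^ dg F := by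
        have := nz_pos δ0
        rw [← sum_mul, nz_mul, nz_pow, nz_nat, show τ * T ^ 2 / 28 / C =
          3 * (τ * T ^ 6 / (M * W)) * (M * W) * (1 / (84 * C)) / T ^ 4 by field_simp; norm_num,
          div_pow _ (T ^ 4), mul_pow _ (1 / (84 * C)), mul_pow _ (M * W : ℝ)]
        push_cast
        field_simp
    _ ≤ (∑ t ∈ Sset M δ s T, (#{y ∈ Y | P t y} : ℝ)) / #(bl (F := F) 0 (τ * T ^ 6 / (M * W))) :=
        div_le_div₀ (by positivity) (k4 ▸ sum_le_sum k2) b0 (bl_up hT2)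
    _ ≤ _ := by
        rw [sum_div]
        refine sum_le_sum fun t _ => ?_
        rw [rho]
        exact div_le_div_of_nonneg_right (Nat.cast_le.2 (by simpa only [hv] using k1 t)) b0.le

end Pool.Agent.Lib.MP_7cad78_nt.R2
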