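import Pool.Agent.Lib.MP_7cad78_nt.R2.P3b
import Pool.Agent.Lib.MP_7cad78_nt.R2.Four

/-! Many residue classes of curves are rich. -/

namespace Pool.Agent.Lib.MP_7cad78_nt.R2

open NumberField NumberField.mixedEmbedding IsDedekindDomain WithZero Finset NF Filter
open scoped Classical

theorem p3 (F : Type) [Field F] [NumberField F] : ∃ c : ℝ, 0 < c ∧ ∀ (M W : ℕ) (c0 : ℝ), M ≠ 0 →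
    W ≠ 0 → 2 ∣ M → 0 < c0 → ∀ᶠ T : ℝ in atTop, ∀ (Y : Finset (𝓞 F)) (a0 A0 B0 s0 : 𝓞 F),
      (∀ y ∈ Y, ‖emb F y‖ ≤ T ^ 6 ∧ (M : 𝓞 F) ∣ y - a0 ∧
        ∀ 𝔭 : Pr F, (M : 𝓞 F) ∉ 𝔭.asIdeal → (nm 𝔭 : ℝ) ≤ T ^ 2 → y ∉ 𝔭.asIdeal) →
      c0 * (T ^ 6 / M) ^ dg F / Real.log T ≤ #Y → (M : 𝓞 F) ∣ cub A0 B0 s0 - a0 →
      c * c0 ^ 2 / Pw F M ^ 2 * ((W : ℝ) ^ 2) ^ dg F ≤
        #{z ∈ cb (F := F) 0 W ×ˢ cb (F := F) 0 W |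
          #Y ≤ 2 * ∑ y ∈ Y, nu M W (A0 + (M : 𝓞 F) * z.1) (B0 + (M : 𝓞 F) * z.2) s0 y} := by
  obtain ⟨C, hC, h⟩ := bt F
  exact p3_of hC h

end Pool.Agent.Lib.MP_7cad78_nt.R2
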