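import Pool.Agent.Lib.MP_7cad78_nt.R2.Lat

/-! The second moment of the number of admissible residues. -/

namespace Pool.Agent.Lib.MP_7cad78_nt.R2

open NumberField NumberField.mixedEmbedding IsDedekindDomain WithZero Finset NF Filter
open scoped Classical

/-- `C` is a set of representatives modulo `L` -/
def Reps {V : Type*} [AddCommGroup V] (L : AddSubgroup V) (C : Finset V) : Prop :=
  (∀ v, ∃ c ∈ C, v - c ∈ L) ∧ ∀ c ∈ C, ∀ c' ∈ C, c - c' ∈ L → c = c'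

lemma Reps.prod {V V' : Type*} [AddCommGroup V] [AddCommGroup V'] {L : AddSubgroup V}
    {L' : AddSubgroup V'} {C : Finset V} {C' : Finset V'} (h : Reps L C) (h' : Reps L' C') :
    Reps (L.prod L') (C ×ˢ C') := by
  refine ⟨fun v => ?_, fun c hc c' hc' k => ?_⟩
  · obtain ⟨a, a1, a2⟩ := h.1 v.1
    obtain ⟨b, b1, b2⟩ := h'.1 v.2
    exact ⟨(a, b), mem_product.2 ⟨a1, b1⟩, a2, b2⟩
  · exact Prod.ext (h.2 _ (mem_product.1 hc).1 _ (mem_product.1 hc').1 k.1)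
      (h'.2 _ (mem_product.1 hc).2 _ (mem_product.1 hc').2 k.2)

lemma Reps.sum {V H : Type*} [AddCommGroup V] [AddCommGroup H] [Fintype H] {L : AddSubgroup V}
    {C : Finset V} (h : Reps L C) (π : V →+ H) (hs : Function.Surjective π)
    (hL : ∀ v ∈ L, π v = 0) (φ : H → ℝ) :
    (∑ c ∈ C, φ (π c)) * Fintype.card H = #C * ∑ x, φ x := by
  choose r r1 r2 using h.1
  have le : ∀ x y, #{c ∈ C | π c = x} ≤ #{c ∈ C | π c = y} := fun x y => by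
    obtain ⟨d, hd⟩ := hs (y - x)
    refine card_le_card_of_injOn (fun c => r (c + d)) (fun c hc => ?_) fun c hc c' hc' e => ?_
    · have := hL _ (r2 (c + d))
      rw [map_sub, map_add, hd, (mem_filter.1 hc).2, sub_eq_zero] at this
      exact mem_filter.2 ⟨r1 _, by rw [← this]; abel⟩
    · refine h.2 c (mem_filter.1 hc).1 c' (mem_filter.1 hc').1 ?_
      have := L.sub_mem (r2 (c + d)) (r2 (c' + d))
      simp only at e
      rw [e] at this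
      convert this using 1
      abel
  have eq : ∀ x, #{c ∈ C | π c = x} = #{c ∈ C | π c = 0} := fun x => le_antisymm (le _ _) (le _ _)
  have h1 : #C = Fintype.card H * #{c ∈ C | π c = 0} := by
    rw [card_eq_sum_card_fiberwise (s := C) (t := univ) (f := π) fun _ _ => mem_univ _]
    simp [eq]
  have h2 : ∑ c ∈ C, φ (π c) = ∑ x, (#{c ∈ C | π c = 0} : ℝ) * φ x := by
    rw [← sum_fiberwise' C π φ]
    simp [eq]
  rw [h2, h1, ← mul_sum]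
  push_cast
  ring

lemma p3_loc {k : Type*} [CommRing k] [IsDomain k] [Fintype k] {M : k} (hM : M ≠ 0)
    (A B s : k) : (1 + 1 / (Fintype.card k : ℝ)) ^ 2 * ∑ x : (k × k) × k × k,
      (if cub (A + M * x.1.1) (B + M * x.1.2) (s + M * x.2.1) ≠ 0 ∧
        cub (A + M * x.1.1) (B + M * x.1.2) (s + M * x.2.2) ≠ 0 then (1 : ℝ) else 0) ≤
      Fintype.card ((k × k) × k × k) := by
  have q1 : 1 ≤ Fintype.card k := Fintype.card_pos
  have hu : #{a : k | a ≠ 0} = Fintype.card k - 1 := by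
    rw [filter_ne', card_erase_of_mem (mem_univ _), card_univ]
  have h1 : ∀ t : k × k, ∑ z : k × k,
      (if cub (A + M * z.1) (B + M * z.2) (s + M * t.1) ≠ 0 ∧
        cub (A + M * z.1) (B + M * z.2) (s + M * t.2) ≠ 0 then (1 : ℝ) else 0) ≤
      ((Fintype.card k : ℝ) - 1) ^ 2 + if t.1 = t.2 then (Fintype.card k : ℝ) - 1 else 0 := by
    intro t
    rw [sum_boole]
    split_ifs with ht
    · have := card_le_card_of_injOn (s := {z : k × k |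
          cub (A + M * z.1) (B + M * z.2) (s + M * t.1) ≠ 0 ∧
          cub (A + M * z.1) (B + M * z.2) (s + M * t.2) ≠ 0})
        (t := (univ : Finset k) ×ˢ ({a : k | a ≠ 0} : Finset k))
        (fun z => (z.1, cub (A + M * z.1) (B + M * z.2) (s + M * t.1)))
        (fun z hz => by simpa using (mem_filter.1 hz).2.1) fun z _ z' _ e => by
          simp only [Prod.mk.injEq, cub] at e
          refine Prod.ext e.1 (mul_left_cancel₀ hM ?_)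
          linear_combination e.2 - M * (s + M * t.1) * e.1
      rw [card_product, hu, card_univ] at this
      refine (Nat.cast_le.2 this).trans_eq ?_
      rw [Nat.cast_mul, Nat.cast_pred q1]
      ring
    · have := card_le_card_of_injOn (s := {z : k × k |
          cub (A + M * z.1) (B + M * z.2) (s + M * t.1) ≠ 0 ∧
          cub (A + M * z.1) (B + M * z.2) (s + M * t.2) ≠ 0})
        (t := ({a : k | a ≠ 0} : Finset k) ×ˢ ({a : k | a ≠ 0} : Finset k))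
        (fun z => (cub (A + M * z.1) (B + M * z.2) (s + M * t.1),
          cub (A + M * z.1) (B + M * z.2) (s + M * t.2)))
        (fun z hz => by simpa using (mem_filter.1 hz).2) fun z _ z' _ e => by
          simp only [Prod.mk.injEq, cub] at e
          have e1 : z.1 = z'.1 := by
            apply mul_left_cancel₀ (mul_ne_zero (mul_ne_zero hM hM) (sub_ne_zero.2 ht))
            linear_combination e.1 - e.2
          refine Prod.ext e1 (mul_left_cancel₀ hM ?_)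
          linear_combination e.1 - M * (s + M * t.1) * e1
      rw [card_product, hu] at this
      refine (Nat.cast_le.2 this).trans_eq ?_
      rw [Nat.cast_mul, Nat.cast_pred q1]
      ring
  rw [Fintype.sum_prod_type_right]
  refine (mul_le_mul_of_nonneg_left (sum_le_sum fun t _ => h1 t) (by positivity)).trans ?_
  rw [sum_add_distrib, sum_const, Fintype.sum_prod_type]
  simp only [sum_ite_eq, mem_univ, if_true, sum_const, card_univ, Fintype.card_prod, nsmul_eq_mul]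
  push_cast
  have q2 : (1 : ℝ) ≤ Fintype.card k := by exact_mod_cast q1
  generalize (Fintype.card k : ℝ) = q at *
  have e : (1 + 1 / q) ^ 2 * (q * q * (q - 1) ^ 2 + q * (q - 1)) =
      q * q * (q * q) - (q ^ 2 * (q - 1) + 1) / q := by
    field_simp
    ring
  rw [e]
  exact sub_le_self _ (div_nonneg (add_nonneg (mul_nonneg (sq_nonneg _) (by linarith)) one_pos.le)
    (by linarith))

variable {F : Type} [Field F] [NumberField F]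

lemma reps_cb {W : ℕ} (hW : W ≠ 0) (a : 𝓞 F) :
    Reps (Ideal.span {(W : 𝓞 F)}).toAddSubgroup (cb a W) :=
  ⟨fun v => (cb_ex hW a v).imp fun _ h => ⟨h.1, Ideal.mem_span_singleton.2 h.2⟩,
    fun _ h _ h' k => cb_eq h h' (Ideal.mem_span_singleton.1 k)⟩

lemma p3_mom {M W : ℕ} (hW : W ≠ 0) (Q : Finset (Pr F))
    (hQ : ∀ 𝔭 ∈ Q, (W : 𝓞 F) ∈ 𝔭.asIdeal ∧ (M : 𝓞 F) ∉ 𝔭.asIdeal) (A B s : 𝓞 F) :
    (∏ 𝔭 ∈ Q, (1 + 1 / (nm 𝔭 : ℝ))) ^ 2 * ∑ z ∈ cb (F := F) 0 W ×ˢ cb (F := F) 0 W,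
      (#{t ∈ cb (F := F) 0 W | ∀ 𝔭 ∈ Q,
        cub (A + M * z.1) (B + M * z.2) (s + M * t) ∉ 𝔭.asIdeal} : ℝ) ^ 2 ≤
      ((W : ℝ) ^ dg F) ^ 4 := by
  have fin : ∀ 𝔭 : Q, Fintype (𝓞 F ⧸ 𝔭.1.asIdeal) := fun 𝔭 =>
    haveI := Ideal.finiteQuotientOfFreeOfNeBot _ 𝔭.1.ne_bot
    Fintype.ofFinite _
  let m : ∀ 𝔭 : Q, 𝓞 F →+* 𝓞 F ⧸ 𝔭.1.asIdeal := fun 𝔭 => Ideal.Quotient.mk _
  let π : (𝓞 F × 𝓞 F) × 𝓞 F × 𝓞 F →+ ∀ 𝔭 : Q, ((𝓞 F ⧸ 𝔭.1.asIdeal) × (𝓞 F ⧸ 𝔭.1.asIdeal)) ×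
      (𝓞 F ⧸ 𝔭.1.asIdeal) × (𝓞 F ⧸ 𝔭.1.asIdeal) :=
    AddMonoidHom.mk' (fun v 𝔭 => ((m 𝔭 v.1.1, m 𝔭 v.1.2), m 𝔭 v.2.1, m 𝔭 v.2.2)) fun v w => by
      funext 𝔭
      simp
  have crt := Ideal.pi_quotient_surjective (I := fun 𝔭 : Q => 𝔭.1.asIdeal)
    fun 𝔭 𝔮 h => 𝔭.1.isCoprime_of_ne 𝔮.1 fun e => h (Subtype.ext e)
  have hs : Function.Surjective π := fun x => by
    obtain ⟨a, ha⟩ := crt fun 𝔭 => (x 𝔭).1.1
    obtain ⟨b, hb⟩ := crt fun 𝔭 => (x 𝔭).1.2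
    obtain ⟨c, hc⟩ := crt fun 𝔭 => (x 𝔭).2.1
    obtain ⟨d, hd⟩ := crt fun 𝔭 => (x 𝔭).2.2
    exact ⟨((a, b), c, d), funext fun 𝔭 =>
      Prod.ext (Prod.ext (ha 𝔭) (hb 𝔭)) (Prod.ext (hc 𝔭) (hd 𝔭))⟩
  have z0 : ∀ (𝔭 : Q) (u : 𝓞 F), u ∈ (Ideal.span {(W : 𝓞 F)}).toAddSubgroup → m 𝔭 u = 0 :=
    fun 𝔭 u hu => Ideal.Quotient.eq_zero_iff_mem.2
      (𝔭.1.asIdeal.mem_of_dvd (Ideal.mem_span_singleton.1 hu) (hQ _ 𝔭.2).1)
  have R := reps_cb (F := F) hW 0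
  let φ : ∀ 𝔭 : Q, ((𝓞 F ⧸ 𝔭.1.asIdeal) × (𝓞 F ⧸ 𝔭.1.asIdeal)) ×
      (𝓞 F ⧸ 𝔭.1.asIdeal) × (𝓞 F ⧸ 𝔭.1.asIdeal) → ℝ := fun 𝔭 x =>
    if cub (m 𝔭 A + m 𝔭 M * x.1.1) (m 𝔭 B + m 𝔭 M * x.1.2) (m 𝔭 s + m 𝔭 M * x.2.1) ≠ 0 ∧
      cub (m 𝔭 A + m 𝔭 M * x.1.1) (m 𝔭 B + m 𝔭 M * x.1.2) (m 𝔭 s + m 𝔭 M * x.2.2) ≠ 0
      then 1 else 0
  have key := ((R.prod R).prod (R.prod R)).sum π hs (fun v hv => funext fun 𝔭 =>
    Prod.ext (Prod.ext (z0 𝔭 _ hv.1.1) (z0 𝔭 _ hv.1.2))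
      (Prod.ext (z0 𝔭 _ hv.2.1) (z0 𝔭 _ hv.2.2))) fun x => ∏ 𝔭, φ 𝔭 (x 𝔭)
  have cm : ∀ (𝔭 : Q) (a b t : 𝓞 F),
      cub (m 𝔭 A + m 𝔭 M * m 𝔭 a) (m 𝔭 B + m 𝔭 M * m 𝔭 b) (m 𝔭 s + m 𝔭 M * m 𝔭 t) ≠ 0 ↔
        cub (A + M * a) (B + M * b) (s + M * t) ∉ 𝔭.1.asIdeal := fun 𝔭 a b t => by
    rw [← Ideal.Quotient.eq_zero_iff_mem]
    simp only [cub, map_add, map_mul, map_pow, m]
  have e1 : ∑ z ∈ cb (F := F) 0 W ×ˢ cb (F := F) 0 W,
      (#{t ∈ cb (F := F) 0 W | ∀ 𝔭 ∈ Q,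
        cub (A + M * z.1) (B + M * z.2) (s + M * t) ∉ 𝔭.asIdeal} : ℝ) ^ 2 =
      ∑ c ∈ (cb (F := F) 0 W ×ˢ cb (F := F) 0 W) ×ˢ cb (F := F) 0 W ×ˢ cb (F := F) 0 W,
        ∏ 𝔭, φ 𝔭 (π c 𝔭) := by
    rw [sum_product (s := cb (F := F) 0 W ×ˢ cb (F := F) 0 W)]
    refine sum_congr rfl fun z _ => ?_
    rw [← sum_boole, sq, sum_mul_sum, sum_product]
    refine sum_congr rfl fun t _ => sum_congr rfl fun t' _ => ?_
    simp only [φ, π, AddMonoidHom.mk'_apply, cm, Fintype.prod_boole, forall_and, Subtype.forall,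
      ite_zero_mul_ite_zero, one_mul]
  rw [← Fintype.piFinset_univ, ← prod_univ_sum, Fintype.card_pi, card_product, card_product,
    card_cb, ← e1] at key
  have hp : (0 : ℝ) < (∏ 𝔭 : Q, Fintype.card (((𝓞 F ⧸ 𝔭.1.asIdeal) × (𝓞 F ⧸ 𝔭.1.asIdeal)) ×
      (𝓞 F ⧸ 𝔭.1.asIdeal) × (𝓞 F ⧸ 𝔭.1.asIdeal)) : ℕ) := by
    exact_mod_cast prod_pos fun _ _ => Fintype.card_pos
  refine le_of_mul_le_mul_right ?_ hp
  rw [mul_assoc, key, mul_left_comm]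
  refine mul_le_mul (le_of_eq (by push_cast; ring)) ?_ (by positivity) (by positivity)
  rw [← prod_pow, ← prod_coe_sort Q, ← prod_mul_distrib, Nat.cast_prod]
  refine prod_le_prod (fun _ _ => by positivity) fun 𝔭 _ => ?_
  have := p3_loc (M := m 𝔭 M) (fun h => (hQ _ 𝔭.2).2 (Ideal.Quotient.eq_zero_iff_mem.1 h))
    (m 𝔭 A) (m 𝔭 B) (m 𝔭 s)
  rw [nm, Ideal.absNorm_apply, Submodule.cardQuot_apply, Nat.card_eq_fintype_card]
  convert this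

end Pool.Agent.Lib.MP_7cad78_nt.R2
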