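import Pool.Agent.Lib.MP_7cad78_nt.R2.P3a

/-! Many residue classes of curves are rich, given a bound for sifted sets. -/

namespace Pool.Agent.Lib.MP_7cad78_nt.R2

open NumberField NumberField.mixedEmbedding IsDedekindDomain WithZero Finset NF Filter
open scoped Classical

lemma p3_pz {α : Type*} (s : Finset α) (m : α → ℝ) {μ V : ℝ} (hμ : 0 ≤ μ)
    (h1 : ∑ z ∈ s, m z = #s * μ) (h2 : ∑ z ∈ s, m z ^ 2 ≤ V) :
    (#s * μ / 2) ^ 2 ≤ #{z ∈ s | μ ≤ 2 * m z} * V := by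
  have k1 : ∑ z ∈ s with ¬ μ ≤ 2 * m z, m z ≤ #s * μ / 2 := by
    refine (sum_le_card_nsmul _ _ (μ / 2) fun z hz => ?_).trans ?_
    · linarith [not_le.1 (mem_filter.1 hz).2]
    · rw [nsmul_eq_mul, mul_div_assoc]
      gcongr
      exact filter_subset _ _
  have k2 := sum_filter_add_sum_filter_not s (fun z => μ ≤ 2 * m z) m
  calc _ ≤ (∑ z ∈ s with μ ≤ 2 * m z, m z) ^ 2 := by
        gcongr
        linarith
    _ ≤ #{z ∈ s | μ ≤ 2 * m z} * ∑ z ∈ s with μ ≤ 2 * m z, m z ^ 2 := sq_sum_le_card_mul_sum_sq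
    _ ≤ _ := mul_le_mul_of_nonneg_left ((sum_le_sum_of_subset_of_nonneg (filter_subset _ _)
        fun _ _ _ => sq_nonneg _).trans h2) (by positivity)

variable {F : Type} [Field F] [NumberField F]

lemma p3_mean {M W : ℕ} (hM : M ≠ 0) (hW : W ≠ 0) {A B s y : 𝓞 F} (h : (M : 𝓞 F) ∣ cub A B s - y) :
    ∑ z ∈ cb (F := F) 0 W ×ˢ cb (F := F) 0 W,
      nu M W (A + (M : 𝓞 F) * z.1) (B + (M : 𝓞 F) * z.2) s y = W ^ dg F * W ^ dg F := by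
  obtain ⟨g, hg⟩ := h
  have M0 : (M : 𝓞 F) ≠ 0 := by exact_mod_cast hM
  rw [sum_product, sum_eq_card_nsmul (b := W ^ dg F), card_cb, smul_eq_mul]
  intro a _
  simp only [nu, card_filter]
  rw [sum_comm, sum_eq_card_nsmul (b := 1), card_cb, smul_eq_mul, mul_one]
  intro t _
  rw [← card_filter, card_eq_one]
  obtain ⟨b, hb, hu⟩ := cb_rep (F := F) hW 0
    (-(g + a * (s + (M : 𝓞 F) * t) + A * t + (3 * s ^ 2 * t + 3 * s * M * t ^ 2 + M ^ 2 * t ^ 3)))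
  have e : ∀ b', ((M * W : ℕ) : 𝓞 F) ∣ cub (A + M * a) (B + M * b') (s + M * t) - y ↔ (W : 𝓞 F) ∣
      -(g + a * (s + M * t) + A * t + (3 * s ^ 2 * t + 3 * s * M * t ^ 2 + M ^ 2 * t ^ 3)) - b' := by
    intro b'
    rw [Nat.cast_mul, ← mul_dvd_mul_iff_left M0 (b := (W : 𝓞 F)), ← dvd_neg]
    refine iff_of_eq (congrArg _ ?_)
    simp only [cub] at hg ⊢
    linear_combination -hg
  refine ⟨b, eq_singleton_iff_unique_mem.2 ⟨mem_filter.2 ⟨hb.1, (e b).2 hb.2⟩, fun b' h => ?_⟩⟩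
  exact hu b' ⟨(mem_filter.1 h).1, (e b').1 (mem_filter.1 h).2⟩

lemma p3_Pw {M W : ℕ} (hM : M ≠ 0) (hW : W ≠ 0) : Pw F (M * W) ≤
    Pw F M * ∏ 𝔭 ∈ prs F W with (M : 𝓞 F) ∉ 𝔭.asIdeal, (1 + 1 / (nm 𝔭 : ℝ)) := by
  have hd : Disjoint (prs F M) {𝔭 ∈ prs F W | (M : 𝓞 F) ∉ 𝔭.asIdeal} :=
    disjoint_left.2 fun 𝔭 h k => (mem_filter.1 k).2 ((mem_prs hM).1 h)
  rw [Pw, Pw, ← prod_union hd]
  refine le_of_eq (prod_congr ?_ fun _ _ => rfl)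
  ext 𝔭
  simp only [mem_union, mem_filter, mem_prs hM, mem_prs hW, mem_prs (mul_ne_zero hM hW),
    Nat.cast_mul, 𝔭.isPrime.mul_mem_iff_mem_or_mem]
  tauto

lemma p3_cls {C : ℝ} (hbt : ∀ (W : ℕ) (N Z : ℝ)
    (x : mixedSpace F) (Y : Finset (𝓞 F)), W ≠ 0 → 2 ≤ N → 0 ≤ Z → N ≤ Z ^ 4 →
    (∀ y ∈ Y, ‖emb F y - x‖ ≤ N) → Sift W Z Y → #Y * Real.log N ≤ C * Pw F W * N ^ dg F)
    {L : ℕ} (hL : L ≠ 0) {T : ℝ} (T2 : 2 ≤ T) (hT : (L : ℝ) ≤ T) (Y : Finset (𝓞 F)) (c : 𝓞 F)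
    (hY : ∀ y ∈ Y, ‖emb F y‖ ≤ T ^ 6 ∧ (L : 𝓞 F) ∣ c - y ∧
      ∀ 𝔭 : Pr F, (L : 𝓞 F) ∉ 𝔭.asIdeal → (nm 𝔭 : ℝ) ≤ T ^ 2 → y ∉ 𝔭.asIdeal) :
    (#Y : ℝ) ≤ C * Pw F L * (T ^ 6 / L) ^ dg F / Real.log T := by
  have L1 : (1 : ℝ) ≤ L := Nat.one_le_cast.2 (Nat.pos_of_ne_zero hL)
  have T1 : 1 < T := by linarith
  have hN : T ≤ T ^ 6 / L := by
    rw [le_div_iff₀ (by linarith)]
    calc T * L ≤ T * T := by gcongr
      _ = T ^ 2 := by ring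
      _ ≤ _ := pow_le_pow_right₀ T1.le (by norm_num)
  choose! g hg using fun y hy => (hY y hy).2.1
  have h := hbt L (T ^ 6 / L) (T ^ 2) ((L : ℝ)⁻¹ • emb F c) (Y.image g) hL (T2.trans hN)
    (by positivity) ((div_le_self (by positivity) L1).trans (by
      rw [← pow_mul]; exact pow_le_pow_right₀ T1.le (by norm_num))) (fun u hu => by
      obtain ⟨y, hy, rfl⟩ := mem_image.1 hu
      rw [le_div_iff₀ (by linarith), mul_comm, ← norm_natCast_mul, mul_sub,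
        ← nsmul_eq_mul L (_ • _), ← Nat.cast_smul_eq_nsmul ℝ, smul_inv_smul₀ (by linarith),
        ← map_natCast (emb F), ← map_mul, ← hg y hy, ← map_sub, sub_sub_cancel_left, map_neg,
        norm_neg]
      exact (hY y hy).1) fun 𝔭 h1 h2 => by
      obtain ⟨w, i, hi, e⟩ := 𝔭.isMaximal.exists_inv h1
      refine ⟨w * c, fun u hu k => ?_⟩
      obtain ⟨y, hy, rfl⟩ := mem_image.1 hu
      refine (hY y hy).2.2 𝔭 h1 h2 ?_
      convert sub_mem (𝔭.asIdeal.mul_mem_left c hi) (𝔭.asIdeal.mul_mem_left L k) using 1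
      linear_combination -hg y hy - c * e
  rw [card_image_of_injOn fun y hy y' hy' e => by
    linear_combination hg y' hy' - hg y hy - L * e] at h
  rw [le_div_iff₀ (Real.log_pos T1)]
  exact (mul_le_mul_of_nonneg_left (Real.log_le_log (by linarith) hN) (by positivity)).trans h

theorem p3_of {C : ℝ} (hC : 0 < C) (hbt : ∀ (W : ℕ) (N Z : ℝ)
    (x : mixedSpace F) (Y : Finset (𝓞 F)), W ≠ 0 → 2 ≤ N → 0 ≤ Z → N ≤ Z ^ 4 →
    (∀ y ∈ Y, ‖emb F y - x‖ ≤ N) → Sift W Z Y → #Y * Real.log N ≤ C * Pw F W * N ^ dg F) :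
    ∃ c : ℝ, 0 < c ∧ ∀ (M W : ℕ) (c0 : ℝ), M ≠ 0 →
    W ≠ 0 → 2 ∣ M → 0 < c0 → ∀ᶠ T : ℝ in atTop, ∀ (Y : Finset (𝓞 F)) (a0 A0 B0 s0 : 𝓞 F),
      (∀ y ∈ Y, ‖emb F y‖ ≤ T ^ 6 ∧ (M : 𝓞 F) ∣ y - a0 ∧
        ∀ 𝔭 : Pr F, (M : 𝓞 F) ∉ 𝔭.asIdeal → (nm 𝔭 : ℝ) ≤ T ^ 2 → y ∉ 𝔭.asIdeal) →
      c0 * (T ^ 6 / M) ^ dg F / Real.log T ≤ #Y → (M : 𝓞 F) ∣ cub A0 B0 s0 - a0 →
      c * c0 ^ 2 / Pw F M ^ 2 * ((W : ℝ) ^ 2) ^ dg F ≤
        #{z ∈ cb (F := F) 0 W ×ˢ cb (F := F) 0 W |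
          #Y ≤ 2 * ∑ y ∈ Y, nu M W (A0 + (M : 𝓞 F) * z.1) (B0 + (M : 𝓞 F) * z.2) s0 y} := by
  refine ⟨1 / (4 * C ^ 2), by positivity, fun M W c0 hM hW _ hc0 => ?_⟩
  set Q := (prs F W).filter fun 𝔭 => (M : 𝓞 F) ∉ 𝔭.asIdeal with hQ
  filter_upwards [eventually_ge_atTop 2, eventually_ge_atTop ((M * W : ℕ) : ℝ),
    eventually_ge_atTop ((Q.sup nm : ℕ) : ℝ)] with T T2 TL TQ Y a0 A0 B0 s0 hY hc ha
  have T1 : 1 < T := by linarith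
  have lT := Real.log_pos T1
  have M0 : (0 : ℝ) < M := by positivity
  have W0 : (0 : ℝ) < W := by positivity
  have P0 : 0 < Pw F M := zero_lt_one.trans_le (one_le_Pw M)
  have PL : 0 < Pw F (M * W) := zero_lt_one.trans_le (one_le_Pw _)
  set κ := C * Pw F (M * W) * (T ^ 6 / (M * W : ℕ)) ^ dg F / Real.log T with hκ
  have κ0 : 0 ≤ κ := by positivity
  have hm : ∀ A B : 𝓞 F, (∑ y ∈ Y, nu M W A B s0 y : ℝ) ≤
      κ * #{t ∈ cb (F := F) 0 W | ∀ 𝔭 ∈ Q, cub A B (s0 + M * t) ∉ 𝔭.asIdeal} := fun A B => by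
    simp only [nu, card_filter, Nat.cast_sum]
    rw [sum_comm, mul_sum]
    refine sum_le_sum fun t _ => ?_
    rw [← Nat.cast_sum, ← card_filter]
    split_ifs with ht
    · rw [Nat.cast_one, mul_one]
      refine p3_cls hbt (mul_ne_zero hM hW) T2 TL _ (cub A B (s0 + M * t)) fun y hy => ?_
      obtain ⟨h1, h2⟩ := mem_filter.1 hy
      exact ⟨(hY y h1).1, h2, fun 𝔭 k => (hY y h1).2.2 𝔭 fun k' => k (by
        rw [Nat.cast_mul]; exact 𝔭.asIdeal.mul_mem_right _ k')⟩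
    · push Not at ht
      obtain ⟨𝔭, p1, p2⟩ := ht
      rw [filter_eq_empty_iff.2 fun y hy h => ?_]
      · simp
      obtain ⟨q1, q2⟩ := mem_filter.1 p1
      refine (hY y hy).2.2 𝔭 q2 (((Nat.cast_le.2 (le_sup (f := nm) p1)).trans TQ).trans
        (le_self_pow₀ T1.le two_ne_zero)) ?_
      have := 𝔭.asIdeal.mem_of_dvd h (by
        rw [Nat.cast_mul]; exact 𝔭.asIdeal.mul_mem_left _ ((mem_prs hW).1 q1))
      simpa using sub_mem p2 this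
  have mom := p3_mom (M := M) hW Q (fun 𝔭 h =>
    ⟨(mem_prs hW).1 (mem_filter.1 h).1, (mem_filter.1 h).2⟩) A0 B0 s0
  have hP := p3_Pw (F := F) hM hW
  rw [← hQ] at hP
  have pi0 : 0 < ∏ 𝔭 ∈ Q, (1 + 1 / (nm 𝔭 : ℝ)) := prod_pos fun _ _ => by positivity
  have pz := p3_pz (cb (F := F) 0 W ×ˢ cb (F := F) 0 W)
    (fun z => (∑ y ∈ Y, nu M W (A0 + (M : 𝓞 F) * z.1) (B0 + (M : 𝓞 F) * z.2) s0 y : ℝ)) (μ := #Y)
    (V := (C * Pw F M * (T ^ 6 / M) ^ dg F / Real.log T) ^ 2 * ((W : ℝ) ^ dg F) ^ 2)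
    (by positivity) (by
      rw [sum_comm, mul_comm, ← nsmul_eq_mul]
      refine sum_eq_card_nsmul fun y hy => ?_
      rw [← Nat.cast_sum, p3_mean hM hW (by simpa using dvd_sub ha (hY y hy).2.1), card_product,
        card_cb]) (by
      refine (sum_le_sum fun z _ => pow_le_pow_left₀ (by positivity) (hm _ _) 2).trans ?_
      simp only [mul_pow]
      rw [← mul_sum]
      rw [← le_div_iff₀' (by positivity)] at mom
      refine (mul_le_mul_of_nonneg_left mom (by positivity)).trans ?_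
      have k : κ ≤ C * (Pw F M * ∏ 𝔭 ∈ Q, (1 + 1 / (nm 𝔭 : ℝ))) *
          (T ^ 6 / (M * W : ℕ)) ^ dg F / Real.log T := by rw [hκ]; gcongr
      refine (mul_le_mul_of_nonneg_right (pow_le_pow_left₀ κ0 k 2) (by positivity)).trans_eq ?_
      rw [Nat.cast_mul, ← div_div, div_pow _ (W : ℝ)]
      field_simp)
  rw [card_product, card_cb] at pz
  have e : #{z ∈ cb (F := F) 0 W ×ˢ cb (F := F) 0 W |
      #Y ≤ 2 * ∑ y ∈ Y, nu M W (A0 + (M : 𝓞 F) * z.1) (B0 + (M : 𝓞 F) * z.2) s0 y} =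
      #{z ∈ cb (F := F) 0 W ×ˢ cb (F := F) 0 W | (#Y : ℝ) ≤
        2 * ∑ y ∈ Y, (nu M W (A0 + (M : 𝓞 F) * z.1) (B0 + (M : 𝓞 F) * z.2) s0 y : ℝ)} := by
    congr 1
    exact filter_congr fun z _ => by norm_cast
  rw [e]
  generalize (#{z ∈ cb (F := F) 0 W ×ˢ cb (F := F) 0 W | (#Y : ℝ) ≤
    2 * ∑ y ∈ Y, (nu M W (A0 + (M : 𝓞 F) * z.1) (B0 + (M : 𝓞 F) * z.2) s0 y : ℝ)} : ℝ) = G at *
  have D0 : 0 < (T ^ 6 / M) ^ dg F / Real.log T := by positivity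
  rw [mul_div_assoc] at hc
  rw [mul_div_assoc (C * Pw F M), Nat.cast_mul, Nat.cast_pow] at pz
  rw [pow_right_comm]
  have w0 : 0 < (W : ℝ) ^ dg F := by positivity
  generalize (T ^ 6 / M) ^ dg F / Real.log T = D at *
  generalize (W : ℝ) ^ dg F = ω at *
  have k1 : (ω * ω * (c0 * D) / 2) ^ 2 ≤ (ω * ω * #Y / 2) ^ 2 := by gcongr
  refine le_of_mul_le_mul_right ?_ (show 0 < (C * Pw F M * D) ^ 2 * ω ^ 2 by positivity)
  refine le_of_eq_of_le ?_ (k1.trans pz)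
  field_simp
  ring

end Pool.Agent.Lib.MP_7cad78_nt.R2
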