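import Pool.Agent.Lib.MP_7cad78_nt.R2.Primes
import Pool.Agent.Lib.MP_7cad78_nt.R2.P1
import Pool.Agent.Lib.MP_7cad78_nt.R2.P2
import Pool.Agent.Lib.MP_7cad78_nt.R2.P3

/-! Many cubics take many prime values for all twisting elements at once. -/

namespace Pool.Agent.Lib.MP_7cad78_nt.R2

open NumberField NumberField.mixedEmbedding IsDedekindDomain WithZero Finset NF Filter
open scoped Classical

variable {F : Type} [Field F] [NumberField F]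

lemma p5_reps {γ : 𝓞 F} (h : γ ≠ 0) :
    ∃ R : Finset (𝓞 F), #R ≤ nz γ ∧ ∀ y, ∃ σ ∈ R, γ ∣ y - σ := by
  have : Finite (𝓞 F ⧸ Ideal.span {γ}) := Ideal.finiteQuotientOfFreeOfNeBot _ (by simpa using h)
  have := Fintype.ofFinite (𝓞 F ⧸ Ideal.span {γ})
  refine ⟨univ.image fun z : 𝓞 F ⧸ Ideal.span {γ} => z.out, card_image_le.trans (le_of_eq ?_),
    fun y => ⟨_, mem_image_of_mem _ (mem_univ (Ideal.Quotient.mk _ y)), ?_⟩⟩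
  · rw [nz, Ideal.absNorm_apply, Submodule.cardQuot_apply, Nat.card_eq_fintype_card, card_univ]
  · rw [← Ideal.mem_span_singleton, ← Ideal.Quotient.eq, Ideal.Quotient.mk_out]

lemma p5_class {M : ℕ} (hM : M ≠ 0) (Y : Finset (𝓞 F)) :
    ∃ a ∈ cb (F := F) 0 M, (#Y : ℝ) / M ^ dg F ≤ #{y ∈ Y | (M : 𝓞 F) ∣ y - a} := by
  refine exists_le_of_sum_le (card_pos.1 (by rw [card_cb]; positivity)) ?_
  rw [sum_const, card_cb, nsmul_eq_mul, Nat.cast_pow, mul_div_cancel₀ _ (by positivity),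
    ← Nat.cast_sum, Nat.cast_le]
  refine le_trans (card_le_card fun y hy => ?_) card_biUnion_le
  obtain ⟨a, h1, h2⟩ := cb_ex hM 0 y
  exact mem_biUnion.2 ⟨a, h1, mem_filter.2 ⟨hy, h2⟩⟩

lemma p5_out {M0 M : ℕ} {c T : ℝ} {Y : Finset (𝓞 F)} {q : 𝓞 F → Pr F} (h : Gen M0 c T Y q)
    (hM : M0 ∣ M) (hT : T ^ 2 < c * (T ^ 6) ^ dg F) {y : 𝓞 F} (hy : y ∈ Y) (𝔭 : Pr F)
    (h1 : (M : 𝓞 F) ∉ 𝔭.asIdeal) (h2 : (nm 𝔭 : ℝ) ≤ T ^ 2) : y ∉ 𝔭.asIdeal := fun k => by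
  obtain ⟨𝔠, k1, k2⟩ := h.gen y hy
  rw [← Ideal.span_singleton_le_iff_mem, k2, 𝔭.isPrime.mul_le] at k
  rcases k with k | k
  · obtain ⟨e, rfl⟩ := hM
    exact h1 (by push_cast; exact Ideal.mul_mem_right _ _ (k k1))
  · have := h.big y hy
    rw [HeightOneSpectrum.ext ((q y).isMaximal.eq_of_le 𝔭.isPrime.ne_top k)] at this
    linarith

lemma p5_nu {M W : ℕ} {A B A' B' : 𝓞 F} (h1 : ((M * W : ℕ) : 𝓞 F) ∣ A - A')
    (h2 : ((M * W : ℕ) : 𝓞 F) ∣ B - B') (s y : 𝓞 F) : nu M W A B s y = nu M W A' B' s y := by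
  refine congrArg card (filter_congr fun t _ => ?_)
  rw [show cub A B (s + M * t) - y = cub A' B' (s + M * t) - y +
    ((A - A') * (s + M * t) + (B - B')) by simp only [cub]; ring]
  exact dvd_add_left (dvd_add (h1.mul_right _) h2)

lemma p5_rich {M W : ℕ} (hM : M ≠ 0) {x x' : mixedSpace F} {r r' u : ℝ} {A0 B0 : 𝓞 F}
    (S : Finset (𝓞 F × 𝓞 F)) (hS : S ⊆ cb (F := F) 0 W ×ˢ cb (F := F) 0 W)
    (hu : ∀ a b, u ≤ (#(cls x r (M * W) a) : ℝ) * #(cls x' r' (M * W) b)) :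
    #S * u ≤ #{z ∈ cls x r M A0 ×ˢ cls x' r' M B0 | ∃ w ∈ S,
      ((M * W : ℕ) : 𝓞 F) ∣ z.1 - (A0 + M * w.1) ∧ ((M * W : ℕ) : 𝓞 F) ∣ z.2 - (B0 + M * w.2)} := by
  have M0 : (M : 𝓞 F) ≠ 0 := by exact_mod_cast hM
  have k1 : ∀ {z a w : 𝓞 F}, ((M * W : ℕ) : 𝓞 F) ∣ z - (a + M * w) → (M : 𝓞 F) ∣ z - a :=
    fun {z a w} ⟨e, he⟩ => ⟨W * e + w, by push_cast at he; linear_combination he⟩
  have k2 : ∀ {z a w w' : 𝓞 F}, ((M * W : ℕ) : 𝓞 F) ∣ z - (a + M * w) →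
      ((M * W : ℕ) : 𝓞 F) ∣ z - (a + M * w') → (W : 𝓞 F) ∣ w - w' := fun {z a w w'} h h' => by
    have := dvd_sub h' h
    rwa [show z - (a + M * w') - (z - (a + M * w)) = M * (w - w') by ring, Nat.cast_mul,
      mul_dvd_mul_iff_left M0] at this
  rw [← nsmul_eq_mul]
  refine (card_nsmul_le_sum S (fun w => (#(cls x r (M * W) (A0 + M * w.1) ×ˢ
    cls x' r' (M * W) (B0 + M * w.2)) : ℝ)) u fun w _ => by
      rw [card_product, Nat.cast_mul]; exact hu _ _).trans ?_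
  rw [← Nat.cast_sum, Nat.cast_le, ← card_biUnion]
  · refine card_le_card (biUnion_subset.2 fun w hw z hz => ?_)
    obtain ⟨z1, z2⟩ := mem_product.1 hz
    rw [mem_cls] at z1 z2
    exact mem_filter.2 ⟨mem_product.2 ⟨mem_cls.2 ⟨z1.1, k1 z1.2⟩, mem_cls.2 ⟨z2.1, k1 z2.2⟩⟩,
      w, hw, z1.2, z2.2⟩
  · intro w hw w' hw' ne
    obtain ⟨w1, w2⟩ := mem_product.1 (hS hw)
    obtain ⟨w3, w4⟩ := mem_product.1 (hS hw')
    refine disjoint_left.2 fun z h h' => ne ?_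
    obtain ⟨z1, z2⟩ := mem_product.1 h
    obtain ⟨z3, z4⟩ := mem_product.1 h'
    exact Prod.ext (cb_eq w1 w3 (k2 (mem_cls.1 z1).2 (mem_cls.1 z3).2))
      (cb_eq w2 w4 (k2 (mem_cls.1 z2).2 (mem_cls.1 z4).2))

lemma p5_fail {M W : ℕ} {r μ V : ℝ} (μ0 : 0 < μ) {δ s : 𝓞 F} (Y S : Finset (𝓞 F))
    (Z : Finset (𝓞 F × 𝓞 F)) (p : 𝓞 F × 𝓞 F → Prop)
    (h1 : ∀ X : Finset (𝓞 F × 𝓞 F), (∀ z ∈ X, p z) →
      ∑ z ∈ X, (∑ t ∈ S, Fl W r Y (z.2 + gp M (δ ^ 3) s z.1 t)) ^ 2 ≤ V)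
    (h2 : ∀ x ∈ Z, ∃ b, cub x.1 x.2 s = δ ^ 3 * b ∧ p (x.1, b) ∧
      μ ≤ ∑ t ∈ S, rho W r Y (b + gp M (δ ^ 3) s x.1 t) ∧
      (#{t ∈ S | b + gp M (δ ^ 3) s x.1 t ∈ Y} : ℝ) < μ / 2) : #Z * (μ / 2) ^ 2 ≤ V := by
  choose! b b1 b2 b3 b4 using h2
  have inj : Set.InjOn (fun x : 𝓞 F × 𝓞 F => (x.1, b x)) Z := fun x hx x' hx' e => by
    obtain ⟨e1, e2⟩ := Prod.ext_iff.1 e
    have k1 := b1 x hx
    have k2 := b1 x' hx'
    simp only [cub] at k1 k2 e1 e2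
    exact Prod.ext e1 (by rw [e1, e2] at k1; linear_combination k1 - k2)
  refine le_trans ?_ (h1 (Z.image fun x => (x.1, b x)) fun z hz => by
    obtain ⟨x, hx, rfl⟩ := mem_image.1 hz
    exact b2 x hx)
  rw [sum_image inj, ← nsmul_eq_mul]
  refine card_nsmul_le_sum _ _ _ fun x hx => ?_
  have k1 := b3 x hx
  have k2 := b4 x hx
  simp only [Fl, sum_sub_distrib, sum_boole]
  nlinarith

theorem p5 (F : Type) [Field F] [NumberField F] : ∃ (M0 : ℕ) (c1 c : ℝ), M0 ≠ 0 ∧ 0 < c1 ∧ 0 < c ∧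
    ∀ M J : ℕ, M ≠ 0 → 2 ∣ M → M0 ∣ M → ∃ W : ℕ, W ≠ 0 ∧ ∀ D : Finset (𝓞 F), #D ≤ J →
    (∀ δ ∈ D, (∀ w : InfinitePlace F, 1 ≤ w (δ : F)) ∧ ((M * W : ℕ) : 𝓞 F) ∣ δ ^ 3 - 1) →
    ∃ c2 C : ℝ, 0 < c2 ∧ 0 < C ∧ ∀ᶠ T : ℝ in atTop, ∃ (Y : Finset (𝓞 F)) (q : 𝓞 F → Pr F),
      ∃ a0 ∈ cb (F := F) 0 M, Gen M0 c T Y q ∧ (∀ y ∈ Y, (M : 𝓞 F) ∣ y - a0) ∧ ∀ A0 : 𝓞 F,
      ∃ G ⊆ cls (((T ^ 2) ^ 2 / 2) • 1) ((T ^ 2) ^ 2 / 4) M A0 ×ˢ cls 0 ((T ^ 2) ^ 3 / 2) M a0,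
        c1 / Pw F M ^ 2 * ((T ^ 2) ^ 5 / M ^ 2) ^ dg F ≤ #G ∧ ∀ x ∈ G, ∀ δ ∈ D, ∀ s : 𝓞 F,
          δ ^ 3 ∣ cub x.1 x.2 s → (M : 𝓞 F) ∣ s → c2 * (T ^ 2) ^ dg F / Real.log T ≤
            #{s' ∈ bl (F := F) 0 (C * T ^ 2) | δ ^ 3 * M ∣ s' - s ∧
              ∃ y ∈ Y, cub x.1 x.2 s' = δ ^ 3 * y} := by
  obtain ⟨M0, c0, hM0, c00, hpr⟩ := primes F
  obtain ⟨e2, e20, h2⟩ := p2 F
  obtain ⟨e3, e30, h3⟩ := p3 F
  obtain ⟨L, L1, hL⟩ := cls_low F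
  obtain ⟨c1, hc1⟩ : ∃ c1, c1 = e3 * c0 ^ 2 / (32 * L ^ 2) ^ dg F / 2 := ⟨_, rfl⟩
  have c10 : 0 < c1 := by rw [hc1]; positivity
  refine ⟨M0, c1, c0, hM0, c10, c00, fun M J hM hM2 hMM => ?_⟩
  have P0 : 0 < Pw F M := zero_lt_one.trans_le (one_le_Pw M)
  have M1 : (0 : ℝ) < M := by positivity
  obtain ⟨ε, hε⟩ : ∃ ε, ε = c1 * (e2 * c0) ^ 2 / (16 * (J + 1) * Pw F M ^ 2 * ((M : ℝ) ^ dg F) ^ 4) :=
    ⟨_, rfl⟩
  obtain ⟨W, hW, h1⟩ := p1 F M hM (ε := ε) (by rw [hε]; positivity)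
  refine ⟨W, hW, fun D hJ hD => ?_⟩
  choose! τ τ0 τ1 h1 using h1
  choose! R R1 R2 using fun (δ : 𝓞 F) (h : δ ≠ 0) => p5_reps (pow_ne_zero 3 h)
  have W1 : (0 : ℝ) < W := by positivity
  obtain ⟨N, hN⟩ : ∃ N : ℝ, N = 1 + ∑ δ ∈ D, (nz δ : ℝ) ^ 2 := ⟨_, rfl⟩
  have N0 : 0 < N := by rw [hN]; positivity
  refine ⟨e2 * c0 / (4 * M ^ dg F * N), 3 * (1 + ∑ δ ∈ D, ‖emb F δ‖), by positivity, by positivity, ?_⟩
  have ev : ∀ᶠ T : ℝ in atTop, ∀ δ ∈ D, ∀ σ ∈ R δ, _ ∧ _ ∧ 2 * ‖emb F (M * σ)‖ ≤ T :=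
    (D.eventually_all).2 fun δ hδ => ((R δ).eventually_all).2 fun σ _ =>
      (h1 δ (M * σ) (hD δ hδ).1).and ((h2 M W δ (M * σ) 0 (τ δ (M * σ)) hM hW (hD δ hδ).1 (by simp)
        (hD δ hδ).2 (τ0 _ _ (hD δ hδ).1) (τ1 _ _ (hD δ hδ).1)).and (eventually_ge_atTop _))
  filter_upwards [hpr, h3 M W c0 hM hW hM2 c00, ev, eventually_gt_atTop 1,
    eventually_gt_atTop (1 / c0), eventually_ge_atTop (8 * L * (M * W))] with T hT h3 ev T1 T2 T3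
  obtain ⟨Y0, q, g0, g1⟩ := hT
  obtain ⟨a0, ha0, g2⟩ := p5_class hM Y0
  obtain ⟨Y, hY⟩ : ∃ Y, Y = {y ∈ Y0 | (M : 𝓞 F) ∣ y - a0} := ⟨_, rfl⟩
  rw [← hY] at g2
  have sub : ∀ y ∈ Y, y ∈ Y0 ∧ (M : 𝓞 F) ∣ y - a0 := fun y hy => mem_filter.1 (hY ▸ hy)
  have T0 : 0 < T := by linarith
  have l0 := Real.log_pos T1
  have up : ∀ {i j : ℕ}, i ≤ j → T ^ i ≤ T ^ j := fun h => pow_le_pow_right₀ T1.le h
  have g3 : c0 * (T ^ 6 / M) ^ dg F / Real.log T ≤ #Y := by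
    refine le_trans (le_of_eq ?_) ((div_le_div_of_nonneg_right g1 (by positivity)).trans g2)
    rw [div_pow]; ring
  have out : ∀ y ∈ Y, ∀ 𝔭 : Pr F, (M : 𝓞 F) ∉ 𝔭.asIdeal → (nm 𝔭 : ℝ) ≤ T ^ 2 → y ∉ 𝔭.asIdeal :=
    fun y hy => p5_out g0 hMM (by
      rw [div_lt_iff₀' c00] at T2
      calc T ^ 2 < c0 * T * T ^ 2 := lt_mul_of_one_lt_left (by positivity) T2
        _ = c0 * T ^ 3 := by ring
        _ ≤ _ := by
          rw [← pow_mul]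
          exact mul_le_mul_of_nonneg_left (up (by have := dg_pos F; omega)) c00.le) (sub y hy).1
  have sift : Sift M (T ^ 2) Y := fun 𝔭 k1 k2 => ⟨0, fun y hy => by simpa using out y hy 𝔭 k1 k2⟩
  refine ⟨Y, q, a0, ha0, ⟨fun y hy => g0.size y (sub y hy).1, fun y hy => g0.big y (sub y hy).1,
    fun y hy => g0.gen y (sub y hy).1, g0.inj.mono fun y hy => (sub y hy).1⟩,
    fun y hy => (sub y hy).2, fun A0 => ?_⟩
  have r1 := h3 Y a0 A0 a0 0 (fun y hy => ⟨g0.size y (sub y hy).1, (sub y hy).2, out y hy⟩) g3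
    (by simp [cub])
  obtain ⟨X, hX⟩ : ∃ X, X = {z ∈ cls (((T ^ 2) ^ 2 / 2) • 1) ((T ^ 2) ^ 2 / 4) M A0 ×ˢ
    cls 0 ((T ^ 2) ^ 3 / 2) M a0 | #Y ≤ 2 * ∑ y ∈ Y, nu M W z.1 z.2 0 y} := ⟨_, rfl⟩
  have r2 : 2 * (c1 / Pw F M ^ 2 * ((T ^ 2) ^ 5 / M ^ 2) ^ dg F) ≤ #X := by
    have k1 := p5_rich hM (x := ((T ^ 2) ^ 2 / 2) • 1) (x' := 0) (r := (T ^ 2) ^ 2 / 4)
      (r' := (T ^ 2) ^ 3 / 2) (A0 := A0) (B0 := a0)
      (u := ((T ^ 2) ^ 2 / 4 / (M * W : ℕ) / (2 * L)) ^ dg F *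
        ((T ^ 2) ^ 3 / 2 / (M * W : ℕ) / (2 * L)) ^ dg F) _ (filter_subset (fun z =>
          #Y ≤ 2 * ∑ y ∈ Y, nu M W (A0 + (M : 𝓞 F) * z.1) (a0 + (M : 𝓞 F) * z.2) 0 y) _) fun a b => by
        have t4 := up (i := 1) (j := 2 * 2) (by norm_num)
        have t6 := up (i := 1) (j := 2 * 3) (by norm_num)
        rw [pow_one, pow_mul] at t4 t6
        exact mul_le_mul (hL _ _ _ a (mul_ne_zero hM hW) (by push_cast; linarith))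
          (hL _ _ _ b (mul_ne_zero hM hW) (by push_cast; linarith)) (by positivity) (by positivity)
    refine le_trans (le_of_eq ?_) ((mul_le_mul_of_nonneg_right r1 (by positivity)).trans
      (k1.trans (Nat.cast_le.2 (card_le_card fun z hz => ?_))))
    · rw [hc1, ← mul_pow, show (T ^ 2) ^ 2 / 4 / (M * W : ℕ) / (2 * L) *
        ((T ^ 2) ^ 3 / 2 / (M * W : ℕ) / (2 * L)) = (T ^ 2) ^ 5 / M ^ 2 / (32 * L ^ 2) / (W : ℝ) ^ 2 by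
          push_cast; field_simp; norm_num, div_pow _ ((W : ℝ) ^ 2), div_pow _ (32 * _)]
      field_simp
    · obtain ⟨z1, w, z2, z3, z4⟩ := mem_filter.1 hz
      rw [hX]
      exact mem_filter.2 ⟨z1, by simpa only [p5_nu z3 z4] using (mem_filter.1 z2).2⟩
  obtain ⟨μ, hμ⟩ : ∃ μ : 𝓞 F → ℝ, μ = fun δ =>
    e2 * c0 * (T ^ 2) ^ dg F / (2 * M ^ dg F * (nz δ : ℝ) ^ 2 * Real.log T) := ⟨_, rfl⟩
  obtain ⟨Z, hZ⟩ : ∃ Z : 𝓞 F → 𝓞 F → Finset (𝓞 F × 𝓞 F), Z = fun δ σ => {x ∈ X | ∃ b,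
    cub x.1 x.2 ((M : 𝓞 F) * σ) = δ ^ 3 * b ∧ (#{t ∈ Sset M δ (M * σ) T |
      b + gp M (δ ^ 3) ((M : 𝓞 F) * σ) x.1 t ∈ Y} : ℝ) < μ δ / 2} := ⟨_, rfl⟩
  have f1 : ∀ δ ∈ D, ∀ σ ∈ R δ, (#(Z δ σ) : ℝ) ≤
      c1 / Pw F M ^ 2 * ((T ^ 2) ^ 5 / M ^ 2) ^ dg F / (J + 1) / (nz δ : ℝ) ^ 3 := fun δ hδ σ hσ => by
    obtain ⟨k1, k2, k3⟩ := ev δ hδ σ hσ
    have n0 := nz_pos (one_le_emb (hD δ hδ).1)
    have μ0 : 0 < μ δ := by rw [hμ]; positivity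
    have t0 := τ0 δ (M * σ) (hD δ hδ).1
    have k4 := p5_fail μ0 Y (Sset M δ (M * σ) T) (Z δ σ) _
      (fun X' => k1 (M * W) (τ δ (M * σ) * T ^ 6 / (M * W)) Y X' (mul_ne_zero hM hW)
        (dvd_mul_left _ _) (by positivity) (le_of_eq (by push_cast; field_simp)) sift) fun x hx => by
        rw [hZ] at hx
        obtain ⟨x1, b, x2, x3⟩ := mem_filter.1 hx
        rw [hX] at x1
        obtain ⟨x4, x5⟩ := mem_filter.1 x1
        obtain ⟨x6, x7⟩ := mem_product.1 x4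
        have nA : ‖emb F x.1‖ ≤ T ^ 4 := by
          have a1 := norm_le_norm_add_norm_sub' (emb F x.1) (((T ^ 2) ^ 2 / 2) • 1)
          have a2 : ‖((T ^ 2) ^ 2 / 2) • (1 : mixedSpace F)‖ ≤ (T ^ 2) ^ 2 / 2 := by
            rw [_root_.norm_smul, Real.norm_of_nonneg (by positivity)]
            exact mul_le_of_le_one_right (by positivity) norm_one_le
          nlinarith [(mem_cls.1 x6).1, pow_pos T0 4]
        have nB : ‖emb F x.2‖ ≤ T ^ 6 / 2 := by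
          simpa [← pow_mul] using (mem_cls.1 x7).1
        refine ⟨b, x2, ⟨nA, ?_⟩, le_trans ?_ (k2 Y x.1 x.2 b (fun y hy => g0.size y (sub y hy).1) nA
          (nB.trans (half_le_self (by positivity))) x2), x3⟩
        · have a3 : ‖emb F (M * σ)‖ ≤ T / 2 := by linarith
          change ‖emb F (δ ^ 3 * b)‖ ≤ _
          rw [← x2, cub, map_add, map_add, map_pow, map_mul _ x.1]
          refine norm_add₃_le.trans ((add_le_add (add_le_add ((norm_pow_le' _ three_pos).trans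
            (pow_le_pow_left₀ (norm_nonneg _) a3 3)) ((norm_mul_le _ _).trans
              (mul_le_mul nA a3 (norm_nonneg _) (by positivity)))) nB).trans ?_)
          nlinarith [up (i := 3) (j := 6) (by norm_num), up (i := 5) (j := 6) (by norm_num),
            pow_pos T0 6]
        · have a4 : (#Y : ℝ) / 2 ≤ ∑ y ∈ Y, (nu M W x.1 x.2 0 y : ℝ) := by
            rw [div_le_iff₀' two_pos]; exact_mod_cast x5
          calc μ δ = e2 * (c0 * (T ^ 6 / M) ^ dg F / Real.log T / 2) /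
                ((T ^ 4) ^ dg F * (nz δ : ℝ) ^ 2) := by
                rw [hμ, show T ^ 6 = T ^ 2 * T ^ 4 by ring, div_pow, mul_pow]
                field_simp
            _ ≤ _ := by gcongr; exact le_trans (by gcongr) a4
    refine le_of_mul_le_mul_right (k4.trans (le_of_eq ?_)) (by positivity)
    rw [hε, hμ, show T ^ 14 = (T ^ 2) ^ 5 * (T ^ 2 * T ^ 2) by ring, div_pow _ ((M : ℝ) ^ 2),
      mul_pow _ (T ^ 2 * _), mul_pow (T ^ 2) (T ^ 2), pow_right_comm (M : ℝ) 2]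
    field_simp
    norm_num
  refine ⟨X \ D.biUnion fun δ => (R δ).biUnion (Z δ), sdiff_subset.trans (hX ▸ filter_subset _ _),
    ?_, fun x hx δ hδ s hs ⟨s1, hs1⟩ => ?_⟩
  · obtain ⟨U, hU⟩ : ∃ U, U = c1 / Pw F M ^ 2 * ((T ^ 2) ^ 5 / M ^ 2) ^ dg F := ⟨_, rfl⟩
    have U0 : 0 ≤ U := by rw [hU]; positivity
    rw [← hU] at r2 f1 ⊢
    have k1 : (#(D.biUnion fun δ => (R δ).biUnion (Z δ)) : ℝ) ≤ ∑ δ ∈ D, ∑ σ ∈ R δ, (#(Z δ σ) : ℝ) := by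
      exact_mod_cast card_biUnion_le.trans (sum_le_sum fun δ _ => card_biUnion_le)
    have k2 : ∑ δ ∈ D, ∑ σ ∈ R δ, (#(Z δ σ) : ℝ) ≤ #D • (U / (J + 1)) :=
      sum_le_card_nsmul _ _ _ fun δ hδ => (sum_le_card_nsmul _ _ _ (f1 δ hδ)).trans (by
        have n0 := one_le_emb (hD δ hδ).1
        have := R1 δ n0
        rw [nz_pow] at this
        rw [nsmul_eq_mul, mul_div_assoc', div_le_iff₀' (pow_pos (nz_pos n0) 3)]
        gcongr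
        exact_mod_cast this)
    have k3 : #D • (U / (J + 1)) ≤ U := by
      rw [nsmul_eq_mul, mul_div_assoc', div_le_iff₀' (by positivity)]
      gcongr
      exact_mod_cast hJ.trans (Nat.le_succ J)
    have k4 : (#X : ℝ) ≤ #(X \ D.biUnion fun δ => (R δ).biUnion (Z δ)) +
        #(D.biUnion fun δ => (R δ).biUnion (Z δ)) := by exact_mod_cast card_le_card_sdiff_add_card
    linarith
  · obtain ⟨x1, x2⟩ := mem_sdiff.1 hx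
    have n0 := one_le_emb (hD δ hδ).1
    obtain ⟨σ, σ1, e, he⟩ := R2 δ n0 s1
    obtain ⟨b, hb⟩ : δ ^ 3 ∣ cub x.1 x.2 (M * σ) := by
      have : δ ^ 3 ∣ cub x.1 x.2 s - cub x.1 x.2 (M * σ) :=
        ⟨M * e * (s ^ 2 + s * (M * σ) + (M * σ) ^ 2 + x.1), by
          simp only [cub]
          linear_combination (s ^ 2 + s * (M * σ) + (M * σ) ^ 2 + x.1) * (hs1 + (M : 𝓞 F) * he)⟩
      simpa using dvd_sub hs this
    have k1 : μ δ / 2 ≤ #{t ∈ Sset M δ (M * σ) T | b + gp M (δ ^ 3) ((M : 𝓞 F) * σ) x.1 t ∈ Y} :=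
      not_lt.1 fun k => x2 (mem_biUnion.2 ⟨δ, hδ, mem_biUnion.2 ⟨σ, σ1, by
        rw [hZ]; exact mem_filter.2 ⟨x1, b, hb, k⟩⟩⟩)
    have k2 : (nz δ : ℝ) ^ 2 ≤ N := hN ▸ le_add_of_nonneg_of_le zero_le_one
      (single_le_sum (f := fun δ : 𝓞 F => (nz δ : ℝ) ^ 2) (fun _ _ => by positivity) hδ)
    refine le_trans ?_ (k1.trans (Nat.cast_le.2 (card_le_card_of_injOn
      (fun t => M * σ + δ ^ 3 * M * t) (fun t ht => ?_) fun t _ t' _ h => mul_left_cancel₀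
        (mul_ne_zero (pow_ne_zero 3 n0) (by exact_mod_cast hM)) (add_left_cancel h))))
    · have := nz_pos n0
      calc _ = e2 * c0 * (T ^ 2) ^ dg F / (2 * M ^ dg F * N * Real.log T) / 2 := by
            field_simp; norm_num
        _ ≤ _ := by simp only [hμ]; gcongr
    · obtain ⟨t1, t2⟩ := mem_filter.1 (mem_coe.1 ht)
      refine mem_coe.2 (mem_filter.2 ⟨mem_bl.2 ?_, ⟨t - e, by linear_combination -hs1 - (M : 𝓞 F) * he⟩,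
        _, t2, by rw [cub_gp, hb, mul_add]⟩)
      have d0 : (δ : F) ≠ 0 := by exact_mod_cast n0
      have k3 : emb F (M * σ + δ ^ 3 * M * t) =
          emb F δ * mixedEmbedding F (((M * σ + δ ^ 3 * M * t : 𝓞 F) : F) / δ) := by
        rw [emb, RingHom.comp_apply, RingHom.comp_apply, ← map_mul]
        exact congrArg _ (mul_div_cancel₀ _ d0).symm
      have k4 : ‖emb F δ‖ ≤ 1 + ∑ δ ∈ D, ‖emb F δ‖ := le_add_of_nonneg_of_le zero_le_one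
        (single_le_sum (f := fun δ : 𝓞 F => ‖emb F δ‖) (fun _ _ => norm_nonneg _) hδ)
      rw [sub_zero, k3]
      exact (norm_mul_le _ _).trans ((mul_le_mul k4 (mem_filter.1 t1).2 (norm_nonneg _)
        (by positivity)).trans (le_of_eq (by ring)))

end Pool.Agent.Lib.MP_7cad78_nt.R2
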