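import Pool.Agent.Lib.MP_a009d0_nt.W.Vau

/-! The argument of Chebyshev for an abstract pair of arithmetic functions. -/

namespace Pool.Agent.Lib.MP_7cad78_nt.R2

open Finset Filter Pool.Agent.Lib.MP_a009d0_nt.W

lemma tri {f : ℕ → ℂ} {c C : ℝ} (hc : 0 < c) (h : ∀ M M' : ℕ, 1 ≤ M → M' ≤ 3 * M →
    ‖∑ n ∈ Ioc M M', f n‖ ≤ C * (M : ℝ) ^ (1 - c)) : ∃ s D : ℝ, 0 < s ∧ s < 1 ∧ 0 ≤ D ∧
      ∀ t : ℕ, ‖∑ n ∈ Ioc 0 t, f n‖ ≤ D * (t : ℝ) ^ s := by
  have C0 : 0 ≤ C := by simpa using h 1 1 le_rfl (by norm_num)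
  set s := max (1 - c) (1 / 2) with hs
  have s1 : 1 / 2 ≤ s := le_max_right _ _
  refine ⟨s, 5 * C + ‖f 1‖, by linarith, max_lt (by linarith) (by norm_num), by positivity,
    fun t => ?_⟩
  induction t using Nat.strong_induction_on with
  | _ t ih =>
    rcases Nat.lt_or_ge t 2 with h2 | h2
    · interval_cases t
      · rw [Ioc_self, sum_empty, norm_zero]; positivity
      · simp only [Nat.Ioc_succ_singleton, sum_singleton, Nat.cast_one, Real.one_rpow]
        norm_num; linarith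
    · set M := (t + 2) / 3 with hM
      have M1 : (1 : ℝ) ≤ M := by exact_mod_cast (by omega : 1 ≤ M)
      have a1 := ih M (by omega)
      have a2 := (h M t (by omega) (by omega)).trans (mul_le_mul_of_nonneg_left
        (Real.rpow_le_rpow_of_exponent_le M1 (le_max_left (1 - c) (1 / 2))) C0)
      have a3 : (M : ℝ) ^ s ≤ 5 / 6 * (t : ℝ) ^ s := by
        have b1 : (M : ℝ) ≤ 2 / 3 * t := by
          have : ((3 * M : ℕ) : ℝ) ≤ (2 * t : ℕ) := by exact_mod_cast (by omega : 3 * M ≤ 2 * t)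
          push_cast at this; linarith
        refine (Real.rpow_le_rpow (by positivity) b1 (by linarith)).trans ?_
        rw [Real.mul_rpow (by norm_num) (by positivity)]
        refine mul_le_mul_of_nonneg_right ?_ (by positivity)
        refine (Real.rpow_le_rpow_of_exponent_ge (by norm_num) (by norm_num) s1).trans ?_
        rw [← Real.sqrt_eq_rpow]
        exact Real.sqrt_le_iff.2 ⟨by norm_num, by norm_num⟩
      rw [← sum_Ioc_consecutive _ (Nat.zero_le M) (by omega : M ≤ t)]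
      refine (norm_add_le _ _).trans ((add_le_add a1 a2).trans ?_)
      have b2 := mul_le_mul_of_nonneg_left a3 (by positivity : 0 ≤ 6 * C + ‖f 1‖)
      have b3 : 0 ≤ ‖f 1‖ * (t : ℝ) ^ s := by positivity
      rw [← hs]
      linarith

lemma dy {g : ℕ → ℝ} {D s : ℝ} (g0 : ∀ n, 0 ≤ g n) (h : ∀ y : ℕ, ∑ m ∈ Ioc 0 y, g m ≤ D * y)
    (s0 : 0 < s) (s1 : s < 1) : ∃ E : ℝ, 0 ≤ E ∧
      ∀ y : ℕ, ∑ m ∈ Ioc 0 y, g m * (m : ℝ) ^ (-s) ≤ E * (y : ℝ) ^ (1 - s) := by
  have D0 : 0 ≤ D := by simpa using (sum_nonneg fun n _ => g0 n).trans (h 1)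
  set r : ℝ := (1 / 2) ^ (1 - s) with hr
  have r1 : r < 1 := Real.rpow_lt_one (by norm_num) (by norm_num) (by linarith)
  have r2 : 0 < 1 - r := by linarith
  refine ⟨2 * D / (1 - r), by positivity, fun y => ?_⟩
  induction y using Nat.strong_induction_on with
  | _ y ih =>
    rcases Nat.eq_zero_or_pos y with rfl | hy
    · rw [Ioc_self, sum_empty]; positivity
    · have y0 : (0 : ℝ) < y := by exact_mod_cast hy
      have a1 := ih (y / 2) (by omega)
      have a2 : ((y / 2 : ℕ) : ℝ) ^ (1 - s) ≤ r * (y : ℝ) ^ (1 - s) := by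
        rw [hr, ← Real.mul_rpow (by norm_num) y0.le]
        refine Real.rpow_le_rpow (by positivity) ?_ (by linarith)
        have := Nat.cast_div_le (α := ℝ) (m := y) (n := 2)
        push_cast at this; linarith
      have a3 : ∑ m ∈ Ioc (y / 2) y, g m * (m : ℝ) ^ (-s) ≤ D * y * ((y : ℝ) / 2) ^ (-s) := by
        refine le_trans (sum_le_sum fun m hm => mul_le_mul_of_nonneg_left
          (Real.rpow_le_rpow_of_nonpos (x := (y : ℝ) / 2) (by positivity) ?_ (by linarith))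
          (g0 m)) ?_
        · have : (y : ℝ) ≤ (2 * m : ℕ) := by
            exact_mod_cast (by have := (mem_Ioc.1 hm).1; omega : y ≤ 2 * m)
          push_cast at this; linarith
        · rw [← sum_mul]
          exact mul_le_mul_of_nonneg_right ((sum_le_sum_of_subset_of_nonneg
            (Ioc_subset_Ioc_left (Nat.zero_le _)) fun n _ _ => g0 n).trans (h y)) (by positivity)
      have a4 : (y : ℝ) * ((y : ℝ) / 2) ^ (-s) ≤ 2 * (y : ℝ) ^ (1 - s) := by
        rw [Real.div_rpow y0.le zero_le_two, Real.rpow_neg zero_le_two, div_inv_eq_mul,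
          ← mul_assoc, sub_eq_add_neg, Real.rpow_add y0, Real.rpow_one, mul_comm (2 : ℝ)]
        refine mul_le_mul_of_nonneg_left ?_ (by positivity)
        simpa using Real.rpow_le_rpow_of_exponent_le one_le_two s1.le
      rw [← sum_Ioc_consecutive _ (Nat.zero_le (y / 2)) (by omega : y / 2 ≤ y)]
      have a5 := mul_le_mul_of_nonneg_left a2 (by positivity : 0 ≤ 2 * D / (1 - r))
      have a6 := mul_le_mul_of_nonneg_left a4 D0
      have a7 : 2 * D / (1 - r) * (r * (y : ℝ) ^ (1 - s)) + D * (2 * (y : ℝ) ^ (1 - s)) =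
          2 * D / (1 - r) * (y : ℝ) ^ (1 - s) := by field_simp; ring
      linarith

lemma pp_le {L : ℕ → ℂ} (h1 : Small L) (h2 : ∀ n, 0 < n → L n ≠ 0 → IsPrimePow n) :
    ∃ E : ℝ, 0 ≤ E ∧ ∀ y : ℕ, ∑ m ∈ Ioc 0 y with ¬ m.Prime, ‖L m‖ ≤ E * (y : ℝ) ^ (3 / 4 : ℝ) := by
  obtain ⟨C, hC⟩ := h1 (1 / 8) (by norm_num)
  have C0 : 0 ≤ C := by simpa using (norm_nonneg _).trans (hC 1 le_rfl)
  have l2 : 0 < Real.log 2 := Real.log_pos one_lt_two
  refine ⟨C / Real.log 2 * 16, by positivity, fun y => ?_⟩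
  rcases Nat.eq_zero_or_pos y with rfl | hy
  · rw [Ioc_self, filter_empty, sum_empty]; positivity
  have y1 : (1 : ℝ) ≤ y := by exact_mod_cast hy
  have y0 : (0 : ℝ) < y := by linarith
  have a1 : ∑ m ∈ Ioc 0 y with ¬ m.Prime, ArithmeticFunction.vonMangoldt m ≤
      2 * √y * Real.log y := by
    refine le_trans (le_of_eq ?_)
      ((le_abs_self _).trans (Chebyshev.abs_psi_sub_theta_le_sqrt_mul_log y1))
    rw [Chebyshev.psi, Chebyshev.theta, Nat.floor_natCast, eq_sub_iff_add_eq',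
      ← sum_filter_add_sum_filter_not (Ioc 0 y) Nat.Prime]
    congr 1
    exact sum_congr rfl fun p hp => (ArithmeticFunction.vonMangoldt_apply_prime
      (mem_filter.1 hp).2).symm
  have a2 : ∀ m ∈ Ioc 0 y, ‖L m‖ ≤
      C / Real.log 2 * (y : ℝ) ^ (1 / 8 : ℝ) * ArithmeticFunction.vonMangoldt m := fun m hm => by
    obtain ⟨m0, m1⟩ := mem_Ioc.1 hm
    by_cases h : L m = 0
    · rw [h, norm_zero]
      exact mul_nonneg (by positivity) ArithmeticFunction.vonMangoldt_nonneg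
    · have hp := h2 m m0 h
      have b1 : Real.log 2 ≤ ArithmeticFunction.vonMangoldt m := by
        rw [ArithmeticFunction.vonMangoldt_apply, if_pos hp]
        exact Real.log_le_log two_pos (by exact_mod_cast (Nat.minFac_prime hp.ne_one).two_le)
      refine (hC m m0).trans (le_trans ?_ (mul_le_mul_of_nonneg_left b1 (by positivity)))
      rw [mul_right_comm, div_mul_cancel₀ _ l2.ne']
      gcongr
  refine (sum_le_sum fun m hm => a2 m (mem_filter.1 hm).1).trans ?_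
  rw [← mul_sum]
  refine (mul_le_mul_of_nonneg_left (a1.trans (mul_le_mul_of_nonneg_left
    (Real.log_le_rpow_div y0.le (by norm_num : (0 : ℝ) < 1 / 8)) (by positivity)))
    (by positivity)).trans_eq ?_
  rw [Real.sqrt_eq_rpow, show (3 / 4 : ℝ) = 1 / 8 + (1 / 2 + 1 / 8) by norm_num, Real.rpow_add y0,
    Real.rpow_add y0]
  ring

lemma conv_shift {a b L : ℕ → ℂ} {N : ℕ} (hN : N ≠ 0) (b1 : ∀ k, b (N * k) = a k)
    (b2 : ∀ n, ¬ N ∣ n → b n = 0)
    (h : ∀ n, 0 < n → ∑ x ∈ n.divisorsAntidiagonal, L x.1 * a x.2 = a n * Real.log n)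
    {n : ℕ} (hn : 0 < n) : ∑ x ∈ n.divisorsAntidiagonal, L x.1 * b x.2 =
      b n * Real.log n - b n * Real.log N := by
  by_cases hd : N ∣ n
  · obtain ⟨k, rfl⟩ := hd
    have k0 : 0 < k := Nat.pos_of_mul_pos_left hn
    rw [b1, Nat.cast_mul, Real.log_mul (by exact_mod_cast hN) (by exact_mod_cast k0.ne'),
      Complex.ofReal_add, mul_add, add_sub_cancel_left, ← h k k0,
      Nat.sum_divisorsAntidiagonal fun x y => L x * b y,
      Nat.sum_divisorsAntidiagonal fun x y => L x * a y,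
      ← sum_subset (Nat.divisors_subset_of_dvd hn.ne' (dvd_mul_left k N)) fun m h1 h2 => ?_]
    · exact sum_congr rfl fun m hm => by
        rw [Nat.mul_div_assoc _ (Nat.dvd_of_mem_divisors hm), b1]
    · rw [b2 _ fun h3 => h2 ?_, mul_zero]
      obtain ⟨j, hj⟩ := h3
      rw [Nat.div_eq_iff_eq_mul_left (Nat.pos_of_mem_divisors h1) (Nat.dvd_of_mem_divisors h1),
        mul_assoc] at hj
      exact Nat.mem_divisors.2 ⟨⟨j, by rw [mul_left_cancel₀ hN hj, mul_comm]⟩, k0.ne'⟩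
  · rw [b2 n hd, zero_mul, zero_mul, sub_zero]
    refine sum_eq_zero fun x hx => ?_
    rw [b2 _ fun h => hd (h.trans (Nat.dvd_of_mem_divisors
      (Nat.snd_mem_divisors_of_mem_antidiagonal hx))), mul_zero]

lemma ev_small {s A c : ℝ} (s1 : s < 1) (hc : 0 < c) :
    ∀ᶠ x : ℕ in atTop, A * ((x : ℝ) ^ s * (1 + Real.log x)) ≤ c * x := by
  have e0 : 0 < (1 - s) / 2 := by linarith
  have h1 := ((tendsto_rpow_neg_atTop e0).const_mul (|A| * (1 + 1 / ((1 - s) / 2)))).comp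
    tendsto_natCast_atTop_atTop
  rw [mul_zero] at h1
  filter_upwards [h1.eventually (ge_mem_nhds hc), eventually_ge_atTop 1] with x hx x1
  have x1' : (1 : ℝ) ≤ x := by exact_mod_cast x1
  have x0 : (0 : ℝ) < x := by linarith
  have a1 := Real.log_le_rpow_div x0.le e0
  have a2 := Real.one_le_rpow x1' e0.le
  have a3 : 1 + Real.log x ≤ (1 + 1 / ((1 - s) / 2)) * (x : ℝ) ^ ((1 - s) / 2) := by
    rw [div_eq_mul_one_div] at a1
    linarith
  have a4 : 0 ≤ Real.log x := Real.log_nonneg x1'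
  refine (mul_le_mul (le_abs_self A) (mul_le_mul_of_nonneg_left a3 (by positivity))
    (by positivity) (abs_nonneg _)).trans (le_trans (le_of_eq ?_)
      (mul_le_mul_of_nonneg_right hx x0.le))
  have : (x : ℝ) ^ s * (x : ℝ) ^ ((1 - s) / 2) = (x : ℝ) ^ (-((1 - s) / 2)) * x := by
    rw [← Real.rpow_add x0, ← Real.rpow_add_one x0.ne']; congr 1; ring
  simp only [Function.comp_apply]
  linear_combination |A| * (1 + 1 / ((1 - s) / 2)) * this

theorem cheb_abs {f b L : ℕ → ℂ} {u : ℕ → ℝ} {c C d κ l : ℝ} (hc : 0 < c)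
    (h : ∀ M M' : ℕ, 1 ≤ M → M' ≤ 3 * M → ‖∑ n ∈ Ioc M M', f n‖ ≤ C * (M : ℝ) ^ (1 - c))
    (e : ∀ n, 0 < n → ∑ x ∈ n.divisorsAntidiagonal, L x.1 * f x.2 = f n * Real.log n - b n * l)
    (hl : 0 < l) (hκ : 0 < κ) (hb : ∀ᶠ x : ℕ in atTop, κ * x ≤ ‖∑ n ∈ Ioc 0 x, b n‖)
    (h1 : Small L) (h2 : ∀ n, 0 < n → L n ≠ 0 → IsPrimePow n)
    (h3 : ∀ p : ℕ, p.Prime → ‖L p‖ ≤ u p * Real.log p) (u0 : ∀ p, 0 ≤ u p)
    (u1 : ∀ p : ℕ, p.Prime → u p ≤ d) :
    ∃ (K : ℕ) (c' : ℝ), 0 < K ∧ 0 < c' ∧ ∀ᶠ x : ℕ in atTop,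
      c' * x ≤ Real.log x * ∑ p ∈ Ioc (x / K) x with p.Prime, u p := by
  obtain ⟨s, D, s0, s1, D0, hD⟩ := tri hc h
  obtain ⟨E, E0, hE⟩ := pp_le h1 h2
  have d0 : 0 ≤ d := (u0 2).trans (u1 2 Nat.prime_two)
  have g1 : ∀ y : ℕ, ∑ m ∈ Ioc 0 y, ‖L m‖ ≤ (d * Real.log 4 + E) * y := fun y => by
    rw [← sum_filter_add_sum_filter_not _ Nat.Prime, add_mul, mul_assoc]
    refine add_le_add ?_ ((hE y).trans (mul_le_mul_of_nonneg_left ?_ E0))
    · refine le_trans ?_ (mul_le_mul_of_nonneg_left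
        (Chebyshev.theta_le_log4_mul_x (Nat.cast_nonneg y)) d0)
      rw [Chebyshev.theta, Nat.floor_natCast, mul_sum]
      exact sum_le_sum fun p hp => (h3 p (mem_filter.1 hp).2).trans
        (mul_le_mul_of_nonneg_right (u1 p (mem_filter.1 hp).2) (Real.log_natCast_nonneg p))
    · rcases Nat.eq_zero_or_pos y with rfl | hy
      · simp
      · simpa using Real.rpow_le_rpow_of_exponent_le (x := y) (by exact_mod_cast hy)
          (by norm_num : (3 / 4 : ℝ) ≤ 1)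
  obtain ⟨G, G0, hG⟩ := dy (fun n => norm_nonneg (L n)) g1 s0 s1
  have t1 := ((tendsto_rpow_neg_atTop (sub_pos.2 s1)).const_mul (D * G)).comp
    tendsto_natCast_atTop_atTop
  rw [mul_zero] at t1
  have k0 : 0 < κ * l / 4 := by positivity
  obtain ⟨K, hK, K1⟩ := ((t1.eventually (ge_mem_nhds k0)).and (eventually_gt_atTop 0)).exists
  have K0 : (1 : ℝ) ≤ K := by exact_mod_cast K1
  refine ⟨K, κ * l / 4 / (D * K + 1), K1, by positivity, ?_⟩
  filter_upwards [hb, ev_small (A := 2 * D) s1 k0, ev_small (A := D * K * E)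
    (by norm_num : (3 / 4 : ℝ) < 1) k0, eventually_ge_atTop 1] with x hx x1 x2 x3
  have x4 : (1 : ℝ) ≤ x := by exact_mod_cast x3
  have x0 : (0 : ℝ) < x := by linarith
  have lx : 0 ≤ Real.log x := Real.log_nonneg x4
  set P := ∑ p ∈ Ioc (x / K) x with p.Prime, u p with hP
  have P0 : 0 ≤ P := sum_nonneg fun p _ => u0 p
  have a1 := vau_abel f _ vau_log_mono Real.log_natCast_nonneg 0 x (D * (x : ℝ) ^ s) fun n hn =>
    (hD n).trans (by gcongr)
  have a2 : (∑ n ∈ Ioc 0 x, b n) * l = ∑ n ∈ Ioc 0 x, f n * Real.log n -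
      ∑ m ∈ Ioc 0 x, vauA L m * ∑ k ∈ Ioc 0 (x / m), vauA f k := by
    rw [← ArithmeticFunction.sum_Ioc_mul_eq_sum_sum, ← sum_sub_distrib, sum_mul]
    exact sum_congr rfl fun n hn => by rw [vauA_mul, e n (mem_Ioc.1 hn).1]; ring
  have a3 : ‖∑ m ∈ Ioc 0 x, vauA L m * ∑ k ∈ Ioc 0 (x / m), vauA f k‖ ≤
      ∑ m ∈ Ioc 0 x, D * (‖L m‖ * ((x : ℝ) / m) ^ s) := (norm_sum_le _ _).trans
    (sum_le_sum fun m hm => by
      rw [norm_mul, vauA_pos _ (mem_Ioc.1 hm).1, sum_congr rfl fun k hk => vauA_pos f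
        (mem_Ioc.1 hk).1, mul_left_comm]
      refine mul_le_mul_of_nonneg_left ((hD _).trans ?_) (norm_nonneg _)
      gcongr
      exact Nat.cast_div_le)
  have a4 : ∑ m ∈ Ioc 0 (x / K), D * (‖L m‖ * ((x : ℝ) / m) ^ s) ≤ κ * l / 4 * x := by
    have b1 : ((x / K : ℕ) : ℝ) ^ (1 - s) ≤ (x : ℝ) ^ (1 - s) * (K : ℝ) ^ (-(1 - s)) := by
      rw [Real.rpow_neg (by linarith), ← div_eq_mul_inv, ← Real.div_rpow x0.le (by linarith)]
      exact Real.rpow_le_rpow (by positivity) Nat.cast_div_le (by linarith)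
    have b2 : (x : ℝ) ^ s * (x : ℝ) ^ (1 - s) = x := by rw [← Real.rpow_add x0]; simp
    calc _ = D * (x : ℝ) ^ s * ∑ m ∈ Ioc 0 (x / K), ‖L m‖ * (m : ℝ) ^ (-s) := by
          rw [mul_sum]
          refine sum_congr rfl fun m _ => ?_
          rw [Real.div_rpow x0.le (by positivity), Real.rpow_neg (by positivity)]; ring
      _ ≤ D * (x : ℝ) ^ s * (G * ((x : ℝ) ^ (1 - s) * (K : ℝ) ^ (-(1 - s)))) :=
          mul_le_mul_of_nonneg_left ((hG _).trans (mul_le_mul_of_nonneg_left b1 G0))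
            (by positivity)
      _ = D * G * (K : ℝ) ^ (-(1 - s)) * x := by
          linear_combination D * G * (K : ℝ) ^ (-(1 - s)) * b2
      _ ≤ _ := mul_le_mul_of_nonneg_right hK x0.le
  have a5 : ∑ m ∈ Ioc (x / K) x, D * (‖L m‖ * ((x : ℝ) / m) ^ s) ≤
      D * K * (Real.log x * P + E * (x : ℝ) ^ (3 / 4 : ℝ)) := by
    refine le_trans (sum_le_sum (g := fun m => D * K * ‖L m‖) fun m hm => ?_) ?_
    · have b1 : x < m * K := (Nat.div_lt_iff_lt_mul K1).1 (mem_Ioc.1 hm).1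
      have m0 : (0 : ℝ) < m := by exact_mod_cast (Nat.zero_le _).trans_lt (mem_Ioc.1 hm).1
      have b2 : (x : ℝ) / m ≤ K := by
        rw [div_le_iff₀' m0]; exact_mod_cast b1.le
      have b3 : ((x : ℝ) / m) ^ s ≤ K := (Real.rpow_le_rpow (by positivity) b2 s0.le).trans
        (by simpa using Real.rpow_le_rpow_of_exponent_le K0 s1.le)
      rw [mul_assoc, mul_comm (K : ℝ)]
      gcongr
    · rw [← mul_sum, ← sum_filter_add_sum_filter_not _ Nat.Prime, hP, mul_sum]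
      refine mul_le_mul_of_nonneg_left (add_le_add (sum_le_sum fun p hp => ?_)
        (le_trans (sum_le_sum_of_subset_of_nonneg (filter_subset_filter _
          (Ioc_subset_Ioc_left (Nat.zero_le _))) fun _ _ _ => norm_nonneg _) (hE x)))
        (by positivity)
      obtain ⟨p1, p2⟩ := mem_filter.1 hp
      rw [mul_comm]
      exact (h3 p p2).trans (mul_le_mul_of_nonneg_left (vau_log_mono (mem_Ioc.1 p1).2) (u0 p))
  replace a3 := a3.trans_eq
    (sum_Ioc_consecutive _ (Nat.zero_le (x / K)) (Nat.div_le_self x K)).symm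
  have a6 := congrArg norm a2
  rw [norm_mul, Complex.norm_real, Real.norm_of_nonneg hl.le] at a6
  have a7 := (mul_le_mul_of_nonneg_right hx hl.le).trans (a6.trans_le (norm_sub_le _ _))
  have a8 : 0 ≤ D * (x : ℝ) ^ s := by positivity
  have a9 : 0 ≤ D * K * E * ((x : ℝ) ^ (3 / 4 : ℝ) * Real.log x) := by positivity
  have a10 : 0 ≤ Real.log x * P := by positivity
  rw [div_mul_eq_mul_div, div_le_iff₀ (by positivity)]
  linarith

end Pool.Agent.Lib.MP_7cad78_nt.R2
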