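import Pool.Agent.Lib.MP_7cad78_nt.R2.RhoB
import Pool.Agent.Lib.MP_7cad78_nt.R2.PrA
import Pool.Agent.Lib.MP_a009d0_nt.W.MuL
import Pool.Agent.Lib.MP_a009d0_nt.W.Eqd
import Pool.Agent.Lib.MP_a009d0_nt.W.Nrm

/-! A lower bound of Chebyshev type for prime ideals, and balanced generators. -/

namespace Pool.Agent.Lib.MP_7cad78_nt.R2

open NumberField NumberField.mixedEmbedding IsDedekindDomain WithZero Finset NF Filter
open scoped Classical symmDiff
open MP_a009d0_nt.W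

variable {F : Type} [Field F] [NumberField F]

/-- ideals of norm at most `y` that are prime to `S` -/
def oddSet (S : Finset (Pr F)) (y : ℝ) : Set (Ideal (𝓞 F)) :=
  {I | (Ideal.absNorm I : ℝ) ≤ y ∧ ∀ P ∈ S, ¬ P.asIdeal ∣ I}

lemma oddSet_fin (S : Finset (Pr F)) (y : ℝ) : (oddSet S y).Finite :=
  (Ideal.finite_setOfPred_absNorm_le ⌊y⌋₊).subset fun _ h => Nat.le_floor h.1

lemma one_lt_nm (p : Pr F) : 1 < nm p := by
  have h1 := nm_ne p
  have h2 : nm p ≠ 1 := mt Ideal.absNorm_eq_one_iff.1 p.isPrime.ne_top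
  omega

lemma odd_lim (S : Finset (Pr F)) : ∃ κ : ℝ, 0 < κ ∧
    Tendsto (fun y : ℝ => ((oddSet S y).ncard : ℝ) / y) atTop (nhds κ) := by
  induction S using Finset.induction_on with
  | empty =>
    refine ⟨_, dedekindZeta_residue_pos F, (Ideal.tendsto_norm_le_div_atTop F).congr fun y => ?_⟩
    simp only [oddSet, notMem_empty, false_imp_iff, implies_true, and_true]
    rfl
  | insert P S hP ih =>
    obtain ⟨κ, k0, hk⟩ := ih
    have n1 : (1 : ℝ) < nm P := by exact_mod_cast one_lt_nm P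
    have n0 : (0 : ℝ) < nm P := by linarith
    have e : ∀ y, (oddSet S y).ncard =
        (oddSet (insert P S) y).ncard + (oddSet S (y / nm P)).ncard := fun y => by
      rw [← Set.ncard_image_of_injective (oddSet S (y / nm P)) (mul_right_injective₀ P.prime.ne_zero),
        ← Set.ncard_union_eq ?_ (oddSet_fin _ _) ((oddSet_fin _ _).image _)]
      · congr 1
        ext I
        constructor
        · rintro ⟨h1, h2⟩
          by_cases h : P.asIdeal ∣ I
          · obtain ⟨J, rfl⟩ := h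
            refine .inr ⟨J, ⟨?_, fun Q hQ h => h2 Q hQ (h.mul_left _)⟩, rfl⟩
            rw [le_div_iff₀' n0]
            simpa using h1
          · exact .inl ⟨h1, (forall_mem_insert _ _ _).2 ⟨h, h2⟩⟩
        · rintro (⟨h1, h2⟩ | ⟨J, ⟨h1, h2⟩, rfl⟩)
          · exact ⟨h1, fun Q hQ => h2 Q (mem_insert_of_mem hQ)⟩
          · rw [le_div_iff₀' n0] at h1
            refine ⟨by simpa using h1, fun Q hQ h => (Q.prime.dvd_or_dvd h).elim (fun h => hP ?_)
              (h2 Q hQ)⟩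
            rwa [HeightOneSpectrum.ext
              (P.isMaximal.eq_of_le Q.isPrime.ne_top (Ideal.le_of_dvd h))]
      · rw [Set.disjoint_left]
        rintro _ h ⟨J, -, rfl⟩
        exact h.2 P (mem_insert_self _ _) (dvd_mul_right _ _)
    refine ⟨κ - κ / nm P, sub_pos.2 (div_lt_self k0 n1),
      (hk.sub ((hk.comp (tendsto_id.atTop_div_const n0)).div_const (nm P : ℝ))).congr fun y => ?_⟩
    simp only [Function.comp_apply, id, e y, Nat.cast_add]
    rw [div_div, div_mul_cancel₀ _ n0.ne']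
    ring

lemma idl_le {p : ℕ} (hp : p.Prime) : #(idl F p) ≤ dg F := by
  have hm : ∀ I ∈ idl F p, I.IsMaximal := fun I hI =>
    max_of_prime_norm I (by rwa [(mem_idl F).1 hI])
  have h := Finset.prod_dvd_of_coprime (t := idl F p) (s := fun I => I)
    (z := Ideal.span {(p : 𝓞 F)})
    (fun I hI J hJ h => Ideal.isCoprime_iff_sup_eq.2 ((hm I hI).coprime_of_ne (hm J hJ) h))
    fun I hI => Ideal.dvd_span_singleton.2 ((mem_idl F).1 hI ▸ Ideal.absNorm_mem I)
  have h2 := map_dvd Ideal.absNorm h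
  rw [map_prod, prod_congr rfl fun I hI => (mem_idl F).1 hI, prod_const,
    Ideal.absNorm_span_natCast, RingOfIntegers.rank] at h2
  exact (Nat.pow_dvd_pow_iff_le_right hp.one_lt).1 h2

theorem cheb (F : Type) [Field F] [NumberField F] : ∃ (K : ℕ) (c : ℝ), 0 < K ∧ 0 < c ∧
    ∀ᶠ x : ℕ in atTop, ∃ Q : Finset (Pr F), (∀ q ∈ Q, x < nm q * K ∧ nm q ≤ x) ∧
      c * x ≤ Real.log x * #Q := by
  obtain ⟨φ, hφ, eφ⟩ := dir_ray F 2 le_rfl 1
  have one : ∀ I : Ideal (𝓞 F), (Ideal.absNorm I).Coprime 2 → φ I = 1 := fun I h => by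
    rw [eφ, MulChar.one_apply ((ZMod.isUnit_iff_coprime _ _).2 h)]
  let J : Ideal (𝓞 F) := Ideal.span {((3 : ℕ) : 𝓞 F)}
  have nJ : Ideal.absNorm J = 3 ^ dg F := by rw [Ideal.absNorm_span_natCast, RingOfIntegers.rank]
  have cJ : (Ideal.absNorm J).Coprime 2 := nJ ▸ Nat.Coprime.pow_left _ (by norm_num)
  have N1 : 1 < Ideal.absNorm J := nJ ▸ Nat.one_lt_pow (dg_pos F).ne' (by norm_num)
  have J0 := eqd_ne hφ cJ
  have N0 : (0 : ℝ) < Ideal.absNorm J := by exact_mod_cast zero_lt_one.trans N1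
  obtain ⟨c, C, hc, hC⟩ := equi hφ J cJ
  obtain ⟨-, L, -, -, l1, -, l2, l3, l4⟩ := mu_lam φ hφ.norm_le
  let b : ℕ → ℂ := fun n => ∑ I ∈ idl F n, φ I * (if J ∣ I then 1 else 0)
  have b1 : ∀ k, b (Ideal.absNorm J * k) = nc φ k := fun k => by
    rw [← one_mul (nc φ k), ← one J cJ]; exact eqd_mul φ J0 k
  have b2 : ∀ n, ¬ Ideal.absNorm J ∣ n → b n = 0 := fun n hn => sum_eq_zero fun I hI => by
    rw [if_neg fun h => hn ((mem_idl F).1 hI ▸ map_dvd Ideal.absNorm h), mul_zero]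
  have ef : ∀ n, ∑ I ∈ idl F n, φ I * ((if J ∣ I then 1 else 0) - 1 / Ideal.absNorm J) =
      b n - nc φ n / Ideal.absNorm J := fun n => by
    simp only [b, nc, mul_sub, sum_sub_distrib, mul_one_div, sum_div]
  simp only [ef] at hC
  obtain ⟨κ, k0, hk⟩ := odd_lim (prs F 2)
  have hb : ∀ᶠ x : ℕ in atTop, κ / 2 / Ideal.absNorm J * x ≤ ‖∑ n ∈ Ioc 0 x, b n‖ := by
    filter_upwards [(hk.comp (tendsto_natCast_atTop_atTop.atTop_div_const N0)).eventually
      (le_mem_nhds (half_lt_self k0)), eventually_gt_atTop 0] with x hx x0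
    have x1 : (0 : ℝ) < x := by exact_mod_cast x0
    simp only [Function.comp_apply] at hx
    rw [le_div_iff₀ (by positivity), mul_div_assoc', mul_div_right_comm] at hx
    refine hx.trans (le_trans ?_ (Complex.re_le_norm _))
    let w : Ideal (𝓞 F) → ℝ := fun I => (φ I * (if J ∣ I then 1 else 0)).re
    have w0 : ∀ I, 0 ≤ w I := fun I => by
      by_cases h : (Ideal.absNorm I).Coprime 2
      · simp only [w, one I h]; split_ifs <;> simp
      · simp [w, hφ.zero I h]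
    have cop : ∀ I ∈ oddSet (prs F 2) (x / Ideal.absNorm J), (Ideal.absNorm I).Coprime 2 :=
      fun I hI => (Nat.prime_two.coprime_iff_not_dvd.2 fun h => by
        obtain ⟨P, p1, p2, p3⟩ := Ideal.exists_isMaximal_dvd_of_dvd_absNorm' Nat.prime_two I h
        refine hI.2 ⟨P, p1.isPrime, p1.ne_bot_of_isIntegral_int⟩ ((mem_prs two_ne_zero).2 ?_) p3
        have : ((2 : ℕ) : ℤ) ∈ P.under ℤ := p2 ▸ Ideal.mem_span_singleton_self _
        simpa [Ideal.mem_under] using this).symm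
    rw [Complex.re_sum, sum_congr rfl fun n _ => Complex.re_sum _ _,
      ← sum_biUnion (f := w) fun n _ m _ h => disjoint_left.2 fun I h1 h2 =>
        h (((mem_idl F).1 h1).symm.trans ((mem_idl F).1 h2)),
      ← Set.ncard_image_of_injective _ (mul_right_injective₀ J0),
      Set.ncard_eq_toFinset_card _ ((oddSet_fin _ _).image _), card_eq_sum_ones, Nat.cast_sum]
    refine le_trans (sum_le_sum fun I hI => ?_)
      (sum_le_sum_of_subset_of_nonneg (fun I hI => ?_) fun I _ _ => w0 I) <;>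
      obtain ⟨I, h1, rfl⟩ := (Set.Finite.mem_toFinset _).1 hI
    · simp [w, one J cJ, one I (cop I h1)]
    · refine mem_biUnion.2 ⟨_, mem_Ioc.2 ⟨?_, ?_⟩, (mem_idl F).2 rfl⟩
      · have : Ideal.absNorm I ≠ 0 := fun h => by simpa [h] using cop I h1
        rw [map_mul]; positivity
      · have := h1.1
        rw [le_div_iff₀' N0] at this
        rw [map_mul]; exact_mod_cast this
  obtain ⟨K, c', K0, c0, h⟩ := cheb_abs (b := b) (L := L) (u := fun p => #(idl F p)) (d := dg F)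
    (l := Real.log (Ideal.absNorm J)) hc hC (fun n hn => by
      simp only [mul_sub, sum_sub_distrib, ← mul_div_assoc, ← sum_div]
      rw [conv_shift (by omega) b1 b2 l2 hn, l2 n hn]; ring)
    (Real.log_pos (by exact_mod_cast N1)) (by positivity) hb l1 l3 (fun p hp => by
      rw [l4 p hp, norm_mul, Complex.norm_real, Real.norm_of_nonneg (Real.log_natCast_nonneg p)]
      refine mul_le_mul_of_nonneg_right ((norm_sum_le _ _).trans ?_) (Real.log_natCast_nonneg p)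
      simpa using sum_le_card_nsmul _ _ 1 fun I _ => hφ.norm_le I)
    (fun p => Nat.cast_nonneg _) fun p hp => by exact_mod_cast idl_le hp
  refine ⟨K, c', K0, c0, h.mono fun x hx => ?_⟩
  let T := {p ∈ Ioc (x / K) x | p.Prime}.biUnion (idl F)
  have hT : ∀ I ∈ T, Ideal.absNorm I ∈ Ioc (x / K) x ∧ (Ideal.absNorm I).Prime := fun I hI => by
    obtain ⟨p, hp, h⟩ := mem_biUnion.1 hI
    rw [(mem_idl F).1 h]; exact mem_filter.1 hp
  refine ⟨T.preimage (·.asIdeal) fun _ _ _ _ => HeightOneSpectrum.ext, fun q hq => ?_,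
    hx.trans_eq ?_⟩
  · have := mem_Ioc.1 (hT _ (mem_preimage.1 hq)).1
    exact ⟨(Nat.div_lt_iff_lt_mul K0).1 this.1, this.2⟩
  · rw [card_preimage, filter_true_of_mem (s := T) fun I hI => ?_, card_biUnion fun n _ m _ h =>
      disjoint_left.2 fun I h1 h2 => h (((mem_idl F).1 h1).symm.trans ((mem_idl F).1 h2)),
      Nat.cast_sum]
    have := max_of_prime_norm I (hT I hI).2
    exact ⟨⟨I, this.isPrime, this.ne_bot_of_isIntegral_int⟩, rfl⟩

lemma bal_elt (F : Type) [Field F] [NumberField F] : ∃ C : ℝ, 1 ≤ C ∧ ∀ I : Ideal (𝓞 F), I ≠ ⊥ →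
    I.IsPrincipal → ∃ (z : 𝓞 F) (ν : ℝ), Ideal.span {z} = I ∧ 0 < ν ∧
      ν ^ dg F = Ideal.absNorm I ∧ ∀ w : InfinitePlace F, ν / C ≤ w z ∧ w z ≤ C * ν := by
  obtain ⟨C, C1, h⟩ := balance F
  refine ⟨C, C1, ?_⟩
  rintro _ h0 ⟨y, rfl⟩
  have y0 : (y : F) ≠ 0 := by simpa using h0
  obtain ⟨u, ν, n0, n1, n2⟩ := h (fun w => w y) fun w => InfinitePlace.pos_iff.2 y0
  refine ⟨u * y, ν, Ideal.span_singleton_mul_left_unit u.isUnit y, n0, ?_, fun w => ?_⟩
  · rw [n1, Ideal.submodule_span_eq, ← nm_emb, mixedEmbedding.norm_apply]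
    simp only [normAt_emb]
  · simpa only [map_mul] using n2 w

theorem primes (F : Type) [Field F] [NumberField F] : ∃ (M0 : ℕ) (c : ℝ), M0 ≠ 0 ∧ 0 < c ∧
    ∀ᶠ T : ℝ in atTop, ∃ (Y : Finset (𝓞 F)) (q : 𝓞 F → Pr F), Gen M0 c T Y q ∧
      c * (T ^ 6) ^ dg F / Real.log T ≤ #Y := by
  obtain ⟨K, c, K0, c0, h⟩ := cheb F
  obtain ⟨C, C1, hC⟩ := bal_elt F
  obtain ⟨S, s1, s2⟩ := classes F 1 one_pos
  have s3 : ∀ 𝔠 ∈ S, Ideal.absNorm 𝔠 ≠ 0 := fun 𝔠 h => mt Ideal.absNorm_eq_zero_iff.1 (s1 𝔠 h).1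
  have M0 := prod_ne_zero_iff.2 s3
  have s4 : ∀ 𝔠 ∈ S, Ideal.absNorm 𝔠 ∣ ∏ 𝔠 ∈ S, Ideal.absNorm 𝔠 := fun 𝔠 h => dvd_prod_of_mem _ h
  generalize ∏ 𝔠 ∈ S, Ideal.absNorm 𝔠 = M at M0 s4
  have M1 : (1 : ℝ) ≤ M := by exact_mod_cast M0.bot_lt
  have n0 := dg_pos F
  have n1 : (0 : ℝ) < dg F := by exact_mod_cast n0
  have K1 : (0 : ℝ) < K := by exact_mod_cast K0
  have D1 : 1 ≤ C ^ dg F * M := one_le_mul_of_one_le_of_one_le (one_le_pow₀ C1) M1
  set D := C ^ dg F * M with hD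
  have t1 : Tendsto (fun T : ℝ => (T ^ 6) ^ dg F / D) atTop atTop :=
    ((tendsto_pow_atTop n0.ne').comp (tendsto_pow_atTop (by norm_num))).atTop_div_const
      (by linarith)
  have t2 := tendsto_nat_floor_atTop.comp t1
  refine ⟨M, min (1 / (2 * D * K)) (c / (2 * D * (6 * dg F))), M0, by positivity, ?_⟩
  filter_upwards [t2.eventually h, t2.eventually_ge_atTop (M * K), t1.eventually_ge_atTop 1,
    eventually_gt_atTop 1] with T ⟨Q, q1, q2⟩ x1 x2 T1
  simp only [Function.comp_apply] at q1 q2 x1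
  set X := (T ^ 6) ^ dg F with hX
  have X0 : 0 < X := by positivity
  have x3 := Nat.div_two_lt_floor x2
  have x4 := Nat.floor_le (zero_le_one.trans x2)
  set x := ⌊X / D⌋₊
  have key : ∀ q : Pr F, ∃ y : 𝓞 F, ∃ 𝔠 ∈ S, Ideal.span {y} = 𝔠 * q.asIdeal ∧
      (nm q ≤ x → ‖emb F y‖ ≤ T ^ 6) := fun q => by
    obtain ⟨𝔠, ⟨h1, h2⟩, -⟩ := s2 _ q.ne_bot
    obtain ⟨y, ν, e1, n0', e2, e3⟩ := hC _ (mul_ne_zero q.ne_bot (s1 𝔠 h1).1) h2
    refine ⟨y, 𝔠, h1, e1.trans (mul_comm _ _), fun hq => norm_le_iff.2 fun w => ?_⟩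
    rw [normAt_emb]
    refine (e3 w).2.trans (le_of_pow_le_pow_left₀ n0.ne' (by positivity) ?_)
    have a1 : (nm q : ℝ) ≤ X / D := le_trans (by exact_mod_cast hq) x4
    have a2 : (Ideal.absNorm 𝔠 : ℝ) ≤ M := by exact_mod_cast Nat.le_of_dvd M0.bot_lt (s4 𝔠 h1)
    rw [mul_pow, e2, map_mul, Nat.cast_mul, ← hX]
    refine (mul_le_mul_of_nonneg_left (mul_le_mul a1 a2 (by positivity) (by positivity))
      (by positivity)).trans_eq ?_
    rw [hD]; field_simp
  choose y 𝔠 k1 k2 k3 using key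
  have inj : Set.InjOn y Q := fun q hq q' _ e => by
    have d : q.asIdeal ∣ 𝔠 q' * q'.asIdeal := by rw [← k2, ← e, k2]; exact dvd_mul_left _ _
    refine (q.prime.dvd_or_dvd d).elim (fun h => absurd ?_ (not_le.2 (q1 q hq).1)) fun h =>
      (HeightOneSpectrum.ext (q'.isMaximal.eq_of_le q.isPrime.ne_top (Ideal.le_of_dvd h))).symm
    exact (Nat.mul_le_mul_right K (Nat.le_of_dvd M0.bot_lt
      ((map_dvd Ideal.absNorm h).trans (s4 _ (k1 q'))))).trans x1
  have : Nonempty (Pr F) := by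
    obtain ⟨m, hm⟩ := Ideal.exists_maximal (𝓞 F)
    exact ⟨⟨m, hm.isPrime, hm.ne_bot_of_isIntegral_int⟩⟩
  have inv : ∀ q ∈ Q, Function.invFunOn y Q (y q) = q := fun q hq => inj.leftInvOn_invFunOn hq
  refine ⟨Q.image y, Function.invFunOn y Q, ⟨forall_mem_image.2 fun q hq => k3 q (q1 q hq).2,
    forall_mem_image.2 fun q hq => ?_, forall_mem_image.2 fun q hq => ⟨𝔠 q, ?_, ?_⟩, ?_⟩, ?_⟩
  · rw [inv q hq, ← hX]
    refine (mul_le_mul_of_nonneg_right (min_le_left _ _) X0.le).trans ?_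
    have a1 : (x : ℝ) ≤ nm q * K := by exact_mod_cast (q1 q hq).1.le
    rw [one_div_mul_eq_div, ← div_div, div_le_iff₀ K1, mul_comm 2, ← div_div]
    linarith
  · obtain ⟨k, hk⟩ := s4 _ (k1 q)
    rw [hk, Nat.cast_mul]
    exact Ideal.mul_mem_right _ _ (Ideal.absNorm_mem _)
  · rw [inv q hq, k2]
  · rw [coe_image]
    rintro _ ⟨q, hq, rfl⟩ _ ⟨q', hq', rfl⟩ e
    rw [inv q hq, inv q' hq'] at e
    rw [e]
  · rw [card_image_of_injOn inj, div_le_iff₀ (Real.log_pos T1)]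
    refine (mul_le_mul_of_nonneg_right (min_le_right _ _) X0.le).trans ?_
    have x5 : (0 : ℝ) < x := lt_trans (by positivity) x3
    have a1 : Real.log x ≤ 6 * dg F * Real.log T := by
      refine (Real.log_le_log x5 (x4.trans (div_le_self X0.le D1))).trans_eq ?_
      rw [hX, Real.log_pow, Real.log_pow]; push_cast; ring
    have a2 := (mul_le_mul_of_nonneg_left x3.le c0.le).trans
      (q2.trans (mul_le_mul_of_nonneg_right a1 (Nat.cast_nonneg _)))
    rw [div_mul_eq_mul_div, ← div_div, div_le_iff₀ (by positivity), mul_comm 2, ← div_div,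
      mul_div_assoc, mul_div_assoc]
    linarith

theorem gen_pow (F : Type) [Field F] [NumberField F] : ∃ N : ℕ, ∀ (𝔭 : Pr F) (W : ℕ), N < nm 𝔭 →
    W ≠ 0 → (W : 𝓞 F) ∉ 𝔭.asIdeal → ∃ (δ : 𝓞 F) (k : ℕ), 0 < k ∧
      Ideal.span {δ} = 𝔭.asIdeal ^ k ∧ (∀ w : InfinitePlace F, 1 ≤ w (δ : F)) ∧
      (W : 𝓞 F) ∣ δ - 1 := by
  obtain ⟨C, C1, hC⟩ := bal_elt F
  refine ⟨⌈C ^ dg F⌉₊, fun p W hp W0 hW => ?_⟩
  have h0 : 0 < Fintype.card (ClassGroup (𝓞 F)) := Fintype.card_pos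
  have p0 := mem_nonZeroDivisors_of_ne_zero p.prime.ne_zero
  have pr : (p.asIdeal ^ Fintype.card (ClassGroup (𝓞 F))).IsPrincipal :=
    (ClassGroup.mk0_eq_one_iff (pow_mem p0 _)).1 (by
      rw [← SubmonoidClass.mk_pow _ p0, map_pow, pow_card_eq_one])
  generalize Fintype.card (ClassGroup (𝓞 F)) = h at h0 pr
  obtain ⟨z, ν, e1, n0, e2, e3⟩ := hC _ (pow_ne_zero _ p.ne_bot) pr
  have a1 : C ≤ ν := le_of_pow_le_pow_left₀ (dg_pos F).ne' n0.le (by
    rw [e2, map_pow]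
    exact (Nat.ceil_le.1 hp.le).trans (by exact_mod_cast Nat.le_self_pow h0.ne' _))
  have a2 : IsCoprime (Ideal.span {z}) (Ideal.span {(W : 𝓞 F)}) := by
    rw [e1]
    refine IsCoprime.pow_left (Ideal.isCoprime_iff_sup_eq.2 (p.isMaximal.out.2 _ ?_))
    exact left_lt_sup.2 fun h => hW ((Ideal.span_singleton_le_iff_mem _).1 h)
  obtain ⟨a, b, hab⟩ := (Ideal.isCoprime_span_singleton_iff _ _).1 a2
  have : Finite (𝓞 F ⧸ Ideal.span {(W : 𝓞 F)}) :=
    Ideal.finiteQuotientOfFreeOfNeBot _ (by simpa using W0)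
  have a3 : IsUnit (Ideal.Quotient.mk (Ideal.span {(W : 𝓞 F)}) z) := IsUnit.of_mul_eq_one_right
    (Ideal.Quotient.mk _ a) (by
      rw [← map_mul, ← map_one (Ideal.Quotient.mk _), Ideal.Quotient.eq, Ideal.mem_span_singleton]
      exact ⟨-b, by linear_combination hab⟩)
  obtain ⟨m, m0, hm⟩ := isOfFinOrder_iff_pow_eq_one.1 (isOfFinOrder_of_finite a3.unit)
  refine ⟨z ^ m, h * m, by positivity, by rw [← Ideal.span_singleton_pow, e1, pow_mul],
    fun w => ?_, ?_⟩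
  · simp only [map_pow]
    exact one_le_pow₀ (((one_le_div (by linarith)).2 a1).trans (e3 w).1)
  · rw [← Ideal.mem_span_singleton, ← Ideal.Quotient.eq, map_pow, map_one]
    simpa using congrArg Units.val hm

end Pool.Agent.Lib.MP_7cad78_nt.R2
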