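import Pool.Agent.Lib.MP_7cad78_nt.R2.Defs

/-! The local pairing of two points and the orthogonality of the bits. -/

namespace Pool.Agent.Lib.MP_7cad78_nt.R2

open NumberField NumberField.mixedEmbedding IsDedekindDomain WithZero Finset NF Filter
open scoped Classical symmDiff

set_option linter.unusedSectionVars false

section smb

variable {K : Type*} [Field K] {ρ : K → K → ℤˣ}

lemma Smb.neg_self (h : Smb ρ) {b : K} (hb : b ≠ 0) : ρ (-b) b = 1 := by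
  simpa using h.nrm 0 1 b hb (by simpa using hb)

lemma Smb.symm (h : Smb ρ) {a b : K} (ha : a ≠ 0) (hb : b ≠ 0) : ρ a b = ρ b a := by
  have k := h.neg_self (mul_ne_zero ha hb)
  have n := neg_ne_zero.2 (mul_ne_zero ha hb)
  rw [h.mul_r _ _ _ n ha hb] at k
  have e1 : ρ (-(a * b)) a = ρ b a := by
    rw [← neg_mul, h.mul_l _ _ _ (neg_ne_zero.2 ha) hb ha, h.neg_self ha, one_mul]
  have e2 : ρ (-(a * b)) b = ρ a b := by
    rw [← mul_neg, h.mul_l _ _ _ ha (neg_ne_zero.2 hb) hb, h.neg_self hb, mul_one]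
  rw [e1, e2] at k
  rcases Int.units_eq_one_or (ρ a b) with h1 | h1 <;>
    rcases Int.units_eq_one_or (ρ b a) with h2 | h2 <;> simp_all

/-- `a` and `b` have the same symbols -/
def Sim (ρ : K → K → ℤˣ) (a b : K) : Prop := a ≠ 0 ∧ b ≠ 0 ∧ ∀ c, c ≠ 0 → ρ a c = ρ b c

lemma Sim.rfl {a : K} (ha : a ≠ 0) : Sim ρ a a := ⟨ha, ha, fun _ _ => _root_.rfl⟩

lemma Sim.symm {a b : K} (h : Sim ρ a b) : Sim ρ b a := ⟨h.2.1, h.1, fun c k => (h.2.2 c k).symm⟩

lemma Sim.trans {a b c : K} (h : Sim ρ a b) (k : Sim ρ b c) : Sim ρ a c :=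
  ⟨h.1, k.2.1, fun d l => (h.2.2 d l).trans (k.2.2 d l)⟩

lemma Sim.mul (hs : Smb ρ) {a b a' b' : K} (h : Sim ρ a b) (k : Sim ρ a' b') :
    Sim ρ (a * a') (b * b') :=
  ⟨mul_ne_zero h.1 k.1, mul_ne_zero h.2.1 k.2.1, fun c l => by
    rw [hs.mul_l _ _ _ h.1 k.1 l, hs.mul_l _ _ _ h.2.1 k.2.1 l, h.2.2 c l, k.2.2 c l]⟩

lemma Sim.neg (hs : Smb ρ) {a b : K} (h : Sim ρ a b) : Sim ρ (-a) (-b) := by
  simpa using (Sim.rfl (a := -1) (by simp)).mul hs h

lemma Smb.sim_sq (hs : Smb ρ) {a t : K} (ha : a ≠ 0) (ht : t ≠ 0) : Sim ρ (a * t ^ 2) a :=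
  ⟨mul_ne_zero ha (pow_ne_zero 2 ht), ha, fun c l => by
    rw [hs.mul_l _ _ _ ha (pow_ne_zero 2 ht) l, sq, hs.mul_l _ _ _ ht ht l, Int.units_mul_self,
      mul_one]⟩

lemma Smb.congr (hs : Smb ρ) {a b a' b' : K} (h : Sim ρ a a') (k : Sim ρ b b') :
    ρ a b = ρ a' b' := by
  rw [h.2.2 b k.1, hs.symm h.2.1 k.1, k.2.2 _ h.2.1, hs.symm k.2.1 h.2.1]

lemma Smb.one (hs : Smb ρ) {b : K} (hb : b ≠ 0) : ρ 1 b = 1 := by
  simpa using hs.nrm 1 0 b hb (by simp)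

lemma Smb.of_sim (hs : Smb ρ) {a b c : K} (h : Sim ρ a b) (hc : c ≠ 0) : ρ (a * b) c = 1 := by
  rw [hs.mul_l _ _ _ h.1 h.2.1 hc, h.2.2 c hc, Int.units_mul_self]

lemma Smb.of_sim' (hs : Smb ρ) {a b c : K} (h : Sim ρ a b) (hc : c ≠ 0) : ρ c (a * b) = 1 := by
  rw [hs.symm hc (mul_ne_zero h.1 h.2.1), hs.of_sim h hc]

lemma Smb.stein (hs : Smb ρ) {a b c a' b' : K} (h1 : Sim ρ a a') (h2 : Sim ρ b b')
    (h3 : Sim ρ c (a' - b')) : ρ (a * c) (a * b) = 1 := by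
  rw [hs.congr (h1.mul hs h3) (h1.mul hs h2), show a' * (a' - b') = a' ^ 2 - a' * b' * 1 ^ 2 by ring]
  exact hs.nrm _ _ _ (mul_ne_zero h1.2.1 h2.2.1) (by
    have := mul_ne_zero h1.2.1 h3.2.1
    rwa [show a' * (a' - b') = a' ^ 2 - a' * b' * 1 ^ 2 by ring] at this)

lemma Smb.of_neg (hs : Smb ρ) {a b c : K} (ha : a ≠ 0) (h : Sim ρ c (-b)) :
    ρ (a * c) (a * b) = 1 := by
  have hb : b ≠ 0 := neg_ne_zero.1 h.2.1
  rw [hs.congr ((Sim.rfl ha).mul hs h) (Sim.rfl (mul_ne_zero ha hb)), mul_neg,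
    hs.neg_self (mul_ne_zero ha hb)]

end smb

section val

variable {K : Type*} [Field K] {v : Valuation K ℤᵐ⁰}

lemma v_nat (n : ℕ) : v n ≤ 1 := by
  induction n with
  | zero => simp
  | succ n ih => rw [Nat.cast_succ]; exact v.map_add_le ih (by simp)

lemma v_k {A x x' : K} (hA : v A ≤ 1) (hx : v x ≤ 1) (hx' : v x' ≤ 1) :
    v (x ^ 2 + x * x' + x' ^ 2 + A) ≤ 1 := by
  refine v.map_add_le (v.map_add_le (v.map_add_le ?_ ?_) ?_) hA
  · rw [map_pow]; exact pow_le_one' hx 2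
  · rw [map_mul]; exact mul_le_one' hx hx'
  · rw [map_pow]; exact pow_le_one' hx' 2

lemma cub_sub (A B x x' : K) :
    cub A B x - cub A B x' = (x - x') * (x ^ 2 + x * x' + x' ^ 2 + A) := by
  simp only [cub]; ring

lemma v_mul_le {a b : K} (hb : v b ≤ 1) : v (a * b) ≤ v a := by
  rw [map_mul]; exact mul_le_of_le_one_right' hb

lemma v_cub_sub {A B x x' : K} (hA : v A ≤ 1) (hx : v x ≤ 1) (hx' : v x' ≤ 1) :
    v (cub A B x - cub A B x') ≤ v (x - x') := by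
  rw [cub_sub]; exact v_mul_le (v_k hA hx hx')

lemma v_cub {A B x : K} (hA : v A ≤ 1) (hB : v B ≤ 1) (hx : v x ≤ 1) : v (cub A B x) ≤ 1 := by
  refine v.map_add_le (v.map_add_le ?_ ?_) hB
  · rw [map_pow]; exact pow_le_one' hx 3
  · rw [map_mul]; exact mul_le_one' hA hx

lemma Nice.root_iff {K : Type*} [Field K] {v : Valuation K ℤᵐ⁰} {A B e x : K} (h : Nice v A B e)
    (h2 : v 2 = 1) (hA : v A ≤ 1) (he : v e ≤ 1) (hx : v x ≤ 1) :
    v (cub A B x) < 1 ↔ v (x - e) < 1 := by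
  constructor
  · intro k
    by_contra n
    have u1 : v (x - e) = 1 := le_antisymm (v.map_sub_le hx he) (not_lt.1 n)
    have k1 := v.map_sub_lt k h.root
    rw [cub_sub, map_mul, u1, one_mul] at k1
    apply h.nsq (2 * x + e)
    rw [show -3 * e ^ 2 - 4 * A - (2 * x + e) ^ 2 = -(2 * 2 * (x ^ 2 + x * e + e ^ 2 + A)) by ring,
      v.map_neg, map_mul, map_mul, h2, one_mul, one_mul]
    exact k1
  · intro k
    have := v.map_add_lt ((v_cub_sub (B := B) hA hx he).trans_lt k) h.root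
    rwa [sub_add_cancel] at this

/-- the valuation is a square -/
def Ev (v : Valuation K ℤᵐ⁰) (a : K) : Prop := ∃ t, t ≠ 0 ∧ v (a * t ^ 2) = 1

lemma ev_of_unit {a y f : K} (h : a * y ^ 2 = f) (hf : v f = 1) : Ev v a :=
  ⟨y, by rintro rfl; simp [← h] at hf, h ▸ hf⟩

variable {ρ : K → K → ℤˣ}

/-- the data of a local symbol -/
structure LS (v : Valuation K ℤᵐ⁰) (ρ : K → K → ℤˣ) : Prop where
  smb : Smb ρ
  loc : ∀ a b, b ≠ 0 → v (a - 1) < v 4 → ρ a b = 1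

lemma v_four (h2 : v 2 = 1) : v 4 = 1 := by
  rw [show (4 : K) = 2 * 2 by norm_num, map_mul, h2, one_mul]

lemma LS.close (L : LS v ρ) {a b : K} (h : v (a - b) < v 4 * v b) : Sim ρ a b := by
  have hb : b ≠ 0 := by rintro rfl; simp at h
  have b0 := (Valuation.pos_iff v).2 hb
  have h4 : v 4 ≤ 1 := by exact_mod_cast v_nat (v := v) 4
  have ha : a ≠ 0 := by
    rintro rfl
    rw [zero_sub, v.map_neg] at h
    exact (h.trans_le (mul_le_of_le_one_left' h4)).false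
  refine ⟨ha, hb, fun c hc => ?_⟩
  have e : a = a / b * b := by field_simp
  rw [e, L.smb.mul_l _ _ _ (div_ne_zero ha hb) hb hc, L.loc _ _ hc, one_mul]
  rwa [show a / b - 1 = (a - b) / b by field_simp, map_div₀, div_lt_iff₀ b0]

lemma LS.close' (L : LS v ρ) (h2 : v 2 = 1) {a b : K} (h : v (a - b) < v b) : Sim ρ a b :=
  L.close (by rwa [v_four h2, one_mul])

/-- two points on two curves -/
structure Two (v : Valuation K ℤᵐ⁰) (A B s s' x y x' y' : K) : Prop where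
  vA : v A ≤ 1
  vB : v B ≤ 1
  vs : v s ≤ 1
  vs' : v s' ≤ 1
  e : (x - s) * y ^ 2 = cub A B x
  e' : (x' - s') * y' ^ 2 = cub A B x'
  n : cub A B x ≠ 0
  n' : cub A B x' ≠ 0
  ne : cub A B x ≠ cub A B x'

variable {A B s s' x y x' y' : K}

namespace Two

lemma swap (T : Two v A B s s' x y x' y') : Two v A B s' s x' y' x y :=
  ⟨T.vA, T.vB, T.vs', T.vs, T.e', T.e, T.n', T.n, T.ne.symm⟩

lemma a0 (T : Two v A B s s' x y x' y') : x - s ≠ 0 := left_ne_zero_of_mul (T.e ▸ T.n)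

lemma y0 (T : Two v A B s s' x y x' y') : y ≠ 0 := fun h => T.n (by rw [← T.e, h]; simp)

lemma c0 (T : Two v A B s s' x y x' y') : x - x' ≠ 0 :=
  left_ne_zero_of_mul (cub_sub A B x x' ▸ sub_ne_zero.2 T.ne)

lemma k0 (T : Two v A B s s' x y x' y') : x ^ 2 + x * x' + x' ^ 2 + A ≠ 0 :=
  right_ne_zero_of_mul (cub_sub A B x x' ▸ sub_ne_zero.2 T.ne)

lemma ab0 (T : Two v A B s s' x y x' y') : (x - s) * (x' - s') ≠ 0 := mul_ne_zero T.a0 T.swap.a0

lemma sim (T : Two v A B s s' x y x' y') (hs : Smb ρ) : Sim ρ (x - s) (cub A B x) :=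
  T.e ▸ (hs.sim_sq T.a0 T.y0).symm

lemma psi (T : Two v A B s s' x y x' y') (hs : Smb ρ) :
    ρ (x ^ 2 + x * x' + x' ^ 2 + A) ((x - s) * (x' - s')) =
      ρ ((x - s) * (x - x')) ((x - s) * (x' - s')) := by
  have e : ((x - s) * y) ^ 2 - (x - s) * (x' - s') * y' ^ 2 =
      (x ^ 2 + x * x' + x' ^ 2 + A) * ((x - s) * (x - x')) := by
    linear_combination (x - s) * T.e - (x - s) * T.e' + (x - s) * cub_sub A B x x'
  have := hs.nrm ((x - s) * y) y' _ T.ab0 (e ▸ mul_ne_zero T.k0 (mul_ne_zero T.a0 T.c0))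
  rw [e, hs.mul_l _ _ _ T.k0 (mul_ne_zero T.a0 T.c0) T.ab0] at this
  rw [eq_inv_of_mul_eq_one_left this, Int.units_inv_eq_self]

lemma pole (T : Two v A B s s' x y x' y') (L : LS v ρ) (h2 : v 2 = 1) (h : 1 < v x ∨ 1 < v x') :
    ρ (x ^ 2 + x * x' + x' ^ 2 + A) ((x - s) * (x' - s')) = 1 := by
  have p : ∀ {z w : K}, 1 < v z → v w ≤ 1 → Sim ρ (z - w) z := fun h1 h3 =>
    L.close' h2 (by rw [sub_sub_cancel_left, v.map_neg]; exact h3.trans_lt h1)
  rw [T.psi L.smb]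
  rcases lt_or_ge 1 (v x) with k | k <;> rcases lt_or_ge 1 (v x') with k' | k'
  · exact L.smb.stein (p k T.vs) (p k' T.vs') (Sim.rfl T.c0)
  · exact L.smb.of_sim ((p k T.vs).trans (p k k').symm) T.ab0
  · refine L.smb.of_neg T.a0 ?_
    simpa using ((p k' k).trans (p k' T.vs').symm).neg L.smb
  · exact absurd h (by simp [k, k'])

lemma even (T : Two v A B s s' x y x' y') (L : LS v ρ) (h2 : v 2 = 1)
    (un : ∀ a b, v a = 1 → v b = 1 → ρ a b = 1)
    (sf : ∀ t, v t < 1 → v t ^ 2 < v (4 * A ^ 3 + 27 * B ^ 2)) (hx : v x ≤ 1) (hx' : v x' ≤ 1)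
    (ha : Ev v (x - s)) (hb : Ev v (x' - s')) :
    ρ (x ^ 2 + x * x' + x' ^ 2 + A) ((x - s) * (x' - s')) = 1 := by
  obtain ⟨t, t0, ht⟩ := ha
  obtain ⟨t', t0', ht'⟩ := hb
  have s1 := (L.smb.sim_sq T.a0 t0).symm
  have s2 := (L.smb.sim_sq T.swap.a0 t0').symm
  have u : v ((x - s) * t ^ 2 * ((x' - s') * t' ^ 2)) = 1 := by rw [map_mul, ht, ht', one_mul]
  rcases (v_k T.vA hx hx').eq_or_lt with k | k
  · rw [L.smb.congr (Sim.rfl T.k0) (s1.mul L.smb s2)]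
    exact un _ _ k u
  rcases (v.map_sub_le hx hx').eq_or_lt with c | c
  · rw [T.psi L.smb, L.smb.congr (s1.mul L.smb (Sim.rfl T.c0)) (s1.mul L.smb s2)]
    exact un _ _ (by rw [map_mul, ht, c, one_mul]) u
  have d : v (3 * x ^ 2 + A) < 1 := by
    rw [show 3 * x ^ 2 + A = x ^ 2 + x * x' + x' ^ 2 + A + (x - x') * (x + x + x') by ring]
    exact v.map_add_lt k ((v_mul_le (v.map_add_le (v.map_add_le hx hx) hx')).trans_lt c)
  have f : v (cub A B x) = 1 := by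
    by_contra n
    have f1 := lt_of_le_of_ne (v_cub T.vA T.vB hx) n
    have f2 : v (cub A B x) = v (y / t) ^ 2 := by
      rw [← T.e, show (x - s) * y ^ 2 = (x - s) * t ^ 2 * (y / t) ^ 2 by field_simp, map_mul, ht,
        one_mul, map_pow]
    have f3 : v (y / t) < 1 := by
      rw [f2] at f1
      exact (pow_lt_one_iff two_ne_zero).1 f1
    have i3 : v 3 ≤ 1 := by exact_mod_cast v_nat (v := v) 3
    have i4 : v 4 ≤ 1 := by exact_mod_cast v_nat (v := v) 4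
    have i27 : v 27 ≤ 1 := by exact_mod_cast v_nat (v := v) 27
    have e : 4 * A ^ 3 + 27 * B ^ 2 = (3 * x ^ 2 + A) ^ 2 * (3 * x ^ 2 + 4 * A) +
        cub A B x * (27 * (B - cub A 0 x)) := by simp only [cub]; ring
    have g1 := sf _ d
    have g2 := sf _ f3
    refine (lt_irrefl (v (4 * A ^ 3 + 27 * B ^ 2))) ?_
    conv_lhs => rw [e]
    refine v.map_add_lt ((v_mul_le ?_).trans_lt (by rwa [map_pow])) ((v_mul_le ?_).trans_lt (by rwa [f2]))
    · refine v.map_add_le ?_ ?_ <;> rw [map_mul]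
      · rw [map_pow]; exact mul_le_one' i3 (pow_le_one' hx 2)
      · exact mul_le_one' i4 T.vA
    · rw [map_mul]
      exact mul_le_one' i27 (v.map_sub_le T.vB (v_cub T.vA (by simp) hx))
  refine L.smb.of_sim' ((T.sim L.smb).trans (Sim.trans (Sim.symm (L.close' h2 ?_))
    (T.swap.sim L.smb).symm)) T.k0
  rw [f]
  exact (v_cub_sub T.vA hx' hx).trans_lt (by rwa [v.map_sub_swap])

lemma ev (T : Two v A B s s' x y x' y') (hx : v x ≤ 1)
    (h : 1 ≤ v (x - s) ∨ v (cub A B s) = 1) : Ev v (x - s) := by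
  rcases (v.map_sub_le hx T.vs).eq_or_lt with k | k
  · exact ⟨1, one_ne_zero, by simpa using k⟩
  · have h1 := h.resolve_left k.not_ge
    refine ev_of_unit T.e ?_
    rw [← h1]
    exact v.map_eq_of_sub_lt (h1 ▸ (v_cub_sub T.vA hx T.vs).trans_lt k)

lemma both {e : K} (T : Two v A B s s' x y x' y') (L : LS v ρ) (h2 : v 2 = 1) (N : Nice v A B e)
    (he : v e ≤ 1) (h : v (x - e) < 1) (h' : v (x' - e) < 1) :
    ρ (x ^ 2 + x * x' + x' ^ 2 + A) ((x - s) * (x' - s')) = 1 := by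
  obtain ⟨t, t1, ht⟩ := N.sq
  have t0 : t ≠ 0 := by rintro rfl; simp at t1
  have hx : v x ≤ 1 := by simpa using v.map_add_le h.le he
  have hx' : v x' ≤ 1 := by simpa using v.map_add_le h'.le he
  have : Sim ρ (x ^ 2 + x * x' + x' ^ 2 + A) (1 * t ^ 2) := L.close' h2 (by
    rw [show x ^ 2 + x * x' + x' ^ 2 + A - 1 * t ^ 2 = 3 * e ^ 2 + A - t ^ 2 +
      ((x - e) * (x + e + x') + (x' - e) * (x' + e + e)) by ring, one_mul, map_pow, t1, one_pow]
    exact v.map_add_lt ht (v.map_add_lt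
      ((v_mul_le (v.map_add_le (v.map_add_le hx he) hx')).trans_lt h)
      ((v_mul_le (v.map_add_le (v.map_add_le hx' he) he)).trans_lt h')))
  rw [(this.trans (L.smb.sim_sq one_ne_zero t0)).2.2 _ T.ab0, L.smb.one T.ab0]

lemma node {e : K} (T : Two v A B s s' x y x' y') (L : LS v ρ) (h2 : v 2 = 1)
    (un : ∀ a b, v a = 1 → v b = 1 → ρ a b = 1)
    (sf : ∀ t, v t < 1 → v t ^ 2 < v (4 * A ^ 3 + 27 * B ^ 2)) (N : Nice v A B e)
    (he : v e ≤ 1) (h : v (cub A B s) < 1) (h' : v (cub A B s') < 1) :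
    ρ (x ^ 2 + x * x' + x' ^ 2 + A) ((x - s) * (x' - s')) = 1 := by
  rcases lt_or_ge 1 (v x) with hx | hx
  · exact T.pole L h2 (Or.inl hx)
  rcases lt_or_ge 1 (v x') with hx' | hx'
  · exact T.pole L h2 (Or.inr hx')
  rw [N.root_iff h2 T.vA he T.vs] at h
  rw [N.root_iff h2 T.vA he T.vs'] at h'
  have u : ∀ {z w : K}, v z ≤ 1 → ¬ v (z - e) < 1 → v (w - e) < 1 → v (z - w) = 1 := by
    intro z w h1 h3 h4
    have h5 : v (z - e) = 1 := le_antisymm (v.map_sub_le h1 he) (not_lt.1 h3)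
    rw [← h5]
    exact v.map_eq_of_sub_lt (by rwa [sub_sub_sub_cancel_left, v.map_sub_swap, h5])
  have sm : ∀ {z w : K}, v (z - e) < 1 → v (w - e) < 1 → v (z - w) < 1 := fun h3 h4 => by
    simpa using v.map_sub_lt h3 h4
  by_cases k : v (x - e) < 1 <;> by_cases k' : v (x' - e) < 1
  · exact T.both L h2 N he k k'
  · rw [T.psi L.smb]
    refine L.smb.of_neg T.a0 (L.close' h2 ?_)
    rw [v.map_neg, u hx' k' h', show x - x' - -(x' - s') = x - s' by ring]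
    exact sm k h'
  · rw [T.psi L.smb]
    refine L.smb.of_sim (L.close' h2 ?_).symm T.ab0
    rw [u hx k h, show x - x' - (x - s) = s - x' by ring]
    exact sm h k'
  · exact T.even L h2 un sf hx hx' ⟨1, one_ne_zero, by simpa using u hx k h⟩
      ⟨1, one_ne_zero, by simpa using u hx' k' h'⟩

lemma cross {e π : K} (T : Two v A B s s' x y x' y') (L : LS v ρ) (h2 : v 2 = 1)
    (un : ∀ a b, v a = 1 → v b = 1 → ρ a b = 1) (hπ : v π = exp (-1))
    (ng : ∀ a b, v a = exp (-1) → v b = 1 → (∀ t, ¬ v (b - t ^ 2) < 1) → ρ a b = -1)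
    (sf : ∀ t, v t < 1 → v t ^ 2 < v (4 * A ^ 3 + 27 * B ^ 2)) (N : Nice v A B e)
    (he : v e ≤ 1) (h' : v (cub A B s') = 1) {p q : Prop} (hp : p) (hq : ¬ q) :
    ((ρ (x ^ 2 + x * x' + x' ^ 2 + A) ((x - s) * (x' - s')) : ℤˣ) : ℤ) =
      if bit v p A B e s x ∧ bit v q A B e s' x' then -1 else 1 := by
  simp only [bit, hp, hq, true_and, false_and, not_true, or_false, false_or, not_false_iff]
  rcases lt_or_ge 1 (v x) with hx | hx
  · rw [T.pole L h2 (Or.inl hx), if_neg fun k => k.1.1.not_gt hx]; rfl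
  rcases lt_or_ge 1 (v x') with hx' | hx'
  · rw [T.pole L h2 (Or.inr hx'), if_neg fun k => k.2.1.not_gt hx']; rfl
  have hb := T.swap.ev hx' (Or.inr h')
  have uf : ∀ {z : K}, v z ≤ 1 → ¬ v (z - e) < 1 → v (cub A B z) = 1 := fun h1 h3 =>
    le_antisymm (v_cub T.vA T.vB h1) (not_lt.1 (mt (N.root_iff h2 T.vA he h1).1 h3))
  by_cases k : v (x - e) < 1
  swap
  · rw [T.even L h2 un sf hx hx' (ev_of_unit T.e (uf hx k)) hb, if_neg fun l => k l.1.2.1]; rfl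
  by_cases k' : v (x' - e) < 1
  · rw [T.both L h2 N he k k', if_neg fun l => l.2.2.1 k']; rfl
  have h5 : v (x' - e) = 1 := le_antisymm (v.map_sub_le hx' he) (not_lt.1 k')
  have e0 : x' - e ≠ 0 := by intro l; simp [l] at h5
  have g1 : v (cub A B x' * (x' - e)) = 1 := by rw [map_mul, uf hx' k', h5, one_mul]
  have s1 : Sim ρ (x ^ 2 + x * x' + x' ^ 2 + A) (cub A B x' * (x' - e)) :=
    (L.smb.sim_sq T.k0 e0).symm.trans (L.close' h2 (by
      rw [g1, show (x ^ 2 + x * x' + x' ^ 2 + A) * (x' - e) ^ 2 - cub A B x' * (x' - e) =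
        ((x - e) * (x ^ 2 + x * x' + x' ^ 2 + A) - cub A B x) * (x' - e) by simp only [cub]; ring,
        map_mul, h5, mul_one]
      exact v.map_sub_lt ((v_mul_le (v_k T.vA hx hx')).trans_lt k)
        ((N.root_iff h2 T.vA he hx).2 k)))
  obtain ⟨t', t0', ht'⟩ := hb
  have g0 := s1.2.1
  rw [L.smb.congr s1 ((Sim.rfl T.a0).mul L.smb (L.smb.sim_sq T.swap.a0 t0').symm),
    L.smb.mul_r _ _ _ g0 T.a0 (mul_ne_zero T.swap.a0 (pow_ne_zero 2 t0')), un _ _ g1 ht', mul_one]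
  have π0 : π ≠ 0 := (Valuation.ne_zero_iff v).1 (hπ ▸ exp_ne_zero)
  have a0 : v (x - s) ≠ 0 := (Valuation.ne_zero_iff v).2 T.a0
  have sc : ∀ j : ℤ, v ((x - s) * (π ^ j) ^ 2) = exp (log (v (x - s)) - 2 * j) := fun j => by
    rw [map_mul, map_pow, map_zpow₀, hπ, ← exp_zsmul, ← exp_nsmul, sub_eq_add_neg (log _), exp_add,
      exp_log a0]
    congr 2
    simp
  have cg : ∀ j : ℤ, ρ (cub A B x' * (x' - e)) (x - s) =
      ρ (cub A B x' * (x' - e)) ((x - s) * (π ^ j) ^ 2) := fun j =>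
    L.smb.congr (Sim.rfl g0) (L.smb.sim_sq T.a0 (zpow_ne_zero j π0)).symm
  rcases Int.even_or_odd (log (v (x - s))) with ⟨j, hj⟩ | ho
  · rw [cg j, un _ _ g1 (by rw [sc, hj, ← exp_zero]; congr 1; ring),
      if_neg fun l => Int.not_odd_iff_even.2 ⟨j, hj⟩ l.1.2.2]
    rfl
  by_cases hn : ∀ t, ¬ v (cub A B x' * (x' - e) - t ^ 2) < 1
  · obtain ⟨j, hj⟩ := id ho
    rw [cg (j + 1), L.smb.symm g0 (mul_ne_zero T.a0 (pow_ne_zero 2 (zpow_ne_zero _ π0))),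
      ng _ _ (by rw [sc, hj]; congr 1; ring) g1 hn, if_pos ⟨⟨hx, k, ho⟩, hx', k', hn⟩]
    rfl
  · rw [if_neg fun l => hn l.2.2.2]
    push Not at hn
    obtain ⟨t, ht⟩ := hn
    have t1 : v (1 * t ^ 2) = 1 := by
      rw [← g1, one_mul]
      exact v.map_eq_of_sub_lt (by rwa [v.map_sub_swap, g1])
    have t0 : t ≠ 0 := by rintro rfl; simp at t1
    rw [((L.close' h2 (by rwa [t1, one_mul])).trans (L.smb.sim_sq one_ne_zero t0)).2.2 _ T.a0,
      L.smb.one T.a0]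
    rfl

lemma fixed {μ : ℤᵐ⁰} (T : Two v A B s s' x y x' y') (L : LS v ρ) (h0 : 0 < μ) (h1 : μ < 1)
    (h2 : μ ≤ v 2) (hs : v (s - s') ≤ μ ^ 7) (hu : μ ≤ v (cub A B s)) (hu' : μ ≤ v (cub A B s')) :
    ρ (x ^ 2 + x * x' + x' ^ 2 + A) ((x - s) * (x' - s')) = 1 := by
  have h4 : μ ^ 2 ≤ v 4 := by
    rw [show (4 : K) = 2 ^ 2 by norm_num, map_pow]; exact pow_le_pow_left' h2 2
  have far : ∀ {w : K}, μ ^ 3 ≤ v w → μ ^ 7 < v 4 * v w := fun h =>
    (pow_lt_pow_right_of_lt_one₀ h0 h1 (by norm_num : 2 + 3 < 7)).trans_le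
      (by rw [pow_add]; exact mul_le_mul' h4 h)
  have near : ∀ {z w : K}, v w ≤ 1 → v (z - w) < μ ^ 3 → μ ≤ v (cub A B w) →
      Sim ρ (cub A B z) (cub A B w) := fun {z w} h3 h5 h6 => by
    have h7 : v z ≤ 1 := by
      simpa using v.map_add_le (h5.le.trans (pow_le_one' h1.le 3)) h3
    exact L.close (((v_cub_sub T.vA h7 h3).trans_lt h5).trans_le
      (by rw [pow_succ]; exact mul_le_mul' h4 h6))
  rcases le_or_gt (μ ^ 3) (v (x - s)) with k | k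
  · rw [T.psi L.smb]
    refine L.smb.stein (a' := x - s') (L.close ?_).symm (Sim.rfl T.swap.a0)
      (by simpa using Sim.rfl T.c0)
    rw [sub_sub_sub_cancel_left]
    exact hs.trans_lt (far k)
  rcases le_or_gt (μ ^ 3) (v (x' - s')) with k' | k'
  · rw [T.psi L.smb]
    refine L.smb.stein (b' := x' - s) (Sim.rfl T.a0) (L.close ?_).symm
      (by simpa using Sim.rfl T.c0)
    rw [sub_sub_sub_cancel_left, v.map_sub_swap]
    exact hs.trans_lt (far k')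
  exact L.smb.of_sim' ((T.sim L.smb).trans ((near T.vs k hu).trans ((near T.vs' (hs.trans_lt
    (pow_lt_pow_right_of_lt_one₀ h0 h1 (by norm_num))) hu').trans
      ((T.swap.sim L.smb).trans (near T.vs' k' hu')).symm))) T.k0

end Two

end val

variable {F : Type} [Field F] [NumberField F]

lemma exists_place (σ : F →+* ℝ) : ∃ w, σ = (cR w).comp (mixedEmbedding F) := by
  have h : ComplexEmbedding.IsReal (Complex.ofRealHom.comp σ) := by
    rw [ComplexEmbedding.isReal_iff]; ext x; simp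
  refine ⟨⟨InfinitePlace.mk (Complex.ofRealHom.comp σ), InfinitePlace.isReal_mk_iff.2 h⟩, ?_⟩
  ext x
  apply Complex.ofReal_injective
  change _ = (((mixedEmbedding F x).1 _ : ℝ) : ℂ)
  rw [mixedEmbedding_apply_isReal, InfinitePlace.embedding_of_isReal_apply,
    InfinitePlace.embedding_mk_eq_of_isReal h]
  rfl

lemma fin_val {a : F} (ha : a ≠ 0) : {𝔭 : Pr F | 𝔭.valuation F a ≠ 1}.Finite := by
  obtain ⟨n, d, hd, rfl⟩ := IsFractionRing.div_surjective (A := 𝓞 F) a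
  have k : ∀ {x : 𝓞 F}, x ≠ 0 → {𝔭 : Pr F | x ∈ 𝔭.asIdeal}.Finite := fun {x} hx =>
    (Ideal.finite_factors (I := Ideal.span {x}) (by simpa using hx)).subset fun 𝔭 h =>
      Ideal.dvd_span_singleton.2 h
  have n0 : n ≠ 0 := by rintro rfl; simp at ha
  refine ((k n0).union (k (nonZeroDivisors.ne_zero hd))).subset fun 𝔭 h => ?_
  by_contra l
  simp only [Set.mem_union, Set.mem_ofPred_eq, not_or] at l
  apply h
  rw [map_div₀, (HeightOneSpectrum.valuation_eq_one_iff_notMem 𝔭 (K := F)).2 l.1,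
    (HeightOneSpectrum.valuation_eq_one_iff_notMem 𝔭 (K := F)).2 l.2, div_one]

theorem orth {ρ : Pr F → F → F → ℤˣ} (hρ : Rec ρ) {M : ℕ} (hM : M ≠ 0) (h2 : 2 ∣ M)
    {A B s0 : 𝓞 F} {ι : Type} (P : ι → Pr F) (hP : Function.Injective P) (e : ι → 𝓞 F)
    (hp : ∀ i, (nm (P i)).Prime ∧ (M : 𝓞 F) ∉ (P i).asIdeal ∧
      Nice ((P i).valuation F) (A : F) B (e i))
    (sf : ∀ 𝔭 : Pr F, (M : 𝓞 F) ∉ 𝔭.asIdeal → 4 * A ^ 3 + 27 * B ^ 2 ∉ 𝔭.asIdeal ^ 2)
    (pos : ∀ σ : F →+* ℝ, 0 < σ A) (nr : ∀ x : F, cub (A : F) B x ≠ 0)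
    {U V : Finset ι} {s s' : 𝓞 F} {x y x' y' : F} (h : Adm M A B s0 P U s x y)
    (h' : Adm M A B s0 P V s' x' y') :
    ∏ i ∈ U ∆ V, (if bit ((P i).valuation F) (i ∈ U) (A : F) B (e i) s x ∧
      bit ((P i).valuation F) (i ∈ V) (A : F) B (e i) s' x' then (-1 : ℤ) else 1) = 1 := by
  have le1 : ∀ (𝔭 : Pr F) (z : 𝓞 F), 𝔭.valuation F (z : F) ≤ 1 := fun 𝔭 z => 𝔭.valuation_le_one z
  have two : ∀ 𝔭 : Pr F, (M : 𝓞 F) ∉ 𝔭.asIdeal → 𝔭.valuation F 2 = 1 := fun 𝔭 k => by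
    obtain ⟨c, rfl⟩ := h2
    have := (HeightOneSpectrum.valuation_eq_one_iff_notMem 𝔭 (K := F) (r := 2)).2 fun l =>
      k (by push_cast; exact Ideal.mul_mem_right _ _ l)
    exact_mod_cast this
  by_cases ne : cub (A : F) B x = cub (A : F) B x'
  · refine Finset.prod_eq_one fun i hi => if_neg fun k => ?_
    have N := (hp i).2.2
    have r := fun {z : F} hz => N.root_iff (x := z) (two _ (hp i).2.1) (le1 _ _) (le1 _ _) hz
    obtain ⟨⟨k1, k2⟩, k3, k4⟩ := k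
    rcases Finset.mem_symmDiff.1 hi with hi | hi
    · simp only [hi.1, hi.2, true_and, false_and, not_true, or_false, false_or, not_false_iff]
        at k2 k4
      exact k4.1 ((r k3).1 (ne ▸ (r k1).2 k2.1))
    · simp only [hi.1, hi.2, true_and, false_and, not_true, or_false, false_or, not_false_iff]
        at k2 k4
      exact k2.1 ((r k1).1 (ne ▸ (r k3).2 k4.1))
  have T : ∀ 𝔭 : Pr F, Two (𝔭.valuation F) (A : F) B s s' x y x' y' := fun 𝔭 =>
    ⟨le1 _ _, le1 _ _, le1 _ _, le1 _ _, h.eq, h'.eq, nr x, nr x', ne⟩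
  have L : ∀ 𝔭 : Pr F, LS (𝔭.valuation F) (ρ 𝔭) := fun 𝔭 => ⟨hρ.smb 𝔭, hρ.loc 𝔭⟩
  have sv : ∀ 𝔭 : Pr F, (M : 𝓞 F) ∉ 𝔭.asIdeal → ∀ t, 𝔭.valuation F t < 1 →
      𝔭.valuation F t ^ 2 < 𝔭.valuation F (4 * (A : F) ^ 3 + 27 * (B : F) ^ 2) := fun 𝔭 k t ht => by
    have := sf_val (sf 𝔭 k) t ht
    rwa [show ((4 * A ^ 3 + 27 * B ^ 2 : 𝓞 F) : F) = 4 * (A : F) ^ 3 + 27 * (B : F) ^ 2 by
      simp [map_ofNat]] at this
  obtain ⟨k, hk⟩ : ∃ k, k = x ^ 2 + x * x' + x' ^ 2 + A := ⟨_, rfl⟩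
  obtain ⟨b, hb⟩ : ∃ b, b = (x - s) * (x' - s') := ⟨_, rfl⟩
  have k0 : k ≠ 0 := hk ▸ right_ne_zero_of_mul (cub_sub (A : F) B x x' ▸ sub_ne_zero.2 ne)
  have b0 : b ≠ 0 := hb ▸ mul_ne_zero (sub_ne_zero.2 h.ne) (sub_ne_zero.2 h'.ne)
  have unit : ∀ {W : Finset ι} {r : 𝓞 F} {z w : F}, Adm M A B s0 P W r z w → ∀ i ∉ W,
      (P i).valuation F (cub (A : F) B r) = 1 := fun a i hi =>
    le_antisymm (v_cub (le1 _ _) (le1 _ _) (le1 _ _)) (not_lt.1 (mt (a.nod i).2 hi))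
  have o1 : ∀ 𝔭 : Pr F, (∀ i ∈ U ∆ V, 𝔭 ≠ P i) → ρ 𝔭 k b = 1 := fun 𝔭 hn => by
    rw [hk, hb]
    by_cases hm : (M : 𝓞 F) ∈ 𝔭.asIdeal
    · refine (T 𝔭).fixed (μ := 𝔭.valuation F M) (L 𝔭) ((Valuation.pos_iff _).2 (by simpa using hM))
        ?_ ?_ ?_ (h.bad 𝔭 hm) (h'.bad 𝔭 hm)
      · exact_mod_cast (𝔭.valuation_lt_one_iff_mem (K := F) M).2 hm
      · obtain ⟨c, rfl⟩ := h2
        push_cast
        exact v_mul_le (v_nat c)
      · obtain ⟨c, hc⟩ := dvd_sub h.cong h'.cong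
        have : (s : F) - s' = (M : F) ^ 7 * c := by
          have := congrArg (algebraMap (𝓞 F) F) hc
          simpa using this
        rw [this, ← map_pow]
        exact v_mul_le (le1 _ _)
    have un := fun a b => hρ.unit 𝔭 a b (two 𝔭 hm)
    by_cases hi : ∃ i ∈ U ∪ V, 𝔭 = P i
    · obtain ⟨i, hi, rfl⟩ := hi
      have : i ∈ U ∧ i ∈ V := by
        have := mt (hn i) (by simp)
        simp only [Finset.mem_symmDiff, Finset.mem_union] at this hi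
        tauto
      exact (T _).node (L _) (two _ hm) un (sv _ hm) (hp i).2.2 (le1 _ _) ((h.nod i).1 this.1)
        ((h'.nod i).1 this.2)
    push Not at hi
    rcases lt_or_ge 1 (𝔭.valuation F x) with hx | hx
    · exact (T 𝔭).pole (L 𝔭) (two 𝔭 hm) (Or.inl hx)
    rcases lt_or_ge 1 (𝔭.valuation F x') with hx' | hx'
    · exact (T 𝔭).pole (L 𝔭) (two 𝔭 hm) (Or.inr hx')
    exact (T 𝔭).even (L 𝔭) (two 𝔭 hm) un (sv 𝔭 hm) hx hx'
      ((T 𝔭).ev hx (h.gen 𝔭 hm fun i l => hi i (Finset.mem_union_left _ l)))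
      ((T 𝔭).swap.ev hx' (h'.gen 𝔭 hm fun i l => hi i (Finset.mem_union_right _ l)))
  have o2 : ∀ i ∈ U ∆ V, ((ρ (P i) k b : ℤˣ) : ℤ) =
      if bit ((P i).valuation F) (i ∈ U) (A : F) B (e i) s x ∧
        bit ((P i).valuation F) (i ∈ V) (A : F) B (e i) s' x' then (-1 : ℤ) else 1 := fun i hi => by
    obtain ⟨p1, p2, p3⟩ := hp i
    obtain ⟨π, hπ⟩ := (P i).valuation_exists_uniformizer F
    have un := fun a b => hρ.unit (P i) a b (two _ p2)
    have ng := hρ.neg (P i) p1 (two _ p2)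
    rcases Finset.mem_symmDiff.1 hi with hi | hi
    · rw [hk, hb]
      exact (T _).cross (L _) (two _ p2) un hπ ng (sv _ p2) p3 (le1 _ _) (unit h' i hi.2) hi.1 hi.2
    · have := (T _).swap.cross (L _) (two _ p2) un hπ ng (sv _ p2) p3 (le1 _ _) (unit h i hi.2)
        hi.1 hi.2
      rw [show x' ^ 2 + x' * x + x ^ 2 + A = k by rw [hk]; ring,
        show (x' - s') * (x - s) = b by rw [hb]; ring] at this
      rw [this]
      simp only [and_comm]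
  have fin := ((fin_val (F := F) two_ne_zero).union (fin_val k0)).union (fin_val b0)
  have pr := hρ.prod k b k0 b0 (fun σ => by
    have := pos σ
    rw [hk, map_add, map_add, map_add, map_pow, map_pow, map_mul]
    nlinarith [sq_nonneg (σ x + σ x'), sq_nonneg (σ x), sq_nonneg (σ x')])
    ((U ∆ V).image P ∪ fin.toFinset) fun 𝔭 l => by
      simp only [Finset.mem_union, Set.Finite.mem_toFinset, Set.mem_union, Set.mem_ofPred_eq, not_or,
        not_not] at l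
      exact ⟨l.2.1.1, l.2.1.2, l.2.2⟩
  rw [← Finset.prod_subset Finset.subset_union_left fun 𝔭 _ l => o1 𝔭 fun i hi k =>
    l (Finset.mem_image.2 ⟨i, hi, k.symm⟩), Finset.prod_image fun _ _ _ _ l => hP l] at pr
  rw [← Finset.prod_congr rfl o2, ← Units.coe_prod, pr, Units.val_one]

end Pool.Agent.Lib.MP_7cad78_nt.R2
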