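import Pool.Agent.Lib.MP_a009d0_nt.W.Artin

/-! The quadratic residue symbol of a fixed integer is a ray class character. -/

namespace Pool.Agent.Lib.MP_7cad78_nt.R2

open NumberField Ideal Polynomial Pool.Agent.Lib.MP_a009d0_nt.W

variable {F : Type} [Field F] [NumberField F]

theorem qart_euler {d : 𝓞 F} {P : Ideal (𝓞 F)} (hP : P.IsMaximal) (h2 : (2 : 𝓞 F) ∉ P)
    (hd : d ∉ P) : ∃ m, absNorm P = 2 * m + 1 ∧
      (IsSquare (Ideal.Quotient.mk P d) → d ^ m - 1 ∈ P) ∧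
      (¬ IsSquare (Ideal.Quotient.mk P d) → d ^ m + 1 ∈ P) := by
  classical
  have := frob_finite hP
  let _ := Ideal.Quotient.field P
  have := Fintype.ofFinite (𝓞 F ⧸ P)
  have hc : ringChar (𝓞 F ⧸ P) ≠ 2 := fun h => h2 (by
    rw [← Ideal.Quotient.eq_zero_iff_mem, map_ofNat]
    have := ringChar.Nat.cast_ringChar (R := 𝓞 F ⧸ P)
    rw [h] at this
    exact_mod_cast this)
  have hd0 : Ideal.Quotient.mk P d ≠ 0 := fun h => hd (Ideal.Quotient.eq_zero_iff_mem.1 h)
  have ho := FiniteField.odd_card_of_char_ne_two hc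
  refine ⟨Fintype.card (𝓞 F ⧸ P) / 2, by rw [frob_card, Nat.card_eq_fintype_card]; omega,
    fun h => ?_, fun h => ?_⟩
  · rw [← Ideal.Quotient.eq_zero_iff_mem, map_sub, map_pow, map_one,
      (FiniteField.isSquare_iff hc hd0).1 h, sub_self]
  · rw [← Ideal.Quotient.eq_zero_iff_mem, map_add, map_pow, map_one,
      (FiniteField.pow_dichotomy hc hd0).resolve_left (mt (FiniteField.isSquare_iff hc hd0).2 h),
      neg_add_cancel]

open Classical in
/-- Artin reciprocity for `F(√d)` -/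
theorem qart (d : 𝓞 F) (hd : d ≠ 0) (m : ℕ) (hm : 0 < m) :
    ∃ (q : ℕ) (φ : Ideal (𝓞 F) →* ℂ), Ray q φ ∧ m ∣ q ∧ ∀ P : Ideal (𝓞 F), P.IsMaximal →
      (absNorm P).Coprime q → (2 : 𝓞 F) ∉ P ∧ d ∉ P ∧
        φ P = if IsSquare (Ideal.Quotient.mk P d) then 1 else -1 := by
  let f : F[X] := X ^ 2 - C (d : F)
  let K := f.SplittingField
  have : NumberField K := NumberField.of_module_finite F K
  have : IsGalois F K := ⟨⟩
  obtain ⟨w, hw⟩ : ∃ w : K, w ^ 2 = algebraMap F K d := by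
    obtain ⟨w, hw⟩ := (SplittingField.splits f).exists_eval_eq_zero (by
      rw [degree_map, degree_X_pow_sub_C two_pos]; decide)
    exact ⟨w, by simpa [f, sub_eq_zero] using hw⟩
  have w0 : w ≠ 0 := fun h => hd (by
    rw [h, zero_pow two_ne_zero, eq_comm, map_eq_zero] at hw
    exact_mod_cast hw)
  have wn : -w ≠ w := fun h => w0 (by linear_combination -h / 2)
  have hs : ∀ σ : K ≃ₐ[F] K, σ w = w ∨ σ w = -w := fun σ =>
    sq_eq_sq_iff_eq_or_eq_neg.1 (by rw [← map_pow, hw, AlgEquiv.commutes])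
  let ψ : (K ≃ₐ[F] K) →* ℂˣ := MonoidHom.mk' (fun σ => if σ w = w then 1 else -1) fun σ τ => by
    rcases hs σ with a | a <;> rcases hs τ with b | b <;> simp [AlgEquiv.mul_apply, a, b, wn]
    exact neg_neg w
  obtain ⟨q, φ, h1, h2⟩ := artin ψ
  have n0 : 0 < absNorm (span {d}) :=
    Nat.pos_of_ne_zero (mt absNorm_eq_zero_iff.1 (by simpa using hd))
  have pos : 0 < q * (m * (2 * absNorm (span {d}))) := by have := h1.two; positivity
  obtain ⟨χ, a1, a2⟩ := h1.mono _ pos (dvd_mul_right _ _)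
  refine ⟨_, χ, a1, (dvd_mul_right _ _).mul_left _, fun P hP c => ?_⟩
  have c2 := c.coprime_mul_left_right.coprime_mul_left_right
  have p2 : (2 : 𝓞 F) ∉ P := by simpa using frob_not_mem hP c2.coprime_mul_right_right
  have pd : d ∉ P := fun h => frob_not_mem hP c2.coprime_mul_left_right
    ((span_singleton_le_iff_mem P).2 h (absNorm_mem _))
  refine ⟨p2, pd, ?_⟩
  obtain ⟨Q, hQ, rfl⟩ := exists_over (K := K) P hP
  obtain ⟨σ, hσ⟩ := fr_exists (L := F) Q hQ
  rw [a2 _ c, h2 Q hQ ((artin_cop (L := F) Q hQ q).2 c.coprime_mul_right_right) σ hσ]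
  let D : 𝓞 K := algebraMap (𝓞 F) (𝓞 K) d
  let z : 𝓞 K := ⟨w, IsIntegral.of_pow two_pos (by rw [hw]; exact D.isIntegral_coe)⟩
  have hz : z ^ 2 = D := RingOfIntegers.ext hw
  have nz : (2 : 𝓞 K) * z ∉ Q := fun h => (hQ.isPrime.mem_or_mem h).elim
    (fun h => p2 (by rw [mem_under, map_ofNat]; exact h))
    fun h => pd (by
      rw [mem_under]
      change D ∈ Q
      rw [← hz, sq]; exact Q.mul_mem_left _ h)
  obtain ⟨k, e, k1, k2⟩ := qart_euler hP p2 pd
  rw [e] at hσ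
  have pw : z ^ (2 * k + 1) = D ^ k * z := by rw [pow_succ, pow_mul, hz]
  change ((if σ w = w then 1 else -1 : ℂˣ) : ℂ) = _
  by_cases hsq : IsSquare (Ideal.Quotient.mk (Q.under (𝓞 F)) d)
  · have k3 : D ^ k - 1 ∈ Q := by simpa [D] using (mem_under _ _).1 (k1 hsq)
    rw [if_pos hsq, if_pos ((hs σ).resolve_right fun a => nz ?_), Units.val_one]
    have k4 := hσ z (-z) a.symm
    rw [pw] at k4
    have := Q.neg_mem (Q.add_mem k4 (Q.mul_mem_right z k3))
    convert this using 1; ring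
  · have k3 : D ^ k + 1 ∈ Q := by simpa [D] using (mem_under _ _).1 (k2 hsq)
    rw [if_neg hsq, if_neg fun a => nz ?_]
    · simp
    have k4 := hσ z z a.symm
    rw [pw] at k4
    have := Q.add_mem k4 (Q.mul_mem_right z k3)
    convert this using 1; ring

end Pool.Agent.Lib.MP_7cad78_nt.R2
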