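import Pool.Agent.Lib.MP_7cad78_nt.R2.Defs
import Pool.Agent.Lib.MP_7cad78_nt.R2.QArt

/-! Residue symbols, their products over the primes, and weak approximation. -/

namespace Pool.Agent.Lib.MP_7cad78_nt.R2

open NumberField IsDedekindDomain WithZero Finset NF HeightOneSpectrum
open scoped Classical

variable {F : Type} [Field F] [NumberField F]

lemma vlt (l : Pr F) (x : 𝓞 F) : l.valuation F x < 1 ↔ x ∈ l.asIdeal :=
  valuation_lt_one_iff_mem _ x

lemma vle (l : Pr F) (x : 𝓞 F) : l.valuation F x ≤ 1 := valuation_le_one _ x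

lemma veq (l : Pr F) (x : 𝓞 F) : l.valuation F x = 1 ↔ x ∉ l.asIdeal := by
  rw [← vlt, not_lt, (vle l x).ge_iff_eq]

lemma vlt_nat (l : Pr F) (N : ℕ) : l.valuation F N < 1 ↔ (N : 𝓞 F) ∈ l.asIdeal := by
  simpa using vlt l N

lemma vle_nat (l : Pr F) (N : ℕ) : l.valuation F N ≤ 1 := by simpa using vle l N

lemma veq_nat (l : Pr F) (N : ℕ) : l.valuation F N = 1 ↔ (N : 𝓞 F) ∉ l.asIdeal := by
  simpa using veq l N

lemma exists_int (l : Pr F) {x : F} (h : l.valuation F x ≤ 1) :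
    ∃ c : 𝓞 F, l.valuation F (c - x) < 1 := exists_valuation_sub_lt_of_integer l h 1

/-- the residue symbol -/
noncomputable def chi (b : F) (l : Pr F) : ℤˣ :=
  if ∃ t, l.valuation F (b - t ^ 2) < 1 then 1 else -1

lemma chi_sq (l : Pr F) {b : F} {c : 𝓞 F} (h : l.valuation F (c - b) < 1) :
    (∃ t, l.valuation F (b - t ^ 2) < 1) ↔ IsSquare (Ideal.Quotient.mk l.asIdeal c) := by
  constructor
  · rintro ⟨t, ht⟩
    have h1 : l.valuation F (c - t ^ 2) < 1 := by
      simpa using (l.valuation F).map_add_lt h ht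
    have h2 : l.valuation F t ≤ 1 := by
      have := (l.valuation F).map_sub_le (vle l c) h1.le
      rw [sub_sub_cancel, map_pow] at this
      exact (pow_le_one_iff two_ne_zero).1 this
    obtain ⟨s, hs⟩ := exists_int l h2
    refine ⟨Ideal.Quotient.mk _ s, ?_⟩
    rw [← map_mul, Ideal.Quotient.eq, ← vlt]
    have : ((c - s * s : 𝓞 F) : F) = (c - t ^ 2) - (s - t) * (s + t) := by push_cast; ring
    rw [this]
    refine (l.valuation F).map_sub_lt h1 ?_
    rw [map_mul]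
    exact mul_lt_one_of_lt_of_le hs ((l.valuation F).map_add_le (vle l s) h2)
  · rintro ⟨s, hs⟩
    obtain ⟨s, rfl⟩ := Ideal.Quotient.mk_surjective s
    rw [← map_mul, Ideal.Quotient.eq, ← vlt] at hs
    refine ⟨s, ?_⟩
    have : b - (s : F) ^ 2 = ((c - s * s : 𝓞 F) : F) - (c - b) := by push_cast; ring
    rw [this]
    exact (l.valuation F).map_sub_lt hs h

lemma not_mem_of_close (l : Pr F) {b : F} {c : 𝓞 F} (hb : l.valuation F b = 1)
    (h : l.valuation F (c - b) < 1) : c ∉ l.asIdeal :=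
  (veq l c).1 (((l.valuation F).map_eq_of_sub_lt (by rwa [hb])).trans hb)

lemma close_mul (l : Pr F) {b c : F} {x y : 𝓞 F} (hb : l.valuation F b ≤ 1)
    (hx : l.valuation F (x - b) < 1) (hy : l.valuation F (y - c) < 1) :
    l.valuation F ((x * y : 𝓞 F) - b * c) < 1 := by
  have : ((x * y : 𝓞 F) : F) - b * c = (x - b) * y + (y - c) * b := by push_cast; ring
  rw [this]
  refine (l.valuation F).map_add_lt ?_ ?_ <;> rw [map_mul]
  exacts [mul_lt_one_of_lt_of_le hx (vle l y), mul_lt_one_of_lt_of_le hy hb]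

lemma chi_mul (l : Pr F) {b c : F} (hb : l.valuation F b = 1) (hc : l.valuation F c = 1) :
    chi (b * c) l = chi b l * chi c l := by
  obtain ⟨x, hx⟩ := exists_int l hb.le
  obtain ⟨y, hy⟩ := exists_int l hc.le
  have := MP_a009d0_nt.W.frob_finite l.isMaximal
  have := l.isMaximal
  let _ := Ideal.Quotient.field l.asIdeal
  have := Fintype.ofFinite (𝓞 F ⧸ l.asIdeal)
  have key : ∀ (b : F) (x : 𝓞 F), l.valuation F b = 1 → l.valuation F (x - b) < 1 →
      (chi b l : ℤ) = quadraticChar _ (Ideal.Quotient.mk l.asIdeal x) := fun b x hb hx => by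
    have x0 : Ideal.Quotient.mk l.asIdeal x ≠ 0 := fun h =>
      not_mem_of_close l hb hx (Ideal.Quotient.eq_zero_iff_mem.1 h)
    rw [chi, chi_sq l hx]
    split_ifs with h
    · exact ((quadraticChar_one_iff_isSquare x0).2 h).symm
    · exact (quadraticChar_neg_one_iff_not_isSquare.2 h).symm
  ext
  rw [Units.val_mul, key b x hb hx, key c y hc hy,
    key _ _ (by simp [hb, hc]) (close_mul l hb.le hx hy), map_mul, map_mul]

/-- product of signs with the valuations of `a` as exponents -/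
noncomputable def Jp (e : Pr F → ℤˣ) (a : F) : ℤˣ := ∏ᶠ l : Pr F, e l ^ log (l.valuation F a)

lemma Jp_fin (e : Pr F → ℤˣ) {a : F} (ha : a ≠ 0) :
    Function.HasFiniteMulSupport fun l : Pr F => e l ^ log (l.valuation F a) := by
  refine ((Support.finite (𝓞 F) a).union (Support.finite (𝓞 F) a⁻¹)).subset fun l hl => ?_
  have h : l.valuation F a ≠ 1 := fun h => hl (by simp [h])
  rcases h.lt_or_gt with h | h
  · right
    change 1 < l.valuation F a⁻¹
    rw [map_inv₀]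
    exact (one_lt_inv₀ ((Valuation.pos_iff _).2 ha)).2 h
  · exact Or.inl h

lemma Jp_mul (e : Pr F → ℤˣ) {a c : F} (ha : a ≠ 0) (hc : c ≠ 0) :
    Jp e (a * c) = Jp e a * Jp e c := by
  rw [Jp, Jp, Jp, ← finprod_mul_distrib (Jp_fin e ha) (Jp_fin e hc)]
  refine finprod_congr fun l => ?_
  rw [map_mul, log_mul ((Valuation.ne_zero_iff _).2 ha) ((Valuation.ne_zero_iff _).2 hc), zpow_add]

lemma Jp_mul' (e e' : Pr F → ℤˣ) {a : F} (ha : a ≠ 0) : Jp (e * e') a = Jp e a * Jp e' a := by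
  rw [Jp, Jp, Jp, ← finprod_mul_distrib (Jp_fin e ha) (Jp_fin e' ha)]
  exact finprod_congr fun l => mul_zpow _ _ _

lemma Jp_congr {e e' : Pr F → ℤˣ} {a : F} (h : ∀ l, l.valuation F a ≠ 1 → e l = e' l) :
    Jp e a = Jp e' a := finprod_congr fun l => by
  by_cases h1 : l.valuation F a = 1
  · simp [h1]
  · rw [h l h1]

lemma Jp_one {e : Pr F → ℤˣ} {a : F} (h : ∀ l, e l = 1 ∨ Even (log (l.valuation F a))) :
    Jp e a = 1 := finprod_eq_one_of_forall_eq_one fun l => by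
  rcases h l with h | ⟨k, h⟩
  · rw [h, one_zpow]
  · rw [h, zpow_add, Int.units_mul_self]

lemma Jp_sq (e : Pr F → ℤˣ) {a c : F} (ha : a ≠ 0) (hc : c ≠ 0) : Jp e (c ^ 2 * a) = Jp e a := by
  rw [Jp_mul e (pow_ne_zero 2 hc) ha, sq, Jp_mul e hc hc, Int.units_mul_self, one_mul]

lemma Jp_fac {R : Type*} [CommRing R] (φ : Ideal (𝓞 F) →* R) (e : Pr F → ℤˣ) {a : 𝓞 F}
    (ha : a ≠ 0) (h : ∀ l : Pr F, a ∈ l.asIdeal → φ l.asIdeal = ((e l : ℤ) : R)) :
    φ (Ideal.span {a}) = ((Jp e a : ℤ) : R) := by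
  have h0 : Ideal.span {a} ≠ 0 := by simpa using ha
  let g : ℤˣ →* R := (Int.castRingHom R).toMonoidHom.comp (Units.coeHom ℤ)
  change _ = g _
  rw [Jp, g.map_finprod (Jp_fin e (by exact_mod_cast ha)),
    ← Ideal.finprod_heightOneSpectrum_factorization h0, φ.map_finprod (Ideal.hasFiniteMulSupport h0)]
  refine finprod_congr fun l => ?_
  have e1 : l.valuation F a = l.intValuation a := valuation_of_algebraMap l a
  by_cases hl : a ∈ l.asIdeal
  · rw [e1, intValuation_if_neg l ha, log_exp, maxPowDividing, map_pow, h l hl, zpow_neg,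
      Int.units_inv_eq_self, zpow_natCast, map_pow]
    rfl
  · have e2 := (veq l a).2 hl
    rw [e2, log_one, zpow_zero, map_one]
    rw [e1, intValuation_if_neg l ha, ← exp_zero, exp_inj, neg_eq_zero, Nat.cast_eq_zero] at e2
    rw [maxPowDividing, e2, pow_zero, map_one]

/-- weak approximation at the primes of `N`, large at the real places -/
lemma approx {N : ℕ} (hN : N ≠ 0) (t : Pr F → F) (γ : Pr F → ℤᵐ⁰) (hγ : ∀ l, γ l ≠ 0)
    (B : (F →+* ℝ) → ℝ) : ∃ X : F,
      (∀ l : Pr F, (N : 𝓞 F) ∈ l.asIdeal → l.valuation F (X - t l) ≤ γ l) ∧ ∀ σ, B σ < σ X := by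
  obtain ⟨⟨d, hd⟩, h1⟩ :=
    IsLocalization.exist_integer_multiples (nonZeroDivisors (𝓞 F)) (prs F N) t
  have d0 : (d : F) ≠ 0 := by exact_mod_cast nonZeroDivisors.ne_zero hd
  have dv : ∀ l : Pr F, 0 < l.valuation F d := fun l => (Valuation.pos_iff _).2 d0
  choose x hx using h1
  choose e he using fun l : Pr F => exists_exp_neg_natCast_lt (mul_ne_zero (hγ l) (dv l).ne')
  obtain ⟨y, hy⟩ := IsDedekindDomain.exists_forall_sub_mem_ideal (s := prs F N)
    (fun l => l.asIdeal) e (fun l _ => l.prime) (fun i _ j _ h h' => h (HeightOneSpectrum.ext h'))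
    fun l => x l.1 l.2
  obtain ⟨n, hn⟩ := exists_nat_gt (∑ σ : F →+* ℝ, |B σ - σ (y / d)|)
  refine ⟨y / d + (n * N ^ (prs F N).sup e : ℕ), fun l hl => ?_, fun σ => ?_⟩
  · have hm := (mem_prs hN).2 hl
    have h2 : ∀ z : 𝓞 F, z ∈ l.asIdeal ^ e l → l.valuation F z ≤ γ l * l.valuation F d :=
      fun z hz => ((valuation_of_algebraMap (K := F) l z).trans_le
        ((intValuation_le_pow_iff_mem l z _).2 hz)).trans (he l).le
    have h3 : (x l hm : F) = d * t l := (hx l hm).trans (Algebra.smul_def _ _)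
    have : y / d + ((n * N ^ (prs F N).sup e : ℕ) : F) - t l =
        ((y - x l hm + d * n * N ^ (prs F N).sup e : 𝓞 F) : F) / d := by
      rw [eq_div_iff d0, sub_mul, add_mul, div_mul_cancel₀ _ d0]
      simp only [map_add, map_sub, map_mul, map_pow, map_natCast, h3, Nat.cast_mul, Nat.cast_pow]
      ring
    rw [this, map_div₀, div_le_iff₀ (dv l)]
    exact h2 _ (add_mem (hy l hm) (Ideal.mul_mem_left _ _
      (Ideal.pow_le_pow_right (le_sup hm) (Ideal.pow_mem_pow hl _))))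
  · have h1 := single_le_sum (f := fun σ : F →+* ℝ => |B σ - σ (y / d)|)
      (fun _ _ => abs_nonneg _) (mem_univ σ)
    have h2 := le_abs_self (B σ - σ (y / d))
    have h3 : (n : ℝ) ≤ (n * N ^ (prs F N).sup e : ℕ) := by
      exact_mod_cast Nat.le_mul_of_pos_right n (by positivity)
    rw [map_add, map_natCast]
    linarith

lemma dvd_of_val {N : ℕ} (hN : N ≠ 0) {x : 𝓞 F}
    (h : ∀ l : Pr F, (N : 𝓞 F) ∈ l.asIdeal → l.valuation F x ≤ l.valuation F N) :
    (N : 𝓞 F) ∣ x := by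
  have N0 : (N : F) ≠ 0 := by exact_mod_cast hN
  obtain ⟨z, hz⟩ := mem_integers_of_valuation_le_one (R := 𝓞 F) F ((x : F) / N) fun l => by
    rw [map_div₀, div_le_one₀ ((Valuation.pos_iff _).2 N0)]
    by_cases hl : (N : 𝓞 F) ∈ l.asIdeal
    · exact h l hl
    · rw [(veq_nat l N).2 hl]; exact vle l x
  refine ⟨z, RingOfIntegers.ext ?_⟩
  simp only [map_mul, map_natCast, hz]
  rw [mul_div_cancel₀ _ N0]

/-- a denominator that is `1` modulo `N` -/
lemma clear {N : ℕ} (hN : N ≠ 0) {a : F}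
    (h : ∀ l : Pr F, (N : 𝓞 F) ∈ l.asIdeal → l.valuation F a ≤ 1) :
    ∃ n c : 𝓞 F, n ≠ 0 ∧ (N : 𝓞 F) ∣ n - 1 ∧ (c : F) = n * a := by
  have N0 : (N : 𝓞 F) ≠ 0 := by exact_mod_cast hN
  let D : Ideal (𝓞 F) := (1 : Submodule (𝓞 F) F).comap (LinearMap.toSpanSingleton (𝓞 F) F a)
  have hD : ∀ x, x ∈ D ↔ ∃ c : 𝓞 F, (c : F) = x * a := fun x => by
    simp only [D, Submodule.mem_comap, LinearMap.toSpanSingleton_apply, Submodule.mem_one,
      Algebra.smul_def]
  have top : D ⊔ Ideal.span {(N : 𝓞 F)} = ⊤ := by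
    by_contra hne
    obtain ⟨m, hm, hle⟩ := Ideal.exists_le_maximal _ hne
    have Nm : (N : 𝓞 F) ∈ m := hle (Ideal.mem_sup_right (Ideal.mem_span_singleton_self _))
    let l : Pr F := ⟨m, hm.isPrime, fun h0 => N0 (by simpa [h0] using Nm)⟩
    obtain ⟨n, d, hd⟩ := exists_primeCompl_mul_eq_of_integer l a (h l Nm)
    exact d.2 (hle (Ideal.mem_sup_left ((hD d).2 ⟨n, by rw [mul_comm]; exact hd.symm⟩)))
  obtain ⟨x, hx, y, hy, hxy⟩ := Submodule.mem_sup.1 ((Ideal.eq_top_iff_one _).1 top)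
  have h1 : (N : 𝓞 F) ∣ x - 1 := by
    rw [← hxy, sub_add_cancel_left, dvd_neg]; exact Ideal.mem_span_singleton.1 hy
  rcases eq_or_ne x 0 with rfl | x0
  · obtain ⟨⟨d, hd⟩, c, hc⟩ := IsLocalization.exists_integer_multiple (nonZeroDivisors (𝓞 F)) a
    refine ⟨N * d, N * c, mul_ne_zero N0 (nonZeroDivisors.ne_zero hd),
      by simpa [sub_eq_add_neg] using (dvd_mul_right _ d).add h1, ?_⟩
    simp only [map_mul, hc, Algebra.smul_def, mul_assoc]
  · obtain ⟨c, hc⟩ := (hD x).1 hx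
    exact ⟨x, c, x0, h1, hc⟩

end Pool.Agent.Lib.MP_7cad78_nt.R2
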