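import Pool.Agent.Lib.MP_7cad78_nt.R2.RhoA

/-! The local symbols, defined through global approximations. -/

namespace Pool.Agent.Lib.MP_7cad78_nt.R2

open NumberField IsDedekindDomain WithZero Finset NF HeightOneSpectrum
open scoped Classical

section cg

variable {K : Type*} [Field K] {v : Valuation K ℤᵐ⁰} {γ : ℤᵐ⁰} {x y : K}

lemma cg_val (hγ : γ < 1) (h : v (x - 1) ≤ γ) : v x = 1 :=
  (v.map_eq_of_sub_lt (by rw [map_one]; exact h.trans_lt hγ)).trans (map_one v)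

lemma cg_mul (hγ : γ < 1) (h : v (x - 1) ≤ γ) (h' : v (y - 1) ≤ γ) : v (x * y - 1) ≤ γ := by
  rw [show x * y - 1 = x * (y - 1) + (x - 1) by ring]
  exact v.map_add_le (by rwa [map_mul, cg_val hγ h, one_mul]) h

lemma cg_div (hγ : γ < 1) (h : v (x - 1) ≤ γ) (h' : v (y - 1) ≤ γ) : v (x / y - 1) ≤ γ := by
  have e := cg_val hγ h'
  have y0 : y ≠ 0 := by rintro rfl; simp at e
  rw [show x / y - 1 = ((x - 1) - (y - 1)) / y by field_simp; ring, map_div₀, e, div_one]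
  exact v.map_sub_le h h'

lemma sq_cont (v : Valuation K ℤᵐ⁰) (u : K) (hγ : γ ≠ 0) :
    ∃ δ : ℤᵐ⁰, δ ≠ 0 ∧ ∀ U, v (U - u) ≤ δ → v (U ^ 2 - u ^ 2) ≤ γ := by
  have h0 : (0 : ℤᵐ⁰) < max 1 (v u) := lt_max_of_lt_left zero_lt_one
  refine ⟨min 1 (γ / max 1 (v u)), (lt_min zero_lt_one (div_pos (zero_lt_iff.2 hγ) h0)).ne',
    fun U h => ?_⟩
  rw [show U ^ 2 - u ^ 2 = (U - u) * (U - u + u + u) by ring, map_mul]
  refine (mul_le_mul' (h.trans (min_le_right _ _)) (v.map_add_le (v.map_add_le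
    ((h.trans (min_le_left _ _)).trans (le_max_left _ _)) (le_max_right _ _))
    (le_max_right _ _))).trans_eq (div_mul_cancel₀ _ h0.ne')

lemma newton [CharZero K] (hγ : γ ≠ 0) (h : v (x - 1) < v 4) :
    ∃ t, t ≠ 0 ∧ v (x / t ^ 2 - 1) ≤ γ := by
  have v2 : v 2 ≤ 1 := (ofNat_mem v.integer 2 :)
  have e4 : v 4 = v 2 * v 2 := by rw [← map_mul]; norm_num
  have p2 : 0 < v 2 := (Valuation.pos_iff v).2 two_ne_zero
  have p4 : 0 < v 4 := (Valuation.pos_iff v).2 (by norm_num)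
  have key : ∀ n : ℕ, ∃ t, t ≠ 0 ∧ v (x / t ^ 2 - 1) < v 4 ∧
      v (x / t ^ 2 - 1) ≤ exp (-(n : ℤ)) := by
    intro n
    induction n with
    | zero =>
      refine ⟨1, one_ne_zero, by simpa using h, ?_⟩
      simpa using h.le.trans (e4.trans_le (mul_le_one' v2 v2))
    | succ n ih =>
      obtain ⟨t, t0, h1, h2⟩ := ih
      set ε := x / t ^ 2 - 1 with hε
      have h3 : v (1 + ε / 2) = 1 := v.map_one_add_of_lt (by
        rw [map_div₀, div_lt_one₀ p2]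
        exact h1.trans_le (e4.trans_le (mul_le_of_le_one_left' v2)))
      have h4 : 1 + ε / 2 ≠ 0 := fun h => by simp [h] at h3
      have h5 : x / (t * (1 + ε / 2)) ^ 2 - 1 = -(ε * (ε / 4) / (1 + ε / 2) ^ 2) := by
        rw [mul_pow, ← div_div, ← sub_add_cancel (x / t ^ 2) 1, ← hε, div_sub_one (pow_ne_zero 2 h4),
          ← neg_div]
        congr 1; ring
      have h6 : v (ε / 4) < 1 := by rwa [map_div₀, div_lt_one₀ p4]
      refine ⟨t * (1 + ε / 2), mul_ne_zero t0 h4, ?_⟩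
      rw [h5, v.map_neg, map_div₀, map_pow, h3, one_pow, div_one, map_mul]
      refine ⟨(mul_le_of_le_one_right' h6.le).trans_lt h1, ?_⟩
      rw [Nat.cast_succ, neg_add, exp_add]
      refine mul_le_mul' h2 ?_
      rcases eq_or_ne (v (ε / 4)) 0 with h | h
      · rw [h]; exact zero_le
      · rw [← exp_log h, ← exp_zero, exp_lt_exp] at h6
        rw [← exp_log h, exp_le_exp]; omega
  obtain ⟨n, hn⟩ := exists_exp_neg_natCast_lt hγ
  obtain ⟨t, t0, -, ht⟩ := key n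
  exact ⟨t, t0, ht.trans hn.le⟩

end cg

variable {F : Type} [Field F] [NumberField F]

/-- `a` is totally positive and close to `t l` at the primes `l` of `N` -/
structure Ap (N : ℕ) (t : Pr F → F) (a : F) : Prop where
  cg : ∀ l : Pr F, (N : 𝓞 F) ∈ l.asIdeal → l.valuation F (a / t l - 1) ≤ l.valuation F N
  pos : ∀ σ : F →+* ℝ, 0 < σ a
  ne : a ≠ 0

variable {N M : ℕ} {t s : Pr F → F} {a b c : F} {p : Pr F}

lemma Ap.mul (h : Ap N t a) (h' : Ap N s c) : Ap N (t * s) (a * c) where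
  cg l hl := by
    rw [Pi.mul_apply, mul_div_mul_comm]
    exact cg_mul ((vlt_nat l N).2 hl) (h.cg l hl) (h'.cg l hl)
  pos σ := by rw [map_mul]; exact mul_pos (h.pos σ) (h'.pos σ)
  ne := mul_ne_zero h.ne h'.ne

lemma Ap.div (h : Ap N t a) (h' : Ap N s c) : Ap N (t / s) (a / c) where
  cg l hl := by
    rw [Pi.div_apply, div_div_div_comm]
    exact cg_div ((vlt_nat l N).2 hl) (h.cg l hl) (h'.cg l hl)
  pos σ := by rw [map_div₀]; exact div_pos (h.pos σ) (h'.pos σ)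
  ne := div_ne_zero h.ne h'.ne

lemma Ap.mono (h : Ap (N * M) t a) : Ap N t a where
  cg l hl := (h.cg l (by rw [Nat.cast_mul]; exact Ideal.mul_mem_right _ _ hl)).trans (by
    rw [Nat.cast_mul, map_mul]; exact mul_le_of_le_one_right' (vle_nat l M))
  pos := h.pos
  ne := h.ne

lemma Ap.congr (h : Ap N t a) (e : ∀ l : Pr F, (N : 𝓞 F) ∈ l.asIdeal → t l = s l) : Ap N s a :=
  ⟨fun l hl => e l hl ▸ h.cg l hl, h.pos, h.ne⟩

lemma Ap.val (h : Ap N t a) {l : Pr F} (hl : (N : 𝓞 F) ∈ l.asIdeal) :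
    l.valuation F a = l.valuation F (t l) := by
  have := cg_val ((vlt_nat l N).2 hl) (h.cg l hl)
  rw [map_div₀] at this
  exact eq_of_div_eq_one this

lemma ap_one (N : ℕ) : Ap N (1 : Pr F → F) 1 := ⟨fun l _ => by simp, fun σ => by simp, one_ne_zero⟩

lemma Ap.prod {ι : Type*} (S : Finset ι) {t : ι → Pr F → F} {a : ι → F}
    (h : ∀ i ∈ S, Ap N (t i) (a i)) : Ap N (∏ i ∈ S, t i) (∏ i ∈ S, a i) := by
  induction S using Finset.induction_on with
  | empty => simpa using ap_one N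
  | insert i S hi ih =>
    rw [prod_insert hi, prod_insert hi]
    exact (h i (mem_insert_self _ _)).mul (ih fun j hj => h j (mem_insert_of_mem hj))

lemma ap_of (hp : (N : 𝓞 F) ∈ p.asIdeal) (ht : ∀ l, t l ≠ 0) (pos : ∀ σ : F →+* ℝ, 0 < σ a)
    (h : ∀ l : Pr F, (N : 𝓞 F) ∈ l.asIdeal → l.valuation F (a - t l) ≤ l.valuation F (t l * N)) :
    Ap N t a := by
  have : ∀ l : Pr F, (N : 𝓞 F) ∈ l.asIdeal → l.valuation F (a / t l - 1) ≤ l.valuation F N :=
    fun l hl => by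
      rw [div_sub_one (ht l), map_div₀, div_le_iff₀ ((Valuation.pos_iff _).2 (ht l)), mul_comm,
        ← map_mul]
      exact h l hl
  refine ⟨this, pos, ?_⟩
  rintro rfl
  simpa using cg_val ((vlt_nat p N).2 hp) (this p hp)

lemma sing_ne (ha : a ≠ 0) (l : Pr F) : (Pi.mulSingle p a : Pr F → F) l ≠ 0 := by
  rw [Pi.mulSingle_apply]; split_ifs <;> simp [ha]

lemma exists_ap (hN : N ≠ 0) (hp : (N : 𝓞 F) ∈ p.asIdeal) (ht : ∀ l, t l ≠ 0) : ∃ a, Ap N t a := by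
  obtain ⟨X, h1, h2⟩ := approx hN t (fun l => l.valuation F (t l * N))
    (fun l => (Valuation.ne_zero_iff _).2 (mul_ne_zero (ht l) (by exact_mod_cast hN))) 0
  exact ⟨X, ap_of hp ht h2 h1⟩

lemma Ap.int (hN : N ≠ 0) (h : Ap N t a)
    (ht : ∀ l : Pr F, (N : 𝓞 F) ∈ l.asIdeal → l.valuation F (t l) ≤ 1) :
    ∃ c : 𝓞 F, Ap N t c ∧ ∀ e, Jp e (c : F) = Jp e a := by
  obtain ⟨n, c, n0, ⟨k, hk⟩, hc⟩ := clear hN (a := a) fun l hl => (h.val hl).trans_le (ht l hl)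
  have n0' : (n : F) ≠ 0 := by exact_mod_cast n0
  have e : ((n * c : 𝓞 F) : F) = n ^ 2 * a := by simp only [map_mul, hc]; ring
  refine ⟨n * c, ?_, fun _ => by rw [e, Jp_sq _ h.ne n0']⟩
  have : Ap N (1 : Pr F → F) (n ^ 2) := ⟨fun l hl => ?_, fun σ => ?_, pow_ne_zero 2 n0'⟩
  · simpa only [e, one_mul] using this.mul h
  · have h1 : l.valuation F (n - 1) ≤ l.valuation F N := by
      have := congrArg (algebraMap _ F) hk
      simp only [map_sub, map_mul, map_one, map_natCast] at this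
      rw [this, map_mul]
      exact mul_le_of_le_one_right' (vle l k)
    rw [Pi.one_apply, div_one, sq]
    exact cg_mul ((vlt_nat l N).2 hl) h1 h1
  · rw [map_pow]; exact sq_pos_of_ne_zero ((map_ne_zero σ).2 n0')

/-- the residue symbol away from `N` -/
noncomputable def cut (N : ℕ) (b : F) (l : Pr F) : ℤˣ :=
  if (N : 𝓞 F) ∈ l.asIdeal then 1 else chi b l

/-- `N` is a modulus for the residue symbol of `b` -/
structure Good (b : F) (N : ℕ) : Prop where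
  ne : N ≠ 0
  unit : ∀ l : Pr F, (N : 𝓞 F) ∉ l.asIdeal → l.valuation F 2 = 1 ∧ l.valuation F b = 1
  one : ∀ a, Ap N 1 a → Jp (cut N b) a = 1

lemma mem_mul {l : Pr F} : ((N * M : ℕ) : 𝓞 F) ∈ l.asIdeal ↔
    (N : 𝓞 F) ∈ l.asIdeal ∨ (M : 𝓞 F) ∈ l.asIdeal := by
  rw [Nat.cast_mul]; exact l.isPrime.mul_mem_iff_mem_or_mem

lemma cut_mul (h : Ap (N * M) t a)
    (ht : ∀ l : Pr F, (N : 𝓞 F) ∉ l.asIdeal → t l = 1) : Jp (cut (N * M) b) a = Jp (cut N b) a :=
  Jp_congr fun l hl => by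
    by_cases h1 : (N : 𝓞 F) ∈ l.asIdeal
    · rw [cut, cut, if_pos h1, if_pos (mem_mul.2 (.inl h1))]
    · rw [cut, cut, if_neg h1, if_neg fun h2 => hl (by rw [h.val h2, ht l h1, map_one])]

lemma Good.mul (h : Good b N) (hM : M ≠ 0) : Good b (N * M) where
  ne := mul_ne_zero h.ne hM
  unit l hl := h.unit l fun h1 => hl (mem_mul.2 (.inl h1))
  one a ha := by rw [cut_mul ha fun _ _ => rfl, h.one a ha.mono]

lemma Good.mul' (h : Good b N) (hM : M ≠ 0) : Good b (M * N) := mul_comm N M ▸ h.mul hM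

lemma cop_of_not_mem {l : Pr F} (h : (N : 𝓞 F) ∉ l.asIdeal) : (nm l).Coprime N := by
  have := l.isMaximal
  obtain ⟨q, f, -, hl, hq, e⟩ := Ideal.exists_prime_and_absNorm_eq_pow l.asIdeal
  rw [nm, e]
  refine Nat.Coprime.pow_left _ (hq.coprime_iff_not_dvd.2 ?_)
  rintro ⟨k, rfl⟩
  exact h (mem_mul.2 (.inl hl))

lemma exists_good (hb : b ≠ 0) : ∃ N, Good b N := by
  obtain ⟨k, k0, x, hx, -⟩ :=
    NumberField.exists_nat_ne_zero_exists_integer_mul_eq_and_absNorm_span_eq_pow b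
  have k0' : (k : F) ≠ 0 := by exact_mod_cast k0
  have e : ((k * x : 𝓞 F) : F) = k ^ 2 * b := by
    simp only [map_mul, map_natCast, sq, mul_assoc, hx]
  have d0 : (k * x : 𝓞 F) ≠ 0 := fun h => by
    rw [h] at e; exact mul_ne_zero (pow_ne_zero 2 k0') hb (by simpa using e.symm)
  obtain ⟨q, φ, h1, ⟨m, hm⟩, h2⟩ := qart _ d0 k k0.bot_lt
  have q0 : q ≠ 0 := by have := h1.two; omega
  have key : ∀ l : Pr F, (q : 𝓞 F) ∉ l.asIdeal → l.valuation F 2 = 1 ∧ l.valuation F b = 1 ∧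
      φ l.asIdeal = ((chi b l : ℤ) : ℂ) := fun l hl => by
    obtain ⟨a1, a2, a3⟩ := h2 _ l.isMaximal (cop_of_not_mem hl)
    have vk : l.valuation F k = 1 := (veq_nat l k).2 fun h => hl (hm ▸ mem_mul.2 (.inl h))
    have vb : l.valuation F b = 1 := by
      have := (veq l _).2 a2
      rwa [e, map_mul, map_pow, vk, one_pow, one_mul] at this
    refine ⟨by simpa using (veq_nat l 2).2 (by exact_mod_cast a1), vb, ?_⟩
    have c1 : chi ((k : F) ^ 2) l = 1 := if_pos ⟨k, by simp⟩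
    rw [a3, ← one_mul (chi b l), ← c1, ← chi_mul l (by simp [vk]) vb, ← e, chi,
      chi_sq l (c := k * x) (by simp)]
    split_ifs <;> simp
  refine ⟨q, q0, fun l hl => ⟨(key l hl).1, (key l hl).2.1⟩, fun a ha => ?_⟩
  obtain ⟨c, hc, ec⟩ := ha.int q0 fun _ _ => by simp
  have h3 := h1.one c (dvd_of_val q0 fun l hl => by simpa using hc.cg l hl) hc.pos
  rw [Jp_fac φ (cut q b) (by exact_mod_cast hc.ne) fun l hl => ?_, ec] at h3
  · exact Units.val_eq_one.1 (by exact_mod_cast h3)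
  · have : (q : 𝓞 F) ∉ l.asIdeal := fun h => (veq l c).1 (by simpa using hc.val h) hl
    rw [cut, if_neg this, (key l this).2.2]

lemma nm_mem (p : Pr F) : (nm p : 𝓞 F) ∈ p.asIdeal := Ideal.absNorm_mem _

lemma nm_ne (p : Pr F) : nm p ≠ 0 := mt Ideal.absNorm_eq_zero_iff.1 p.ne_bot

lemma exists_good' (hb : b ≠ 0) (p : Pr F) (hM : M ≠ 0) :
    ∃ N, Good b (M * N) ∧ ((M * N : ℕ) : 𝓞 F) ∈ p.asIdeal := by
  obtain ⟨N, h⟩ := exists_good hb
  exact ⟨_, (h.mul (nm_ne p)).mul' hM, mem_mul.2 (.inr (mem_mul.2 (.inr (nm_mem p))))⟩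

lemma Jp_ap (h : Good b N) (hp : (N : 𝓞 F) ∈ p.asIdeal) (ha : a ≠ 0) {x y : F}
    (hx : Ap N (Pi.mulSingle p a) x) (hy : Ap (N * M) (Pi.mulSingle p a) y) :
    Jp (cut (N * M) b) y = Jp (cut N b) x := by
  rw [cut_mul hy fun l hl => Pi.mulSingle_eq_of_ne (by rintro rfl; exact hl hp) _,
    ← div_mul_cancel₀ y hx.ne, Jp_mul _ (div_ne_zero hy.ne hx.ne) hx.ne,
    h.one _ ((hy.mono.div hx).congr fun l _ => div_self (sing_ne ha l)), one_mul]

/-- the local symbol -/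
noncomputable def sy (p : Pr F) (a b : F) : ℤˣ :=
  if h : ∃ ε : ℤˣ, ∀ (N : ℕ) (x : F), Good b N → (N : 𝓞 F) ∈ p.asIdeal →
    Ap N (Pi.mulSingle p a) x → Jp (cut N b) x = ε then h.choose else 1

lemma sy_eq (h : Good b N) (hp : (N : 𝓞 F) ∈ p.asIdeal) (ha : a ≠ 0) {x : F}
    (hx : Ap N (Pi.mulSingle p a) x) : sy p a b = Jp (cut N b) x := by
  have : ∃ ε : ℤˣ, ∀ (N : ℕ) (x : F), Good b N → (N : 𝓞 F) ∈ p.asIdeal →
      Ap N (Pi.mulSingle p a) x → Jp (cut N b) x = ε := ⟨Jp (cut N b) x, fun M y h' hp' hy => by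
    obtain ⟨z, hz⟩ := exists_ap (mul_ne_zero h.ne h'.ne) (mem_mul.2 (.inl hp)) (sing_ne (p := p) ha)
    rw [← Jp_ap h hp ha hx hz, ← Jp_ap (M := N) h' hp' ha hy (mul_comm N M ▸ hz), mul_comm]⟩
  rw [sy, dif_pos this, this.choose_spec N x h hp hx]

end Pool.Agent.Lib.MP_7cad78_nt.R2
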